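import Pool.Agent.Lib.MP_021685_ag.UT.TDefs

/-!
# Tate classes on powers of abelian varieties over number fields: the definitions for the field `ℚ_ℓ`
-/

set_option autoImplicit false

namespace Pool.Agent.Lib.MP_021685_ag.NF

open Module TensorProduct

variable {K : Type*} [Field K] {ℓ : ℕ} [Fact ℓ.Prime] {V : Type*} [AddCommGroup V] [Module ℚ_[ℓ] V]

/-- The alternating form `ω` of degree `2 i` on `V ^ n` is a Tate class (of degree `i`): it is fixed by an open subgroup of the Galois group, as an element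
of `H^(2i)(A ^ n, ℚ_ℓ)(i)`. -/
def IsTateClass (ρ : Field.absoluteGaloisGroup K →* Module.End ℚ_[ℓ] V) (n i : ℕ) (ω : (Fin n → V) [⋀^Fin (2 * i)]→ₗ[ℚ_[ℓ]] ℚ_[ℓ]) : Prop :=
  ∃ U : Subgroup (Field.absoluteGaloisGroup K), IsOpen (U : Set (Field.absoluteGaloisGroup K)) ∧
    ∀ γ ∈ U, ∀ x : Fin (2 * i) → Fin n → V, ω (fun s a => ρ γ (x s a)) = chi K ℓ γ ^ i * ω x

/-- The form `η` is a `ℚ_ℓ`-linear combination of products of `i` Tate classes of degree one. By the theorem of Faltings on classes of degree one, it is then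
a `ℚ_ℓ`-linear combination of products of classes of divisors. -/
def IsGeneratedByDivisors (ρ : Field.absoluteGaloisGroup K →* Module.End ℚ_[ℓ] V) (n i : ℕ) (η : (Fin n → V) [⋀^Fin (2 * i)]→ₗ[ℚ_[ℓ]] ℚ_[ℓ]) : Prop :=
  η ∈ Submodule.span ℚ_[ℓ] {η' | ∃ ω : Fin i → (Fin n → V) [⋀^Fin (2 * 1)]→ₗ[ℚ_[ℓ]] ℚ_[ℓ],
    (∀ j, IsTateClass ρ n 1 (ω j)) ∧ η' = wedge ω}

variable {E : Type*} [CommRing E]

/-- The eigenspace of the character `f` of `E` in `ℂ_ℓ ⊗ V`. -/
noncomputable def eig (ι : E →+* Module.End ℚ_[ℓ] V) (f : E →+* ℂ_[ℓ]) : Submodule ℂ_[ℓ] (ℂ_[ℓ] ⊗[ℚ_[ℓ]] V) where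
  carrier := {w | ∀ e, (ι e).baseChange ℂ_[ℓ] w = f e • w}
  add_mem' := fun {a b} ha hb e => by rw [map_add, ha e, hb e, smul_add]
  zero_mem' := fun e => by rw [map_zero, smul_zero]
  smul_mem' := fun c v hv e => by rw [map_smul, hv e, smul_comm]

/-- An endomorphism of `V` which commutes with `E` preserves the eigenspaces. -/
theorem eig_stable {ι : E →+* Module.End ℚ_[ℓ] V} {f : E →+* ℂ_[ℓ]} {g : Module.End ℚ_[ℓ] V} (hg : ∀ e, g * ι e = ι e * g) :
    ∀ w ∈ eig ι f, g.baseChange ℂ_[ℓ] w ∈ eig ι f := by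
  intro w hw e
  have h1 : (ι e).baseChange ℂ_[ℓ] (g.baseChange ℂ_[ℓ] w) = g.baseChange ℂ_[ℓ] ((ι e).baseChange ℂ_[ℓ] w) := by
    have h2 := congrArg (fun z : Module.End ℚ_[ℓ] V => z.baseChange ℂ_[ℓ] w) (hg e)
    simp only [Module.End.mul_eq_comp, LinearMap.baseChange_comp, LinearMap.comp_apply] at h2
    exact h2.symm
  rw [h1, hw e, map_smul]

/-- The determinant of an endomorphism `g` of `V` on the eigenspace of the character `f` in `ℂ_ℓ ⊗ V` (`1` if `g` does not preserve it). -/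
noncomputable def eigDet (ι : E →+* Module.End ℚ_[ℓ] V) (f : E →+* ℂ_[ℓ]) (g : Module.End ℚ_[ℓ] V) : ℂ_[ℓ] :=
  open Classical in
  if h : ∀ w ∈ eig ι f, g.baseChange ℂ_[ℓ] w ∈ eig ι f then LinearMap.det ((g.baseChange ℂ_[ℓ]).restrict h) else 1

/-- The `ℂ_ℓ`-linear extension of a linear form on `V`. -/
noncomputable def ext (φ : V →ₗ[ℚ_[ℓ]] ℚ_[ℓ]) : ℂ_[ℓ] ⊗[ℚ_[ℓ]] V →ₗ[ℂ_[ℓ]] ℂ_[ℓ] :=
  LinearMap.liftBaseChange ℂ_[ℓ] ((Algebra.linearMap ℚ_[ℓ] ℂ_[ℓ]) ∘ₗ φ)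

/-- The multilinear form `f` on `V` has weight `i`: the class of `f` in `(V^⊗m)^*(i)` is fixed by an open subgroup of the Galois group. -/
def HasWeight (ρ : Field.absoluteGaloisGroup K →* Module.End ℚ_[ℓ] V) {m : ℕ} (f : MultilinearMap ℚ_[ℓ] (fun _ : Fin m => V) ℚ_[ℓ]) (i : ℕ) : Prop :=
  ∃ U : Subgroup (Field.absoluteGaloisGroup K), IsOpen (U : Set (Field.absoluteGaloisGroup K)) ∧
    ∀ γ ∈ U, ∀ x : Fin m → V, f (fun s => ρ γ (x s)) = chi K ℓ γ ^ i * f x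

/-- The multiplicities of the characters of `E` in the range of `P` are given by `r`: the multiplicity of `j ∘ φ` is `r φ`. -/
def HasMult (ι : E →+* Module.End ℚ_[ℓ] V) (r : (E →+* AlgebraicClosure K) → ℕ) (j : AlgebraicClosure K →+* ℂ_[ℓ])
    (P : Module.End ℂ_[ℓ] (ℂ_[ℓ] ⊗[ℚ_[ℓ]] V)) : Prop :=
  ∀ φ : E →+* AlgebraicClosure K, finrank ℂ_[ℓ] (LinearMap.range P ⊓ eig ι (j.comp φ) : Submodule ℂ_[ℓ] (ℂ_[ℓ] ⊗[ℚ_[ℓ]] V)) = r φ

/-- The multilinear forms of weight `i` on `V` have Hodge-Tate weight `i`: the derivation given by `P` multiplies them by `i`. -/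
def HasHodgeTateWeights (ρ : Field.absoluteGaloisGroup K →* Module.End ℚ_[ℓ] V) (P : Module.End ℂ_[ℓ] (ℂ_[ℓ] ⊗[ℚ_[ℓ]] V)) : Prop :=
  ∀ (m i : ℕ) (f : MultilinearMap ℚ_[ℓ] (fun _ : Fin m => V) ℚ_[ℓ]), HasWeight ρ f i →
    ∀ x : Fin m → V, ∑ s, ext (f.toLinearMap x s) (P (1 ⊗ₜ[ℚ_[ℓ]] x s)) = (i : ℂ_[ℓ]) * algebraMap ℚ_[ℓ] ℂ_[ℓ] (f x)

/-- `P` is the Hodge-Tate projector for the embedding `j`: the projector of `ℂ_ℓ ⊗ V` onto the part `ℂ_ℓ ⊗ Lie(A) (1)` of Hodge-Tate weight one. The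
multiplicities of the characters of `E` in this part are given by `r`, and forms of weight `i` have Hodge-Tate weight `i`. -/
structure IsHodgeTateProj (ρ : Field.absoluteGaloisGroup K →* Module.End ℚ_[ℓ] V) (ι : E →+* Module.End ℚ_[ℓ] V) (r : (E →+* AlgebraicClosure K) → ℕ)
    (j : AlgebraicClosure K →+* ℂ_[ℓ]) (P : Module.End ℂ_[ℓ] (ℂ_[ℓ] ⊗[ℚ_[ℓ]] V)) : Prop where
  idem : P * P = P
  mult : HasMult ι r j P
  weight : HasHodgeTateWeights ρ P

/-- The action of the Galois group is continuous. -/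
def IsContinuous (ρ : Field.absoluteGaloisGroup K →* Module.End ℚ_[ℓ] V) : Prop :=
  ∀ (v : V) (φ : V →ₗ[ℚ_[ℓ]] ℚ_[ℓ]), Continuous fun γ => φ (ρ γ v)

/-- The Weil pairing: a nondegenerate alternating form with values in `ℚ_ℓ(1)`, for which `ros` is the adjoint. -/
def HasWeilPairing (ρ : Field.absoluteGaloisGroup K →* Module.End ℚ_[ℓ] V) (ι : E →+* Module.End ℚ_[ℓ] V) (ros : E →+* E) : Prop :=
  ∃ ψ : V →ₗ[ℚ_[ℓ]] V →ₗ[ℚ_[ℓ]] ℚ_[ℓ], (∀ x, ψ x x = 0) ∧ (∀ x, (∀ y, ψ x y = 0) → x = 0) ∧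
    (∀ γ x y, ψ (ρ γ x) (ρ γ y) = chi K ℓ γ * ψ x y) ∧ ∀ e x y, ψ (ι e x) y = ψ x (ι (ros e) y)

/-- The representation `V` is semisimple, over every finite extension of `K`. -/
def IsSemisimple (ρ : Field.absoluteGaloisGroup K →* Module.End ℚ_[ℓ] V) : Prop :=
  ∀ U : Subgroup (Field.absoluteGaloisGroup K), IsOpen (U : Set (Field.absoluteGaloisGroup K)) →
    ∀ W : Submodule ℚ_[ℓ] V, (∀ γ ∈ U, ∀ w ∈ W, ρ γ w ∈ W) → ∃ W' : Submodule ℚ_[ℓ] V, IsCompl W W' ∧ ∀ γ ∈ U, ∀ w ∈ W', ρ γ w ∈ W'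

/-- Over every finite extension of `K` the Galois equivariant endomorphisms of `V` are the `ℚ_ℓ`-linear combinations of elements of `E`. -/
def HasTateEndomorphisms (ρ : Field.absoluteGaloisGroup K →* Module.End ℚ_[ℓ] V) (ι : E →+* Module.End ℚ_[ℓ] V) : Prop :=
  ∀ U : Subgroup (Field.absoluteGaloisGroup K), IsOpen (U : Set (Field.absoluteGaloisGroup K)) →
    ∀ T : Module.End ℚ_[ℓ] V, (∀ γ ∈ U, T * ρ γ = ρ γ * T) → T ∈ Submodule.span ℚ_[ℓ] (Set.range ι)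

/-- Two determinants of eigenspaces which have the same Hodge-Tate weights at all embeddings agree on an open subgroup. -/
def HasAlgebraicDeterminants (ρ : Field.absoluteGaloisGroup K →* Module.End ℚ_[ℓ] V) (ι : E →+* Module.End ℚ_[ℓ] V)
    (r : (E →+* AlgebraicClosure K) → ℕ) : Prop :=
  ∀ f g : E →+* ℂ_[ℓ], (∀ (j : AlgebraicClosure K →+* ℂ_[ℓ]) (φ θ : E →+* AlgebraicClosure K), j.comp φ = f → j.comp θ = g → r φ = r θ) →
    ∃ U : Subgroup (Field.absoluteGaloisGroup K), IsOpen (U : Set (Field.absoluteGaloisGroup K)) ∧ ∀ γ ∈ U, eigDet ι f (ρ γ) = eigDet ι g (ρ γ)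

/-- The properties of the Tate module `V` of an abelian variety over the number field `K` whose endomorphism algebra `E` (over an algebraic closure) is commutative,
with all endomorphisms defined over `K`: `ros` is the Rosati involution of `E`, and `r φ` the multiplicity of the character `φ` of `E` in the
tangent space. -/
structure IsTateModule (ρ : Field.absoluteGaloisGroup K →* Module.End ℚ_[ℓ] V) (ι : E →+* Module.End ℚ_[ℓ] V) (ros : E →+* E)
    (r : (E →+* AlgebraicClosure K) → ℕ) : Prop where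
  /-- The action is continuous. -/
  cont : IsContinuous ρ
  /-- `E` acts faithfully. -/
  inj : Function.Injective ι
  /-- The endomorphisms are defined over `K`. -/
  comm : ∀ γ e, ρ γ * ι e = ι e * ρ γ
  /-- The Weil pairing. -/
  pairing : HasWeilPairing ρ ι ros
  /-- Theorem of Faltings: semisimplicity. -/
  semisimple : IsSemisimple ρ
  /-- Theorem of Faltings: endomorphisms. -/
  faltings : HasTateEndomorphisms ρ ι
  /-- Theorem of Tate and Raynaud: the Hodge-Tate decomposition, for every embedding of the algebraic closure of `K` in `ℂ_ℓ`. -/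
  hodgeTate : ∀ j : AlgebraicClosure K →+* ℂ_[ℓ], ∃ P, IsHodgeTateProj ρ ι r j P
  /-- Theorem of Tate and Serre on abelian Hodge-Tate representations. -/
  det : HasAlgebraicDeterminants ρ ι r

/-- The properties in `T.IsTateModule` are those in `IsTateModule`. -/
theorem conv_tate {ρ : Field.absoluteGaloisGroup K →* Module.End ℚ_[ℓ] V} {ι : E →+* Module.End ℚ_[ℓ] V} {ros : E →+* E}
    {r : (E →+* AlgebraicClosure K) → ℕ} (h : T.IsTateModule ℂ_[ℓ] (chi K ℓ) ρ ι ros r) : IsTateModule ρ ι ros r where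
  cont := h.cont
  inj := h.inj
  comm := h.comm
  pairing := h.pairing
  semisimple := h.semisimple
  faltings := h.faltings
  hodgeTate := fun j => by
    obtain ⟨P, hP⟩ := h.hodgeTate j
    exact ⟨P, hP.idem, hP.mult, hP.weight⟩
  det := h.det

end Pool.Agent.Lib.MP_021685_ag.NF
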