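import Pool.Agent.Lib.MP_021685_ag.UT.BData

/-!
# The eigenprojections attached to the characters of `E`
-/

set_option autoImplicit false
set_option linter.unusedSectionVars false

namespace Pool.Agent.Lib.MP_021685_ag.UT

open Matrix Function Module Pool.Agent.Lib.MP_802513_ag Pool.Agent.Lib.MP_802513_ag.W

variable {K E : Type*} [Fintype K] [DecidableEq K] [CommRing E] [Algebra ℚ E] [Module.Finite ℚ E] [IsReduced E] (M : E →+* Matrix K K ℂ)

theorem M_ratsmul (q : ℚ) (x : E) : M (q • x) = (q : ℂ) • M x := by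
  rw [map_rat_smul M q x]
  ext k l
  rw [Matrix.smul_apply, Matrix.smul_apply, Rat.smul_def, smul_eq_mul]

theorem M_eq (x : E) : M x = ∑ f : E →+* ℂ, f x • pfm M f := by
  conv_lhs => rw [W.expand_eps x, map_sum]
  simp only [M_ratsmul, W.trace_eq_sum, pfm, Finset.smul_sum, Finset.sum_smul]
  rw [Finset.sum_comm]
  refine Finset.sum_congr rfl fun f _ => Finset.sum_congr rfl fun i _ => ?_
  rw [map_mul, smul_smul]

theorem M_mul_pfm (x : E) (f : E →+* ℂ) : M x * pfm M f = f x • pfm M f := by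
  have h1 : M x * pfm M f = ∑ i, ∑ l, (f (W.eps' E i) * (W.tr E (x * W.eps E i * W.eps' E l) : ℂ)) • M (W.eps E l) := by
    unfold pfm
    rw [Finset.mul_sum]
    refine Finset.sum_congr rfl fun i _ => ?_
    rw [mul_smul_comm, ← map_mul]
    conv_lhs => rw [W.expand_eps (x * W.eps E i)]
    rw [map_sum, Finset.smul_sum]
    refine Finset.sum_congr rfl fun l _ => ?_
    rw [M_ratsmul, smul_smul]
  rw [h1, Finset.sum_comm]
  unfold pfm
  rw [Finset.smul_sum]
  refine Finset.sum_congr rfl fun l _ => ?_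
  rw [← Finset.sum_smul, smul_smul]
  congr 1
  rw [← map_mul]
  conv_rhs => rw [W.expand_eps' (x * W.eps' E l)]
  rw [map_sum]
  refine Finset.sum_congr rfl fun i _ => ?_
  rw [W.map_ratsmul, mul_comm]
  congr 3
  ring

open Classical in
theorem pfm_mul_pfm (g f : E →+* ℂ) : pfm M g * pfm M f = if g = f then pfm M f else 0 := by
  have h1 : pfm M g * pfm M f = (∑ i, f (W.eps E i) * g (W.eps' E i)) • pfm M f := by
    conv_lhs => rw [pfm]
    rw [Finset.sum_mul, Finset.sum_smul]
    refine Finset.sum_congr rfl fun i _ => ?_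
    rw [smul_mul_assoc, M_mul_pfm, smul_smul, mul_comm]
  rw [h1, W.orth_eps]
  split_ifs <;> simp

theorem sum_pfm : ∑ f : E →+* ℂ, pfm M f = 1 := by
  rw [← map_one M, M_eq M 1]
  simp

theorem pfm_of_eig {f : E →+* ℂ} {u : K → ℂ} (hu : ∀ e, M e *ᵥ u = f e • u) : pfm M f *ᵥ u = u := by
  classical
  unfold pfm
  rw [Matrix.sum_mulVec]
  have h1 : ∀ i, (f (W.eps' E i) • M (W.eps E i)) *ᵥ u = (f (W.eps E i) * f (W.eps' E i)) • u := by
    intro i
    rw [smul_mulVec, hu, smul_smul, mul_comm]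
  simp only [h1]
  rw [← Finset.sum_smul, W.orth_eps, if_pos rfl, one_smul]

theorem comm_pfm {X : Matrix K K ℂ} (hX : ∀ e, X * M e = M e * X) (f : E →+* ℂ) : X * pfm M f = pfm M f * X := by
  unfold pfm
  rw [Finset.mul_sum, Finset.sum_mul]
  refine Finset.sum_congr rfl fun i _ => ?_
  rw [mul_smul_comm, smul_mul_assoc, hX]

theorem pfm_transpose {G : Matrix K K ℂ} {ros : E →+* E} (hros : ∀ e, ros (ros e) = e) (h : ∀ e, (M e)ᵀ * G = G * M (ros e)) (f : E →+* ℂ) :
    (pfm M f)ᵀ * G = G * pfm M (f.comp ros) := by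
  classical
  have hcc : ∀ g : E →+* ℂ, (g.comp ros).comp ros = g := by
    intro g
    ext e
    rw [RingHom.comp_apply, RingHom.comp_apply, hros]
  have h1 : (pfm M f)ᵀ * G = G * ∑ i, f (W.eps' E i) • M (ros (W.eps E i)) := by
    unfold pfm
    rw [Matrix.transpose_sum, Finset.sum_mul, Finset.mul_sum]
    refine Finset.sum_congr rfl fun i _ => ?_
    rw [Matrix.transpose_smul, smul_mul_assoc, h, mul_smul_comm]
  rw [h1]
  congr 1
  simp only [M_eq M (ros _), Finset.smul_sum, smul_smul]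
  rw [Finset.sum_comm]
  have h2 : ∀ g : E →+* ℂ, ∑ i, (f (W.eps' E i) * g (ros (W.eps E i))) • pfm M g =
      (if f = g.comp ros then 1 else 0 : ℂ) • pfm M g := by
    intro g
    rw [← W.orth_eps, Finset.sum_smul]
    refine Finset.sum_congr rfl fun i _ => ?_
    rw [RingHom.comp_apply, mul_comm]
  rw [Finset.sum_congr rfl fun g _ => h2 g, Finset.sum_eq_single (f.comp ros)]
  · rw [hcc, if_pos rfl, one_smul]
  · intro g _ hg
    rw [if_neg, zero_smul]
    intro h
    exact hg (by rw [h, hcc])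
  · simp

/-- If the character `f` does not occur, neither does a Galois conjugate; stated with an idempotent. -/
theorem exists_pfm_ne {M : E →+* Matrix K K ℂ} (hM : Function.Injective M) (f : E →+* ℂ) : ∃ σ : ℂ ≃+* ℂ, pfm M ((σ : ℂ →+* ℂ).comp f) ≠ 0 := by
  obtain ⟨x, hx1, hx2⟩ := W.exists_idem f
  by_contra hcon
  push Not at hcon
  have h1 : M x = 0 := by
    rw [M_eq M x]
    refine Finset.sum_eq_zero fun g _ => ?_
    by_cases hg : g x = 0
    · rw [hg, zero_smul]
    · obtain ⟨σ, hσ⟩ := hx2 g hg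
      have h2 : (σ : ℂ →+* ℂ).comp f = g := by ext e; exact hσ e
      rw [← h2, hcon σ, smul_zero]
  have h3 : x = 0 := hM (by rw [h1, map_zero])
  rw [h3, map_zero] at hx1
  exact zero_ne_one hx1

end Pool.Agent.Lib.MP_021685_ag.UT
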