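import Pool.Agent.Lib.MP_021685_ag.UT.S15

/-!
# The main theorem on the abstract data
-/

set_option autoImplicit false
set_option linter.unusedSectionVars false

namespace Pool.Agent.Lib.MP_021685_ag.UT

open Matrix Function Module Pool.Agent.Lib.MP_802513_ag Pool.Agent.Lib.MP_802513_ag.W

variable {K E ι : Type*} [Fintype K] [DecidableEq K] [CommRing E] [Algebra ℚ E] [Module.Finite ℚ E] [IsReduced E]

/-- Invariant tensors are combinations of products of pairings. -/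
theorem TData.main (D : TData K E ι) (s₀ : ι) {A : Type*} [Fintype A] [DecidableEq A] {i : ℕ} (T : (Fin (2 * i) → A × K) → ℂ)
    (halt : ∀ s t, s ≠ t → ∀ j, T (j ∘ Equiv.swap s t) = - T j)
    (hJ : ∀ s j, DX (D.J s) T j = 0) (hNT : ∀ X ∈ D.N, ∀ j, DX X T j = 0)
    (hC : ∀ f, ∃ s, Nat.Coprime (D.r s f) (D.r s (D.cj f)))
    (hS : ∀ f g, g ≠ f → g ≠ D.cj f → (∃ s, D.r s f ≠ 0 ∧ D.r s (D.cj f) ≠ 0) →
      (∀ s, (D.r s f ≠ 0 ∧ D.r s (D.cj f) ≠ 0) ∨ (D.r s g ≠ 0 ∧ D.r s (D.cj g) ≠ 0) → D.r s f = D.r s g) → ∀ s, D.r s f = D.r s g)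
    (hN : ∀ a : (E →+* ℂ) → ℤ, (∀ f, a (D.cj f) = - a f) → (∀ s, ∑ f, a f * ((D.r s f : ℤ) - D.r s (D.cj f)) = 0) →
      (∀ f, |a f| ≤ Fintype.card A) → ∑ f, ((D.r s₀ f + D.r s₀ (D.cj f) : ℕ) : ℤ) * |a f| ≤ 4 * i → a = 0) :
    ∃ c : Equiv.Perm (Fin (2 * i)) × (Fin i → W.EI E × A × A) → ℂ, ∀ j, T j = ∑ x, c x * ∏ t, prT ((D.Mc (W.eps E (x.2 t).1))ᵀ * D.Gc)
      (x.2 t).2.1 (x.2 t).2.2 (j (x.1 (NF.pairIdx t 0))) (j (x.1 (NF.pairIdx t 1))) := by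
  classical
  have hT : D.Kills T := ⟨hJ, hNT⟩
  have hr : ∀ s f, ((toS hT s).P Complex.I * (toS hT s).pf f).trace = D.r s f := fun s f => D.hr s f
  have hAm : ∀ f, (toS hT s₀).AmH f := fun f => (toS hT s₀).amH_of_pn (pn_all hT s₀ hC hS f)
  obtain ⟨I, iI, iD, Y, v, hbas⟩ := (toS hT s₀).exists_bas (fun f hf => by
    obtain ⟨s, hs⟩ := hC f
    have hf' : D.cj f = f := hf.symm
    rw [hf', Nat.coprime_self] at hs
    have h1 : ((toS hT s₀).pf f).trace = ((D.r s f + D.r s (D.cj f) : ℕ) : ℂ) := (toS hT s).trace_add (hr s) f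
    rw [h1, hf', hs]
    norm_num)
  have hd : ∀ f, ((toS hT s₀).pf f).trace = ((D.r s₀ f + D.r s₀ (D.cj f) : ℕ) : ℂ) := by
    intro f
    exact (toS hT s₀).trace_add (hr s₀) f
  have hinv := (toS hT s₀).inv_of_charges (T := T) (fun X hX j => hX.2.2 j) hbas hAm hd halt (by
    intro j' hj a ha hodd habs hsum
    refine hN a hodd (fun s => ?_) habs ?_
    · exact (toS hT s).charge_rel (T := T) (fun X hX j => hX.2.2 j) (toS hT s).J_mem ⟨hbas.cj_φ, hbas.hv, hbas.hB, hbas.hsum⟩ hAm (hr s) hj a ha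
    · rw [Fintype.card_fin] at hsum
      refine hsum.trans (le_of_eq ?_)
      push_cast
      ring)
  exact (toS hT s₀).final_eps hbas T hinv

end Pool.Agent.Lib.MP_021685_ag.UT
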