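import Pool.Agent.Lib.MP_021685_ag.UT.CopDefs

set_option autoImplicit false

namespace Pool.Agent.Lib.MP_021685_ag.Cop

open Module LinearMap

section Abstract

variable {L : Type*} [LieRing L] [LieAlgebra ℂ L] [FiniteDimensional ℂ L]

/-- A Cartan subalgebra containing a given element with semisimple adjoint action. -/
theorem exists_cartan (y' : L) (hss : ∀ x : L, ⁅y', ⁅y', x⁆⁆ = 0 → ⁅y', x⁆ = 0) :
    ∃ H : LieSubalgebra ℂ L, H.IsCartanSubalgebra ∧ y' ∈ H := by
  let L₀ : LieSubalgebra ℂ L :=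
    { carrier := {x | ⁅y', x⁆ = 0}
      zero_mem' := by simp
      add_mem' := by
        intro a b ha hb
        have ha' : ⁅y', a⁆ = 0 := ha
        have hb' : ⁅y', b⁆ = 0 := hb
        change ⁅y', a + b⁆ = 0
        rw [lie_add, ha', hb', add_zero]
      smul_mem' := by
        intro c x hx
        have hx' : ⁅y', x⁆ = 0 := hx
        change ⁅y', c • x⁆ = 0
        rw [lie_smul, hx', smul_zero]
      lie_mem' := by
        intro a b ha hb
        have ha' : ⁅y', a⁆ = 0 := ha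
        have hb' : ⁅y', b⁆ = 0 := hb
        change ⁅y', ⁅a, b⁆⁆ = 0
        rw [leibniz_lie, ha', hb', zero_lie, lie_zero, add_zero] }
  have hmem : ∀ x : L, x ∈ L₀ ↔ ⁅y', x⁆ = 0 := fun x => Iff.rfl
  obtain ⟨x, hx⟩ := LieAlgebra.exists_isCartanSubalgebra_engel ℂ L₀
  set H₀ := LieSubalgebra.engel ℂ x with hH₀
  have hy0 : y' ∈ L₀ := by rw [hmem, lie_self]
  have hyH₀ : (⟨y', hy0⟩ : L₀) ∈ H₀ := by
    have : (⟨y', hy0⟩ : L₀) ∈ H₀.normalizer := by
      rw [LieSubalgebra.mem_normalizer_iff]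
      intro z hz
      have : ⁅(⟨y', hy0⟩ : L₀), z⁆ = 0 := by
        ext
        exact (hmem z.1).1 z.2
      rw [this]
      exact H₀.zero_mem
    rwa [hx.self_normalizing] at this
  refine ⟨H₀.map L₀.incl, ⟨?_, ?_⟩, ?_⟩
  · have e := LieSubalgebra.equivMapOfInjective (f := L₀.incl) H₀ Subtype.val_injective
    exact (e.nilpotent_iff_equiv_nilpotent).1 hx.nilpotent
  · apply le_antisymm _ (LieSubalgebra.le_normalizer _)
    intro z hz
    rw [LieSubalgebra.mem_normalizer_iff] at hz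
    have h1 : ⁅z, y'⁆ ∈ H₀.map L₀.incl := hz y' ⟨⟨y', hy0⟩, hyH₀, rfl⟩
    have h2 : ⁅z, y'⁆ ∈ L₀ := by
      obtain ⟨w, hw, hw'⟩ := h1
      rw [← hw']
      exact w.2
    have h3 : z ∈ L₀ := by
      rw [hmem] at h2 ⊢
      apply hss
      have h5 : ⁅y', z⁆ = -⁅z, y'⁆ := (lie_skew _ _).symm
      rw [h5, lie_neg, h2, neg_zero]
    have h4 : (⟨z, h3⟩ : L₀) ∈ H₀.normalizer := by
      rw [LieSubalgebra.mem_normalizer_iff]
      intro w hw
      obtain ⟨v, hv, hv'⟩ := hz w.1 ⟨w, hw, rfl⟩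
      have : ⁅(⟨z, h3⟩ : L₀), w⁆ = v := by
        ext
        exact hv'.symm
      rw [this]
      exact hv
    rw [hx.self_normalizing] at h4
    exact ⟨⟨z, h3⟩, h4, rfl⟩
  · exact ⟨⟨y', hy0⟩, hyH₀, rfl⟩

open LieAlgebra LieModule LieAlgebra.IsKilling

theorem exists_roots [LieAlgebra.IsKilling ℂ L] (y' : L) (H : LieSubalgebra ℂ L) [H.IsCartanSubalgebra]
    (hy : y' ∈ H) :
    ∃ (n : ℕ) (e f : Fin n → L), (∀ a, IsSl2Triple ⁅e a, f a⁆ (e a) (f a)) ∧ (∀ a, ⁅y', e a⁆ = e a) ∧
      (∀ a, ⁅y', f a⁆ = - f a) ∧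
      (∃ c : Fin n → Fin n → ℂ, ∀ a b, ⁅⁅e a, f a⁆, e b⁆ = c a b • e b ∧ ⁅⁅e a, f a⁆, f b⁆ = - c a b • f b) ∧
      (∀ a b, ⁅e a, f a⁆ = ⁅e b, f b⁆ → a = b) ∧
      (∀ a b, a ≠ b → ∃ (t : L) (s s' : ℂ), s ≠ s' ∧ ⁅t, e a⁆ = s • e a ∧ ⁅t, f b⁆ = - s' • f b) ∧
      (∀ x : L, ⁅y', x⁆ = x → x ∈ Submodule.span ℂ (Set.range e)) ∧
      (∀ x : L, ⁅y', x⁆ = - x → x ∈ Submodule.span ℂ (Set.range f)) := by
  classical
  set yH : H := ⟨y', hy⟩ with hyH
  let Φ := {α : Weight ℂ H L // α yH = 1}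
  have : Finite (Weight ℂ H L) := inferInstance
  have : Fintype Φ := Fintype.ofFinite _
  let ε := Fintype.equivFin Φ
  have hnz : ∀ a : Φ, (a.1).IsNonZero := by
    intro a h0
    have h1 := a.2
    rw [h0.eq] at h1
    simp at h1
  choose h e f ht he hf using fun a : Φ => exists_isSl2Triple_of_weight_isNonZero (hnz a)
  have hh : ∀ a, ⁅e a, f a⁆ = ((coroot a.1 : H) : L) := fun a => by
    rw [(ht a).lie_e_f, (ht a).h_eq_coroot (hnz a) (he a) (hf a)]
  have hle : ∀ (t : H) (a : Φ), ⁅(t : L), e a⁆ = a.1 t • e a := fun t a => by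
    rw [← LieSubalgebra.coe_bracket_of_module, lie_eq_smul_of_mem_rootSpace (he a)]
  have hlf : ∀ (t : H) (a : Φ), ⁅(t : L), f a⁆ = - a.1 t • f a := fun t a => by
    rw [← LieSubalgebra.coe_bracket_of_module, lie_eq_smul_of_mem_rootSpace (hf a)]
    simp
  -- the spans
  have key : ∀ (μ : ℂ) (S : Submodule ℂ L), (∀ χ : Weight ℂ H L, χ yH = μ → (rootSpace H χ).toSubmodule ≤ S) →
      (∀ u ∈ S, ⁅y', u⁆ = μ • u) → ∀ x : L, ⁅y', x⁆ = μ • x → x ∈ S := by
    intro μ S h1 h2 x hx
    have htop : (⊤ : Submodule ℂ L) ≤ S ⊔ ⨆ (ν : ℂ) (_ : ν ≠ μ), (ad ℂ L y').eigenspace ν := by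
      have h3 := iSup_genWeightSpace_eq_top' ℂ H L
      have h4 := congrArg LieSubmodule.toSubmodule h3
      rw [LieSubmodule.iSup_toSubmodule, LieSubmodule.top_toSubmodule] at h4
      rw [← h4]
      apply iSup_le
      intro χ
      by_cases hχ : χ yH = μ
      · exact (h1 χ hχ).trans le_sup_left
      · refine le_trans ?_ le_sup_right
        refine le_trans ?_ (le_iSup₂ (f := fun (ν : ℂ) (_ : ν ≠ μ) => (ad ℂ L y').eigenspace ν) (χ yH) hχ)
        intro u hu
        rw [Module.End.mem_eigenspace_iff]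
        have := lie_eq_smul_of_mem_rootSpace (H := H) (α := χ) (x := u) hu yH
        rw [LieSubalgebra.coe_bracket_of_module] at this
        exact this
    obtain ⟨u, hu, v, hv, huv⟩ := Submodule.mem_sup.1 (htop (Submodule.mem_top (x := x)))
    have hdis := (Module.End.eigenspaces_iSupIndep (ad ℂ L y')) μ
    have hv' : v ∈ (ad ℂ L y').eigenspace μ := by
      rw [Module.End.mem_eigenspace_iff]
      have : v = x - u := by rw [← huv]; abel
      rw [this, ad_apply, lie_sub, hx, h2 u hu, smul_sub]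
    have hv0 : v = 0 := by
      have := hdis.le_bot ⟨hv', hv⟩
      simpa using this
    rw [← huv, hv0, add_zero]
    exact hu
  refine ⟨Fintype.card Φ, fun i => e (ε.symm i), fun i => f (ε.symm i), ?_, ?_, ?_, ?_, ?_, ?_, ?_, ?_⟩
  · intro i
    have := ht (ε.symm i)
    rwa [← this.lie_e_f] at this
  · intro i
    rw [show y' = (yH : L) from rfl, hle, (ε.symm i).2, one_smul]
  · intro i
    rw [show y' = (yH : L) from rfl, hlf, (ε.symm i).2, neg_smul, one_smul]
  · refine ⟨fun a b => (ε.symm b).1 (coroot (ε.symm a).1), fun a b => ?_⟩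
    rw [hh, hle, hlf]
    exact ⟨rfl, rfl⟩
  · intro a b hab
    rw [hh, hh] at hab
    have h1 : coroot (ε.symm a).1 = coroot (ε.symm b).1 := Subtype.ext hab
    rw [coroot_eq_iff] at h1
    exact ε.symm.injective (Subtype.ext h1)
  · intro a b hab
    have h1 : (ε.symm a).1 ≠ (ε.symm b).1 := fun h => hab (ε.symm.injective (Subtype.ext h))
    obtain ⟨t, ht⟩ : ∃ t : H, (ε.symm a).1 t ≠ (ε.symm b).1 t := by
      by_contra hcon
      push Not at hcon
      exact h1 (DFunLike.ext _ _ hcon)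
    exact ⟨t, _, _, ht, hle _ _, hlf _ _⟩
  · intro x hx
    refine key 1 _ ?_ ?_ x (by rw [hx, one_smul])
    · intro χ hχ u hu
      obtain ⟨c, hc⟩ := (finrank_eq_one_iff_of_nonzero' (⟨e ⟨χ, hχ⟩, he ⟨χ, hχ⟩⟩ : rootSpace H χ)
        (by simpa using (ht ⟨χ, hχ⟩).e_ne_zero)).mp (finrank_rootSpace_eq_one χ (hnz ⟨χ, hχ⟩)) ⟨u, hu⟩
      have hc' : c • e ⟨χ, hχ⟩ = u := congrArg Subtype.val hc
      rw [← hc']
      apply Submodule.smul_mem
      apply Submodule.subset_span
      exact ⟨ε ⟨χ, hχ⟩, by simp⟩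
    · intro u hu
      induction hu using Submodule.span_induction with
      | mem z hz =>
        obtain ⟨i, rfl⟩ := hz
        dsimp only
        rw [show y' = (yH : L) from rfl, hle, (ε.symm i).2]
      | zero => simp
      | add a b _ _ ha hb => rw [lie_add, ha, hb, smul_add]
      | smul c a _ ha => rw [lie_smul, ha, smul_comm]
  · intro x hx
    refine key (-1) _ ?_ ?_ x (by rw [hx, neg_smul, one_smul])
    · intro χ hχ u hu
      have hχ' : (-χ) yH = 1 := by
        rw [Weight.coe_neg, Pi.neg_apply, hχ, neg_neg]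
      have hf' : f ⟨-χ, hχ'⟩ ∈ rootSpace H χ := by
        have := hf ⟨-χ, hχ'⟩
        simpa using this
      have hnzχ : χ.IsNonZero := by
        have := hnz ⟨-χ, hχ'⟩
        simpa using this
      obtain ⟨c, hc⟩ := (finrank_eq_one_iff_of_nonzero' (⟨f ⟨-χ, hχ'⟩, hf'⟩ : rootSpace H χ)
        (by simpa using (ht ⟨-χ, hχ'⟩).f_ne_zero)).mp (finrank_rootSpace_eq_one χ hnzχ) ⟨u, hu⟩
      have hc' : c • f ⟨-χ, hχ'⟩ = u := congrArg Subtype.val hc
      rw [← hc']
      apply Submodule.smul_mem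
      apply Submodule.subset_span
      exact ⟨ε ⟨-χ, hχ'⟩, by simp⟩
    · intro u hu
      induction hu using Submodule.span_induction with
      | mem z hz =>
        obtain ⟨i, rfl⟩ := hz
        dsimp only
        rw [show y' = (yH : L) from rfl, hlf, (ε.symm i).2]
      | zero => simp
      | add a b _ _ ha hb => rw [lie_add, ha, hb, smul_add]
      | smul c a _ ha => rw [lie_smul, ha, smul_comm]

end Abstract

attribute [local instance 100] LieRing.ofAssociativeRing

variable {W : Type*} [AddCommGroup W] [Module ℂ W] [FiniteDimensional ℂ W]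

variable {g : Submodule ℂ (Module.End ℂ W)} {y : Module.End ℂ W}

/-- Job COP1. The structure theory of semisimple Lie algebras gives the root vectors.

Proof. (`Φ : Type` while `W : Type*`: reindex the roots by `Fin n` at the end.) `W ≠ 0` since `y ≠ 0`. Let `n = finrank W` and `y' = y - (tr y / n) • 1`. Let `L` be the Lie subalgebra `{X ∈ g | tr X = 0}` of `Module.End ℂ W`
(`1 ∈ g`, so `g = ℂ 1 + L`); `W` is an irreducible faithful `L`-module with traces zero, so `L` has trivial radical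
(`LieAlgebra.hasTrivialRadical_of_isIrreducible_of_isFaithful`) and is Killing (`LieAlgebra.HasTrivialRadical.instIsKilling`, Mathlib.Algebra.Lie.CartanCriterion).
`ad y'` is diagonalisable on `L` with eigenvalues `1, 0, -1` (the components `y X (1-y)`, `y X y + (1-y) X (1-y)`, `(1-y) X y` of `X ∈ g` are in `g`, because `[y, X] = X₁ - X₋₁` and
`[y, [y, X]] = X₁ + X₋₁`). Let `L₀` be the centraliser of `y'` in `L`; it has a Cartan subalgebra `H₀` (`LieAlgebra.exists_isCartanSubalgebra_engel`), it contains `y'` (central in `L₀`, and `H₀` is self-normalising in `L₀`);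
`H = H₀`, as a subalgebra of `L`, is nilpotent and self-normalising: if `[X, H] ⊆ H` then `[X, y'] ∈ H ⊆ L₀`, so `ad(y')² X = 0`, so `ad(y') X = 0`, `X ∈ L₀`, `X ∈ H₀`. So `H` is a Cartan
subalgebra of `L` with `y' ∈ H`. `Φ` = the roots `α` (`LieModule.Weight ℂ H L`) with `α(y') = 1`; `e α`, `f α` from `LieAlgebra.IsKilling.exists_isSl2Triple_of_weight_isNonZero`
with `⁅e, f⁆ = h`, `e ∈ rootSpace α`, `f ∈ rootSpace (-α)` (Mathlib: `IsSl2Triple h e f`); `h` is the coroot (`IsSl2Triple.h_eq_coroot`), so `hinj` follows from `coroot_eq_iff`. `[y', e] = e` gives `y e - e y = e`, hence `y e = e`, `e y = 0`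
(`y e y = y (y e - e) = 0`, `e y = y e y + ... `: multiply `y e - e y = e` on the left and on the right by `y`). `[[e, f], e] = 2 e` gives `e f e = e` as `e e = e (1 - y) y e = 0`. `wt`: `lie_eq_smul_of_mem_rootSpace`.
`orth`: for `α ≠ β` choose `t ∈ H` with `α(t) ≠ β(t)`; `α(t) tr(e f) = tr([t, e] f) = - tr(e [t, f]) = β(t) tr(e f)`. `span_e`: decompose `X ∈ g₁` (it has trace 0: `tr X = tr (y X) = tr (X y) = 0`) along `L = ⨁ rootSpace`
(`LieModule.iSup_genWeightSpace_eq_top`, the root spaces are `ad y'`-eigenspaces with eigenvalue `α(y')`), only the roots with `α(y') = 1` contribute, and the root spaces are one dimensional (`finrank_rootSpace_eq_one`). -/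
theorem exists_rd (h : Dat g y) (h0 : y ≠ 0) : ∃ (Φ : Type) (_ : Fintype Φ) (_ : DecidableEq Φ) (e f : Φ → Module.End ℂ W), RD g y e f := by
  classical
  have hW : Nontrivial W := by
    by_contra hcon
    rw [not_nontrivial_iff_subsingleton] at hcon
    exact h0 (Subsingleton.elim _ _)
  have hn : (finrank ℂ W : ℂ) ≠ 0 := by
    exact_mod_cast (finrank_pos (R := ℂ) (M := W)).ne'
  let L : LieSubalgebra ℂ (Module.End ℂ W) :=
    { carrier := {X | X ∈ g ∧ LinearMap.trace ℂ W X = 0}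
      zero_mem' := ⟨g.zero_mem, by simp⟩
      add_mem' := by
        rintro a b ⟨ha, ha'⟩ ⟨hb, hb'⟩
        exact ⟨g.add_mem ha hb, by rw [map_add, ha', hb', add_zero]⟩
      smul_mem' := by
        rintro c x ⟨hx, hx'⟩
        exact ⟨g.smul_mem c hx, by rw [map_smul, hx', smul_zero]⟩
      lie_mem' := by
        rintro a b ⟨ha, _⟩ ⟨hb, _⟩
        refine ⟨h.br a ha b hb, ?_⟩
        rw [LieRing.of_associative_ring_bracket, map_sub, LinearMap.trace_mul_comm, sub_self] }
  have hL : ∀ X : Module.End ℂ W, X ∈ L ↔ X ∈ g ∧ LinearMap.trace ℂ W X = 0 := fun X => Iff.rfl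
  have hproj : ∀ X ∈ g, X - ((LinearMap.trace ℂ W X) / (finrank ℂ W : ℂ)) • (1 : Module.End ℂ W) ∈ L := by
    intro X hX
    refine ⟨g.sub_mem hX (g.smul_mem _ h.one), ?_⟩
    rw [map_sub, map_smul, LinearMap.trace_one, smul_eq_mul, div_mul_cancel₀ _ hn, sub_self]
  have hirr : LieModule.IsIrreducible ℂ L W := by
    apply LieModule.IsIrreducible.mk
    intro N hN
    have h1 : ∀ X ∈ g, ∀ u ∈ N.toSubmodule, X u ∈ N.toSubmodule := by
      intro X hX u hu
      have h2 := N.lie_mem (x := (⟨_, hproj X hX⟩ : L)) (m := u) hu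
      have h3 : (X - ((LinearMap.trace ℂ W X) / (finrank ℂ W : ℂ)) • (1 : Module.End ℂ W)) u ∈ N.toSubmodule := h2
      rw [LinearMap.sub_apply, LinearMap.smul_apply, Module.End.one_apply] at h3
      have h4 := N.toSubmodule.add_mem h3 (N.toSubmodule.smul_mem ((LinearMap.trace ℂ W X) / (finrank ℂ W : ℂ)) hu)
      rwa [sub_add_cancel] at h4
    rcases h.irr N.toSubmodule h1 with h2 | h2
    · exact absurd ((LieSubmodule.toSubmodule_eq_bot N).1 h2) hN
    · exact (LieSubmodule.toSubmodule_eq_top N).1 h2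
  have hrad : LieAlgebra.HasTrivialRadical ℂ L :=
    LieAlgebra.hasTrivialRadical_of_isIrreducible_of_isFaithful ℂ L W (fun x => x.2.2)
  have hkill : LieAlgebra.IsKilling ℂ L := inferInstance
  set yL : L := ⟨_, hproj y h.yg⟩ with hyL
  have hbr : ∀ X : L, (⁅yL, X⁆ : L).1 = y * X.1 - X.1 * y := by
    intro X
    change yL.1 * X.1 - X.1 * yL.1 = _
    rw [hyL]
    simp only [sub_mul, mul_sub, smul_mul_assoc, mul_smul_comm, one_mul, mul_one]
    abel
  have hss : ∀ x : L, ⁅yL, ⁅yL, x⁆⁆ = 0 → ⁅yL, x⁆ = 0 := by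
    intro x hx
    have h1 := congrArg Subtype.val hx
    rw [hbr, hbr] at h1
    have h2 : y * (y * x.1 - x.1 * y) - (y * x.1 - x.1 * y) * y = 0 := h1
    have e1 : y * x.1 - y * x.1 * y = 0 := by
      have : y * (y * (y * x.1 - x.1 * y) - (y * x.1 - x.1 * y) * y) = y * x.1 - y * x.1 * y := by
        have e : y * (y * (y * x.1 - x.1 * y) - (y * x.1 - x.1 * y) * y) =
          (y * y) * (y * x.1) - (y * y) * x.1 * y - ((y * y) * x.1 * y - y * x.1 * (y * y)) := by noncomm_ring
        rw [e, h.yy, ← mul_assoc, h.yy]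
        noncomm_ring
      rw [← this, h2, mul_zero]
    have e2 : x.1 * y - y * x.1 * y = 0 := by
      have : (y * (y * x.1 - x.1 * y) - (y * x.1 - x.1 * y) * y) * y = x.1 * y - y * x.1 * y := by
        have e : (y * (y * x.1 - x.1 * y) - (y * x.1 - x.1 * y) * y) * y =
          (y * y) * x.1 * y - y * x.1 * (y * y) - (y * x.1 * (y * y) - x.1 * ((y * y) * y)) := by noncomm_ring
        rw [e, h.yy, h.yy]
        noncomm_ring
      rw [← this, h2, zero_mul]
    apply Subtype.ext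
    rw [hbr]
    change y * x.1 - x.1 * y = 0
    rw [sub_eq_zero.1 e1, sub_eq_zero.1 e2, sub_self]
  obtain ⟨H, hH, hyH⟩ := exists_cartan yL hss
  obtain ⟨n, e, f, ht, hye, hyf, ⟨c, hc⟩, hinj, horth, hse, hsf⟩ := exists_roots yL H hyH
  have hye' : ∀ a, y * (e a).1 - (e a).1 * y = (e a).1 := fun a => by rw [← hbr, hye]
  have hyf' : ∀ a, y * (f a).1 - (f a).1 * y = - (f a).1 := fun a => by rw [← hbr, hyf]; rfl
  have E1 : ∀ a, (e a).1 * y = 0 := by
    intro a
    have h1 : y * (e a).1 * y = 0 := by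
      have h2 : y * (y * (e a).1 - (e a).1 * y) = y * (e a).1 := by rw [hye']
      rw [mul_sub, ← mul_assoc, h.yy, ← mul_assoc, sub_eq_self] at h2
      exact h2
    have h3 : (y * (e a).1 - (e a).1 * y) * y = (e a).1 * y := by rw [hye']
    rw [sub_mul, h1, mul_assoc, h.yy, zero_sub] at h3
    have h4 : (2 : ℂ) • ((e a).1 * y) = 0 := by
      rw [two_smul]
      nth_rewrite 1 [← h3]
      exact neg_add_cancel _
    exact (smul_eq_zero.1 h4).resolve_left two_ne_zero
  have E2 : ∀ a, y * (e a).1 = (e a).1 := by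
    intro a
    have := hye' a
    rwa [E1, sub_zero] at this
  have F1 : ∀ a, y * (f a).1 = 0 := by
    intro a
    have h1 : y * (f a).1 * y = 0 := by
      have h2 : (y * (f a).1 - (f a).1 * y) * y = - (f a).1 * y := by rw [hyf']
      rw [sub_mul, mul_assoc (f a).1, h.yy, neg_mul, sub_eq_iff_eq_add, neg_add_cancel] at h2
      exact h2
    have h3 : y * (y * (f a).1 - (f a).1 * y) = - (y * (f a).1) := by rw [hyf', mul_neg]
    rw [mul_sub, ← mul_assoc, ← mul_assoc, h1, h.yy, sub_zero] at h3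
    have h4 : (2 : ℂ) • (y * (f a).1) = 0 := by
      rw [two_smul]
      nth_rewrite 1 [h3]
      exact neg_add_cancel _
    exact (smul_eq_zero.1 h4).resolve_left two_ne_zero
  have F2 : ∀ a, (f a).1 * y = (f a).1 := by
    intro a
    have := hyf' a
    rw [F1, zero_sub] at this
    exact neg_injective this
  have EE : ∀ a b, (e a).1 * (e b).1 = 0 := by
    intro a b
    rw [← E2 b, ← mul_assoc, E1, zero_mul]
  have FF : ∀ a b, (f a).1 * (f b).1 = 0 := by
    intro a b
    rw [← F2 a, mul_assoc, F1, mul_zero]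
  have hhv : ∀ a, (⁅e a, f a⁆ : L).1 = (e a).1 * (f a).1 - (f a).1 * (e a).1 := fun a => rfl
  refine ⟨Fin n, inferInstance, inferInstance, fun a => (e a).1, fun a => (f a).1, ?_⟩
  refine ⟨fun a => (e a).2.1, fun a => (f a).2.1, E2, E1, F2, F1, ?_, ?_, ?_, ?_, ?_, ?_, ?_, ?_⟩
  · intro a
    have h1 := congrArg Subtype.val ((ht a).lie_h_e_smul ℂ)
    have h2 : ((e a).1 * (f a).1 - (f a).1 * (e a).1) * (e a).1 - (e a).1 * ((e a).1 * (f a).1 - (f a).1 * (e a).1) =
      (2 : ℂ) • (e a).1 := h1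
    have h3 : ((e a).1 * (f a).1 - (f a).1 * (e a).1) * (e a).1 - (e a).1 * ((e a).1 * (f a).1 - (f a).1 * (e a).1) =
      (2 : ℂ) • ((e a).1 * (f a).1 * (e a).1) - (f a).1 * ((e a).1 * (e a).1) - ((e a).1 * (e a).1) * (f a).1 := by
      rw [two_smul]
      noncomm_ring
    rw [h3, EE, mul_zero, zero_mul, sub_zero, sub_zero] at h2
    exact smul_right_injective _ (two_ne_zero (α := ℂ)) h2
  · intro a
    have h1 := congrArg Subtype.val (ht a).lie_h_f_nsmul
    have h1' : ((e a).1 * (f a).1 - (f a).1 * (e a).1) * (f a).1 - (f a).1 * ((e a).1 * (f a).1 - (f a).1 * (e a).1) =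
      -(2 • (f a).1) := h1
    have h2 : ((e a).1 * (f a).1 - (f a).1 * (e a).1) * (f a).1 - (f a).1 * ((e a).1 * (f a).1 - (f a).1 * (e a).1) =
      -((2 : ℂ) • (f a).1) := by rw [h1', two_smul, two_smul]
    have h3 : ((e a).1 * (f a).1 - (f a).1 * (e a).1) * (f a).1 - (f a).1 * ((e a).1 * (f a).1 - (f a).1 * (e a).1) =
      -((2 : ℂ) • ((f a).1 * (e a).1 * (f a).1)) + (e a).1 * ((f a).1 * (f a).1) + ((f a).1 * (f a).1) * (e a).1 := by
      rw [two_smul]
      noncomm_ring
    rw [h3, FF, mul_zero, zero_mul, add_zero, add_zero] at h2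
    exact smul_right_injective _ (two_ne_zero (α := ℂ)) (neg_injective h2)
  · intro a ha
    exact (ht a).e_ne_zero (Subtype.ext ha)
  · intro a b hab
    obtain ⟨t, s, s', hs, h1, h2⟩ := horth a b hab
    have h1' : t.1 * (e a).1 - (e a).1 * t.1 = s • (e a).1 := congrArg Subtype.val h1
    have h2' : t.1 * (f b).1 - (f b).1 * t.1 = - s' • (f b).1 := congrArg Subtype.val h2
    have h3 : LinearMap.trace ℂ W ((t.1 * (e a).1 - (e a).1 * t.1) * (f b).1) +
      LinearMap.trace ℂ W ((e a).1 * (t.1 * (f b).1 - (f b).1 * t.1)) = 0 := by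
      rw [← map_add]
      have : (t.1 * (e a).1 - (e a).1 * t.1) * (f b).1 + (e a).1 * (t.1 * (f b).1 - (f b).1 * t.1) =
        t.1 * ((e a).1 * (f b).1) - ((e a).1 * (f b).1) * t.1 := by noncomm_ring
      rw [this, map_sub, LinearMap.trace_mul_comm, sub_self]
    rw [h1', h2', smul_mul_assoc, mul_smul_comm, map_smul, map_smul, smul_eq_mul, smul_eq_mul, ← add_mul] at h3
    rcases mul_eq_zero.1 h3 with h4 | h4
    · exact absurd (by linear_combination h4) hs
    · exact h4
  · refine ⟨c, fun a b => ⟨congrArg Subtype.val (hc a b).1, congrArg Subtype.val (hc a b).2⟩⟩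
  · intro a b hab
    exact hinj a b (Subtype.ext hab)
  · intro X hX h1 h2
    have hXL : X ∈ L := by
      rw [hL]
      refine ⟨hX, ?_⟩
      rw [← h1, LinearMap.trace_mul_comm, h2, map_zero]
    have h3 := hse ⟨X, hXL⟩ (by
      apply Subtype.ext
      rw [hbr]
      change y * X - X * y = X
      rw [h1, h2, sub_zero])
    have h4 := Submodule.mem_map_of_mem (f := L.toSubmodule.subtype) h3
    rw [Submodule.map_span, ← Set.range_comp] at h4
    exact h4
  · intro X hX h1 h2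
    have hXL : X ∈ L := by
      rw [hL]
      refine ⟨hX, ?_⟩
      rw [← h1, LinearMap.trace_mul_comm, h2, map_zero]
    have h3 := hsf ⟨X, hXL⟩ (by
      apply Subtype.ext
      rw [hbr]
      change y * X - X * y = - X
      rw [h1, h2, zero_sub])
    have h4 := Submodule.mem_map_of_mem (f := L.toSubmodule.subtype) h3
    rw [Submodule.map_span, ← Set.range_comp] at h4
    exact h4

end Pool.Agent.Lib.MP_021685_ag.Cop
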