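import Pool.Agent.Lib.MP_021685_ag.UT.CopDefs

set_option autoImplicit false

namespace Pool.Agent.Lib.MP_021685_ag.Cop

open Module LinearMap

variable {W : Type*} [AddCommGroup W] [Module ℂ W] [FiniteDimensional ℂ W]

variable {g : Submodule ℂ (Module.End ℂ W)} {y : Module.End ℂ W}

variable {Φ : Type} [Fintype Φ] [DecidableEq Φ] {e f : Φ → Module.End ℂ W}

/-- Job COP2. Proof: `e a f a` is an idempotent with the same range as `e a`; `LinearMap.IsProj.trace` or `LinearMap.IsIdempotentElem` lemmas. -/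
theorem RD.trace_ef (R : RD g y e f) (a : Φ) : LinearMap.trace ℂ W (e a * f a) = (finrank ℂ (LinearMap.range (e a)) : ℂ) := by
  have hproj : LinearMap.IsProj (LinearMap.range (e a)) (e a * f a) := by
    constructor
    · intro x
      exact ⟨f a x, rfl⟩
    · rintro x ⟨z, rfl⟩
      have h := congrArg (fun T : Module.End ℂ W => T z) (R.efe a)
      simpa [Module.End.mul_apply] using h
  exact hproj.trace

/-- Job COP2. -/
theorem RD.rk_pos (R : RD g y e f) (a : Φ) : 0 < finrank ℂ (LinearMap.range (e a)) := by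
  have h : LinearMap.range (e a) ≠ ⊥ := by
    intro h
    exact R.ne a (LinearMap.range_eq_bot.1 h)
  haveI : Nontrivial (LinearMap.range (e a)) := Submodule.nontrivial_iff_ne_bot.2 h
  exact Module.finrank_pos

/-- Job COP2. The situation is symmetric. -/
theorem RD.symm (R : RD g y e f) : RD g (1 - y) f e := by
  have hhs : ∀ a, hh f e a = - hh e f a := fun a => by
    unfold hh
    rw [neg_sub]
  obtain ⟨c, hc⟩ := R.wt
  refine ⟨R.fg, R.eg, fun a => ?_, fun a => ?_, fun a => ?_, fun a => ?_, R.fef, R.efe, fun a ha => ?_, fun a b hab => ?_,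
    ⟨c, fun a b => ⟨?_, ?_⟩⟩, fun a b hab => ?_, fun X hX h1 h2 => ?_, fun X hX h1 h2 => ?_⟩
  · rw [sub_mul, one_mul, R.yf, sub_zero]
  · rw [mul_sub, mul_one, R.fy, sub_self]
  · rw [mul_sub, mul_one, R.ey, sub_zero]
  · rw [sub_mul, one_mul, R.ye, sub_self]
  · apply R.ne a
    rw [← R.efe a, ha, mul_zero, zero_mul]
  · rw [LinearMap.trace_mul_comm]
    exact R.orth b a (Ne.symm hab)
  · have h := (hc a b).2
    rw [hhs, neg_mul, mul_neg, sub_neg_eq_add, neg_add_eq_sub]
    rw [← neg_sub, h, neg_smul, neg_neg]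
  · have h := (hc a b).1
    rw [hhs, neg_mul, mul_neg, sub_neg_eq_add, neg_add_eq_sub]
    rw [← neg_sub, h, neg_smul]
  · rw [hhs, hhs] at hab
    exact R.hinj a b (neg_injective hab)
  · apply R.span_f X hX
    · rw [mul_sub, mul_one, sub_eq_zero] at h2
      exact h2.symm
    · rw [sub_mul, one_mul, sub_eq_self] at h1
      exact h1
  · apply R.span_e X hX
    · rw [sub_mul, one_mul, sub_eq_zero] at h2
      exact h2.symm
    · rw [mul_sub, mul_one, sub_eq_self] at h1
      exact h1

/-- Job COP2. -/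
theorem Dat.symm (h : Dat g y) : Dat g (1 - y) := by
  refine ⟨h.br, h.one, g.sub_mem h.one h.yg, ?_, h.irr⟩
  rw [sub_mul, mul_sub, mul_sub, h.yy]
  simp

end Pool.Agent.Lib.MP_021685_ag.Cop
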