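import Pool.Agent.Lib.MP_021685_ag.UT.Cop2

set_option autoImplicit false

namespace Pool.Agent.Lib.MP_021685_ag.Cop

open Module LinearMap

variable {W : Type*} [AddCommGroup W] [Module ℂ W] [FiniteDimensional ℂ W]

variable {g : Submodule ℂ (Module.End ℂ W)} {y : Module.End ℂ W}

variable {Φ : Type} [Fintype Φ] [DecidableEq Φ] {e f : Φ → Module.End ℂ W}

/-- The component of degree `1`. -/
private theorem c3_comp1 (h : Dat g y) {X : Module.End ℂ W} (hX : X ∈ g) : y * X * (1 - y) ∈ g := by
  have h1 : y * X - X * y ∈ g := h.br y h.yg X hX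
  have h2 := h.br y h.yg _ h1
  have hyy := h.yy
  have h3 : y * X * (1 - y) = (1 / 2 : ℂ) • ((y * X - X * y) + (y * (y * X - X * y) - (y * X - X * y) * y)) := by
    have e1 : (y * X - X * y) + (y * (y * X - X * y) - (y * X - X * y) * y)
        = y * X - X * y + (y * y * X - y * X * y - y * X * y + X * (y * y)) := by noncomm_ring
    rw [e1, hyy]
    have e2 : y * X - X * y + (y * X - y * X * y - y * X * y + X * y) = (2 : ℂ) • (y * X * (1 - y)) := by
      rw [two_smul]; noncomm_ring
    rw [e2, smul_smul]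
    norm_num
  rw [h3]
  exact g.smul_mem _ (g.add_mem h1 h2)

/-- The component of degree `-1`. -/
private theorem c3_compm (h : Dat g y) {X : Module.End ℂ W} (hX : X ∈ g) : (1 - y) * X * y ∈ g := by
  have h1 : y * X - X * y ∈ g := h.br y h.yg X hX
  have h2 := c3_comp1 h hX
  have h3 : (1 - y) * X * y = y * X * (1 - y) - (y * X - X * y) := by noncomm_ring
  rw [h3]
  exact g.sub_mem h2 h1

/-- The component of degree `0`. -/
private theorem c3_comp0 (h : Dat g y) {X : Module.End ℂ W} (hX : X ∈ g) :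
    y * X * y + (1 - y) * X * (1 - y) ∈ g := by
  have h1 := c3_comp1 h hX
  have h2 := c3_compm h hX
  have h3 : y * X * y + (1 - y) * X * (1 - y) = X - y * X * (1 - y) - (1 - y) * X * y := by noncomm_ring
  rw [h3]
  exact g.sub_mem (g.sub_mem hX h1) h2

/-- The operator. -/
private noncomputable def c3_om (e f : Φ → Module.End ℂ W) : Module.End ℂ W :=
  ∑ a, ((finrank ℂ (LinearMap.range (e a)) : ℂ)⁻¹) • (e a * f a)

private theorem c3_comm (h : Dat g y) (R : RD g y e f) {Z : Module.End ℂ W} (hZ : Z ∈ g) (hc : y * Z = Z * y) :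
    Z * c3_om e f = c3_om e f * Z := by
  have hk : ∀ a, (finrank ℂ (LinearMap.range (e a)) : ℂ) ≠ 0 := fun a => by
    exact_mod_cast (R.rk_pos a).ne'
  have he : ∀ a, ∃ z : Φ → ℂ, ∑ b, z b • e b = Z * e a - e a * Z := by
    intro a
    have := R.span_e (Z * e a - e a * Z) (h.br Z hZ _ (R.eg a))
      (by rw [mul_sub, ← mul_assoc, hc, mul_assoc, R.ye, ← mul_assoc, R.ye])
      (by rw [sub_mul, mul_assoc, R.ey, mul_zero, mul_assoc, ← hc, ← mul_assoc, R.ey, zero_mul, sub_zero])
    exact (Submodule.mem_span_range_iff_exists_fun ℂ).1 this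
  have hf : ∀ a, ∃ w : Φ → ℂ, ∑ b, w b • f b = Z * f a - f a * Z := by
    intro a
    have := R.span_f (Z * f a - f a * Z) (h.br Z hZ _ (R.fg a))
      (by rw [sub_mul, mul_assoc, R.fy, mul_assoc, ← hc, ← mul_assoc, R.fy])
      (by rw [mul_sub, ← mul_assoc, hc, mul_assoc, R.yf, mul_zero, ← mul_assoc, R.yf, zero_mul, sub_zero])
    exact (Submodule.mem_span_range_iff_exists_fun ℂ).1 this
  choose z hz using he
  choose w hw using hf
  have key : ∀ a b, z a b * (finrank ℂ (LinearMap.range (e b)) : ℂ)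
      + w b a * (finrank ℂ (LinearMap.range (e a)) : ℂ) = 0 := by
    intro a b
    have t1 : LinearMap.trace ℂ W ((Z * e a - e a * Z) * f b) = z a b * (finrank ℂ (LinearMap.range (e b)) : ℂ) := by
      rw [← hz a, Finset.sum_mul, map_sum]
      rw [Finset.sum_eq_single b]
      · rw [smul_mul_assoc, map_smul, R.trace_ef, smul_eq_mul]
      · intro c _ hcb
        rw [smul_mul_assoc, map_smul, R.orth c b hcb, smul_zero]
      · intro hb; exact absurd (Finset.mem_univ b) hb
    have t2 : LinearMap.trace ℂ W (e a * (Z * f b - f b * Z)) = w b a * (finrank ℂ (LinearMap.range (e a)) : ℂ) := by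
      rw [← hw b, Finset.mul_sum, map_sum]
      rw [Finset.sum_eq_single a]
      · rw [mul_smul_comm, map_smul, R.trace_ef, smul_eq_mul]
      · intro c _ hca
        rw [mul_smul_comm, map_smul, R.orth a c (Ne.symm hca), smul_zero]
      · intro hb; exact absurd (Finset.mem_univ a) hb
    rw [← t1, ← t2, ← map_add]
    have t3 : (Z * e a - e a * Z) * f b + e a * (Z * f b - f b * Z) = Z * (e a * f b) - (e a * f b) * Z := by
      noncomm_ring
    rw [t3, map_sub, LinearMap.trace_mul_comm, sub_self]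
  have hsum : Z * c3_om e f - c3_om e f * Z
      = ∑ a, ((finrank ℂ (LinearMap.range (e a)) : ℂ)⁻¹) • ((Z * e a - e a * Z) * f a)
        + ∑ a, ((finrank ℂ (LinearMap.range (e a)) : ℂ)⁻¹) • (e a * (Z * f a - f a * Z)) := by
    unfold c3_om
    rw [Finset.mul_sum, Finset.sum_mul, ← Finset.sum_sub_distrib, ← Finset.sum_add_distrib]
    refine Finset.sum_congr rfl fun a _ => ?_
    rw [mul_smul_comm, smul_mul_assoc, ← smul_sub, ← smul_add]
    congr 1
    noncomm_ring
  have h1 : ∑ a, ((finrank ℂ (LinearMap.range (e a)) : ℂ)⁻¹) • ((Z * e a - e a * Z) * f a)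
      = ∑ a, ∑ b, (((finrank ℂ (LinearMap.range (e a)) : ℂ)⁻¹) * z a b) • (e b * f a) := by
    refine Finset.sum_congr rfl fun a _ => ?_
    rw [← hz a, Finset.sum_mul, Finset.smul_sum]
    refine Finset.sum_congr rfl fun b _ => ?_
    rw [smul_mul_assoc, smul_smul]
  have h2 : ∑ a, ((finrank ℂ (LinearMap.range (e a)) : ℂ)⁻¹) • (e a * (Z * f a - f a * Z))
      = ∑ a, ∑ b, (((finrank ℂ (LinearMap.range (e b)) : ℂ)⁻¹) * w b a) • (e b * f a) := by
    rw [Finset.sum_comm]
    refine Finset.sum_congr rfl fun a _ => ?_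
    rw [← hw a, Finset.mul_sum, Finset.smul_sum]
    refine Finset.sum_congr rfl fun b _ => ?_
    rw [mul_smul_comm, smul_smul]
  have h3 : Z * c3_om e f - c3_om e f * Z = 0 := by
    rw [hsum, h1, h2, ← Finset.sum_add_distrib]
    refine Finset.sum_eq_zero fun a _ => ?_
    rw [← Finset.sum_add_distrib]
    refine Finset.sum_eq_zero fun b _ => ?_
    rw [← add_smul]
    have hab := key a b
    have ha := hk a
    have hb := hk b
    have : ((finrank ℂ (LinearMap.range (e a)) : ℂ)⁻¹) * z a b + ((finrank ℂ (LinearMap.range (e b)) : ℂ)⁻¹) * w b a = 0 := by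
      field_simp
      linear_combination hab
    rw [this, zero_smul]
  exact sub_eq_zero.1 h3

private theorem c3_yom (R : RD g y e f) : y * c3_om e f = c3_om e f := by
  unfold c3_om
  rw [Finset.mul_sum]
  refine Finset.sum_congr rfl fun a _ => ?_
  rw [mul_smul_comm, ← mul_assoc, R.ye]

private theorem c3_omy (R : RD g y e f) : c3_om e f * y = c3_om e f := by
  unfold c3_om
  rw [Finset.sum_mul]
  refine Finset.sum_congr rfl fun a _ => ?_
  rw [smul_mul_assoc, mul_assoc, R.fy]

private theorem c3_scalar (h : Dat g y) (R : RD g y e f) (h0 : y ≠ 0) : ∃ t : ℂ, c3_om e f = t • y := by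
  have hyy := h.yy
  have hyyv : ∀ v, y (y v) = y v := fun v => by
    have := LinearMap.congr_fun hyy v
    simpa using this
  have hstab : ∀ w ∈ LinearMap.range y, c3_om e f w ∈ LinearMap.range y := by
    intro w _
    refine ⟨c3_om e f w, ?_⟩
    exact LinearMap.congr_fun (c3_yom R) w
  have hnt : Nontrivial (LinearMap.range y) := by
    rw [Submodule.nontrivial_iff_ne_bot]
    intro hb
    exact h0 (LinearMap.range_eq_bot.1 hb)
  obtain ⟨t, ht⟩ := Module.End.exists_eigenvalue ((c3_om e f).restrict hstab)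
  obtain ⟨v, hv⟩ := ht.exists_hasEigenvector
  refine ⟨t, ?_⟩
  have hv0 : (v : W) ≠ 0 := by
    intro hh
    exact hv.2 (Subtype.ext hh)
  have hvt : c3_om e f (v : W) = t • (v : W) := by
    have := hv.apply_eq_smul
    have h2 := congrArg Subtype.val this
    simpa using h2
  have hyfix : ∀ w ∈ LinearMap.range y, y w = w := by
    rintro w ⟨u, rfl⟩
    exact hyyv u
  let S : Submodule ℂ W :=
    { carrier := {w | y w = w ∧ c3_om e f w = t • w}
      add_mem' := by
        rintro a b ⟨ha, ha'⟩ ⟨hb, hb'⟩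
        exact ⟨by rw [map_add, ha, hb], by rw [map_add, ha', hb', smul_add]⟩
      zero_mem' := by simp
      smul_mem' := by
        rintro c a ⟨ha, ha'⟩
        exact ⟨by rw [map_smul, ha], by rw [map_smul, ha', smul_comm]⟩ }
  have hSmem : ∀ w, w ∈ S ↔ y w = w ∧ c3_om e f w = t • w := fun w => Iff.rfl
  have hvS : (v : W) ∈ S := ⟨hyfix _ v.2, hvt⟩
  have hS0 : ∀ Z ∈ g, y * Z = Z * y → ∀ w ∈ S, Z w ∈ S := by
    intro Z hZ hc w hw
    obtain ⟨hw1, hw2⟩ := (hSmem w).1 hw
    rw [hSmem]
    constructor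
    · have := LinearMap.congr_fun hc w
      simp only [Module.End.mul_apply] at this
      rw [this, hw1]
    · have := LinearMap.congr_fun (c3_comm h R hZ hc) w
      simp only [Module.End.mul_apply] at this
      rw [← this, hw2, map_smul]
  let T : Set W := {u | ∃ F ∈ g, F * y = F ∧ y * F = 0 ∧ ∃ w ∈ S, u = F w}
  have hstable : ∀ X ∈ g, ∀ u ∈ S ⊔ Submodule.span ℂ T, X u ∈ S ⊔ Submodule.span ℂ T := by
    intro X hX
    have hX1 := c3_comp1 h hX
    have hX0 := c3_comp0 h hX
    have hXm := c3_compm h hX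
    set X1 := y * X * (1 - y) with hX1def
    set X0 := y * X * y + (1 - y) * X * (1 - y) with hX0def
    set Xm := (1 - y) * X * y with hXmdef
    have hdec : X = X1 + X0 + Xm := by rw [hX1def, hX0def, hXmdef]; noncomm_ring
    have a1 : y * X1 = X1 := by rw [hX1def, ← mul_assoc, ← mul_assoc, hyy]
    have a2 : X1 * y = 0 := by rw [hX1def, mul_assoc, sub_mul, one_mul, hyy, sub_self, mul_zero]
    have b1 : y * X0 = X0 * y := by
      have e1 : y * X0 = y * y * X * y + (y - y * y) * X * (1 - y) := by rw [hX0def]; noncomm_ring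
      have e2 : X0 * y = y * X * (y * y) + (1 - y) * X * (y - y * y) := by rw [hX0def]; noncomm_ring
      rw [e1, e2, hyy]; simp
    have c1 : Xm * y = Xm := by rw [hXmdef, mul_assoc, hyy]
    have c2 : y * Xm = 0 := by rw [hXmdef, ← mul_assoc, ← mul_assoc, mul_sub, mul_one, hyy, sub_self, zero_mul, zero_mul]
    clear_value X1 X0 Xm
    clear hX1def hX0def hXmdef
    have hSin : ∀ w ∈ S, X w ∈ S ⊔ Submodule.span ℂ T := by
      intro w hw
      have hw1 := ((hSmem w).1 hw).1
      rw [hdec]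
      simp only [LinearMap.add_apply]
      have d1 : X1 w = 0 := by
        have := LinearMap.congr_fun a2 w
        simp only [Module.End.mul_apply, hw1, LinearMap.zero_apply] at this
        exact this
      rw [d1, zero_add]
      exact add_mem (Submodule.mem_sup_left (hS0 X0 hX0 b1 w hw))
        (Submodule.mem_sup_right (Submodule.subset_span ⟨Xm, hXm, c1, c2, w, hw, rfl⟩))
    have hTin : ∀ u ∈ T, X u ∈ S ⊔ Submodule.span ℂ T := by
      rintro u ⟨F, hF, hFy, hyF, w, hw, rfl⟩
      have hw1 := ((hSmem w).1 hw).1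
      have d1 : X1 w = 0 := by
        have := LinearMap.congr_fun a2 w
        simp only [Module.End.mul_apply, hw1, LinearMap.zero_apply] at this
        exact this
      have q1 : X1 (F w) = (X1 * F - F * X1) w := by
        simp only [LinearMap.sub_apply, Module.End.mul_apply, d1, map_zero, sub_zero]
      have q2 : X0 (F w) = (X0 * F - F * X0) w + F (X0 w) := by
        simp only [LinearMap.sub_apply, Module.End.mul_apply, sub_add_cancel]
      have q3 : Xm (F w) = 0 := by
        have e1 : Xm * F = 0 := by rw [← c1, mul_assoc, hyF, mul_zero]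
        have := LinearMap.congr_fun e1 w
        simpa using this
      rw [hdec]
      simp only [LinearMap.add_apply]
      rw [q1, q2, q3, add_zero]
      refine add_mem (Submodule.mem_sup_left (hS0 _ (h.br _ hX1 _ hF) ?_ w hw))
        (add_mem (Submodule.mem_sup_right (Submodule.subset_span ⟨X0 * F - F * X0, h.br _ hX0 _ hF, ?_, ?_, w, hw, rfl⟩))
          (Submodule.mem_sup_right (Submodule.subset_span ⟨F, hF, hFy, hyF, X0 w, hS0 X0 hX0 b1 w hw, rfl⟩)))
      · rw [mul_sub, sub_mul, ← mul_assoc, a1, ← mul_assoc, hyF, zero_mul, sub_zero, mul_assoc, hFy, mul_assoc, a2,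
          mul_zero, sub_zero]
      · rw [sub_mul, mul_assoc, hFy, mul_assoc, ← b1, ← mul_assoc, hFy]
      · rw [mul_sub, ← mul_assoc, b1, mul_assoc, hyF, mul_zero, ← mul_assoc, hyF, zero_mul, sub_zero]
    intro u hu
    obtain ⟨s, hs, v', hv', rfl⟩ := Submodule.mem_sup.1 hu
    rw [map_add]
    refine add_mem (hSin s hs) ?_
    refine Submodule.span_induction (p := fun x _ => X x ∈ S ⊔ Submodule.span ℂ T) (fun x hx => hTin x hx) ?_ ?_ ?_ hv'
    · rw [map_zero]; exact Submodule.zero_mem _
    · intro x x' _ _ hx hx'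
      rw [map_add]; exact add_mem hx hx'
    · intro c x _ hx
      rw [map_smul]; exact Submodule.smul_mem _ c hx
  have htop : S ⊔ Submodule.span ℂ T = ⊤ := by
    rcases h.irr _ hstable with hb | ht'
    · exfalso
      have : (v : W) ∈ S ⊔ Submodule.span ℂ T := Submodule.mem_sup_left hvS
      rw [hb, Submodule.mem_bot] at this
      exact hv0 this
    · exact ht'
  have hker : ∀ u ∈ Submodule.span ℂ T, y u = 0 := by
    intro u hu
    refine Submodule.span_induction (p := fun x _ => y x = 0) ?_ (map_zero y) ?_ ?_ hu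
    · rintro x ⟨F, _, _, hyF, w, _, rfl⟩
      have := LinearMap.congr_fun hyF w
      simpa using this
    · intro x x' _ _ hx hx'
      rw [map_add, hx, hx', add_zero]
    · intro c x _ hx
      rw [map_smul, hx, smul_zero]
  ext w
  have h1 : c3_om e f w = c3_om e f (y w) := by
    have := LinearMap.congr_fun (c3_omy R) w
    simp only [Module.End.mul_apply] at this
    exact this.symm
  rw [h1, LinearMap.smul_apply]
  have h2 : y w ∈ S ⊔ Submodule.span ℂ T := by rw [htop]; trivial
  obtain ⟨s, hs, u, hu, hsu⟩ := Submodule.mem_sup.1 h2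
  have h3 : y w = s := by
    rw [← hyyv w, ← hsu, map_add, hker u hu, add_zero, ((hSmem s).1 hs).1]
  rw [h3]
  exact ((hSmem s).1 hs).2

/-- Job COP3. The Casimir operator of `W₁`.

Proof. Let `k a = finrank (range (e a))` and `Ω = ∑ a, (k a)⁻¹ e a f a`; `y Ω = Ω = Ω y`. (1) `Ω` commutes with every `Z ∈ g` which commutes with `y`: `[Z, e a] ∈ g₁`, so `[Z, e a] = ∑ b, z b a e b`, and `[Z, f a] = ∑ b, w b a f b`. By `orth`
and `trace_ef`, `z b a k b = tr([Z, e a] f b) = - tr(e a [Z, f b]) = - w a b k a`. So `[Z, Ω] = ∑ a, (k a)⁻¹ ([Z, e a] f a + e a [Z, f a]) = ∑ a b, (k a)⁻¹ z b a e b f a - ∑ a b, (k b)⁻¹ z a b e a f b = 0`.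
(2) `Ω` has an eigenvector in `W₁ = range y` (if `y = 0` the claim is trivial) with eigenvalue `t`; `S = {w ∈ W₁ | Ω w = t w}` is stable under `g₀` and killed by `g₁`. `S' = S + span {F w | F ∈ g₋₁, w ∈ S}` is stable under `g` (components of `X ∈ g` as in COP1:
`X₁ F w = [X₁, F] w ∈ S` since `[X₁, F] ∈ g₀`; `X₀ F w = [X₀, F] w + F X₀ w`; `X₋₁ F w = 0`). So `S' = W` by irreducibility, and `w ∈ W₁` gives `w = y w ∈ S` (`y` kills the second part). So `Ω = t y`.
(3) Trace: `t r = ∑ (k a)⁻¹ k a = card Φ`, where `tr y = r`. -/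
theorem RD.casimir (h : Dat g y) (R : RD g y e f) :
    (LinearMap.trace ℂ W y) • (∑ a, ((finrank ℂ (LinearMap.range (e a)) : ℂ)⁻¹) • (e a * f a)) = (Fintype.card Φ : ℂ) • y := by
  by_cases h0 : y = 0
  · rw [h0]; simp
  obtain ⟨t, ht⟩ := c3_scalar h R h0
  have hk : ∀ a, (finrank ℂ (LinearMap.range (e a)) : ℂ) ≠ 0 := fun a => by
    exact_mod_cast (R.rk_pos a).ne'
  have h1 : LinearMap.trace ℂ W (c3_om e f) = (Fintype.card Φ : ℂ) := by
    unfold c3_om
    rw [map_sum]
    have : ∀ a ∈ (Finset.univ : Finset Φ), LinearMap.trace ℂ W (((finrank ℂ (LinearMap.range (e a)) : ℂ)⁻¹) • (e a * f a)) = 1 := by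
      intro a _
      rw [map_smul, R.trace_ef, smul_eq_mul, inv_mul_cancel₀ (hk a)]
    rw [Finset.sum_congr rfl this]
    simp
  have h2 : LinearMap.trace ℂ W (c3_om e f) = t * LinearMap.trace ℂ W y := by
    rw [ht, map_smul, smul_eq_mul]
  have h3 : ∑ a, ((finrank ℂ (LinearMap.range (e a)) : ℂ)⁻¹) • (e a * f a) = t • y := ht
  rw [h3, smul_smul]
  congr 1
  rw [← h1, h2]
  ring

end Pool.Agent.Lib.MP_021685_ag.Cop
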