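import Pool.Agent.Lib.MP_021685_ag.UT.Cop3

set_option autoImplicit false

namespace Pool.Agent.Lib.MP_021685_ag.Cop

open Module LinearMap

variable {W : Type*} [AddCommGroup W] [Module ℂ W] [FiniteDimensional ℂ W]

variable {g : Submodule ℂ (Module.End ℂ W)} {y : Module.End ℂ W}

variable {Φ : Type} [Fintype Φ] [DecidableEq Φ] {e f : Φ → Module.End ℂ W}

/-- Algebra of the decomposition with two idempotents. -/
private lemma Cop4_alg {E F x : Module.End ℂ W} {c : ℂ} (hE : E * E = E) (hF : F * F = F)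
    (hx : x ≠ 0) (h : E * x + x * F = c • x) :
    (c = 0 ∨ c = 1 ∨ c = 2) ∧ (c = 1 → x = E * x * (1 - F) + (1 - E) * x * F) := by
  have h1 : (c - 2) • (E * x * F) = 0 := by
    have h2 := congrArg (fun T => E * T * F) h
    simp only [mul_add, add_mul, mul_smul_comm, smul_mul_assoc] at h2
    have h3 : E * (E * x) * F = E * x * F := by rw [← mul_assoc, hE]
    have h4 : E * (x * F) * F = E * x * F := by rw [← mul_assoc, mul_assoc, hF]
    rw [h3, h4, ← two_smul ℂ] at h2
    rw [sub_smul, ← h2, sub_self]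
  have h5 : (c - 1) • (E * x * (1 - F)) = 0 := by
    have h2 := congrArg (fun T => E * T * (1 - F)) h
    simp only [mul_add, add_mul, mul_smul_comm, smul_mul_assoc] at h2
    have h3 : E * (E * x) * (1 - F) = E * x * (1 - F) := by rw [← mul_assoc, hE]
    have h4 : E * (x * F) * (1 - F) = 0 := by
      rw [← mul_assoc, mul_assoc, mul_sub, hF, mul_one, sub_self, mul_zero]
    rw [h3, h4, add_zero] at h2
    rw [sub_smul, ← h2, one_smul, sub_self]
  have h6 : (c - 1) • ((1 - E) * x * F) = 0 := by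
    have h2 := congrArg (fun T => (1 - E) * T * F) h
    simp only [mul_add, add_mul, mul_smul_comm, smul_mul_assoc] at h2
    have h3 : (1 - E) * (E * x) * F = 0 := by
      rw [← mul_assoc, sub_mul, hE, one_mul, sub_self, zero_mul, zero_mul]
    have h4 : (1 - E) * (x * F) * F = (1 - E) * x * F := by rw [← mul_assoc, mul_assoc, hF]
    rw [h3, h4, zero_add] at h2
    rw [sub_smul, ← h2, one_smul, sub_self]
  have h7 : c • ((1 - E) * x * (1 - F)) = 0 := by
    have h2 := congrArg (fun T => (1 - E) * T * (1 - F)) h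
    simp only [mul_add, add_mul, mul_smul_comm, smul_mul_assoc] at h2
    have h3 : (1 - E) * (E * x) * (1 - F) = 0 := by
      rw [← mul_assoc, sub_mul, hE, one_mul, sub_self, zero_mul, zero_mul]
    have h4 : (1 - E) * (x * F) * (1 - F) = 0 := by
      rw [← mul_assoc, mul_assoc, mul_sub, hF, mul_one, sub_self, mul_zero]
    rw [h3, h4, zero_add] at h2
    exact h2.symm
  have h8 : x = E * x * F + E * x * (1 - F) + (1 - E) * x * F + (1 - E) * x * (1 - F) := by
    noncomm_ring
  constructor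
  · by_contra hcon
    push Not at hcon
    obtain ⟨c0, c1, c2⟩ := hcon
    apply hx
    rw [h8, (smul_eq_zero.1 h1).resolve_left (sub_ne_zero.2 c2),
      (smul_eq_zero.1 h5).resolve_left (sub_ne_zero.2 c1),
      (smul_eq_zero.1 h6).resolve_left (sub_ne_zero.2 c1),
      (smul_eq_zero.1 h7).resolve_left c0]
    simp
  · intro hc
    rw [hc] at h1 h7
    have h9 : E * x * F = 0 := by
      refine (smul_eq_zero.1 h1).resolve_left ?_
      norm_num
    have h10 : (1 - E) * x * (1 - F) = 0 := (smul_eq_zero.1 h7).resolve_left one_ne_zero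
    rw [h9, h10, zero_add, add_zero] at h8
    exact h8

/-- Job COP4. The integers `c a b`: with `E = e a f a` and `F = f a e a`, `hh a e b - e b hh a = E e b + e b F`.

Proof. `F e b = 0`, `e b E = 0` (insert `y`), so `E x + x F = c x` for `x = e b`. Decompose `x = E x F + E x (1 - F) + (1 - E) x F + (1 - E) x (1 - F)`; then `(2 - c) E x F = 0`, `(1 - c) E x (1 - F) = 0`, `(1 - c) (1 - E) x F = 0`, `c (1 - E) x (1 - F) = 0`.
As `x ≠ 0` one component is nonzero. If `c = 1`, the first and the last component vanish. -/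
theorem RD.exists_c (R : RD g y e f) : ∃ c : Φ → Φ → ℕ, (∀ a b, c a b ≤ 2) ∧ (∀ a, c a a = 2) ∧
    (∀ a b, hh e f a * e b - e b * hh e f a = (c a b : ℂ) • e b) ∧ (∀ a b, hh e f a * f b - f b * hh e f a = - (c a b : ℂ) • f b) ∧
    (∀ a b, c a b = 1 → e b = (e a * f a) * e b * (1 - y - f a * e a) + (y - e a * f a) * e b * (f a * e a)) := by
  obtain ⟨c, hc⟩ := R.wt
  have hee : ∀ a b, e a * e b = 0 := by
    intro a b
    rw [← R.ye b, ← mul_assoc, R.ey a, zero_mul]
  have hE : ∀ a, (e a * f a) * (e a * f a) = e a * f a := by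
    intro a
    rw [← mul_assoc, R.efe a]
  have hF : ∀ a, (f a * e a) * (f a * e a) = f a * e a := by
    intro a
    rw [← mul_assoc, R.fef a]
  have hmain : ∀ a b, (e a * f a) * e b + e b * (f a * e a) = c a b • e b := by
    intro a b
    rw [← (hc a b).1]
    unfold hh
    rw [sub_mul, mul_sub]
    have h1 : f a * e a * e b = 0 := by rw [mul_assoc, hee, mul_zero]
    have h2 : e b * (e a * f a) = 0 := by rw [← mul_assoc, hee, zero_mul]
    rw [h1, h2]
    abel
  have hval : ∀ a b, ∃ n : ℕ, n ≤ 2 ∧ c a b = (n : ℂ) := by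
    intro a b
    rcases (Cop4_alg (hE a) (hF a) (R.ne b) (hmain a b)).1 with h | h | h
    · exact ⟨0, by norm_num, by rw [h]; norm_num⟩
    · exact ⟨1, by norm_num, by rw [h]; norm_num⟩
    · exact ⟨2, le_rfl, by rw [h]; norm_num⟩
  choose n hn2 hn using hval
  refine ⟨n, hn2, ?_, ?_, ?_, ?_⟩
  · intro a
    have h1 := hmain a a
    rw [R.efe a, ← mul_assoc, R.efe a, ← two_smul ℂ] at h1
    have h2 : ((2 : ℂ) - c a a) • e a = 0 := by rw [sub_smul, h1, sub_self]
    have h3 := (smul_eq_zero.1 h2).resolve_right (R.ne a)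
    rw [hn a a] at h3
    have h4 : (n a a : ℂ) = ((2 : ℕ) : ℂ) := by
      push_cast
      exact (sub_eq_zero.1 h3).symm
    exact_mod_cast h4
  · intro a b
    rw [(hc a b).1, hn a b]
  · intro a b
    rw [(hc a b).2, hn a b]
  · intro a b h1
    have h2 : c a b = 1 := by rw [hn a b, h1, Nat.cast_one]
    have h3 := (Cop4_alg (hE a) (hF a) (R.ne b) (hmain a b)).2 h2
    have h4 : (e a * f a) * e b * (1 - y - f a * e a) = (e a * f a) * e b * (1 - f a * e a) := by
      have h5 : (e a * f a) * e b * y = 0 := by rw [mul_assoc, R.ey b, mul_zero]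
      rw [mul_sub, mul_sub, h5, sub_zero, mul_sub]
    have h6 : (y - e a * f a) * e b * (f a * e a) = (1 - e a * f a) * e b * (f a * e a) := by
      rw [sub_mul y, sub_mul 1, R.ye b, one_mul]
    rw [h4, h6]
    exact h3

/-- Job COP4. Proof: `c a b * k b = tr([hh a, e b] f b) = tr(hh a [e b, f b])`. -/
theorem RD.trace_hh (R : RD g y e f) {c : Φ → Φ → ℕ} (hc : ∀ a b, hh e f a * e b - e b * hh e f a = (c a b : ℂ) • e b) (a b : Φ) :
    LinearMap.trace ℂ W (hh e f a * hh e f b) = (c a b : ℂ) * (finrank ℂ (LinearMap.range (e b)) : ℂ) := by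
  have h1 : LinearMap.trace ℂ W ((hh e f a * e b - e b * hh e f a) * f b) =
      (c a b : ℂ) * (finrank ℂ (LinearMap.range (e b)) : ℂ) := by
    rw [hc a b, smul_mul_assoc, map_smul, R.trace_ef b, smul_eq_mul]
  rw [← h1]
  have h2 : hh e f b = e b * f b - f b * e b := rfl
  rw [h2, mul_sub, sub_mul, map_sub, map_sub]
  have h3 : LinearMap.trace ℂ W (e b * hh e f a * f b) =
      LinearMap.trace ℂ W (hh e f a * (f b * e b)) := by
    rw [mul_assoc (e b), LinearMap.trace_mul_comm ℂ (e b), mul_assoc (hh e f a)]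
  rw [h3, mul_assoc (hh e f a) (e b) (f b)]

/-- The trace of an idempotent is its rank. -/
private lemma Cop4_trace_idem {T : Module.End ℂ W} (hT : T * T = T) :
    LinearMap.trace ℂ W T = (finrank ℂ (LinearMap.range T) : ℂ) := by
  have h1 : IsIdempotentElem T := hT
  exact (LinearMap.IsIdempotentElem.isProj_range T h1).trace

/-- Job COP4. Proof: `∑ b, c a b = ∑ b, (k b)⁻¹ tr(hh a hh b) = tr(hh a (d / r • y - d / s • (1 - y))) = k a d (1 / r + 1 / s)` with `d = card Φ`, by `casimir` for `(y, e, f)` and for `(1 - y, f, e)`,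
and `tr(hh a y) = tr(e a f a) = k a`, `tr(hh a (1 - y)) = - tr(f a e a) = - k a`. -/
theorem RD.sum_c (h : Dat g y) (R : RD g y e f) {c : Φ → Φ → ℕ} (hc : ∀ a b, hh e f a * e b - e b * hh e f a = (c a b : ℂ) • e b)
    {r s : ℕ} (hr : finrank ℂ (LinearMap.range y) = r) (hs : finrank ℂ (LinearMap.ker y) = s) (hr0 : 0 < r) (hs0 : 0 < s) (a : Φ) :
    r * s * ∑ b, c a b = finrank ℂ (LinearMap.range (e a)) * Fintype.card Φ * (r + s) := by
  have htr : LinearMap.trace ℂ W y = (r : ℂ) := by rw [Cop4_trace_idem h.yy, hr]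
  have hrs : finrank ℂ W = r + s := by
    rw [← hr, ← hs]
    exact (LinearMap.finrank_range_add_finrank_ker y).symm
  have hts : LinearMap.trace ℂ W (1 - y) = (s : ℂ) := by
    rw [map_sub, htr, LinearMap.trace_one, hrs]
    push_cast
    ring
  have hk : ∀ b, (finrank ℂ (LinearMap.range (f b)) : ℂ) = (finrank ℂ (LinearMap.range (e b)) : ℂ) := by
    intro b
    rw [← R.symm.trace_ef b, ← R.trace_ef b, LinearMap.trace_mul_comm]
  have hk0 : ∀ b, (finrank ℂ (LinearMap.range (e b)) : ℂ) ≠ 0 := fun b =>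
    Nat.cast_ne_zero.2 (R.rk_pos b).ne'
  have hC1 := R.casimir h
  have hC2 := R.symm.casimir h.symm
  rw [htr] at hC1
  rw [hts] at hC2
  simp only [hk] at hC2
  -- the sum of the coroots
  have hsum : ((r : ℂ) * s) • ∑ b, ((finrank ℂ (LinearMap.range (e b)) : ℂ)⁻¹) • hh e f b =
      ((s : ℂ) * (Fintype.card Φ : ℂ)) • y - ((r : ℂ) * (Fintype.card Φ : ℂ)) • (1 - y) := by
    have h1 : ∑ b, ((finrank ℂ (LinearMap.range (e b)) : ℂ)⁻¹) • hh e f b =
        (∑ b, ((finrank ℂ (LinearMap.range (e b)) : ℂ)⁻¹) • (e b * f b)) -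
        ∑ b, ((finrank ℂ (LinearMap.range (e b)) : ℂ)⁻¹) • (f b * e b) := by
      rw [← Finset.sum_sub_distrib]
      refine Finset.sum_congr rfl fun b _ => ?_
      unfold hh
      rw [smul_sub]
    rw [h1, smul_sub, mul_comm (r : ℂ) (s : ℂ), mul_smul, hC1, mul_comm (s : ℂ) (r : ℂ),
      mul_smul, hC2, mul_smul, mul_smul]
  have htry : LinearMap.trace ℂ W (hh e f a * y) = (finrank ℂ (LinearMap.range (e a)) : ℂ) := by
    have h1 : hh e f a * y = (e a * f a) - f a * (e a * y) := by
      unfold hh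
      rw [sub_mul, mul_assoc, R.fy a, mul_assoc]
    rw [h1, R.ey a, mul_zero, sub_zero, R.trace_ef a]
  have htr1 : LinearMap.trace ℂ W (hh e f a) = 0 := by
    unfold hh
    rw [map_sub, LinearMap.trace_mul_comm, sub_self]
  have htry' : LinearMap.trace ℂ W (hh e f a * (1 - y)) =
      - (finrank ℂ (LinearMap.range (e a)) : ℂ) := by
    rw [mul_sub, mul_one, map_sub, htry, htr1, zero_sub]
  have hleft : LinearMap.trace ℂ W (hh e f a *
      (((r : ℂ) * s) • ∑ b, ((finrank ℂ (LinearMap.range (e b)) : ℂ)⁻¹) • hh e f b)) =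
      ((r : ℂ) * s) * ∑ b, (c a b : ℂ) := by
    rw [mul_smul_comm, map_smul, smul_eq_mul, Finset.mul_sum, map_sum]
    congr 1
    refine Finset.sum_congr rfl fun b _ => ?_
    rw [mul_smul_comm, map_smul, R.trace_hh hc a b, smul_eq_mul, mul_comm (c a b : ℂ),
      inv_mul_cancel_left₀ (hk0 b)]
  rw [hsum, mul_sub, mul_smul_comm, mul_smul_comm, map_sub, map_smul, map_smul, htry, htry',
    smul_eq_mul, smul_eq_mul] at hleft
  have hfin : ((r * s * ∑ b, c a b : ℕ) : ℂ) =
      ((finrank ℂ (LinearMap.range (e a)) * Fintype.card Φ * (r + s) : ℕ) : ℂ) := by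
    push_cast
    rw [← hleft]
    ring
  exact_mod_cast hfin

end Pool.Agent.Lib.MP_021685_ag.Cop
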