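import Pool.Agent.Lib.MP_021685_ag.UT.Cop4

set_option autoImplicit false

namespace Pool.Agent.Lib.MP_021685_ag.Cop

open Module LinearMap

variable {W : Type*} [AddCommGroup W] [Module ℂ W] [FiniteDimensional ℂ W]

variable {g : Submodule ℂ (Module.End ℂ W)} {y : Module.End ℂ W}

variable {Φ : Type} [Fintype Φ] [DecidableEq Φ] {e f : Φ → Module.End ℂ W}

/-! Elementary identities. -/

private lemma c5_yE (R : RD g y e f) (a : Φ) : y * (e a * f a) = e a * f a := by
  rw [← mul_assoc, R.ye]

private lemma c5_Ey (R : RD g y e f) (a : Φ) : (e a * f a) * y = e a * f a := by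
  rw [mul_assoc, R.fy]

private lemma c5_yF (R : RD g y e f) (a : Φ) : y * (f a * e a) = 0 := by
  rw [← mul_assoc, R.yf, zero_mul]

private lemma c5_Fy (R : RD g y e f) (a : Φ) : (f a * e a) * y = 0 := by
  rw [mul_assoc, R.ey, mul_zero]

private lemma c5_EE (R : RD g y e f) (a : Φ) : (e a * f a) * (e a * f a) = e a * f a := by
  rw [← mul_assoc, R.efe]

private lemma c5_FF (R : RD g y e f) (a : Φ) : (f a * e a) * (f a * e a) = f a * e a := by
  rw [← mul_assoc, R.fef]

private lemma c5_ee (R : RD g y e f) (a : Φ) : e a * e a = 0 := by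
  calc e a * e a = e a * (y * e a) := by rw [R.ye]
    _ = 0 := by rw [← mul_assoc, R.ey, zero_mul]

private lemma c5_ff (R : RD g y e f) (a : Φ) : f a * f a = 0 := by
  calc f a * f a = (f a * y) * f a := by rw [R.fy]
    _ = 0 := by rw [mul_assoc, R.yf, mul_zero]

private lemma c5_EF (R : RD g y e f) (a : Φ) : (e a * f a) * (f a * e a) = 0 := by
  calc (e a * f a) * (f a * e a) = e a * (f a * f a) * e a := by simp only [mul_assoc]
    _ = 0 := by rw [c5_ff R, mul_zero, zero_mul]

private lemma c5_FE (R : RD g y e f) (a : Φ) : (f a * e a) * (e a * f a) = 0 := by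
  calc (f a * e a) * (e a * f a) = f a * (e a * e a) * f a := by simp only [mul_assoc]
    _ = 0 := by rw [c5_ee R, mul_zero, zero_mul]

private lemma c5_yh (R : RD g y e f) (a : Φ) : y * hh e f a = e a * f a := by
  rw [hh, mul_sub, c5_yE R, c5_yF R, sub_zero]

private lemma c5_hy (R : RD g y e f) (a : Φ) : hh e f a * y = e a * f a := by
  rw [hh, sub_mul, c5_Ey R, c5_Fy R, sub_zero]

private lemma c5_comm (R : RD g y e f) (a b : Φ) : hh e f a * hh e f b = hh e f b * hh e f a := by
  obtain ⟨c, hc⟩ := R.wt
  obtain ⟨h1, h2⟩ := hc a b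
  have e1 : hh e f a * e b = e b * hh e f a + c a b • e b := by rw [← h1]; abel
  have e2 : hh e f a * f b = f b * hh e f a - c a b • f b := by
    have : hh e f a * f b = f b * hh e f a + (- c a b • f b) := by rw [← h2]; abel
    rw [this, neg_smul, sub_eq_add_neg]
  have e3 : hh e f a * (e b * f b) = (e b * f b) * hh e f a := by
    rw [← mul_assoc, e1, add_mul, mul_assoc, e2, mul_sub, smul_mul_assoc, mul_smul_comm, mul_assoc]
    abel
  have e4 : hh e f a * (f b * e b) = (f b * e b) * hh e f a := by
    rw [← mul_assoc, e2, sub_mul, mul_assoc, e1, mul_add, smul_mul_assoc, mul_smul_comm, mul_assoc]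
    abel
  have e5 : hh e f b = e b * f b - f b * e b := rfl
  rw [e5, mul_sub, sub_mul, e3, e4]

private lemma c5_Eh (R : RD g y e f) (a b : Φ) : (e a * f a) * hh e f b = hh e f b * (e a * f a) := by
  rw [← c5_yh R a, mul_assoc, c5_comm R a b, ← mul_assoc, ← mul_assoc, c5_yh R b, ← c5_hy R b]

private lemma c5_Fh (R : RD g y e f) (a b : Φ) : (f a * e a) * hh e f b = hh e f b * (f a * e a) := by
  have h1 : f a * e a = e a * f a - hh e f a := by rw [hh]; abel
  rw [h1, sub_mul, mul_sub, c5_Eh R, c5_comm R a b]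

/-- the vectors which are eigenvectors for `y` and the members of `s`. -/
private def c5P (y : Module.End ℂ W) (e f : Φ → Module.End ℂ W) (s : Finset Φ) (v : W) : Prop :=
  (y v = v ∧ ∀ a ∈ s, hh e f a v = v ∨ hh e f a v = 0) ∨
    (y v = 0 ∧ ∀ a ∈ s, hh e f a v = -v ∨ hh e f a v = 0)

private lemma c5_span (R : RD g y e f) (yy : y * y = y) (s : Finset Φ) :
    ⊤ ≤ Submodule.span ℂ {v | c5P y e f s v} := by
  induction s using Finset.induction_on with
  | empty =>
    intro v _
    have h1 : v = y v + (v - y v) := by abel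
    have h2 : y (y v) = y v := LinearMap.congr_fun yy v
    rw [h1]
    refine Submodule.add_mem _ (Submodule.subset_span ?_) (Submodule.subset_span ?_)
    · exact Or.inl ⟨h2, fun a ha => absurd ha (Finset.notMem_empty a)⟩
    · exact Or.inr ⟨by rw [map_sub, h2, sub_self], fun a ha => absurd ha (Finset.notMem_empty a)⟩
  | insert a s has ih =>
    refine ih.trans (Submodule.span_le.2 ?_)
    have hE : hh e f a = e a * f a - f a * e a := rfl
    rintro v (⟨h1, h2⟩ | ⟨h1, h2⟩)
    · have h3 : v = (e a * f a) v + (v - (e a * f a) v) := by abel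
      have hEy : y ((e a * f a) v) = (e a * f a) v := LinearMap.congr_fun (c5_yE R a) v
      have hcomm : ∀ b, hh e f b ((e a * f a) v) = (e a * f a) (hh e f b v) := fun b =>
        (LinearMap.congr_fun (c5_Eh R a b) v).symm
      have hF0 : (f a * e a) v = 0 := by
        have := LinearMap.congr_fun (c5_Fy R a) v
        rw [Module.End.mul_apply, h1] at this
        exact this
      have hEE : (e a * f a) ((e a * f a) v) = (e a * f a) v := LinearMap.congr_fun (c5_EE R a) v
      have hFE : (f a * e a) ((e a * f a) v) = 0 := LinearMap.congr_fun (c5_FE R a) v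
      rw [h3]
      refine Submodule.add_mem _ (Submodule.subset_span (Or.inl ⟨hEy, ?_⟩))
        (Submodule.subset_span (Or.inl ⟨by rw [map_sub, h1, hEy], ?_⟩))
      · intro b hb
        rcases Finset.mem_insert.1 hb with rfl | hb
        · left
          rw [hE, LinearMap.sub_apply, hEE, hFE, sub_zero]
        · rcases h2 b hb with h4 | h4
          · left
            rw [hcomm, h4]
          · right
            rw [hcomm, h4, map_zero]
      · intro b hb
        rcases Finset.mem_insert.1 hb with rfl | hb
        · right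
          rw [map_sub, hE, LinearMap.sub_apply, LinearMap.sub_apply, hEE, hFE, hF0]
          abel
        · rcases h2 b hb with h4 | h4
          · left
            rw [map_sub, hcomm, h4]
          · right
            rw [map_sub, hcomm, h4, map_zero, sub_zero]
    · have h3 : v = (f a * e a) v + (v - (f a * e a) v) := by abel
      have hEy : y ((f a * e a) v) = 0 := LinearMap.congr_fun (c5_yF R a) v
      have hcomm : ∀ b, hh e f b ((f a * e a) v) = (f a * e a) (hh e f b v) := fun b =>
        (LinearMap.congr_fun (c5_Fh R a b) v).symm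
      have hE0 : (e a * f a) v = 0 := by
        have := LinearMap.congr_fun (c5_Ey R a) v
        rw [Module.End.mul_apply, h1, map_zero] at this
        exact this.symm
      have hFF : (f a * e a) ((f a * e a) v) = (f a * e a) v := LinearMap.congr_fun (c5_FF R a) v
      have hEF : (e a * f a) ((f a * e a) v) = 0 := LinearMap.congr_fun (c5_EF R a) v
      rw [h3]
      refine Submodule.add_mem _ (Submodule.subset_span (Or.inr ⟨hEy, ?_⟩))
        (Submodule.subset_span (Or.inr ⟨by rw [map_sub, h1, hEy, sub_zero], ?_⟩))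
      · intro b hb
        rcases Finset.mem_insert.1 hb with rfl | hb
        · left
          rw [hE, LinearMap.sub_apply, hFF, hEF, zero_sub]
        · rcases h2 b hb with h4 | h4
          · left
            rw [hcomm, h4, map_neg]
          · right
            rw [hcomm, h4, map_zero]
      · intro b hb
        rcases Finset.mem_insert.1 hb with rfl | hb
        · right
          rw [map_sub, hE, LinearMap.sub_apply, LinearMap.sub_apply, hFF, hEF, hE0]
          abel
        · rcases h2 b hb with h4 | h4
          · left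
            rw [map_sub, hcomm, h4, map_neg]
            abel
          · right
            rw [map_sub, hcomm, h4, map_zero, sub_zero]

/-- Job COP5. A basis of simultaneous eigenvectors of `y` and of all the `hh a`.

Proof. `y` is an idempotent; `hh a = E - F` with idempotents `E = e a f a`, `F = f a e a`, `E F = F E = 0`, `y E = E y = E`, `y F = F y = 0`. All these operators commute: `hh a` and `hh b` commute because of `wt` (`[hh a, e b f b] = 0`),
and `e a f a = y hh a`, `f a e a = - (1 - y) hh a`. `Module.End.iSup_iInf_eq_top_of_commute` (or a similar lemma) gives simultaneous eigenvectors; `ε k = 1` or `0` is the eigenvalue of `y`, `μ a k` the eigenvalue of `hh a`. -/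
theorem RD.exists_basis (R : RD g y e f) (yy : y * y = y) : ∃ (κ : Type) (_ : Fintype κ) (_ : DecidableEq κ) (w : Basis κ ℂ W) (ε : κ → Prop) (μ : Φ → κ → ℤ),
    (∀ k, ε k → y (w k) = w k) ∧ (∀ k, ¬ ε k → y (w k) = 0) ∧ (∀ a k, hh e f a (w k) = (μ a k : ℂ) • w k) ∧
    (∀ a k, ε k → μ a k = 0 ∨ μ a k = 1) ∧ (∀ a k, ¬ ε k → μ a k = 0 ∨ μ a k = -1) := by
  classical
  let b0 := Basis.ofSpan (c5_span R yy Finset.univ)
  have hb0 : ∀ k, c5P y e f Finset.univ (b0 k) := by
    intro k
    exact Basis.ofSpan_subset (c5_span R yy Finset.univ) ⟨k, rfl⟩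
  let _ : Fintype _ := FiniteDimensional.fintypeBasisIndex b0
  let w := b0.reindex (Fintype.equivFin _)
  have hw : ∀ k, c5P y e f Finset.univ (w k) := by
    intro k
    rw [Basis.reindex_apply]
    exact hb0 _
  have hne : ∀ k, w k ≠ 0 := fun k => w.ne_zero k
  refine ⟨_, inferInstance, inferInstance, w, fun k => y (w k) = w k,
    fun a k => if y (w k) = w k then (if hh e f a (w k) = w k then 1 else 0)
      else (if hh e f a (w k) = -w k then -1 else 0), fun k hk => hk, ?_, ?_, ?_, ?_⟩
  · intro k hk
    rcases hw k with ⟨h1, -⟩ | ⟨h1, -⟩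
    · exact absurd h1 hk
    · exact h1
  · intro a k
    rcases hw k with ⟨h1, h2⟩ | ⟨h1, h2⟩
    · simp only [if_pos h1]
      rcases h2 a (Finset.mem_univ a) with h3 | h3
      · simp [h3]
      · rw [if_neg (by rw [h3]; exact (hne k).symm), h3]
        simp
    · have h4 : ¬ y (w k) = w k := by rw [h1]; exact (hne k).symm
      simp only [if_neg h4]
      rcases h2 a (Finset.mem_univ a) with h3 | h3
      · simp [h3]
      · rw [if_neg (by rw [h3]; exact (neg_ne_zero.2 (hne k)).symm), h3]
        simp
  · intro a k hk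
    simp only [if_pos hk]
    split_ifs
    · exact Or.inr rfl
    · exact Or.inl rfl
  · intro a k hk
    simp only [if_neg hk]
    split_ifs
    · exact Or.inr rfl
    · exact Or.inl rfl

/-- Job COP5. Coroots are determined by their traces. Proof: in the basis of `exists_basis` the trace of `t ^ 2` for `t = p • hh a - q • hh b` (`p, q` integers) is the sum of the squares of the integers `p μ a k - q μ b k`; so if it
vanishes, `p hh a = q hh b`. Part one: `p = q = 1`. Part two: `p = k b`, `q = k a`... -/
theorem RD.eq_of_trace (R : RD g y e f) (yy : y * y = y) (a b : Φ) (p q : ℤ)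
    (h : LinearMap.trace ℂ W (((p : ℂ) • hh e f a - (q : ℂ) • hh e f b) * ((p : ℂ) • hh e f a - (q : ℂ) • hh e f b)) = 0) :
    (p : ℂ) • hh e f a = (q : ℂ) • hh e f b := by
  obtain ⟨κ, _, _, w, ε, μ, -, -, hμ, -, -⟩ := R.exists_basis yy
  have ht : ∀ k, ((p : ℂ) • hh e f a - (q : ℂ) • hh e f b) (w k) = ((p * μ a k - q * μ b k : ℤ) : ℂ) • w k := by
    intro k
    rw [LinearMap.sub_apply, LinearMap.smul_apply, LinearMap.smul_apply, hμ, hμ, smul_smul, smul_smul, ← sub_smul]
    push_cast
    rfl
  rw [LinearMap.trace_eq_matrix_trace ℂ w, Matrix.trace] at h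
  have h1 : ∀ k, (LinearMap.toMatrix w w (((p : ℂ) • hh e f a - (q : ℂ) • hh e f b) *
      ((p : ℂ) • hh e f a - (q : ℂ) • hh e f b))).diag k = (((p * μ a k - q * μ b k) ^ 2 : ℤ) : ℂ) := by
    intro k
    rw [Matrix.diag_apply, LinearMap.toMatrix_apply, Module.End.mul_apply, ht, map_smul, ht, smul_smul]
    simp [pow_two]
  rw [Finset.sum_congr rfl fun k _ => h1 k] at h
  have h2 : ∑ k, (p * μ a k - q * μ b k) ^ 2 = 0 := by exact_mod_cast h
  have h3 := (Finset.sum_eq_zero_iff_of_nonneg (fun k _ => sq_nonneg (p * μ a k - q * μ b k))).1 h2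
  rw [← sub_eq_zero]
  refine w.ext fun k => ?_
  rw [ht, LinearMap.zero_apply]
  have h4 : p * μ a k - q * μ b k = 0 := pow_eq_zero_iff (two_ne_zero) |>.1 (h3 k (Finset.mem_univ k))
  rw [h4]
  simp

/-- Job COP5. Different root vectors have different weights. Proof: suppose `c a b = c a b'` for all `a`. With `k = finrank (range (e ·))`: `tr(hh a hh b) = c a b k b` (`trace_hh`), so `tr(hh a (k b' hh b - k b hh b')) = 0` for all `a`,
hence `tr(t t) = 0` for `t = k b' hh b - k b hh b'`, `t = 0` by `eq_of_trace`. Multiply by `y`: `k b' E b = k b E b'` with nonzero idempotents `E b = e b f b`, `E b'`: so `k b = k b'` (traces: `k b' k b = k b k b'` is no information; square: `k b' ^ 2 E b = k b ^ 2 E b'`, so `k b' E b (k b' - k b) = 0`). Then `hh b = hh b'`, `b = b'` by `hinj`. -/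
theorem RD.wt_inj (R : RD g y e f) (yy : y * y = y) {c : Φ → Φ → ℕ} (hc : ∀ a b, hh e f a * e b - e b * hh e f a = (c a b : ℂ) • e b)
    {b b' : Φ} (hb : ∀ a, c a b = c a b') : b = b' := by
  generalize hk : finrank ℂ (LinearMap.range (e b)) = k
  generalize hk' : finrank ℂ (LinearMap.range (e b')) = k'
  have hk0 : 0 < k := hk ▸ R.rk_pos b
  have hk0' : 0 < k' := hk' ▸ R.rk_pos b'
  have hkC : (k : ℂ) ≠ 0 := by exact_mod_cast hk0.ne'
  have hkC' : (k' : ℂ) ≠ 0 := by exact_mod_cast hk0'.ne'
  have h1 : ∀ a, LinearMap.trace ℂ W (hh e f a * (((k' : ℤ) : ℂ) • hh e f b - ((k : ℤ) : ℂ) • hh e f b')) = 0 := by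
    intro a
    rw [mul_sub, mul_smul_comm, mul_smul_comm, map_sub, map_smul, map_smul, R.trace_hh hc, R.trace_hh hc, hb a, hk, hk']
    simp only [smul_eq_mul, Int.cast_natCast]
    ring
  have h2 : (((k' : ℤ) : ℂ) • hh e f b) = ((k : ℤ) : ℂ) • hh e f b' := by
    refine R.eq_of_trace yy b b' k' k ?_
    rw [sub_mul, smul_mul_assoc, smul_mul_assoc, map_sub, map_smul, map_smul, h1, h1]
    simp
  simp only [Int.cast_natCast] at h2
  have h3 : (k' : ℂ) • (e b * f b) = (k : ℂ) • (e b' * f b') := by
    rw [← c5_yh R b, ← c5_yh R b', ← mul_smul_comm, ← mul_smul_comm, h2]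
  have h4 : ((k' : ℂ) * k') • (e b * f b) = ((k : ℂ) * k) • (e b' * f b') := by
    have h5 := congrArg (fun t => t * t) h3
    simp only [smul_mul_assoc, mul_smul_comm, smul_smul] at h5
    rw [c5_EE R, c5_EE R] at h5
    exact h5
  have hne : e b' * f b' ≠ 0 := by
    intro h0
    apply R.ne b'
    rw [← R.efe b', h0, zero_mul]
  have h5 : ((k : ℂ) * (k' - k)) • (e b' * f b') = 0 := by
    rw [mul_smul, h3, smul_smul, ← sub_eq_zero] at h4
    rw [← h4, ← sub_smul]
    congr 1
    ring
  have h6 : (k : ℂ) * (k' - k) = 0 := (smul_eq_zero.1 h5).resolve_right hne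
  have h7 : (k' : ℂ) = k := sub_eq_zero.1 ((mul_eq_zero.1 h6).resolve_left hkC)
  apply R.hinj
  rw [h7] at h2
  exact smul_right_injective _ hkC h2

end Pool.Agent.Lib.MP_021685_ag.Cop
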