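import Pool.Agent.Lib.MP_021685_ag.UT.CopDefs
import Pool.Agent.Lib.MP_021685_ag.UT.Cop5

set_option autoImplicit false

namespace Pool.Agent.Lib.MP_021685_ag.Cop

open Module LinearMap

variable {W : Type*} [AddCommGroup W] [Module ℂ W] [FiniteDimensional ℂ W]

variable {g : Submodule ℂ (Module.End ℂ W)} {y : Module.End ℂ W}

variable {Φ : Type} [Fintype Φ] [DecidableEq Φ] {e f : Φ → Module.End ℂ W}

/-- The rank is at most the number of nonzero entries. -/
private lemma Cop6_rank_le {κ : Type} [Fintype κ] [DecidableEq κ] (w : Basis κ ℂ W)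
    (x : Module.End ℂ W) (S : Finset (κ × κ))
    (hS : ∀ k l, w.repr (x (w l)) k ≠ 0 → (k, l) ∈ S) :
    finrank ℂ (LinearMap.range x) ≤ S.card := by
  classical
  set L : Finset κ := S.image Prod.snd with hL
  have h1 : LinearMap.range x ≤ Submodule.span ℂ ((L.image (fun l => x (w l)) : Finset W) : Set W) := by
    rintro _ ⟨v, rfl⟩
    rw [← w.sum_repr v, map_sum]
    refine Submodule.sum_mem _ fun l _ => ?_
    rw [map_smul]
    refine Submodule.smul_mem _ _ ?_
    by_cases h0 : x (w l) = 0
    · rw [h0]
      exact Submodule.zero_mem _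
    · have h2 : ∃ k, w.repr (x (w l)) k ≠ 0 := by
        by_contra hcon
        push Not at hcon
        apply h0
        apply w.repr.injective
        ext k
        rw [hcon k, map_zero]
        rfl
      obtain ⟨k, hk⟩ := h2
      refine Submodule.subset_span ?_
      rw [Finset.mem_coe]
      refine Finset.mem_image_of_mem _ ?_
      rw [hL]
      exact Finset.mem_image.2 ⟨(k, l), hS k l hk, rfl⟩
  calc finrank ℂ (LinearMap.range x)
      ≤ finrank ℂ (Submodule.span ℂ ((L.image (fun l => x (w l)) : Finset W) : Set W)) :=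
        Submodule.finrank_mono h1
    _ ≤ (L.image (fun l => x (w l))).card := finrank_span_finset_le_card _
    _ ≤ L.card := Finset.card_image_le
    _ ≤ S.card := Finset.card_image_le

/-- The number of basis vectors fixed by `P` is at most the rank of `P`. -/
private lemma Cop6_card_le {κ : Type} [Fintype κ] [DecidableEq κ] (w : Basis κ ℂ W)
    (P : Module.End ℂ W) (A : Finset κ) (hA : ∀ k ∈ A, P (w k) = w k) :
    A.card ≤ finrank ℂ (LinearMap.range P) := by
  have h1 : LinearIndependent ℂ (fun k : A => (⟨w k.1, ⟨w k.1, hA k.1 k.2⟩⟩ : LinearMap.range P)) := by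
    have h2 : LinearIndependent ℂ (fun k : A => w k.1) :=
      w.linearIndependent.comp (fun k : A => k.1) Subtype.val_injective
    exact LinearIndependent.of_comp (LinearMap.range P).subtype h2
  have h3 := h1.fintype_card_le_finrank
  rwa [Fintype.card_coe] at h3

/-- Job COP6. The counting lemma.

Proof. Take the basis `w` of `exists_basis`. The entry of `x b` at `(k, l)` (coefficient of `w k` in `x b (w l)`) is nonzero only if `μ a k - μ a l = c a b` for all `a`; so the supports of the matrices of the `x b`, `b ∈ Ψ`, are pairwise disjoint by `wt_inj`.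
The idempotents `P`, `Q` are diagonal in the basis `w` by `hP`, `hQ` (each `w k` is an eigenvector of `P`: it is a polynomial in `y`, `hh a`; here simply assumed), and `x b = P x b Q` implies that nonzero entries have `k` in the set of indices with `P (w k) = w k`, of cardinality `finrank (range P)`, and `l` in the corresponding set for `Q`.
The rank of a matrix is at most the number of its nonzero entries. -/
theorem RD.count (R : RD g y e f) (yy : y * y = y) {c : Φ → Φ → ℕ} (hc : ∀ a b, hh e f a * e b - e b * hh e f a = (c a b : ℂ) • e b)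
    {κ : Type} [Fintype κ] [DecidableEq κ] (w : Basis κ ℂ W) (μ : Φ → κ → ℤ) (hw : ∀ a k, hh e f a (w k) = (μ a k : ℂ) • w k)
    (P Q : Module.End ℂ W) (hP : ∀ k, P (w k) = w k ∨ P (w k) = 0) (hQ : ∀ k, Q (w k) = w k ∨ Q (w k) = 0)
    (Ψ : Finset Φ) (x : Φ → Module.End ℂ W) (hx : ∀ b ∈ Ψ, P * x b * Q = x b) (hx' : ∀ b ∈ Ψ, ∀ a, hh e f a * x b - x b * hh e f a = (c a b : ℂ) • x b) :
    ∑ b ∈ Ψ, finrank ℂ (LinearMap.range (x b)) ≤ finrank ℂ (LinearMap.range P) * finrank ℂ (LinearMap.range Q) := by
  classical
  -- coordinates of `T v` for a diagonal operator `T`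
  have hdiag : ∀ (T : Module.End ℂ W) (t : κ → ℂ), (∀ k, T (w k) = t k • w k) →
      ∀ v k, w.repr (T v) k = t k * w.repr v k := by
    intro T t hT v k
    have h1 : T v = ∑ l, (t l * w.repr v l) • w l := by
      conv_lhs => rw [← w.sum_repr v]
      rw [map_sum]
      refine Finset.sum_congr rfl fun l _ => ?_
      rw [map_smul, hT l, smul_smul, mul_comm]
    rw [h1, w.repr_sum_self]
  set S : Φ → Finset (κ × κ) := fun b =>
    Finset.univ.filter (fun z : κ × κ => w.repr (x b (w z.2)) z.1 ≠ 0) with hS
  set A : Finset κ := Finset.univ.filter (fun k => P (w k) = w k) with hA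
  set B : Finset κ := Finset.univ.filter (fun k => Q (w k) = w k) with hB
  have hsub : ∀ b ∈ Ψ, S b ⊆ A ×ˢ B := by
    intro b hb z hz
    rw [hS, Finset.mem_filter] at hz
    have hz2 := hz.2
    have h1 : x b (w z.2) = P (x b (Q (w z.2))) := by
      conv_lhs => rw [← hx b hb]
      rfl
    rw [Finset.mem_product, hA, hB, Finset.mem_filter, Finset.mem_filter]
    have h2 : Q (w z.2) = w z.2 := by
      rcases hQ z.2 with h | h
      · exact h
      · exfalso
        apply hz2
        rw [h1, h, map_zero, map_zero, map_zero]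
        rfl
    refine ⟨⟨Finset.mem_univ _, ?_⟩, Finset.mem_univ _, h2⟩
    rcases hP z.1 with h | h
    · exact h
    · exfalso
      apply hz2
      rw [h1]
      have h3 : ∀ k, P (w k) = (if P (w k) = w k then (1 : ℂ) else 0) • w k := by
        intro k
        split_ifs with h4
        · rw [one_smul]
          exact h4
        · rw [zero_smul]
          exact (hP k).resolve_left h4
      rw [hdiag P _ h3, if_neg, zero_mul]
      intro h5
      rw [h] at h5
      exact w.ne_zero z.1 h5.symm
  have hdisj : ∀ b ∈ Ψ, ∀ b' ∈ Ψ, b ≠ b' → Disjoint (S b) (S b') := by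
    intro b hb b' hb' hne
    rw [Finset.disjoint_left]
    intro z hz hz'
    rw [hS, Finset.mem_filter] at hz hz'
    apply hne
    have hkey : ∀ b ∈ Ψ, w.repr (x b (w z.2)) z.1 ≠ 0 →
        ∀ a, (c a b : ℂ) = (μ a z.1 : ℂ) - (μ a z.2 : ℂ) := by
      intro b hb hz a
      have h1 := congrArg (fun T : Module.End ℂ W => w.repr (T (w z.2)) z.1) (hx' b hb a)
      simp only [LinearMap.sub_apply, Module.End.mul_apply, LinearMap.smul_apply, map_sub,
        Finsupp.sub_apply, map_smul, Finsupp.smul_apply, smul_eq_mul] at h1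
      rw [hdiag (hh e f a) (fun k => (μ a k : ℂ)) (hw a), hw a z.2, map_smul, map_smul,
        Finsupp.smul_apply, smul_eq_mul, ← sub_mul] at h1
      exact (mul_right_cancel₀ hz h1).symm
    refine R.wt_inj yy hc fun a => ?_
    have h1 := hkey b hb hz.2 a
    have h2 := hkey b' hb' hz'.2 a
    have h3 : (c a b : ℂ) = (c a b' : ℂ) := by rw [h1, h2]
    exact_mod_cast h3
  calc ∑ b ∈ Ψ, finrank ℂ (LinearMap.range (x b)) ≤ ∑ b ∈ Ψ, (S b).card := by
        refine Finset.sum_le_sum fun b _ => Cop6_rank_le w (x b) (S b) fun k l h => ?_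
        rw [hS, Finset.mem_filter]
        exact ⟨Finset.mem_univ _, h⟩
    _ = (Ψ.biUnion S).card := (Finset.card_biUnion hdisj).symm
    _ ≤ (A ×ˢ B).card := Finset.card_le_card (Finset.biUnion_subset.2 hsub)
    _ = A.card * B.card := Finset.card_product _ _
    _ ≤ finrank ℂ (LinearMap.range P) * finrank ℂ (LinearMap.range Q) :=
        Nat.mul_le_mul (Cop6_card_le w P A fun k hk => (Finset.mem_filter.1 hk).2)
          (Cop6_card_le w Q B fun k hk => (Finset.mem_filter.1 hk).2)

end Pool.Agent.Lib.MP_021685_ag.Cop
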