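import Pool.Agent.Lib.MP_021685_ag.UT.Cop1
import Pool.Agent.Lib.MP_021685_ag.UT.Cop5
import Pool.Agent.Lib.MP_021685_ag.UT.Cop6

set_option autoImplicit false

namespace Pool.Agent.Lib.MP_021685_ag.Cop

open Module LinearMap

variable {W : Type*} [AddCommGroup W] [Module ℂ W] [FiniteDimensional ℂ W]

variable {g : Submodule ℂ (Module.End ℂ W)} {y : Module.End ℂ W}

variable {Φ : Type} [Fintype Φ] [DecidableEq Φ] {e f : Φ → Module.End ℂ W}

private lemma c7_idem_trace {P : Module.End ℂ W} (h : P * P = P) :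
    LinearMap.trace ℂ W P = (finrank ℂ (LinearMap.range P) : ℂ) :=
  (LinearMap.IsIdempotentElem.isProj_range P h).trace

omit [FiniteDimensional ℂ W] in
private lemma c7_ker_range {P : Module.End ℂ W} (h : P * P = P) :
    LinearMap.range (1 - P) = LinearMap.ker P := by
  ext u
  rw [LinearMap.mem_range, LinearMap.mem_ker]
  constructor
  · rintro ⟨v, rfl⟩
    have h1 : P * (1 - P) = 0 := by rw [mul_sub, mul_one, h, sub_self]
    have h2 := LinearMap.congr_fun h1 v
    simpa using h2
  · intro hu
    exact ⟨u, by simp [hu]⟩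

private lemma c7_rank_add (f₁ f₂ : Module.End ℂ W) :
    finrank ℂ (LinearMap.range (f₁ + f₂)) ≤ finrank ℂ (LinearMap.range f₁) + finrank ℂ (LinearMap.range f₂) := by
  have h1 : LinearMap.range (f₁ + f₂) ≤ LinearMap.range f₁ ⊔ LinearMap.range f₂ := by
    rintro _ ⟨v, rfl⟩
    exact Submodule.add_mem_sup ⟨v, rfl⟩ ⟨v, rfl⟩
  exact (Submodule.finrank_mono h1).trans (Submodule.finrank_add_le_finrank_add_finrank _ _)

/-- Job COP7. All root vectors have rank one and there are `r s` of them.

Proof. Let `k b = finrank (range (e b))`, `d = card Φ`. Since `gcd(r, s) = 1`, `gcd(r s, r + s) = 1` and `sum_c` gives `r s ∣ k a d`, hence `r s ≤ k a d` (both factors are positive) for all `a`. By `count` with `P = y`, `Q = 1 - y`, `x = e`, `Ψ = univ`: `∑ k b ≤ r s`.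
So `d r s ≤ ∑ b, k b d ≤ r s d`, thus `k b d = r s` for all `b`; in particular all `k b` are equal to one `k`. `Φ` is not empty (given). `sum_c`: `∑ b, c a b = r + s`. If `c a b = 2` then `tr(hh a hh b) = 2 k`, `tr(hh a hh a) = tr(hh b hh b) = 2 k` (`trace_hh`), so
`tr((hh a - hh b)²) = 0`, `hh a = hh b` and `a = b`. So exactly one `b` has `c a b = 2`, and `n₁ = r + s - 2` have `c a b = 1`. For these `e b = x b + x' b` as in `exists_c`, `k ≤ rank (x b) + rank (x' b)`, and `count` gives `∑ rank (x b) ≤ k (s - k)`, `∑ rank (x' b) ≤ (r - k) k`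
(`finrank (range (e a f a)) = k`, `finrank (range (1 - y - f a e a)) = s - k` etc.). So `k (r + s - 2) ≤ k (r + s - 2 k)`, `k ≤ 1`. Hence `k = 1` and `d = r s`. -/
theorem RD.main (h : Dat g y) (R : RD g y e f) {r s : ℕ} (hr : finrank ℂ (LinearMap.range y) = r) (hs : finrank ℂ (LinearMap.ker y) = s)
    (hr0 : 0 < r) (hs0 : 0 < s) (hrs : Nat.Coprime r s) (hΦ : Nonempty Φ) : Fintype.card Φ = r * s := by
  classical
  obtain ⟨c, hc2, hcaa, hce, hcf, hc1⟩ := R.exists_c
  obtain ⟨κ, _, _, w, ε, μ, hwy, hwy0, hwh, hμ1, hμ0⟩ := R.exists_basis h.yy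
  have yy := h.yy
  set k : Φ → ℕ := fun b => finrank ℂ (LinearMap.range (e b)) with hk
  have hkpos : ∀ b, 0 < k b := fun b => R.rk_pos b
  have hs' : finrank ℂ (LinearMap.range (1 - y)) = s := by rw [c7_ker_range yy, hs]
  have hdpos : 0 < Fintype.card Φ := Fintype.card_pos
  -- the sums
  have hsum : ∀ a, r * s * ∑ b, c a b = k a * Fintype.card Φ * (r + s) := fun a =>
    R.sum_c h hce hr hs hr0 hs0 a
  have hcop : Nat.Coprime (r * s) (r + s) := by
    refine Nat.Coprime.mul_left ?_ ?_
    · simpa using hrs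
    · simpa using hrs.symm
  have hle : ∀ a, r * s ≤ k a * Fintype.card Φ := fun a =>
    Nat.le_of_dvd (Nat.mul_pos (hkpos a) hdpos)
      (hcop.dvd_of_dvd_mul_right ⟨_, (hsum a).symm⟩)
  have hyw : ∀ j, y (w j) = w j ∨ y (w j) = 0 := fun j => by
    by_cases hj : ε j
    · exact Or.inl (hwy j hj)
    · exact Or.inr (hwy0 j hj)
  have h1yw : ∀ j, (1 - y) (w j) = w j ∨ (1 - y) (w j) = 0 := fun j => by
    rcases hyw j with hj | hj
    · right; simp [hj]
    · left; simp [hj]
  have hcount : ∑ b, k b ≤ r * s := by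
    have h1 := R.count yy hce w μ hwh y (1 - y) hyw h1yw Finset.univ e
      (fun b _ => by rw [R.ye, mul_sub, mul_one, R.ey, sub_zero]) (fun b _ a => hce a b)
    rw [hr, hs'] at h1
    exact h1
  have hkd : ∀ a, k a * Fintype.card Φ = r * s := by
    intro a
    by_contra hne
    have hlt : r * s < k a * Fintype.card Φ := lt_of_le_of_ne (hle a) (Ne.symm hne)
    have h1 : ∑ _b : Φ, r * s < ∑ b, k b * Fintype.card Φ :=
      Finset.sum_lt_sum (fun b _ => hle b) ⟨a, Finset.mem_univ _, hlt⟩
    rw [Finset.sum_const, Finset.card_univ, smul_eq_mul, ← Finset.sum_mul] at h1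
    have h2 := Nat.mul_le_mul_right (Fintype.card Φ) hcount
    rw [mul_comm (Fintype.card Φ) (r * s)] at h1
    omega
  obtain ⟨a⟩ := hΦ
  have hkeq : ∀ b, k b = k a := fun b =>
    Nat.eq_of_mul_eq_mul_right hdpos ((hkd b).trans (hkd a).symm)
  have hrspos : 0 < r * s := Nat.mul_pos hr0 hs0
  have hsumc : ∑ b, c a b = r + s := by
    have h1 := hsum a
    rw [hkd a] at h1
    exact Nat.eq_of_mul_eq_mul_left hrspos h1
  -- `c a b = 2` only for `b = a`
  have hc2' : ∀ b, c a b = 2 → b = a := by
    intro b hb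
    have t1 := R.trace_hh hce a b
    have t2 := R.trace_hh hce a a
    have t3 := R.trace_hh hce b b
    have t4 : LinearMap.trace ℂ W (hh e f b * hh e f a) = LinearMap.trace ℂ W (hh e f a * hh e f b) :=
      LinearMap.trace_mul_comm ℂ _ _
    have hkb : (finrank ℂ (LinearMap.range (e b)) : ℂ) = (finrank ℂ (LinearMap.range (e a)) : ℂ) := by
      exact_mod_cast hkeq b
    rw [hb, hkb] at t1
    rw [hcaa] at t2 t3
    rw [hkb] at t3
    have h1 := R.eq_of_trace yy a b 1 1 (by
      simp only [Int.cast_one, one_smul]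
      rw [sub_mul, mul_sub, mul_sub, map_sub, map_sub, map_sub, t4, t1, t2, t3]
      ring)
    simp only [Int.cast_one, one_smul] at h1
    exact (R.hinj a b h1).symm
  -- the diagonal idempotents
  have hEE : (e a * f a) * (e a * f a) = e a * f a := by
    rw [← mul_assoc, R.efe]
  have hFF : (f a * e a) * (f a * e a) = f a * e a := by
    rw [← mul_assoc, R.fef]
  have hyE : y * (e a * f a) = e a * f a := by rw [← mul_assoc, R.ye]
  have hEy : (e a * f a) * y = e a * f a := by rw [mul_assoc, R.fy]
  have hyF : y * (f a * e a) = 0 := by rw [← mul_assoc, R.yf, zero_mul]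
  have hFy : (f a * e a) * y = 0 := by rw [mul_assoc, R.ey, mul_zero]
  have hPP : (y - e a * f a) * (y - e a * f a) = y - e a * f a := by
    rw [sub_mul, mul_sub, mul_sub, yy, hyE, hEy, hEE]
    abel
  have hQQ : (1 - y - f a * e a) * (1 - y - f a * e a) = 1 - y - f a * e a := by
    simp only [sub_mul, mul_sub, mul_one, one_mul, yy, hyF, hFy, hFF]
    abel
  have hEw : ∀ j, (e a * f a) (w j) = w j ∨ (e a * f a) (w j) = 0 := by
    intro j
    have h1 : e a * f a = y * hh e f a := by
      unfold hh
      rw [mul_sub, hyE, hyF, sub_zero]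
    rw [h1, Module.End.mul_apply, hwh, map_smul]
    by_cases hj : ε j
    · rw [hwy j hj]
      rcases hμ1 a j hj with h2 | h2
      · right; rw [h2]; simp
      · left; rw [h2]; simp
    · right
      rw [hwy0 j hj, smul_zero]
  have hFw : ∀ j, (f a * e a) (w j) = w j ∨ (f a * e a) (w j) = 0 := by
    intro j
    have h1 : f a * e a = - ((1 - y) * hh e f a) := by
      unfold hh
      simp only [sub_mul, mul_sub, one_mul, hyE, hyF]
      abel
    rw [h1, LinearMap.neg_apply, Module.End.mul_apply, hwh, map_smul, LinearMap.sub_apply, Module.End.one_apply]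
    by_cases hj : ε j
    · right
      rw [hwy j hj, sub_self, smul_zero, neg_zero]
    · rw [hwy0 j hj, sub_zero]
      rcases hμ0 a j hj with h2 | h2
      · right; rw [h2]; simp
      · left; rw [h2]; simp
  have hPw : ∀ j, (y - e a * f a) (w j) = w j ∨ (y - e a * f a) (w j) = 0 := by
    intro j
    have h1 : y * (e a * f a) = e a * f a := hyE
    rcases hEw j with h2 | h2
    · right
      have h3 : y (w j) = w j := by
        have h4 := LinearMap.congr_fun h1 (w j)
        rw [Module.End.mul_apply, h2] at h4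
        exact h4
      rw [LinearMap.sub_apply, h2, h3, sub_self]
    · rw [LinearMap.sub_apply, h2, sub_zero]
      exact hyw j
  have hQw : ∀ j, (1 - y - f a * e a) (w j) = w j ∨ (1 - y - f a * e a) (w j) = 0 := by
    intro j
    rcases hFw j with h2 | h2
    · right
      have h3 : y (w j) = 0 := by
        have h4 := LinearMap.congr_fun hyF (w j)
        rw [Module.End.mul_apply, h2] at h4
        exact h4
      rw [LinearMap.sub_apply, LinearMap.sub_apply, h2, h3, Module.End.one_apply, sub_zero, sub_self]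
    · rw [LinearMap.sub_apply, h2, sub_zero]
      exact h1yw j
  -- their ranks
  have rE : finrank ℂ (LinearMap.range (e a * f a)) = k a := by
    have h1 := c7_idem_trace hEE
    rw [R.trace_ef a] at h1
    exact_mod_cast h1.symm
  have trF : LinearMap.trace ℂ W (f a * e a) = (k a : ℂ) := by
    rw [LinearMap.trace_mul_comm, R.trace_ef a]
  have rF : finrank ℂ (LinearMap.range (f a * e a)) = k a := by
    have h1 := c7_idem_trace hFF
    rw [trF] at h1
    exact_mod_cast h1.symm
  have try' : LinearMap.trace ℂ W y = (r : ℂ) := by rw [c7_idem_trace yy, hr]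
  have h1y : (1 - y) * (1 - y) = 1 - y := by
    simp only [sub_mul, mul_sub, mul_one, one_mul, yy]
    abel
  have tr1y : LinearMap.trace ℂ W (1 - y) = (s : ℂ) := by rw [c7_idem_trace h1y, hs']
  have rP : finrank ℂ (LinearMap.range (y - e a * f a)) + k a = r := by
    have h1 := c7_idem_trace hPP
    rw [map_sub, try', R.trace_ef a] at h1
    have h2 : (finrank ℂ (LinearMap.range (y - e a * f a)) : ℂ) + (k a : ℂ) = (r : ℂ) := by
      rw [← h1]
      ring
    exact_mod_cast h2
  have rQ : finrank ℂ (LinearMap.range (1 - y - f a * e a)) + k a = s := by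
    have h1 := c7_idem_trace hQQ
    rw [map_sub, tr1y, trF] at h1
    have h2 : (finrank ℂ (LinearMap.range (1 - y - f a * e a)) : ℂ) + (k a : ℂ) = (s : ℂ) := by
      rw [← h1]
      ring
    exact_mod_cast h2
  -- commutation with the coroots
  have hyh : ∀ a', hh e f a' * y = y * hh e f a' := by
    intro a'
    unfold hh
    rw [sub_mul, mul_sub, mul_assoc, R.fy, mul_assoc, R.ey, ← mul_assoc, R.ye, ← mul_assoc, R.yf,
      mul_zero, zero_mul]
  have hEh : ∀ a', hh e f a' * (e a * f a) = (e a * f a) * hh e f a' := by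
    intro a'
    have h1 := hce a' a
    have h2 := hcf a' a
    have h3 : hh e f a' * (e a * f a) - (e a * f a) * hh e f a' =
        (hh e f a' * e a - e a * hh e f a') * f a + e a * (hh e f a' * f a - f a * hh e f a') := by
      noncomm_ring
    rw [h1, h2, smul_mul_assoc, mul_smul_comm, neg_smul, add_neg_cancel] at h3
    exact sub_eq_zero.1 h3
  have hFh : ∀ a', hh e f a' * (f a * e a) = (f a * e a) * hh e f a' := by
    intro a'
    have h1 := hce a' a
    have h2 := hcf a' a
    have h3 : hh e f a' * (f a * e a) - (f a * e a) * hh e f a' =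
        (hh e f a' * f a - f a * hh e f a') * e a + f a * (hh e f a' * e a - e a * hh e f a') := by
      noncomm_ring
    rw [h1, h2, smul_mul_assoc, mul_smul_comm, neg_smul, neg_add_cancel] at h3
    exact sub_eq_zero.1 h3
  have hcomm : ∀ (P Q : Module.End ℂ W) (a' b : Φ), hh e f a' * P = P * hh e f a' →
      hh e f a' * Q = Q * hh e f a' →
      hh e f a' * (P * e b * Q) - (P * e b * Q) * hh e f a' = (c a' b : ℂ) • (P * e b * Q) := by
    intro P Q a' b hP hQ
    have h1 : hh e f a' * (P * e b * Q) - (P * e b * Q) * hh e f a' =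
        P * (hh e f a' * e b - e b * hh e f a') * Q := by
      rw [mul_assoc (P * e b) Q, ← hQ, ← mul_assoc, ← mul_assoc, hP]
      noncomm_ring
    rw [h1, hce a' b, mul_smul_comm, smul_mul_assoc]
  -- the two counts
  set Ψ : Finset Φ := Finset.univ.filter (fun b => c a b = 1) with hΨ
  have cnt1 := R.count yy hce w μ hwh (e a * f a) (1 - y - f a * e a) hEw hQw Ψ
    (fun b => (e a * f a) * e b * (1 - y - f a * e a))
    (fun b _ => by
      show (e a * f a) * ((e a * f a) * e b * (1 - y - f a * e a)) * (1 - y - f a * e a) = _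
      calc (e a * f a) * ((e a * f a) * e b * (1 - y - f a * e a)) * (1 - y - f a * e a)
          = ((e a * f a) * (e a * f a)) * e b * ((1 - y - f a * e a) * (1 - y - f a * e a)) := by
            simp only [mul_assoc]
        _ = _ := by rw [hEE, hQQ])
    (fun b _ a' => hcomm _ _ a' b (hEh a') (by
      rw [mul_sub, mul_sub, sub_mul, sub_mul, hFh, hyh, mul_one, one_mul]))
  have cnt2 := R.count yy hce w μ hwh (y - e a * f a) (f a * e a) hPw hFw Ψ
    (fun b => (y - e a * f a) * e b * (f a * e a))
    (fun b _ => by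
      show (y - e a * f a) * ((y - e a * f a) * e b * (f a * e a)) * (f a * e a) = _
      calc (y - e a * f a) * ((y - e a * f a) * e b * (f a * e a)) * (f a * e a)
          = ((y - e a * f a) * (y - e a * f a)) * e b * ((f a * e a) * (f a * e a)) := by
            simp only [mul_assoc]
        _ = _ := by rw [hPP, hFF])
    (fun b _ a' => hcomm _ _ a' b (by rw [mul_sub, sub_mul, hEh, hyh]) (hFh a'))
  have hkΨ : ∑ _b ∈ Ψ, k a ≤ k a * finrank ℂ (LinearMap.range (1 - y - f a * e a)) +
      finrank ℂ (LinearMap.range (y - e a * f a)) * k a := by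
    rw [rE] at cnt1
    rw [rF] at cnt2
    refine le_trans ?_ (add_le_add cnt1 cnt2)
    rw [← Finset.sum_add_distrib]
    refine Finset.sum_le_sum fun b hb => ?_
    rw [hΨ, Finset.mem_filter] at hb
    have h1 := hc1 a b hb.2
    have h2 : finrank ℂ (LinearMap.range (e b)) = k a := hkeq b
    rw [← h2]
    conv_lhs => rw [h1]
    exact c7_rank_add _ _
  rw [Finset.sum_const, smul_eq_mul] at hkΨ
  have hcard : Ψ.card + 2 = r + s := by
    rw [← hsumc]
    have h1 : ∑ b, c a b = ∑ b, ((if c a b = 1 then 1 else 0) + (if b = a then 2 else 0)) := by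
      refine Finset.sum_congr rfl fun b _ => ?_
      have h2 := hc2 a b
      by_cases hb : b = a
      · subst hb
        rw [hcaa]
        simp
      · have h3 : c a b ≠ 2 := fun h4 => hb (hc2' b h4)
        rw [if_neg hb]
        have h4 : c a b = 0 ∨ c a b = 1 := by omega
        rcases h4 with h4 | h4 <;> simp [h4]
    rw [h1, Finset.sum_add_distrib, Finset.sum_ite_eq' Finset.univ a, if_pos (Finset.mem_univ _),
      ← Finset.card_filter]
  have hka : k a = 1 := by
    have h1 := hkpos a
    have h2 : k a * Ψ.card ≤ k a * (finrank ℂ (LinearMap.range (1 - y - f a * e a)) +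
        finrank ℂ (LinearMap.range (y - e a * f a))) := by
      rw [mul_add]
      calc k a * Ψ.card = Ψ.card * k a := mul_comm _ _
        _ ≤ _ := hkΨ
        _ = _ := by rw [mul_comm (finrank ℂ (LinearMap.range (y - e a * f a))) (k a)]
    have h3 := Nat.le_of_mul_le_mul_left h2 h1
    omega
  have h1 := hkd a
  rw [hka, one_mul] at h1
  exact h1

/-- Job COP7. The theorem.

Proof. `g₁ ≠ 0` since otherwise `range y` (nonzero, not everything) or `ker y` is stable under `g`: if `g₁ = 0` then `ker y` is stable. So `Φ` is nonempty. The `e a` are linearly independent (`orth`, `trace_ef`, `rk_pos`), so `finrank (span (range e)) = r s`, and they are contained in the space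
of all `X` with `y X (1 - y) = X`, of dimension `r s`. -/
theorem cop (h : Dat g y) {r s : ℕ} (hr : finrank ℂ (LinearMap.range y) = r) (hs : finrank ℂ (LinearMap.ker y) = s)
    (hr0 : 0 < r) (hs0 : 0 < s) (hrs : Nat.Coprime r s) (X : Module.End ℂ W) (hX : y * X * (1 - y) = X) : X ∈ g := by
  classical
  have yy := h.yy
  have hy0 : y ≠ 0 := by
    rintro rfl
    rw [LinearMap.range_zero, finrank_bot] at hr
    omega
  obtain ⟨Φ, _, _, e, f, R⟩ := exists_rd h hy0
  have hΦ : Nonempty Φ := by
    by_contra hne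
    rw [not_nonempty_iff] at hne
    have hker : LinearMap.ker y = ⊥ ∨ LinearMap.ker y = ⊤ := by
      refine h.irr _ fun Z hZ u hu => ?_
      rw [LinearMap.mem_ker] at hu ⊢
      have h1 : y * Z - Z * y ∈ g := h.br y h.yg Z hZ
      have h2 : y * (y * Z - Z * y) - (y * Z - Z * y) * y ∈ g := h.br y h.yg _ h1
      have h3 : y * Z * (1 - y) ∈ g := by
        have h4 : y * Z * (1 - y) = (2 : ℂ)⁻¹ • ((y * (y * Z - Z * y) - (y * Z - Z * y) * y) +
            (y * Z - Z * y)) := by
          have h5 : (y * (y * Z - Z * y) - (y * Z - Z * y) * y) + (y * Z - Z * y) =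
              (2 : ℂ) • (y * Z * (1 - y)) := by
            have e1 : y * (y * Z) = y * Z := by rw [← mul_assoc, yy]
            have e2 : Z * y * y = Z * y := by rw [mul_assoc, yy]
            rw [two_smul, mul_sub, sub_mul, e1, e2, mul_sub, mul_one, ← mul_assoc y Z y]
            abel
          rw [h5, smul_smul]
          norm_num
        rw [h4]
        exact g.smul_mem _ (g.add_mem h2 h1)
      have h6 : y * Z * (1 - y) ∈ Submodule.span ℂ (Set.range e) := by
        refine R.span_e _ h3 ?_ ?_
        · rw [← mul_assoc, ← mul_assoc, yy]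
        · rw [mul_assoc, sub_mul, one_mul, yy, sub_self, mul_zero]
      rw [Set.range_eq_empty, Submodule.span_empty, Submodule.mem_bot] at h6
      have h7 := LinearMap.congr_fun h6 u
      simpa [hu] using h7
    rcases hker with h1 | h1
    · rw [h1, finrank_bot] at hs
      omega
    · exact hy0 (LinearMap.ker_eq_top.1 h1)
  have hcard := R.main h hr hs hr0 hs0 hrs hΦ
  -- linear independence
  have hli : LinearIndependent ℂ e := by
    rw [Fintype.linearIndependent_iff]
    intro t ht b
    have h1 : LinearMap.trace ℂ W ((∑ a, t a • e a) * f b) = 0 := by rw [ht, zero_mul, map_zero]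
    rw [Finset.sum_mul, map_sum, Finset.sum_eq_single b] at h1
    · rw [smul_mul_assoc, map_smul, R.trace_ef b, smul_eq_mul] at h1
      have h2 : ((finrank ℂ (LinearMap.range (e b)) : ℕ) : ℂ) ≠ 0 := by
        exact_mod_cast (R.rk_pos b).ne'
      exact (mul_eq_zero.1 h1).resolve_right h2
    · intro a _ hab
      rw [smul_mul_assoc, map_smul, R.orth a b hab, smul_zero]
    · intro hb
      exact absurd (Finset.mem_univ b) hb
  -- the space of all `X`
  let V₁ : Submodule ℂ (Module.End ℂ W) :=
    { carrier := {Z | y * Z * (1 - y) = Z}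
      add_mem' := by
        intro A B hA hB
        show y * (A + B) * (1 - y) = A + B
        rw [mul_add, add_mul]
        exact congrArg₂ (· + ·) hA hB
      zero_mem' := by
        show y * 0 * (1 - y) = 0
        rw [mul_zero, zero_mul]
      smul_mem' := by
        intro t A hA
        show y * (t • A) * (1 - y) = t • A
        rw [mul_smul_comm, smul_mul_assoc]
        exact congrArg (t • ·) hA }
  let T : V₁ →ₗ[ℂ] (LinearMap.ker y →ₗ[ℂ] LinearMap.range y) :=
    { toFun := fun Z => y.rangeRestrict ∘ₗ (Z : Module.End ℂ W) ∘ₗ (LinearMap.ker y).subtype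
      map_add' := by
        intro A B
        ext u
        simp
      map_smul' := by
        intro t A
        ext u
        simp }
  have hT : Function.Injective T := by
    rw [← LinearMap.ker_eq_bot, LinearMap.ker_eq_bot']
    intro Z hZ
    have hZV : y * (Z : Module.End ℂ W) * (1 - y) = Z := Z.2
    apply Subtype.ext
    show (Z : Module.End ℂ W) = 0
    rw [← hZV]
    ext u
    have h1 : (1 - y) u ∈ LinearMap.ker y := by
      rw [← c7_ker_range yy]
      exact ⟨u, rfl⟩
    have h2 := LinearMap.congr_fun hZ ⟨(1 - y) u, h1⟩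
    have h3 := congrArg Subtype.val h2
    simpa [T] using h3
  have hV₁ : finrank ℂ V₁ ≤ r * s := by
    have h1 := LinearMap.finrank_le_finrank_of_injective hT
    rw [Module.finrank_linearMap, hr, hs, mul_comm] at h1
    exact h1
  have hle : Submodule.span ℂ (Set.range e) ≤ V₁ := by
    rw [Submodule.span_le]
    rintro _ ⟨b, rfl⟩
    show y * e b * (1 - y) = e b
    rw [R.ye, mul_sub, mul_one, R.ey, sub_zero]
  have heq : Submodule.span ℂ (Set.range e) = V₁ := by
    apply Submodule.eq_of_le_of_finrank_le hle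
    rw [finrank_span_eq_card hli, hcard]
    exact hV₁
  have hXV : X ∈ V₁ := hX
  rw [← heq] at hXV
  have hsub : Submodule.span ℂ (Set.range e) ≤ g := by
    rw [Submodule.span_le]
    rintro _ ⟨b, rfl⟩
    exact R.eg b
  exact hsub hXV

/-- Job COP7. The version without scalars. Proof: apply `cop` to `g + ℂ 1`; `X = X₁ + t`, `y = y₁ + t'` with `X₁, y₁ ∈ g`, and `X = y X - X y = y₁ X₁ - X₁ y₁ ∈ g`. -/
theorem cop' (br : ∀ X ∈ g, ∀ Y ∈ g, X * Y - Y * X ∈ g) (yy : y * y = y) (yg : ∃ t : ℂ, y - t • (1 : Module.End ℂ W) ∈ g)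
    (irr : ∀ S : Submodule ℂ W, (∀ X ∈ g, ∀ u ∈ S, X u ∈ S) → S = ⊥ ∨ S = ⊤)
    {r s : ℕ} (hr : finrank ℂ (LinearMap.range y) = r) (hs : finrank ℂ (LinearMap.ker y) = s)
    (hr0 : 0 < r) (hs0 : 0 < s) (hrs : Nat.Coprime r s) (X : Module.End ℂ W) (hX : y * X * (1 - y) = X) : X ∈ g := by
  obtain ⟨t', ht'⟩ := yg
  set g' : Submodule ℂ (Module.End ℂ W) := g ⊔ Submodule.span ℂ {1} with hg'
  have hmem : ∀ Z : Module.End ℂ W, Z ∈ g' ↔ ∃ Z₁ ∈ g, ∃ t : ℂ, Z = Z₁ + t • 1 := by
    intro Z
    rw [hg', Submodule.mem_sup]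
    constructor
    · rintro ⟨Z₁, h1, Z₂, h2, rfl⟩
      rw [Submodule.mem_span_singleton] at h2
      obtain ⟨t, rfl⟩ := h2
      exact ⟨Z₁, h1, t, rfl⟩
    · rintro ⟨Z₁, h1, t, rfl⟩
      exact ⟨Z₁, h1, t • 1, Submodule.smul_mem _ _ (Submodule.mem_span_singleton_self _), rfl⟩
  have hbr : ∀ (A B : Module.End ℂ W) (t u : ℂ), (A + t • 1) * (B + u • 1) - (B + u • 1) * (A + t • 1) =
      A * B - B * A := by
    intro A B t u
    simp only [add_mul, mul_add, smul_mul_assoc, mul_smul_comm, one_mul, mul_one]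
    module
  have hdat : Dat g' y := by
    refine ⟨?_, ?_, ?_, yy, ?_⟩
    · intro A hA B hB
      obtain ⟨A₁, hA₁, t, rfl⟩ := (hmem A).1 hA
      obtain ⟨B₁, hB₁, u, rfl⟩ := (hmem B).1 hB
      rw [hbr]
      exact (le_sup_left : g ≤ g') (br A₁ hA₁ B₁ hB₁)
    · exact (hmem 1).2 ⟨0, g.zero_mem, 1, by rw [one_smul, zero_add]⟩
    · exact (hmem y).2 ⟨_, ht', t', by rw [sub_add_cancel]⟩
    · intro S hS
      exact irr S fun Z hZ u hu => hS Z ((le_sup_left : g ≤ g') hZ) u hu
  have hXg := cop hdat hr hs hr0 hs0 hrs X hX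
  obtain ⟨X₁, hX₁, t, hXt⟩ := (hmem X).1 hXg
  have h1 : y * X = X := by
    conv_lhs => rw [← hX]
    rw [← mul_assoc, ← mul_assoc, yy, hX]
  have h2 : X * y = 0 := by
    conv_lhs => rw [← hX]
    rw [mul_assoc, sub_mul, one_mul, yy, sub_self, mul_zero]
  have h3 : X = (y - t' • 1) * X₁ - X₁ * (y - t' • 1) := by
    have h4 := hbr (y - t' • 1) X₁ t' t
    rw [sub_add_cancel, ← hXt, h1, h2, sub_zero] at h4
    exact h4
  rw [h3]
  exact br _ ht' _ hX₁

end Pool.Agent.Lib.MP_021685_ag.Cop
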