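import Mathlib

/-!
# Irreducible Lie algebras of endomorphisms containing an idempotent of coprime ranks

`g` is a Lie algebra of endomorphisms of the complex vector space `W`, irreducible, with `1 ∈ g`, and `y ∈ g` is an idempotent whose rank `r` is prime
to the dimension `s` of its kernel. Then `g` contains all `X` with `X = y X (1 - y)`.

`W = W₁ ⊕ W₀` with `W₁ = y W`, `W₀ = ker y`; `g = g₁ ⊕ g₀ ⊕ g₋₁` where `g₁ = {X ∈ g | y X = X, X y = 0}` and `g₋₁ = {X ∈ g | X y = X, y X = 0}`.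
-/

set_option autoImplicit false

namespace Pool.Agent.Lib.MP_021685_ag.Cop

open Module LinearMap

variable {W : Type*} [AddCommGroup W] [Module ℂ W] [FiniteDimensional ℂ W]

/-- An irreducible Lie algebra of endomorphisms with an idempotent. -/
structure Dat (g : Submodule ℂ (Module.End ℂ W)) (y : Module.End ℂ W) : Prop where
  br : ∀ X ∈ g, ∀ Y ∈ g, X * Y - Y * X ∈ g
  one : 1 ∈ g
  yg : y ∈ g
  yy : y * y = y
  irr : ∀ S : Submodule ℂ W, (∀ X ∈ g, ∀ u ∈ S, X u ∈ S) → S = ⊥ ∨ S = ⊤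

/-- The coroot of the pair `(e a, f a)`. -/
def hh {Φ : Type*} (e f : Φ → Module.End ℂ W) (a : Φ) : Module.End ℂ W := e a * f a - f a * e a

/-- Root vectors: `e a` is a basis of `g₁`, `f a` of `g₋₁`, `(e a, hh a, f a)` is an `sl₂`-triple, the coroots act diagonally. -/
structure RD (g : Submodule ℂ (Module.End ℂ W)) (y : Module.End ℂ W) {Φ : Type*} (e f : Φ → Module.End ℂ W) : Prop where
  eg : ∀ a, e a ∈ g
  fg : ∀ a, f a ∈ g
  ye : ∀ a, y * e a = e a
  ey : ∀ a, e a * y = 0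
  fy : ∀ a, f a * y = f a
  yf : ∀ a, y * f a = 0
  efe : ∀ a, e a * f a * e a = e a
  fef : ∀ a, f a * e a * f a = f a
  ne : ∀ a, e a ≠ 0
  orth : ∀ a b, a ≠ b → LinearMap.trace ℂ W (e a * f b) = 0
  wt : ∃ c : Φ → Φ → ℂ, ∀ a b, hh e f a * e b - e b * hh e f a = c a b • e b ∧
    hh e f a * f b - f b * hh e f a = - c a b • f b
  hinj : ∀ a b, hh e f a = hh e f b → a = b
  span_e : ∀ X ∈ g, y * X = X → X * y = 0 → X ∈ Submodule.span ℂ (Set.range e)
  span_f : ∀ X ∈ g, X * y = X → y * X = 0 → X ∈ Submodule.span ℂ (Set.range f)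

end Pool.Agent.Lib.MP_021685_ag.Cop
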