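import Mathlib

/-!
# Density
-/

set_option autoImplicit false
set_option linter.unusedSectionVars false

namespace Pool.Agent.Lib.MP_021685_ag.Den

open Matrix

variable {F : Type*} [Field F] {κ : Type*} [Fintype κ] [DecidableEq κ]

/-- a subspace stable under `L` is stable under the algebra generated by `L` -/
private theorem stable_adjoin (L : Set (Matrix κ κ F)) (W : Submodule F (κ → F))
    (hW : ∀ X ∈ L, ∀ w ∈ W, X *ᵥ w ∈ W) (X : Matrix κ κ F) (hX : X ∈ Algebra.adjoin F L) :
    ∀ w ∈ W, X *ᵥ w ∈ W := by
  induction hX using Algebra.adjoin_induction with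
  | mem x hx => exact hW x hx
  | algebraMap r =>
    intro w hw
    rw [Algebra.algebraMap_eq_smul_one, Matrix.smul_mulVec, Matrix.one_mulVec]
    exact W.smul_mem r hw
  | add x y _ _ hx hy =>
    intro w hw
    rw [Matrix.add_mulVec]
    exact W.add_mem (hx w hw) (hy w hw)
  | mul x y _ _ hx hy =>
    intro w hw
    rw [← Matrix.mulVec_mulVec]
    exact hx _ (hy w hw)

/-- commuting with the members of a set implies commuting with its span -/
private theorem comm_span (ME : Set (Matrix κ κ F)) (Z : Matrix κ κ F) (hZ : ∀ Y ∈ ME, Z * Y = Y * Z)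
    (Y : Matrix κ κ F) (hY : Y ∈ Submodule.span F ME) : Z * Y = Y * Z := by
  induction hY using Submodule.span_induction with
  | mem x hx => exact hZ x hx
  | zero => rw [mul_zero, zero_mul]
  | add x y _ _ hx hy => rw [mul_add, add_mul, hx, hy]
  | smul a x _ hx => rw [mul_smul_comm, smul_mul_assoc, hx]

/-- Job Den1. The bicommutant theorem, from the density theorem.

Proof. Let `A = Algebra.adjoin F L` and consider `κ → F` as a module over the ring `A` (`X • w = X *ᵥ w`; e.g. `Module.compHom` along `A → Module.End F (κ → F)`, `Matrix.toLin'` or `Matrix.mulVecLin`; a local instance). Submodules over `A` are the `F`-subspaces stable under all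
`X ∈ L` (`Algebra.adjoin_induction`), so by `hss` every submodule has a complement and the module is semisimple (`isSemisimpleModule_iff`, `ComplementedLattice`). An `A`-linear endomorphism `Y` is `F`-linear (scalars are in `A`) and
commutes with all `X ∈ L`, so (as a matrix) it is in the span of `ME` by `hcomm`, and so it commutes with `Z` by `hZ`. Hence `w ↦ Z *ᵥ w` is linear over the ring `Module.End A (κ → F)`, and by `jacobson_density` (`Mathlib.RingTheory.SimpleModule.Basic`), applied to the
finite set of the standard basis vectors, there is `X ∈ A` with `Z *ᵥ e k = X *ᵥ e k` for all `k`, i.e. `Z = X`. -/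
theorem dense_of_semisimple (ME L : Set (Matrix κ κ F))
    (hcomm : ∀ Y : Matrix κ κ F, (∀ X ∈ L, Y * X = X * Y) → Y ∈ Submodule.span F ME)
    (hss : ∀ W : Submodule F (κ → F), (∀ X ∈ L, ∀ w ∈ W, X *ᵥ w ∈ W) →
      ∃ W' : Submodule F (κ → F), IsCompl W W' ∧ ∀ X ∈ L, ∀ w ∈ W', X *ᵥ w ∈ W')
    (Z : Matrix κ κ F) (hZ : ∀ Y ∈ ME, Z * Y = Y * Z) : Z ∈ Algebra.adjoin F L := by
  classical
  let φ : (Algebra.adjoin F L) →+* Module.End F (κ → F) :=
    ((Matrix.toLinAlgEquiv' (R := F) (n := κ)).toAlgHom.comp (Algebra.adjoin F L).val).toRingHom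
  let inst : Module (Algebra.adjoin F L) (κ → F) := Module.compHom (κ → F) φ
  have hsmul : ∀ (r : Algebra.adjoin F L) (w : κ → F), r • w = (r : Matrix κ κ F) *ᵥ w := fun r w => rfl
  have halg : ∀ (c : F) (w : κ → F), c • w = (algebraMap F (Algebra.adjoin F L) c) • w := by
    intro c w
    rw [hsmul]
    show c • w = (algebraMap F (Matrix κ κ F) c) *ᵥ w
    rw [Algebra.algebraMap_eq_smul_one, Matrix.smul_mulVec, Matrix.one_mulVec]
  -- semisimplicity
  have hssm : IsSemisimpleModule (Algebra.adjoin F L) (κ → F) := by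
    rw [isSemisimpleModule_iff]
    refine ⟨fun W => ?_⟩
    let WF : Submodule F (κ → F) :=
      { carrier := W
        add_mem' := fun ha hb => W.add_mem ha hb
        zero_mem' := W.zero_mem
        smul_mem' := fun c w hw => by
          rw [halg]
          exact W.smul_mem _ hw }
    have hWF : ∀ w, w ∈ WF ↔ w ∈ W := fun w => Iff.rfl
    obtain ⟨W', hcompl, hW'⟩ := hss WF (fun X hX w hw => W.smul_mem ⟨X, Algebra.subset_adjoin hX⟩ hw)
    let WR : Submodule (Algebra.adjoin F L) (κ → F) :=
      { carrier := W'
        add_mem' := fun ha hb => W'.add_mem ha hb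
        zero_mem' := W'.zero_mem
        smul_mem' := fun r w hw => stable_adjoin L W' hW' r r.2 w hw }
    have hWR : ∀ w, w ∈ WR ↔ w ∈ W' := fun w => Iff.rfl
    refine ⟨WR, ?_, ?_⟩
    · rw [Submodule.disjoint_def]
      intro w hw hw'
      exact (Submodule.disjoint_def.1 hcompl.disjoint) w hw hw'
    · rw [codisjoint_iff, Submodule.eq_top_iff']
      intro w
      have := (Submodule.eq_top_iff'.1 (codisjoint_iff.1 hcompl.codisjoint)) w
      rw [Submodule.mem_sup] at this ⊢
      obtain ⟨y, hy, z, hz, hyz⟩ := this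
      exact ⟨y, hy, z, hz, hyz⟩
  -- the bicommutant
  let f : Module.End (Module.End (Algebra.adjoin F L) (κ → F)) (κ → F) :=
    { toFun := fun w => Z *ᵥ w
      map_add' := fun v w => Matrix.mulVec_add Z v w
      map_smul' := fun ψ w => by
        show Z *ᵥ (ψ w) = ψ (Z *ᵥ w)
        let ψF : (κ → F) →ₗ[F] (κ → F) :=
          { toFun := fun w => ψ w
            map_add' := fun v w => map_add ψ v w
            map_smul' := fun c w => by
              show ψ (c • w) = c • ψ w
              rw [halg, halg, map_smul] }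
        set Y : Matrix κ κ F := LinearMap.toMatrix' ψF with hY
        have hYv : ∀ w, Y *ᵥ w = ψ w := by
          intro w
          rw [hY, LinearMap.toMatrix'_mulVec]
          rfl
        have hYc : ∀ X ∈ L, Y * X = X * Y := by
          intro X hX
          apply Matrix.toLin'.injective
          apply LinearMap.ext
          intro w
          rw [Matrix.toLin'_apply, Matrix.toLin'_apply, ← Matrix.mulVec_mulVec, ← Matrix.mulVec_mulVec, hYv, hYv]
          exact map_smul ψ (⟨X, Algebra.subset_adjoin hX⟩ : Algebra.adjoin F L) w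
        have hZY := comm_span ME Z hZ Y (hcomm Y hYc)
        rw [← hYv, ← hYv, Matrix.mulVec_mulVec, Matrix.mulVec_mulVec, hZY] }
  obtain ⟨r, hr⟩ := jacobson_density f (Finset.univ.image fun k : κ => (Pi.single k (1 : F) : κ → F))
  have hZr : Z = (r : Matrix κ κ F) := by
    apply Matrix.ext_of_mulVec_single
    intro k
    exact hr _ (Finset.mem_image_of_mem _ (Finset.mem_univ k))
  rw [hZr]
  exact r.2

/-- the image of the algebra generated by `L` -/
private theorem map_adjoin {C : Type*} [Field C] (θ : F →+* C) (L : Set (Matrix κ κ F)) (W : Matrix κ κ F)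
    (hW : W ∈ Algebra.adjoin F L) : W.map θ ∈ Algebra.adjoin C ((fun X : Matrix κ κ F => X.map θ) '' L) := by
  induction hW using Algebra.adjoin_induction with
  | mem x hx => exact Algebra.subset_adjoin ⟨x, hx, rfl⟩
  | algebraMap r =>
    have : (algebraMap F (Matrix κ κ F) r).map θ = algebraMap C (Matrix κ κ C) (θ r) := by
      ext k l
      rw [Matrix.map_apply, Matrix.algebraMap_matrix_apply, Matrix.algebraMap_matrix_apply]
      split_ifs
      · rfl
      · exact map_zero θ
    rw [this]
    exact Subalgebra.algebraMap_mem _ _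
  | add x y _ _ hx hy =>
    have : (x + y).map θ = x.map θ + y.map θ := Matrix.map_add θ (map_add θ) x y
    rw [this]
    exact Subalgebra.add_mem _ hx hy
  | mul x y _ _ hx hy =>
    rw [Matrix.map_mul]
    exact Subalgebra.mul_mem _ hx hy

/-- Job Den2. Extension of scalars.

Proof. Consider `C` as a vector space over `F` through `θ` (`θ.toAlgebra` as a local instance) and let `(c a)` be a basis. Write `Z = ∑ a, c a • (Z a).map θ` (a finite sum) with `Z a` over `F` (compare `exists_hamel` in `Pool.Agent.Lib.MP_802513_ag.UMat`). For `Y ∈ ME` the relation `Z * Y = Y * Z` gives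
`∑ a, c a • (Z a * Y - Y * Z a).map θ = 0`, so `Z a * Y = Y * Z a` for all `a` by the linear independence of the `c a` over `F`, applied to all entries. So `Z a ∈ Algebra.adjoin F L` and its image is in `Algebra.adjoin C` of the image of `L` (`Algebra.adjoin_induction`). -/
theorem dense_map {C : Type*} [Field C] (θ : F →+* C) (ME L : Set (Matrix κ κ F))
    (h : ∀ Z : Matrix κ κ F, (∀ Y ∈ ME, Z * Y = Y * Z) → Z ∈ Algebra.adjoin F L)
    (Z : Matrix κ κ C) (hZ : ∀ Y ∈ ME, Z * Y.map θ = Y.map θ * Z) : Z ∈ Algebra.adjoin C ((fun X : Matrix κ κ F => X.map θ) '' L) := by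
  classical
  let _inst : Algebra F C := θ.toAlgebra
  let b := Module.Basis.ofVectorSpace F C
  have hsm : ∀ (r : F) (z : C), r • z = θ r * z := fun r z => rfl
  -- the components
  have hcomp : ∀ a, (Matrix.of fun k l => b.repr (Z k l) a) ∈ Algebra.adjoin F L := by
    intro a
    apply h
    intro Y hY
    have hY' := hZ Y hY
    ext k l
    have e1 : (Z * Y.map θ) k l = ∑ m, (Y m l) • Z k m := by
      rw [Matrix.mul_apply]
      refine Finset.sum_congr rfl fun m _ => ?_
      rw [hsm, Matrix.map_apply, mul_comm]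
    have e2 : (Y.map θ * Z) k l = ∑ m, (Y k m) • Z m l := by
      rw [Matrix.mul_apply]
      refine Finset.sum_congr rfl fun m _ => ?_
      rw [hsm, Matrix.map_apply]
    have e3 : ∑ m, (Y m l) • Z k m = ∑ m, (Y k m) • Z m l := by
      rw [← e1, ← e2, hY']
    have e4 := congrArg (fun z => b.repr z a) e3
    simp only [map_sum, map_smul, Finsupp.finsetSum_apply, Finsupp.smul_apply, smul_eq_mul] at e4
    rw [Matrix.mul_apply, Matrix.mul_apply]
    simp only [Matrix.of_apply]
    rw [← e4]
    exact Finset.sum_congr rfl fun m _ => mul_comm _ _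
  -- the decomposition
  let s : Finset _ := Finset.univ.biUnion fun k : κ => Finset.univ.biUnion fun l : κ => (b.repr (Z k l)).support
  have hdec : Z = ∑ a ∈ s, b a • ((Matrix.of fun k l => b.repr (Z k l) a : Matrix κ κ F).map θ) := by
    ext k l
    rw [Matrix.sum_apply]
    have hsub : (b.repr (Z k l)).support ⊆ s := by
      intro a ha
      rw [Finset.mem_biUnion]
      refine ⟨k, Finset.mem_univ _, ?_⟩
      rw [Finset.mem_biUnion]
      exact ⟨l, Finset.mem_univ _, ha⟩
    have h1 := b.linearCombination_repr (Z k l)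
    rw [Finsupp.linearCombination_apply] at h1
    have h2 := Finsupp.sum_of_support_subset (b.repr (Z k l)) hsub (fun i a => a • b i) (fun i _ => zero_smul _ _)
    rw [h2] at h1
    refine h1.symm.trans (Finset.sum_congr rfl fun a _ => ?_)
    rw [Matrix.smul_apply, Matrix.map_apply, Matrix.of_apply, hsm, smul_eq_mul, mul_comm]
  rw [hdec]
  apply Subalgebra.sum_mem
  intro a _
  exact Subalgebra.smul_mem _ (map_adjoin θ L _ (hcomp a)) _

/-- Job Den2. Changing the generators by scalars. Proof: `X = (X - c X • 1) + algebraMap _ _ (c X)`; `Algebra.adjoin_le`. -/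
theorem adjoin_shift (L : Set (Matrix κ κ F)) (c : Matrix κ κ F → F) : Algebra.adjoin F L ≤ Algebra.adjoin F ((fun X => X - c X • (1 : Matrix κ κ F)) '' L) := by
  apply Algebra.adjoin_le
  intro X hX
  have h1 : X - c X • (1 : Matrix κ κ F) ∈ Algebra.adjoin F ((fun X => X - c X • (1 : Matrix κ κ F)) '' L) :=
    Algebra.subset_adjoin ⟨X, hX, rfl⟩
  have h2 : c X • (1 : Matrix κ κ F) ∈ Algebra.adjoin F ((fun X => X - c X • (1 : Matrix κ κ F)) '' L) :=
    Subalgebra.smul_mem _ (Subalgebra.one_mem _) _
  have h3 := Subalgebra.add_mem _ h1 h2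
  rw [sub_add_cancel] at h3
  exact h3

end Pool.Agent.Lib.MP_021685_ag.Den
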