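import Mathlib

/-!
# Algebraic facts on the field `ℂ_ℓ` and on the embeddings of an algebraic closure of a number field
-/

set_option autoImplicit false
set_option linter.unusedSectionVars false

namespace Pool.Agent.Lib.MP_021685_ag.NF

open Cardinal Filter Topology in
/-- A metrizable space has at most as many points as there are sequences in a dense subset. -/
private theorem N1_card {A X : Type} [TopologicalSpace X] [T2Space X] [FirstCountableTopology X] {f : A → X}
    (hf : DenseRange f) : #X ≤ #A ^ ℵ₀ := by
  have h : ∀ x : X, ∃ s : ℕ → A, Tendsto (fun n => f (s n)) atTop (𝓝 x) := by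
    intro x
    obtain ⟨u, hu, hx⟩ := mem_closure_iff_seq_limit.1 (hf x)
    choose s hs using hu
    exact ⟨s, by simpa only [hs] using hx⟩
  choose s hs using h
  have hinj : Function.Injective s := by
    intro x y hxy
    have h1 := hs x
    rw [hxy] at h1
    exact tendsto_nhds_unique h1 (hs y)
  have h2 := mk_le_of_injective hinj
  rwa [← power_def, mk_nat] at h2

/-- Job N1. The fields `ℂ_ℓ` and `ℂ` are isomorphic.

Proof. `IsAlgClosed.ringEquivOfCardinalEqOfCharZero` (both are algebraically closed, of characteristic zero, uncountable). Cardinality of `ℂ_ℓ`: at least the continuum by `continuum_le_cardinal_of_nontriviallyNormedField` (it is complete);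
at most the continuum: `PadicAlgCl ℓ` is algebraic over `ℚ_ℓ`, so has the cardinality of `ℚ_ℓ` (`Algebra.IsAlgebraic.cardinalMk_le_max` or similar), and `ℚ_ℓ` has at most the cardinality of sequences of rational numbers (every element is a limit of rationals,
`Padic` is a quotient of the Cauchy sequences of rationals), i.e. `ℵ₀ ^ ℵ₀ = 𝔠`; `ℂ_ℓ` is the completion of `PadicAlgCl ℓ`: every element is the limit of a sequence in `PadicAlgCl ℓ` (dense range, metric space), so the cardinality is at most `𝔠 ^ ℵ₀ = 𝔠`. -/
theorem exists_iso (ℓ : ℕ) [Fact ℓ.Prime] : Nonempty (ℂ_[ℓ] ≃+* ℂ) := by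
  have h1 : Cardinal.mk ℚ_[ℓ] ≤ Cardinal.continuum := by
    refine (N1_card (Padic.denseRange_ratCast (p := ℓ))).trans ?_
    rw [Cardinal.mkRat, Cardinal.aleph0_power_aleph0]
  have h2 : Cardinal.mk (PadicAlgCl ℓ) ≤ Cardinal.continuum := by
    refine (Algebra.IsAlgebraic.cardinalMk_le_max ℚ_[ℓ] (PadicAlgCl ℓ)).trans ?_
    exact max_le h1 Cardinal.aleph0_le_continuum
  have h3 : Cardinal.mk ℂ_[ℓ] ≤ Cardinal.continuum := by
    refine (N1_card (UniformSpace.Completion.denseRange_coe (α := PadicAlgCl ℓ))).trans ?_
    refine (Cardinal.power_le_power_right h2).trans ?_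
    rw [Cardinal.continuum_power_aleph0]
  have h4 : Cardinal.continuum ≤ Cardinal.mk ℂ_[ℓ] := continuum_le_cardinal_of_nontriviallyNormedField ℂ_[ℓ]
  have h5 : Cardinal.mk ℂ_[ℓ] = Cardinal.continuum := le_antisymm h3 h4
  refine IsAlgClosed.ringEquiv_of_equiv_of_charZero ?_ (Cardinal.eq.1 (h5.trans Cardinal.mk_complex.symm))
  rw [h5]
  exact Cardinal.aleph0_lt_continuum

end Pool.Agent.Lib.MP_021685_ag.NF
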