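import Mathlib

/-!
# Embeddings of an algebraic closure of a number field; descent of coefficients
-/

set_option autoImplicit false
set_option linter.unusedSectionVars false

namespace Pool.Agent.Lib.MP_021685_ag.NF

variable {L C : Type*} [Field L] [IsAlgClosed L] [Field C] [CharZero L] [CharZero C]

/-- A root in `C` of the image of a polynomial over `ℚ` is in the range of an embedding of an algebraically closed field. -/
theorem mem_range_of_root (j : L →+* C) (p : Polynomial ℚ) (hp : p ≠ 0) (x : C) (hx : Polynomial.eval₂ (algebraMap ℚ C) x p = 0) : ∃ z, j z = x := by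
  have hcomp : algebraMap ℚ C = j.comp (algebraMap ℚ L) := Subsingleton.elim _ _
  have hspl : (p.map (algebraMap ℚ L)).Splits := IsAlgClosed.splits _
  rw [hcomp, ← Polynomial.eval₂_map] at hx
  have hne : p.map (algebraMap ℚ L) ≠ 0 := by
    rwa [Ne, Polynomial.map_eq_zero]
  have h1 : x ∈ ((p.map (algebraMap ℚ L)).map j).roots := by
    rw [Polynomial.mem_roots]
    · rw [Polynomial.IsRoot.def, Polynomial.eval_map]
      exact hx
    · rwa [Ne, Polynomial.map_eq_zero]
  rw [hspl.roots_map j] at h1
  rw [Multiset.mem_map] at h1
  obtain ⟨z, _, hz⟩ := h1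
  exact ⟨z, hz⟩

/-- Job N2. Characters lift through embeddings of algebraically closed fields.

Proof. For `e : E` let `p` be a monic polynomial over `ℚ` with root `e`; it splits over `L`: `p = ∏ (X - z)` over `L`, and its image under `j` is `p = ∏ (X - j z)` over `C`; `f e` is a root of it, so `f e = j z` for some `z : L`. So the range of `f` is contained in the range of `j`; as `j` is injective
this gives the ring homomorphism `φ` (`RingHom.codRestrict` to `j.fieldRange` and the inverse of `RingEquiv.ofInjective`-like equivalence of `L` with the range). -/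
theorem exists_lift {E : Type*} [CommRing E] [Algebra ℚ E] [Module.Finite ℚ E] (j : L →+* C) (f : E →+* C) : ∃ φ : E →+* L, j.comp φ = f := by
  have h1 : ∀ e : E, ∃ z : L, j z = f e := by
    intro e
    obtain ⟨p, hp, hpe⟩ := (Algebra.IsIntegral.isIntegral (R := ℚ) e)
    refine mem_range_of_root j p hp.ne_zero (f e) ?_
    have hcomp : algebraMap ℚ C = f.comp (algebraMap ℚ E) := Subsingleton.elim _ _
    rw [hcomp, ← Polynomial.hom_eval₂, hpe, map_zero]
  choose g hg using h1
  have hj : Function.Injective j := j.injective
  refine ⟨{ toFun := g, map_one' := hj (by rw [hg, map_one, map_one]), map_mul' := fun a b => hj (by rw [hg, map_mul, map_mul, hg, hg]), map_zero' := hj (by rw [hg, map_zero, map_zero]), map_add' := fun a b => hj (by rw [hg, map_add, map_add, hg, hg]) }, ?_⟩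
  ext e
  exact hg e

/-- Job N2. Proof: `j` is injective. -/
theorem lift_unique {E : Type*} [CommRing E] (j : L →+* C) {φ θ : E →+* L} (h : j.comp φ = j.comp θ) : φ = θ := by
  ext e
  exact j.injective (by simpa using congrArg (fun q : E →+* C => q e) h)

/-- Job N2. Two embeddings of an algebraic closure of a number field in a field `C` differ by an automorphism.

Proof. `AlgebraicClosure K` is algebraic over `ℚ`. Both images are the set of elements of `C` algebraic over `ℚ` which are roots of polynomials that split...: as in `exists_lift`, every element `j' z` is a root of the minimal polynomial of `z` over `ℚ`, which splits in the algebraically closed field, so `j' z` is in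
the range of `j`; and conversely. So `j⁻¹ ∘ j'` is an automorphism. -/
theorem exists_aut {K : Type*} [Field K] [NumberField K] (j j' : AlgebraicClosure K →+* C) :
    ∃ σ : AlgebraicClosure K ≃+* AlgebraicClosure K, j' = j.comp (σ : AlgebraicClosure K →+* AlgebraicClosure K) := by
  have : CharZero (AlgebraicClosure K) := charZero_of_injective_algebraMap (algebraMap K (AlgebraicClosure K)).injective
  have key : ∀ (j j' : AlgebraicClosure K →+* C) (z : AlgebraicClosure K), ∃ w, j w = j' z := by
    intro j j' z
    have hz : IsAlgebraic ℚ z := by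
      have : Algebra.IsAlgebraic ℚ (AlgebraicClosure K) := Algebra.IsAlgebraic.trans ℚ K (AlgebraicClosure K)
      exact Algebra.IsAlgebraic.isAlgebraic z
    obtain ⟨p, hp, hpz⟩ := hz
    refine mem_range_of_root j p hp _ ?_
    have hcomp : algebraMap ℚ C = j'.comp (algebraMap ℚ (AlgebraicClosure K)) := Subsingleton.elim _ _
    rw [hcomp, ← Polynomial.hom_eval₂]
    rw [Polynomial.aeval_def] at hpz
    rw [hpz, map_zero]
  choose g hg using key j j'
  choose g' hg' using key j' j
  have hj : Function.Injective j := j.injective
  have hj' : Function.Injective j' := j'.injective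
  refine ⟨{ toFun := g, invFun := g', left_inv := fun z => hj' (by rw [hg', hg]), right_inv := fun z => hj (by rw [hg, hg']), map_mul' := fun a b => hj (by rw [hg, map_mul, map_mul, hg, hg]), map_add' := fun a b => hj (by rw [hg, map_add, map_add, hg, hg]) }, ?_⟩
  ext z
  exact (hg z).symm

/-- Job N2. There is an embedding. Proof: `IsAlgClosed.lift` (algebraic over `ℚ`), for an algebraically closed `C`. -/
theorem exists_embedding (C : Type*) [Field C] [CharZero C] [IsAlgClosed C] (K : Type*) [Field K] [NumberField K] : Nonempty (AlgebraicClosure K →+* C) := by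
  have : CharZero (AlgebraicClosure K) := charZero_of_injective_algebraMap (algebraMap K (AlgebraicClosure K)).injective
  have : Algebra.IsAlgebraic ℚ (AlgebraicClosure K) := Algebra.IsAlgebraic.trans ℚ K (AlgebraicClosure K)
  exact ⟨((IsAlgClosed.lift : AlgebraicClosure K →ₐ[ℚ] C) : AlgebraicClosure K →+* C)⟩

/-- Job N2. Descent of coefficients. Proof: `C` is a vector space over `F` through `θ`; there is an `F`-linear map `μ : C → F` with `μ (θ a) = a` (`LinearMap.exists_leftInverse_of_injective`); apply it to the relation and take `c' x = μ (c x)`. -/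
theorem descent {F C : Type*} [Field F] [Field C] (θ : F →+* C) {X J : Type*} [Fintype X] (T : J → F) (w : X → J → F) (c : X → C)
    (h : ∀ j, θ (T j) = ∑ x, c x * θ (w x j)) : ∃ c' : X → F, ∀ j, T j = ∑ x, c' x * w x j := by
  let _ : Algebra F C := θ.toAlgebra
  obtain ⟨μ, hμ⟩ := (Algebra.linearMap F C).exists_leftInverse_of_injective (by
    rw [LinearMap.ker_eq_bot]
    exact θ.injective)
  have hμ' : ∀ a : F, μ (θ a) = a := fun a => LinearMap.congr_fun hμ a
  refine ⟨fun x => μ (c x), fun j => ?_⟩
  have h1 := congrArg μ (h j)
  rw [hμ', map_sum] at h1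
  rw [h1]
  refine Finset.sum_congr rfl fun x _ => ?_
  have : c x * θ (w x j) = w x j • c x := by
    rw [Algebra.smul_def, mul_comm]
    rfl
  rw [this, map_smul, smul_eq_mul, mul_comm]

end Pool.Agent.Lib.MP_021685_ag.NF
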