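import Pool.Agent.Lib.MP_021685_ag.UT.Pad1

/-!
# Logarithms of `ℓ`-adic matrices close to the identity, as limits of `(g ^ (ℓ ^ k) - 1) / ℓ ^ k`
-/

set_option autoImplicit false
set_option linter.unusedSectionVars false

namespace Pool.Agent.Lib.MP_021685_ag.Pad

open Filter Topology Function

variable {ℓ : ℕ} [Fact ℓ.Prime] {κ : Type*} [Fintype κ] [DecidableEq κ]

/-- The approximations of the logarithm of `g`. -/
noncomputable def la {F : Type*} [Field F] (ℓ : ℕ) (g : Matrix κ κ F) (k : ℕ) : Matrix κ κ F := ((ℓ : F) ^ k)⁻¹ • (g ^ ℓ ^ k - 1)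

theorem rad_pos : 0 < rad ℓ := by
  have hl0 : (0 : ℝ) < ℓ := by exact_mod_cast (Fact.out : ℓ.Prime).pos
  unfold rad
  positivity

theorem rad_mul_le (k : ℕ) : rad ℓ * ((ℓ : ℝ) ^ k)⁻¹ ≤ (ℓ : ℝ)⁻¹ := by
  have hl1 : (1 : ℝ) ≤ ℓ := by exact_mod_cast (Fact.out : ℓ.Prime).one_lt.le
  have hl0 : (0 : ℝ) < ℓ := by linarith
  unfold rad
  rw [← mul_inv]
  apply inv_anti₀ hl0
  have h1 : (1 : ℝ) ≤ (ℓ : ℝ) ^ k := one_le_pow₀ hl1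
  nlinarith [mul_nonneg hl0.le (by linarith : (0 : ℝ) ≤ ℓ - 1), sq_nonneg (ℓ : ℝ)]

/-- Job Pad2. Proof by induction on `k`: with `Z = g ^ ℓ ^ k - 1`, with entries of norm at most `z = rad ℓ * (ℓ ^ k)⁻¹`, `g ^ ℓ ^ (k + 1) - 1 = (1 + Z) ^ ℓ - 1 = (...) + ℓ Z` has
entries of norm at most `max (z ^ 2) (ℓ⁻¹ z) = ℓ⁻¹ z`. -/
theorem bd_pow {g : Matrix κ κ ℚ_[ℓ]} (hg : Bd (g - 1) (rad ℓ)) (k : ℕ) : Bd (g ^ ℓ ^ k - 1) (rad ℓ * ((ℓ : ℝ) ^ k)⁻¹) := by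
  have hl1 : (1 : ℝ) < ℓ := by exact_mod_cast (Fact.out : ℓ.Prime).one_lt
  have hl0 : (0 : ℝ) < ℓ := by linarith
  have hr0 : 0 < rad ℓ := rad_pos
  induction k with
  | zero => simpa using hg
  | succ k ih =>
    have hz0 : 0 < rad ℓ * ((ℓ : ℝ) ^ k)⁻¹ := by positivity
    have hz1 : rad ℓ * ((ℓ : ℝ) ^ k)⁻¹ ≤ (ℓ : ℝ)⁻¹ := rad_mul_le k
    have hl2 : (ℓ : ℝ)⁻¹ ≤ 1 := inv_le_one_of_one_le₀ hl1.le
    have h1 := Bd.binom hz0.le (hz1.trans hl2) ih ℓ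
    have h2 : Bd (ℓ • (g ^ ℓ ^ k - 1)) ((ℓ : ℝ)⁻¹ * (rad ℓ * ((ℓ : ℝ) ^ k)⁻¹)) := by
      have h3 := Bd.smul (ℓ : ℚ_[ℓ]) ih
      rw [Padic.norm_p] at h3
      rwa [Nat.cast_smul_eq_nsmul] at h3
    have h4 : (rad ℓ * ((ℓ : ℝ) ^ k)⁻¹) ^ 2 ≤ (ℓ : ℝ)⁻¹ * (rad ℓ * ((ℓ : ℝ) ^ k)⁻¹) := by
      rw [sq]
      exact mul_le_mul_of_nonneg_right hz1 hz0.le
    have h5 := (h1.mono h4).add h2
    have h6 : g ^ ℓ ^ (k + 1) - 1 = (1 + (g ^ ℓ ^ k - 1)) ^ ℓ - 1 - ℓ • (g ^ ℓ ^ k - 1) + ℓ • (g ^ ℓ ^ k - 1) := by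
      rw [add_sub_cancel, ← pow_mul, ← pow_succ]
      abel
    rw [h6]
    refine h5.mono (le_of_eq ?_)
    rw [pow_succ]
    field_simp

/-- Job Pad2. Proof: `la (k + 1) - la k = (ℓ ^ (k + 1))⁻¹ • ((1 + Z) ^ ℓ - 1 - ℓ Z)` with `Z = g ^ ℓ ^ k - 1`; entries of norm at most `ℓ ^ (k + 1) * (ℓ ^ (-2 - k)) ^ 2`. -/
theorem la_succ {g : Matrix κ κ ℚ_[ℓ]} (hg : Bd (g - 1) (rad ℓ)) (k : ℕ) : Bd (la ℓ g (k + 1) - la ℓ g k) (rad ℓ * ((ℓ : ℝ) ^ (k + 1))⁻¹) := by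
  have hl1 : (1 : ℝ) < ℓ := by exact_mod_cast (Fact.out : ℓ.Prime).one_lt
  have hl0 : (0 : ℝ) < ℓ := by linarith
  have hlQ : (ℓ : ℚ_[ℓ]) ≠ 0 := by exact_mod_cast (Fact.out : ℓ.Prime).ne_zero
  have hr0 : 0 < rad ℓ := rad_pos
  have hz0 : 0 < rad ℓ * ((ℓ : ℝ) ^ k)⁻¹ := by positivity
  have hz1 : rad ℓ * ((ℓ : ℝ) ^ k)⁻¹ ≤ (ℓ : ℝ)⁻¹ := rad_mul_le k
  have hl2 : (ℓ : ℝ)⁻¹ ≤ 1 := inv_le_one_of_one_le₀ hl1.le
  have h1 := Bd.binom hz0.le (hz1.trans hl2) (bd_pow hg k) ℓ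
  have h2 : la ℓ g (k + 1) - la ℓ g k =
      ((ℓ : ℚ_[ℓ]) ^ (k + 1))⁻¹ • ((1 + (g ^ ℓ ^ k - 1)) ^ ℓ - 1 - ℓ • (g ^ ℓ ^ k - 1)) := by
    have h3 : (1 + (g ^ ℓ ^ k - 1)) ^ ℓ = g ^ ℓ ^ (k + 1) := by
      rw [add_sub_cancel, ← pow_mul, ← pow_succ]
    rw [h3, smul_sub, ← Nat.cast_smul_eq_nsmul ℚ_[ℓ], smul_smul]
    have h4 : ((ℓ : ℚ_[ℓ]) ^ (k + 1))⁻¹ * (ℓ : ℚ_[ℓ]) = ((ℓ : ℚ_[ℓ]) ^ k)⁻¹ := by
      rw [pow_succ, mul_inv, mul_assoc, inv_mul_cancel₀ hlQ, mul_one]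
    rw [h4]
    rfl
  rw [h2]
  refine (Bd.smul _ h1).mono (le_of_eq ?_)
  rw [norm_inv, norm_pow, Padic.norm_p, inv_pow, inv_inv]
  unfold rad
  field_simp
  ring

/-- Job Pad2. Proof: the entries are Cauchy sequences (`cauchySeq_of_le_geometric` or the ultrametric criterion) in the complete field `ℚ_ℓ`; convergence of matrices is
convergence of the entries (`tendsto_pi_nhds`). -/
theorem exists_lg {g : Matrix κ κ ℚ_[ℓ]} (hg : Bd (g - 1) (rad ℓ)) : ∃ X : Matrix κ κ ℚ_[ℓ], Tendsto (la ℓ g) atTop (𝓝 X) := by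
  have hl1 : (1 : ℝ) < ℓ := by exact_mod_cast (Fact.out : ℓ.Prime).one_lt
  have hl0 : (0 : ℝ) < ℓ := by linarith
  have h1 : ∀ i j : κ, ∃ x : ℚ_[ℓ], Tendsto (fun k => la ℓ g k i j) atTop (𝓝 x) := by
    intro i j
    apply cauchySeq_tendsto_of_complete
    apply cauchySeq_of_le_geometric ((ℓ : ℝ)⁻¹) (rad ℓ) (inv_lt_one_of_one_lt₀ hl1)
    intro k
    rw [dist_comm, dist_eq_norm]
    have h2 := la_succ hg k i j
    rw [Matrix.sub_apply] at h2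
    refine h2.trans ?_
    rw [inv_pow]
    apply mul_le_mul_of_nonneg_left _ (rad_pos (ℓ := ℓ)).le
    exact inv_anti₀ (by positivity) (pow_le_pow_right₀ hl1.le (Nat.le_succ k))
  choose X hX using h1
  exact ⟨Matrix.of X, tendsto_pi_nhds.2 fun i => tendsto_pi_nhds.2 fun j => hX i j⟩

/-- The logarithm of `g`, as a limit (`0` if there is no limit). -/
noncomputable def lg (g : Matrix κ κ ℚ_[ℓ]) : Matrix κ κ ℚ_[ℓ] :=
  open Classical in if h : ∃ X : Matrix κ κ ℚ_[ℓ], Tendsto (la ℓ g) atTop (𝓝 X) then h.choose else 0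

theorem tendsto_lg {g : Matrix κ κ ℚ_[ℓ]} (hg : Bd (g - 1) (rad ℓ)) : Tendsto (la ℓ g) atTop (𝓝 (lg g)) := by
  unfold lg
  rw [dif_pos (exists_lg hg)]
  exact (exists_lg hg).choose_spec

/-- The logarithm of the `ℓ`-adic number `x`. -/
noncomputable def lgs (x : ℚ_[ℓ]) : ℚ_[ℓ] := lg (Matrix.diagonal fun _ : Fin 1 => x) 0 0

/-- Job Pad2. Proof: `tendsto_lg` for the matrix of size one. -/
theorem tendsto_lgs {x : ℚ_[ℓ]} (hx : ‖x - 1‖ ≤ rad ℓ) : Tendsto (fun k : ℕ => ((ℓ : ℚ_[ℓ]) ^ k)⁻¹ * (x ^ ℓ ^ k - 1)) atTop (𝓝 (lgs x)) := by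
  have hg : Bd ((Matrix.diagonal fun _ : Fin 1 => x) - 1) (rad ℓ) := by
    intro i j
    have hij : i = j := Subsingleton.elim i j
    subst hij
    rw [Matrix.sub_apply, Matrix.diagonal_apply_eq, Matrix.one_apply_eq]
    exact hx
  have h1 := tendsto_lg hg
  have h3 := tendsto_pi_nhds.1 (tendsto_pi_nhds.1 h1 0) 0
  refine h3.congr (fun k => ?_)
  unfold la
  rw [Matrix.smul_apply, Matrix.sub_apply, Matrix.diagonal_pow, Matrix.diagonal_apply_eq, Matrix.one_apply_eq, smul_eq_mul]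
  rfl

/-- Job Pad2. A matrix which commutes with `g` commutes with its logarithm. Proof: it commutes with `la ℓ g k`; pass to the limit (uniqueness of limits). -/
theorem lg_comm {g Y : Matrix κ κ ℚ_[ℓ]} (hg : Bd (g - 1) (rad ℓ)) (h : Y * g = g * Y) : Y * lg g = lg g * Y := by
  have h1 := tendsto_lg hg
  have h2 : ∀ k, Y * la ℓ g k = la ℓ g k * Y := by
    intro k
    have h3 : Commute Y (g ^ ℓ ^ k - 1) := ((show Commute Y g from h).pow_right _).sub_right (Commute.one_right Y)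
    unfold la
    rw [Matrix.mul_smul, Matrix.smul_mul, h3.eq]
  have h4 : Tendsto (fun k => Y * la ℓ g k) atTop (𝓝 (Y * lg g)) :=
    ((continuous_const.matrix_mul continuous_id).tendsto (lg g)).comp h1
  have h5 : Tendsto (fun k => la ℓ g k * Y) atTop (𝓝 (lg g * Y)) :=
    ((continuous_id.matrix_mul continuous_const).tendsto (lg g)).comp h1
  have h6 : (fun k => Y * la ℓ g k) = fun k => la ℓ g k * Y := funext h2
  rw [h6] at h4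
  exact tendsto_nhds_unique h4 h5

end Pool.Agent.Lib.MP_021685_ag.Pad
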