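import Pool.Agent.Lib.MP_021685_ag.UT.Pad2

/-!
# The derivative of a relation `f (g x₁, …) = χ ^ i f (x₁, …)`
-/

set_option autoImplicit false
set_option linter.unusedSectionVars false

namespace Pool.Agent.Lib.MP_021685_ag.Pad

open Filter Topology Function

variable {ℓ : ℕ} [Fact ℓ.Prime] {κ : Type*} [Fintype κ] [DecidableEq κ]

/-- The action of the matrix `g` on the tensor `T`. -/
def gT {F S A : Type*} [Field F] [Fintype S] [DecidableEq S] (g : Matrix κ κ F) (T : (S → A × κ) → F) (j : S → A × κ) : F :=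
  ∑ k : S → κ, T (fun s => ((j s).1, k s)) * ∏ s, g (k s) (j s).2

/-- The derivation of tensors attached to the matrix `X`. -/
def DF {F S A : Type*} [Field F] [Fintype S] [DecidableEq S] (X : Matrix κ κ F) (T : (S → A × κ) → F) (j : S → A × κ) : F :=
  ∑ s, ∑ k, T (update j s ((j s).1, k)) * X k (j s).2

/-- the entries of the identity matrix -/
private def idf (κ F : Type*) [DecidableEq κ] [Field F] : κ → κ → F := fun a b => if a = b then 1 else 0

/-- the derivative of `gT` at a point -/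
private theorem hasFDerivAt_gT {F : Type*} [NontriviallyNormedField F] {S A : Type*} [Fintype S] [DecidableEq S]
    (T : (S → A × κ) → F) (j : S → A × κ) (g0 : κ → κ → F) :
    HasFDerivAt (fun g : κ → κ → F => ∑ k : S → κ, T (fun s => ((j s).1, k s)) * ∏ s, g (k s) (j s).2)
      (∑ k : S → κ, T (fun s => ((j s).1, k s)) • ∑ s, (∏ i ∈ Finset.univ.erase s, g0 (k i) (j i).2) •
        ((ContinuousLinearMap.proj (R := F) (φ := fun _ : κ => F) (j s).2).comp
          (ContinuousLinearMap.proj (R := F) (φ := fun _ : κ => κ → F) (k s)))) g0 := by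
  refine HasFDerivAt.fun_sum fun k _ => ?_
  refine HasFDerivAt.const_mul ?_ _
  exact HasFDerivAt.finsetProd (g := fun (s : S) (g : κ → κ → F) => g (k s) (j s).2) fun s _ =>
    ((ContinuousLinearMap.proj (R := F) (φ := fun _ : κ => F) (j s).2).comp
          (ContinuousLinearMap.proj (R := F) (φ := fun _ : κ => κ → F) (k s))).hasFDerivAt

private theorem gT_one_sum {F S A : Type*} [Field F] [Fintype S] [DecidableEq S] (X : Matrix κ κ F)
    (T : (S → A × κ) → F) (j : S → A × κ) (s : S) :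
    ∑ k : S → κ, T (fun s => ((j s).1, k s)) * ((∏ i ∈ Finset.univ.erase s, idf κ F (k i) (j i).2) * X (k s) (j s).2) =
      ∑ c, T (update j s ((j s).1, c)) * X c (j s).2 := by
  classical
  set e : κ → (S → κ) := fun c => update (fun i => (j i).2) s c with he
  have hinj : Injective e := fun a b hab => by
    have := congrFun hab s
    simpa [he] using this
  have h1 : ∑ k ∈ Finset.univ.image e, T (fun s => ((j s).1, k s)) * ((∏ i ∈ Finset.univ.erase s, idf κ F (k i) (j i).2) * X (k s) (j s).2) =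
      ∑ k : S → κ, T (fun s => ((j s).1, k s)) * ((∏ i ∈ Finset.univ.erase s, idf κ F (k i) (j i).2) * X (k s) (j s).2) := by
    apply Finset.sum_subset (Finset.subset_univ _)
    intro k _ hk
    have : ∃ i, i ≠ s ∧ k i ≠ (j i).2 := by
      by_contra hcon
      push Not at hcon
      apply hk
      rw [Finset.mem_image]
      refine ⟨k s, Finset.mem_univ _, ?_⟩
      funext i
      by_cases hi : i = s
      · subst hi
        simp [he]
      · simp [he, hi, hcon i hi]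
    obtain ⟨i, hi, hki⟩ := this
    rw [Finset.prod_eq_zero (Finset.mem_erase.2 ⟨hi, Finset.mem_univ i⟩) (if_neg hki)]
    simp
  rw [← h1, Finset.sum_image (fun a _ b _ hab => hinj hab)]
  refine Finset.sum_congr rfl fun c _ => ?_
  have h2 : (fun s' => ((j s').1, e c s')) = update j s ((j s).1, c) := by
    funext i
    by_cases hi : i = s
    · subst hi
      simp [he]
    · simp [he, hi]
  have h3 : ∏ i ∈ Finset.univ.erase s, idf κ F (e c i) (j i).2 = 1 := by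
    apply Finset.prod_eq_one
    intro i hi
    have hi' : i ≠ s := (Finset.mem_erase.1 hi).1
    simp [he, hi', idf]
  have h4 : e c s = c := by simp [he]
  rw [h2, h3, h4, one_mul]

/-- Job Pad6. The derivative of a relation `f (g x₁, …) = χ ^ i f (x₁, …)`.

Proof. The function `g ↦ gT g T j` is a polynomial in the entries of `g`; it is differentiable at `1` with derivative `X ↦ DF X T j` (`HasFDerivAt.finset_prod` or `HasFDerivAt.fun_finset_prod`, and `(1 : Matrix κ κ _) (k s) (j s).2 = 0` unless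
`k s = (j s).2`), and `gT 1 T j = T j`. The sequence `d k = g ^ ℓ ^ k - 1` tends to `0` and `(ℓ ^ k)⁻¹ • d k` tends to `lg g`, `‖(ℓ ^ k)⁻¹‖` tends to infinity; `HasFDerivWithinAt.lim` gives
`(ℓ ^ k)⁻¹ • (gT (g ^ ℓ ^ k) T j - T j) → DF (lg g) T j`. The left hand side is `(ℓ ^ k)⁻¹ ((x ^ ℓ ^ k) ^ i - 1) T j`, and `(ℓ ^ k)⁻¹ (y ^ i - 1) = (ℓ ^ k)⁻¹ (y - 1) (1 + y + … + y ^ (i - 1))` with `y = x ^ ℓ ^ k → 1`
tends to `i * lgs x`. (Matrices with the sup norm: `Matrix.normedAddCommGroup`, `Matrix.normedSpace` as local instances. Or avoid derivatives: expand the products `∏ s, (1 + ε Y) (k s) (j s).2`.) -/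
theorem der_tensor {S A : Type*} [Fintype S] [DecidableEq S] {g : Matrix κ κ ℚ_[ℓ]} (hg : Bd (g - 1) (rad ℓ)) {x : ℚ_[ℓ]} (hx : ‖x - 1‖ ≤ rad ℓ) (i : ℕ)
    (T : (S → A × κ) → ℚ_[ℓ]) (j : S → A × κ) (h : ∀ k : ℕ, gT (g ^ ℓ ^ k) T j = (x ^ ℓ ^ k) ^ i * T j) :
    DF (lg g) T j = i * lgs x * T j := by
  have hl0 : (ℓ : ℚ_[ℓ]) ≠ 0 := by
    exact_mod_cast (Fact.out : ℓ.Prime).ne_zero
  have hY := tendsto_lg (ℓ := ℓ) hg
  have hx' := tendsto_lgs (ℓ := ℓ) hx
  have hε : Tendsto (fun k : ℕ => (ℓ : ℚ_[ℓ]) ^ k) atTop (𝓝 0) :=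
    tendsto_pow_atTop_nhds_zero_of_norm_lt_one (Padic.norm_p_lt_one)
  -- entries
  have hYe : ∀ a b : κ, Tendsto (fun k : ℕ => la ℓ g k a b) atTop (𝓝 (lg g a b)) := by
    intro a b
    have h1 := (tendsto_pi_nhds.1 hY) a
    exact (tendsto_pi_nhds.1 h1) b
  -- the increments
  set d : ℕ → κ → κ → ℚ_[ℓ] := fun k a b => (g ^ ℓ ^ k - 1 : Matrix κ κ ℚ_[ℓ]) a b with hd
  have hdla : ∀ k a b, d k a b = (ℓ : ℚ_[ℓ]) ^ k * la ℓ g k a b := by
    intro k a b
    have hk0 : ((ℓ : ℚ_[ℓ]) ^ k) ≠ 0 := pow_ne_zero _ hl0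
    simp only [hd, la, Matrix.smul_apply, smul_eq_mul]
    rw [← mul_assoc, mul_inv_cancel₀ hk0, one_mul]
  have hd0 : Tendsto d atTop (𝓝 0) := by
    rw [tendsto_pi_nhds]
    intro a
    rw [tendsto_pi_nhds]
    intro b
    have h1 : Tendsto (fun k : ℕ => (ℓ : ℚ_[ℓ]) ^ k * la ℓ g k a b) atTop (𝓝 (0 * lg g a b)) := hε.mul (hYe a b)
    rw [zero_mul] at h1
    exact h1.congr fun k => (hdla k a b).symm
  have hcd : Tendsto (fun k : ℕ => ((ℓ : ℚ_[ℓ]) ^ k)⁻¹ • d k) atTop (𝓝 (fun a b => lg g a b)) := by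
    rw [tendsto_pi_nhds]
    intro a
    rw [tendsto_pi_nhds]
    intro b
    refine (hYe a b).congr fun k => ?_
    have hk0 : ((ℓ : ℚ_[ℓ]) ^ k) ≠ 0 := pow_ne_zero _ hl0
    show la ℓ g k a b = ((ℓ : ℚ_[ℓ]) ^ k)⁻¹ * d k a b
    rw [hdla, ← mul_assoc, inv_mul_cancel₀ hk0, one_mul]
  have hder := (hasFDerivAt_gT T j (idf κ ℚ_[ℓ])).hasFDerivWithinAt (s := Set.univ)
  have hlim := hder.lim hd0 (Eventually.of_forall fun _ => Set.mem_univ _) hcd
  -- the derivative is `DF`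
  have hDF : (∑ k : S → κ, T (fun s => ((j s).1, k s)) • ∑ s, (∏ i ∈ Finset.univ.erase s, idf κ ℚ_[ℓ] (k i) (j i).2) •
        ((ContinuousLinearMap.proj (R := ℚ_[ℓ]) (φ := fun _ : κ => ℚ_[ℓ]) (j s).2).comp
          (ContinuousLinearMap.proj (R := ℚ_[ℓ]) (φ := fun _ : κ => κ → ℚ_[ℓ]) (k s)))) (fun a b => lg g a b) = DF (lg g) T j := by
    simp only [_root_.sum_apply, _root_.smul_apply, ContinuousLinearMap.comp_apply,
      ContinuousLinearMap.proj_apply, smul_eq_mul, Finset.mul_sum]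
    rw [Finset.sum_comm]
    unfold DF
    refine Finset.sum_congr rfl fun s _ => ?_
    exact gT_one_sum (lg g) T j s
  rw [hDF] at hlim
  -- values
  have hval : ∀ k : ℕ, ∑ k' : S → κ, T (fun s => ((j s).1, k' s)) * ∏ s, (idf κ ℚ_[ℓ] + d k) (k' s) (j s).2 = (x ^ ℓ ^ k) ^ i * T j := by
    intro k
    rw [← h k]
    unfold gT
    refine Finset.sum_congr rfl fun k' _ => ?_
    congr 1
    refine Finset.prod_congr rfl fun s _ => ?_
    simp only [hd, Pi.add_apply, Matrix.sub_apply, Matrix.one_apply, idf]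
    ring
  have hval1 : ∑ k' : S → κ, T (fun s => ((j s).1, k' s)) * ∏ s, idf κ ℚ_[ℓ] (k' s) (j s).2 = T j := by
    rw [Finset.sum_eq_single (fun s => (j s).2)]
    · simp [idf]
    · intro k _ hk
      have : ∃ s, k s ≠ (j s).2 := by
        by_contra hcon
        push Not at hcon
        exact hk (funext hcon)
      obtain ⟨s, hs⟩ := this
      rw [Finset.prod_eq_zero (Finset.mem_univ s) (if_neg hs), mul_zero]
    · intro h'
      exact absurd (Finset.mem_univ _) h'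
  -- the limit of the right hand side
  have hy1 : Tendsto (fun k : ℕ => x ^ ℓ ^ k) atTop (𝓝 1) := by
    have h1 : Tendsto (fun k : ℕ => (ℓ : ℚ_[ℓ]) ^ k * (((ℓ : ℚ_[ℓ]) ^ k)⁻¹ * (x ^ ℓ ^ k - 1)) + 1) atTop (𝓝 (0 * lgs x + 1)) :=
      (hε.mul hx').add_const 1
    rw [zero_mul, zero_add] at h1
    refine h1.congr fun k => ?_
    have hk0 : ((ℓ : ℚ_[ℓ]) ^ k) ≠ 0 := pow_ne_zero _ hl0
    rw [← mul_assoc, mul_inv_cancel₀ hk0, one_mul, sub_add_cancel]
  have hgeom : Tendsto (fun k : ℕ => ∑ r ∈ Finset.range i, (x ^ ℓ ^ k) ^ r) atTop (𝓝 (∑ r ∈ Finset.range i, (1 : ℚ_[ℓ]) ^ r)) :=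
    tendsto_finsetSum _ fun r _ => hy1.pow r
  have hR : Tendsto (fun k : ℕ => (∑ r ∈ Finset.range i, (x ^ ℓ ^ k) ^ r) * (((ℓ : ℚ_[ℓ]) ^ k)⁻¹ * (x ^ ℓ ^ k - 1)) * T j) atTop
      (𝓝 ((∑ r ∈ Finset.range i, (1 : ℚ_[ℓ]) ^ r) * lgs x * T j)) :=
    (hgeom.mul hx').mul_const _
  have hsum1 : (∑ r ∈ Finset.range i, (1 : ℚ_[ℓ]) ^ r) = i := by simp
  rw [hsum1] at hR
  refine tendsto_nhds_unique hlim (hR.congr fun k => ?_)
  rw [hval k, hval1, smul_eq_mul]
  have hgs := geom_sum_mul (x ^ ℓ ^ k) i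
  calc (∑ r ∈ Finset.range i, (x ^ ℓ ^ k) ^ r) * (((ℓ : ℚ_[ℓ]) ^ k)⁻¹ * (x ^ ℓ ^ k - 1)) * T j
      = ((ℓ : ℚ_[ℓ]) ^ k)⁻¹ * ((∑ r ∈ Finset.range i, (x ^ ℓ ^ k) ^ r) * (x ^ ℓ ^ k - 1)) * T j := by ring
    _ = _ := by rw [hgs]; ring

end Pool.Agent.Lib.MP_021685_ag.Pad
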