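import Pool.Agent.Lib.MP_802513_ag.WEt
import Pool.Agent.Lib.MP_021685_ag.UT.NDefs
import Pool.Agent.Lib.MP_021685_ag.UT.Pad2
import Pool.Agent.Lib.MP_021685_ag.UT.Pad6

/-!
# The properties of a Tate module, in coordinates
-/

set_option autoImplicit false
set_option linter.unusedSectionVars false

namespace Pool.Agent.Lib.MP_021685_ag.NF

open Matrix Function Module Pool.Agent.Lib.MP_802513_ag

/-- The matrix over `ℂ_ℓ` of a matrix over `ℚ_ℓ`. -/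
noncomputable def mc {ℓ : ℕ} [Fact ℓ.Prime] {κ : Type*} (X : Matrix κ κ ℚ_[ℓ]) : Matrix κ κ ℂ_[ℓ] := X.map (algebraMap ℚ_[ℓ] ℂ_[ℓ])

/-- The projection to the eigenspace of the character `f`. -/
noncomputable def pfl {ℓ : ℕ} [Fact ℓ.Prime] {κ E : Type*} [Fintype κ] [DecidableEq κ] [CommRing E] [Algebra ℚ E] [Module.Finite ℚ E] [IsReduced E]
    (M : E →+* Matrix κ κ ℚ_[ℓ]) (f : E →+* ℂ_[ℓ]) : Matrix κ κ ℂ_[ℓ] := ∑ i, f (W.eps' E i) • mc (M (W.eps E i))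

/-- The properties of a Tate module, in coordinates, first part. -/
structure PData0 (K : Type*) [Field K] (ℓ : ℕ) [Fact ℓ.Prime] (κ : Type*) [Fintype κ] [DecidableEq κ] (E : Type*) [CommRing E] [Algebra ℚ E]
    [Module.Finite ℚ E] [IsReduced E] where
  R : Field.absoluteGaloisGroup K →* Matrix κ κ ℚ_[ℓ]
  M : E →+* Matrix κ κ ℚ_[ℓ]
  G : Matrix κ κ ℚ_[ℓ]
  ros : E →+* E
  r : (E →+* AlgebraicClosure K) → ℕ
  P : (AlgebraicClosure K →+* ℂ_[ℓ]) → Matrix κ κ ℂ_[ℓ]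
  cont : ∀ k l, Continuous fun γ => R γ k l
  inj : Function.Injective M
  comm : ∀ γ e, R γ * M e = M e * R γ
  G_skew : Gᵀ = -G
  G_det : G.det ≠ 0
  G_eq : ∀ γ, (R γ)ᵀ * G * R γ = chi K ℓ γ • G
  ros_spec : ∀ e, (M e)ᵀ * G = G * M (ros e)
  ss : ∀ U : Subgroup (Field.absoluteGaloisGroup K), IsOpen (U : Set (Field.absoluteGaloisGroup K)) →
    ∀ W : Submodule ℚ_[ℓ] (κ → ℚ_[ℓ]), (∀ γ ∈ U, ∀ w ∈ W, R γ *ᵥ w ∈ W) →
      ∃ W' : Submodule ℚ_[ℓ] (κ → ℚ_[ℓ]), IsCompl W W' ∧ ∀ γ ∈ U, ∀ w ∈ W', R γ *ᵥ w ∈ W'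
  falt : ∀ U : Subgroup (Field.absoluteGaloisGroup K), IsOpen (U : Set (Field.absoluteGaloisGroup K)) →
    ∀ Y : Matrix κ κ ℚ_[ℓ], (∀ γ ∈ U, Y * R γ = R γ * Y) → Y ∈ Submodule.span ℚ_[ℓ] (Set.range M)
  P_idem : ∀ j, P j * P j = P j
  P_weight : ∀ (j) (m i : ℕ) (T : (Fin m → κ) → ℚ_[ℓ]),
    (∃ U : Subgroup (Field.absoluteGaloisGroup K), IsOpen (U : Set (Field.absoluteGaloisGroup K)) ∧
      ∀ γ ∈ U, ∀ x, ∑ k : Fin m → κ, T k * ∏ s, R γ (k s) (x s) = chi K ℓ γ ^ i * T x) →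
    ∀ x, ∑ s, ∑ k, algebraMap ℚ_[ℓ] ℂ_[ℓ] (T (update x s k)) * P j k (x s) = i * algebraMap ℚ_[ℓ] ℂ_[ℓ] (T x)

/-- The properties of a Tate module, in coordinates. -/
structure PData (K : Type*) [Field K] (ℓ : ℕ) [Fact ℓ.Prime] (κ : Type*) [Fintype κ] [DecidableEq κ] (E : Type*) [CommRing E] [Algebra ℚ E]
    [Module.Finite ℚ E] [IsReduced E] extends PData0 K ℓ κ E where
  P_mult : ∀ j (φ : E →+* AlgebraicClosure K), (P j * pfl M (j.comp φ)).trace = r φ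
  det : ∀ f g : E →+* ℂ_[ℓ], (∀ (j : AlgebraicClosure K →+* ℂ_[ℓ]) (φ θ : E →+* AlgebraicClosure K), j.comp φ = f → j.comp θ = g → r φ = r θ) →
    ∃ U : Subgroup (Field.absoluteGaloisGroup K), IsOpen (U : Set (Field.absoluteGaloisGroup K)) ∧
      ∀ γ ∈ U, (1 + (mc (R γ) - 1) * pfl M f).det = (1 + (mc (R γ) - 1) * pfl M g).det

end Pool.Agent.Lib.MP_021685_ag.NF
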