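import Mathlib

/-!
# Norms of the entries of `ℓ`-adic matrices
-/

set_option autoImplicit false
set_option linter.unusedSectionVars false

namespace Pool.Agent.Lib.MP_021685_ag.Pad

open Filter Topology Function

/-- All entries have norm at most `c`. -/
def Bd {F κ : Type*} [Norm F] (A : Matrix κ κ F) (c : ℝ) : Prop := ∀ k l, ‖A k l‖ ≤ c

/-- The radius `ℓ ^ (-2)`. -/
noncomputable def rad (ℓ : ℕ) : ℝ := ((ℓ : ℝ) ^ 2)⁻¹

section
variable {F : Type*} [NormedField F] [IsUltrametricDist F] {κ : Type*} [Fintype κ] [DecidableEq κ]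

theorem Bd.mono {A : Matrix κ κ F} {a b : ℝ} (h : Bd A a) (hab : a ≤ b) : Bd A b := fun k l => (h k l).trans hab

/-- Job Pad1. -/
theorem Bd.zero {a : ℝ} (ha : 0 ≤ a) : Bd (0 : Matrix κ κ F) a := by
  intro k l
  simpa using ha

/-- Job Pad1. -/
theorem Bd.one : Bd (1 : Matrix κ κ F) 1 := by
  intro k l
  by_cases h : k = l
  · subst h
    simp
  · simp [Matrix.one_apply_ne h]

/-- Job Pad1. The ultrametric inequality. -/
theorem Bd.add {A B : Matrix κ κ F} {a : ℝ} (hA : Bd A a) (hB : Bd B a) : Bd (A + B) a := by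
  intro k l
  rw [Matrix.add_apply]
  exact (IsUltrametricDist.norm_add_le_max _ _).trans (max_le (hA k l) (hB k l))

/-- Job Pad1. -/
theorem Bd.sub {A B : Matrix κ κ F} {a : ℝ} (hA : Bd A a) (hB : Bd B a) : Bd (A - B) a := by
  intro k l
  rw [Matrix.sub_apply, sub_eq_add_neg]
  refine (IsUltrametricDist.norm_add_le_max _ _).trans (max_le (hA k l) ?_)
  rw [norm_neg]
  exact hB k l

/-- Job Pad1. -/
theorem Bd.sum {ι : Type*} (s : Finset ι) {A : ι → Matrix κ κ F} {a : ℝ} (ha : 0 ≤ a) (hA : ∀ i ∈ s, Bd (A i) a) : Bd (∑ i ∈ s, A i) a := by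
  intro k l
  rw [Matrix.sum_apply]
  exact IsUltrametricDist.norm_sum_le_of_forall_le_of_nonneg ha (fun i hi => hA i hi k l)

/-- Job Pad1. The ultrametric inequality for the entries of a product (`IsUltrametricDist.norm_sum_le_of_forall_le_of_nonneg` or similar). -/
theorem Bd.mul {A B : Matrix κ κ F} {a b : ℝ} (ha : 0 ≤ a) (hb : 0 ≤ b) (hA : Bd A a) (hB : Bd B b) : Bd (A * B) (a * b) := by
  intro k l
  rw [Matrix.mul_apply]
  refine IsUltrametricDist.norm_sum_le_of_forall_le_of_nonneg (mul_nonneg ha hb) (fun i _ => ?_)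
  rw [norm_mul]
  exact mul_le_mul (hA k i) (hB i l) (norm_nonneg _) ha

/-- Job Pad1. -/
theorem Bd.smul {A : Matrix κ κ F} {a : ℝ} (c : F) (hA : Bd A a) : Bd (c • A) (‖c‖ * a) := by
  intro k l
  rw [Matrix.smul_apply, smul_eq_mul, norm_mul]
  exact mul_le_mul_of_nonneg_left (hA k l) (norm_nonneg _)

/-- Job Pad1. Proof: `‖(n : F)‖ ≤ 1` in an ultrametric field. -/
theorem Bd.nsmul {A : Matrix κ κ F} {a : ℝ} (ha : 0 ≤ a) (n : ℕ) (hA : Bd A a) : Bd (n • A) a := by
  intro k l
  rw [Matrix.smul_apply, nsmul_eq_mul, norm_mul]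
  calc ‖(n : F)‖ * ‖A k l‖ ≤ 1 * a :=
        mul_le_mul (IsUltrametricDist.norm_natCast_le_one F n) (hA k l) (norm_nonneg _) zero_le_one
    _ = a := one_mul a

/-- Job Pad1. The binomial expansion: `(1 + Z) ^ n - 1 - n Z = Z ^ 2 * Q` where `Q` is a combination of powers of `Z` with coefficients natural numbers; so if the entries of `Z`
have norm at most `z ≤ 1`, those of the left hand side have norm at most `z ^ 2`. Proof by induction on `n`: with `R n` the left hand side, `R (n + 1) = R n + R n * Z + n Z ^ 2`. -/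
theorem Bd.binom {Z : Matrix κ κ F} {z : ℝ} (hz0 : 0 ≤ z) (hz : z ≤ 1) (hZ : Bd Z z) (n : ℕ) : Bd ((1 + Z) ^ n - 1 - n • Z) (z ^ 2) := by
  induction n with
  | zero =>
      have h : (1 + Z) ^ 0 - 1 - 0 • Z = (0 : Matrix κ κ F) := by simp
      rw [h]
      exact Bd.zero (by positivity)
  | succ n ih =>
      have h : (1 + Z) ^ (n + 1) - 1 - (n + 1) • Z
          = ((1 + Z) ^ n - 1 - n • Z) + ((1 + Z) ^ n - 1 - n • Z) * Z + n • (Z * Z) := by
        rw [pow_succ]
        generalize (1 + Z) ^ n = P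
        simp only [mul_add, sub_mul, mul_one, one_mul, add_smul, one_smul, smul_mul_assoc]
        abel
      rw [h]
      have h1 : Bd (((1 + Z) ^ n - 1 - n • Z) * Z) (z ^ 2) := by
        refine (Bd.mul (by positivity) hz0 ih hZ).mono ?_
        calc z ^ 2 * z ≤ z ^ 2 * 1 := mul_le_mul_of_nonneg_left hz (by positivity)
          _ = z ^ 2 := mul_one _
      have h2 : Bd (n • (Z * Z)) (z ^ 2) := by
        refine Bd.nsmul (by positivity) n ?_
        rw [pow_two]
        exact Bd.mul hz0 hz0 hZ hZ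
      exact Bd.add (Bd.add ih h1) h2

end

end Pool.Agent.Lib.MP_021685_ag.Pad
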