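import Pool.Agent.Lib.MP_021685_ag.UT.Pad2

/-!
# A principle on linear functions of logarithms
-/

set_option autoImplicit false
set_option linter.unusedSectionVars false

namespace Pool.Agent.Lib.MP_021685_ag.Pad

open Filter Topology Function

variable {ℓ : ℕ} [Fact ℓ.Prime] {κ : Type*} [Fintype κ] [DecidableEq κ]

theorem rad_le_one : rad ℓ ≤ 1 := by
  have h : (1 : ℝ) ≤ ℓ := by exact_mod_cast (Fact.out : ℓ.Prime).one_lt.le
  unfold rad
  exact inv_le_one_of_one_le₀ (one_le_pow₀ h)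

theorem rad_lt : rad ℓ < (ℓ : ℝ)⁻¹ := by
  have h : (1 : ℝ) < ℓ := by exact_mod_cast (Fact.out : ℓ.Prime).one_lt
  unfold rad
  have h2 : (ℓ : ℝ) < (ℓ : ℝ) ^ 2 := by nlinarith
  exact (inv_lt_inv₀ (by positivity) (by positivity)).mpr h2

theorem bd_pow_weak {g : Matrix κ κ ℚ_[ℓ]} {z : ℝ} (hz0 : 0 ≤ z) (hz : z ≤ 1) (hg : Bd (g - 1) z) (k : ℕ) : Bd (g ^ ℓ ^ k - 1) z := by
  induction k with
  | zero => simpa using hg
  | succ k ih =>
    have e : g ^ ℓ ^ (k + 1) - 1 = ((1 + (g ^ ℓ ^ k - 1)) ^ ℓ - 1 - ℓ • (g ^ ℓ ^ k - 1)) + ℓ • (g ^ ℓ ^ k - 1) := by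
      rw [add_sub_cancel, ← pow_mul, ← pow_succ]
      abel
    rw [e]
    refine Bd.add ((Bd.binom hz0 hz ih ℓ).mono ?_) (Bd.nsmul hz0 ℓ ih)
    nlinarith

theorem delta_binom (δ : Matrix κ κ ℚ_[ℓ] →ₗ[ℚ_[ℓ]] Matrix κ κ ℚ_[ℓ]) {c : ℝ} (hc : 1 ≤ c)
    (hδ : ∀ (u w : Matrix κ κ ℚ_[ℓ]) (a b x y : ℝ), 0 ≤ a → 0 ≤ b → 0 ≤ x → 0 ≤ y → Bd u a → Bd w b → Bd (δ u) x → Bd (δ w) y → Bd (δ (u * w)) (c * max (x * b) (a * y)))
    {Z : Matrix κ κ ℚ_[ℓ]} {z d : ℝ} (hz0 : 0 ≤ z) (hcz : c * z ≤ 1) (hZ : Bd Z z) (hd0 : 0 ≤ d) (hd : Bd (δ Z) d) (n : ℕ) :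
    Bd (δ ((1 + Z) ^ n - 1 - n • Z)) (c * z * d) := by
  have hz : z ≤ 1 := le_trans (by nlinarith) hcz
  have hc0 : 0 ≤ c := by linarith
  have hcd : 0 ≤ c * z * d := by positivity
  induction n with
  | zero => simpa using Bd.zero hcd
  | succ n ih =>
    have e : (1 + Z) ^ (n + 1) - 1 - (n + 1) • Z = ((1 + Z) ^ n - 1 - n • Z) + ((1 + Z) ^ n - 1 - n • Z) * Z + n • (Z * Z) := by
      simp only [pow_succ, nsmul_eq_mul, Nat.cast_add, Nat.cast_one]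
      noncomm_ring
    rw [e, map_add, map_add, map_nsmul]
    refine Bd.add (Bd.add ih ?_) (Bd.nsmul hcd n ?_)
    · refine (hδ _ _ (z ^ 2) z (c * z * d) d (by positivity) hz0 hcd hd0 (Bd.binom hz0 hz hZ n) hZ ih hd).mono ?_
      have h1 : c * z * d * z ≤ z * d := by
        have h2 : c * z * (z * d) ≤ 1 * (z * d) := mul_le_mul_of_nonneg_right hcz (by positivity)
        nlinarith
      have h3 : z ^ 2 * d ≤ z * d := by
        have h4 : z * (z * d) ≤ 1 * (z * d) := mul_le_mul_of_nonneg_right hz (by positivity)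
        nlinarith
      have h5 : max (c * z * d * z) (z ^ 2 * d) ≤ z * d := max_le h1 h3
      calc c * max (c * z * d * z) (z ^ 2 * d) ≤ c * (z * d) := mul_le_mul_of_nonneg_left h5 hc0
        _ = c * z * d := by ring
    · refine (hδ _ _ z z d d hz0 hz0 hd0 hd0 hZ hZ hd hd).mono ?_
      have h5 : max (d * z) (z * d) ≤ z * d := max_le (by rw [mul_comm]) le_rfl
      calc c * max (d * z) (z * d) ≤ c * (z * d) := mul_le_mul_of_nonneg_left h5 hc0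
        _ = c * z * d := by ring

/-- Job Pad3. The principle: let `δ` be linear on matrices with `δ 1 = 0` and `‖δ (u w)‖ ≤ c max (‖δ u‖ ‖w‖, ‖u‖ ‖δ w‖)` for the norms of the entries; if `c ‖g - 1‖ ≤ ℓ⁻²` and `δ (lg g) = 0` then `δ g = 0`.

Proof. Suppose that the entries of `δ (g ^ ℓ ^ k)` are not all zero and let `d` be the maximum of their norms (`k` arbitrary; start with `k = 0`). Put `Z = g ^ ℓ ^ k - 1`, with entries of norm at most `z = ℓ⁻² / c` (by `bd_pow`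
if `c = 1`; in general by induction, as in the proof of `bd_pow`: `(1 + Z) ^ ℓ - 1` has entries of norm at most `max (z ^ 2) (ℓ⁻¹ z)`).
By induction on `i ≥ 1` and the hypothesis, `δ (Z ^ i)` has entries of norm at most `(c z) ^ (i - 1) d` (for `u = Z`, `w = Z ^ i`: `c max (d z ^ i, z (c z) ^ (i - 1) d) ≤ (c z) ^ i d` since `c ≥ 1`).
So `δ ((1 + Z) ^ ℓ) = ℓ δ Z + ∑ i ≥ 2, binomial * δ (Z ^ i)`, where the sum has entries of norm at most `c z d ≤ ℓ⁻² d < ℓ⁻¹ d`, and `ℓ δ Z = ℓ δ (g ^ ℓ ^ k)` has an entry of norm `ℓ⁻¹ d`.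
So the maximum of the norms of the entries of `δ (g ^ ℓ ^ (k + 1))` is exactly `ℓ⁻¹ d`. Hence by induction the maximum of the norms of the entries of `δ (la ℓ g k) = (ℓ ^ k)⁻¹ • δ (g ^ ℓ ^ k)` is the same for
all `k`: it is equal to that for `δ g`. By continuity of the linear map `δ` (`LinearMap.continuous_of_finiteDimensional`, or write `δ` with matrices) it is also equal to that of `δ (lg g) = 0` (`tendsto_lg`). Hint: it is convenient to use the sup norm on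
matrices (`Matrix.normedAddCommGroup` as a local instance, `Matrix.norm_le_iff`); the case that `κ` is empty is trivial. Only the hypothesis for `w` or `u` among powers is needed. -/
theorem delta_principle (δ : Matrix κ κ ℚ_[ℓ] →ₗ[ℚ_[ℓ]] Matrix κ κ ℚ_[ℓ]) (h1 : δ 1 = 0) {c : ℝ} (hc : 1 ≤ c)
    (hδ : ∀ (u w : Matrix κ κ ℚ_[ℓ]) (a b x y : ℝ), 0 ≤ a → 0 ≤ b → 0 ≤ x → 0 ≤ y → Bd u a → Bd w b → Bd (δ u) x → Bd (δ w) y → Bd (δ (u * w)) (c * max (x * b) (a * y)))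
    {g : Matrix κ κ ℚ_[ℓ]} (hg : Bd (g - 1) (rad ℓ / c)) (h : δ (lg g) = 0) : δ g = 0 := by
  classical
  have hc0 : 0 < c := by linarith
  have hl0 : (0 : ℝ) < ℓ := by exact_mod_cast (Fact.out : ℓ.Prime).pos
  have hlQ : (ℓ : ℚ_[ℓ]) ≠ 0 := by exact_mod_cast (Fact.out : ℓ.Prime).ne_zero
  have hr0 : 0 ≤ rad ℓ / c := div_nonneg rad_pos.le hc0.le
  have hrr : rad ℓ / c ≤ rad ℓ := div_le_self rad_pos.le hc
  have hr1 : rad ℓ / c ≤ 1 := hrr.trans rad_le_one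
  have hcr : c * (rad ℓ / c) = rad ℓ := by field_simp
  by_contra hne
  obtain ⟨i0, j0, hij0⟩ : ∃ i j, δ g i j ≠ 0 := by
    by_contra hcon
    push Not at hcon
    exact hne (Matrix.ext fun i j => by simpa using hcon i j)
  have : Nonempty (κ × κ) := ⟨(i0, j0)⟩
  obtain ⟨⟨i, j⟩, hmax⟩ := Finite.exists_max (fun p : κ × κ => ‖δ g p.1 p.2‖)
  set d : ℝ := ‖δ g i j‖ with hd
  have hdpos : 0 < d := lt_of_lt_of_le (norm_pos_iff.mpr hij0) (hmax (i0, j0))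
  -- the main induction
  have key : ∀ k : ℕ, Bd (δ (g ^ ℓ ^ k - 1)) (((ℓ : ℝ) ^ k)⁻¹ * d) ∧ ‖δ (g ^ ℓ ^ k - 1) i j‖ = ((ℓ : ℝ) ^ k)⁻¹ * d := by
    intro k
    induction k with
    | zero =>
      refine ⟨?_, ?_⟩
      · intro a b
        have := hmax (a, b)
        simpa [map_sub, h1] using this
      · simp [map_sub, h1, hd]
    | succ k ih =>
      obtain ⟨ihB, ihE⟩ := ih
      have hZ : Bd (g ^ ℓ ^ k - 1) (rad ℓ / c) := bd_pow_weak hr0 hr1 hg k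
      set e : ℝ := ((ℓ : ℝ) ^ k)⁻¹ * d with he
      have he0 : 0 < e := by positivity
      have hb := delta_binom δ hc hδ hr0 (by rw [hcr]; exact rad_le_one) hZ he0.le ihB ℓ
      rw [hcr] at hb
      have e1 : g ^ ℓ ^ (k + 1) - 1 = ((1 + (g ^ ℓ ^ k - 1)) ^ ℓ - 1 - ℓ • (g ^ ℓ ^ k - 1)) + ℓ • (g ^ ℓ ^ k - 1) := by
        rw [add_sub_cancel, ← pow_mul, ← pow_succ]
        abel
      have e2 : ∀ a b, δ (g ^ ℓ ^ (k + 1) - 1) a b = δ ((1 + (g ^ ℓ ^ k - 1)) ^ ℓ - 1 - ℓ • (g ^ ℓ ^ k - 1)) a b + (ℓ : ℚ_[ℓ]) * δ (g ^ ℓ ^ k - 1) a b := by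
        intro a b
        conv_lhs => rw [e1, map_add, map_nsmul]
        rw [Matrix.add_apply, Matrix.smul_apply, nsmul_eq_mul (ℓ) (δ (g ^ ℓ ^ k - 1) a b)]
      have e3 : (((ℓ : ℝ) ^ (k + 1))⁻¹ * d) = (ℓ : ℝ)⁻¹ * e := by
        rw [he, pow_succ, mul_inv]; ring
      have e4 : rad ℓ * e < (ℓ : ℝ)⁻¹ * e := mul_lt_mul_of_pos_right rad_lt he0
      rw [e3]
      refine ⟨?_, ?_⟩
      · intro a b
        rw [e2 a b]
        refine (IsUltrametricDist.norm_add_le_max _ _).trans (max_le ((hb a b).trans e4.le) ?_)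
        rw [norm_mul, Padic.norm_p]
        exact mul_le_mul_of_nonneg_left (ihB a b) (by positivity)
      · rw [e2 i j]
        have n1 : ‖(ℓ : ℚ_[ℓ]) * δ (g ^ ℓ ^ k - 1) i j‖ = (ℓ : ℝ)⁻¹ * e := by
          rw [norm_mul, Padic.norm_p, ihE]
        have n2 : ‖δ ((1 + (g ^ ℓ ^ k - 1)) ^ ℓ - 1 - ℓ • (g ^ ℓ ^ k - 1)) i j‖ < ‖(ℓ : ℚ_[ℓ]) * δ (g ^ ℓ ^ k - 1) i j‖ := by
          rw [n1]; exact (hb i j).trans_lt e4
        rw [IsUltrametricDist.norm_add_eq_max_of_norm_ne_norm n2.ne, max_eq_right n2.le, n1]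
  have hla : ∀ k : ℕ, ‖δ (la ℓ g k) i j‖ = d := by
    intro k
    unfold la
    rw [map_smul, Matrix.smul_apply, smul_eq_mul, norm_mul, (key k).2, norm_inv, norm_pow, Padic.norm_p]
    have h7 : ((ℓ : ℝ) ^ k) ≠ 0 := by positivity
    rw [inv_pow, inv_inv, ← mul_assoc, mul_inv_cancel₀ h7, one_mul]
  have hcont : Continuous δ := LinearMap.continuous_of_finiteDimensional δ
  have ht : Tendsto (fun k => δ (la ℓ g k)) atTop (𝓝 (δ (lg g))) :=
    (hcont.tendsto _).comp (tendsto_lg (hg.mono hrr))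
  have ht2 : Tendsto (fun k => ‖δ (la ℓ g k) i j‖) atTop (𝓝 ‖δ (lg g) i j‖) := by
    have h3 : Continuous fun A : Matrix κ κ ℚ_[ℓ] => ‖A i j‖ := by fun_prop
    exact (h3.tendsto _).comp ht
  rw [h] at ht2
  have h4 : Tendsto (fun k : ℕ => ‖δ (la ℓ g k) i j‖) atTop (𝓝 d) := by
    simp only [hla]; exact tendsto_const_nhds
  have h5 := tendsto_nhds_unique ht2 h4
  simp at h5
  exact hdpos.ne h5

end Pool.Agent.Lib.MP_021685_ag.Pad
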