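import Pool.Agent.Lib.MP_021685_ag.UT.Pad3

/-!
# Commutants and invariant subspaces of logarithms of `ℓ`-adic matrices
-/

set_option autoImplicit false
set_option linter.unusedSectionVars false

namespace Pool.Agent.Lib.MP_021685_ag.Pad

open Filter Topology Function

variable {ℓ : ℕ} [Fact ℓ.Prime] {κ : Type*} [Fintype κ] [DecidableEq κ]

/-- Job Pad4. A matrix which commutes with the logarithm of `g` commutes with `g`. Proof: `delta_principle` for `δ u = Y u - u Y` and `c = 1`: `δ (u w) = δ u * w + u * δ w`. -/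
theorem comm_of_lg {g Y : Matrix κ κ ℚ_[ℓ]} (hg : Bd (g - 1) (rad ℓ)) (h : Y * lg g = lg g * Y) : Y * g = g * Y := by
  have key := delta_principle (ℓ := ℓ)
    (LinearMap.mulLeft ℚ_[ℓ] Y - LinearMap.mulRight ℚ_[ℓ] Y : Matrix κ κ ℚ_[ℓ] →ₗ[ℚ_[ℓ]] Matrix κ κ ℚ_[ℓ])
    (by simp) (c := 1) le_rfl
    (by
      intro u w a b x y ha hb hx hy hu hw hdu hdw
      have e : (LinearMap.mulLeft ℚ_[ℓ] Y - LinearMap.mulRight ℚ_[ℓ] Y) (u * w) =
          (LinearMap.mulLeft ℚ_[ℓ] Y - LinearMap.mulRight ℚ_[ℓ] Y) u * w +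
          u * (LinearMap.mulLeft ℚ_[ℓ] Y - LinearMap.mulRight ℚ_[ℓ] Y) w := by
        simp only [LinearMap.sub_apply, LinearMap.mulLeft_apply, LinearMap.mulRight_apply]
        noncomm_ring
      rw [e, one_mul]
      exact Bd.add ((Bd.mul hx hb hdu hw).mono (le_max_left _ _)) ((Bd.mul ha hy hu hdw).mono (le_max_right _ _)))
    (g := g) (by rw [div_one]; exact hg)
    (by simp only [LinearMap.sub_apply, LinearMap.mulLeft_apply, LinearMap.mulRight_apply]; rw [h, sub_self])
  simp only [LinearMap.sub_apply, LinearMap.mulLeft_apply, LinearMap.mulRight_apply] at key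
  exact sub_eq_zero.1 key

/-- Job Pad4. If the logarithm of `g` preserves the image of the idempotent `e`, and `g` is close enough to `1` (depending on `e`), then `g` preserves the image of `e`.
Proof: `delta_principle` for `δ u = (1 - e) u e`: `δ (u w) = δ u * (w e) + ((1 - e) u) * δ w` (insert `e + (1 - e)` between `u` and `w`; `e e = e`). -/
theorem stable_of_lg {g e : Matrix κ κ ℚ_[ℓ]} (he : e * e = e) {c : ℝ} (hc : 1 ≤ c) (h1 : Bd e c) (h2 : Bd (1 - e) c) (hg : Bd (g - 1) (rad ℓ / c))
    (h : (1 - e) * lg g * e = 0) : (1 - e) * g * e = 0 := by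
  have hc0 : 0 ≤ c := zero_le_one.trans hc
  have key := delta_principle (ℓ := ℓ)
    ((LinearMap.mulRight ℚ_[ℓ] e).comp (LinearMap.mulLeft ℚ_[ℓ] (1 - e)) : Matrix κ κ ℚ_[ℓ] →ₗ[ℚ_[ℓ]] Matrix κ κ ℚ_[ℓ])
    (by
      simp only [LinearMap.comp_apply, LinearMap.mulLeft_apply, LinearMap.mulRight_apply, mul_one]
      rw [sub_mul, one_mul, he, sub_self])
    (c := c) hc
    (by
      intro u w a b x y ha hb hx hy hu hw hdu hdw
      simp only [LinearMap.comp_apply, LinearMap.mulLeft_apply, LinearMap.mulRight_apply] at hdu hdw ⊢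
      have e1 : (1 - e) * (u * w) * e = ((1 - e) * u * e) * (w * e) + ((1 - e) * u) * ((1 - e) * w * e) := by
        have h1e : (1 - e) * (1 - e) = 1 - e := by
          rw [sub_mul, one_mul, mul_sub, mul_one, he, sub_self, sub_zero]
        calc (1 - e) * (u * w) * e = (1 - e) * u * (e + (1 - e)) * (w * e) := by
              rw [add_sub_cancel, mul_one]
              simp only [mul_assoc]
          _ = (1 - e) * u * e * (w * e) + (1 - e) * u * (1 - e) * (w * e) := by
              rw [mul_add, add_mul]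
          _ = _ := by
              simp only [mul_assoc]
      rw [e1]
      have hwe : Bd (w * e) (b * c) := Bd.mul hb hc0 hw h1
      have hue : Bd ((1 - e) * u) (c * a) := Bd.mul hc0 ha h2 hu
      refine Bd.add ((Bd.mul hx (mul_nonneg hb hc0) hdu hwe).mono ?_)
        ((Bd.mul (mul_nonneg hc0 ha) hy hue hdw).mono ?_)
      · calc x * (b * c) = c * (x * b) := by ring
          _ ≤ _ := mul_le_mul_of_nonneg_left (le_max_left _ _) hc0
      · calc c * a * y = c * (a * y) := by ring
          _ ≤ _ := mul_le_mul_of_nonneg_left (le_max_right _ _) hc0)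
    (g := g) hg
    (by simpa only [LinearMap.comp_apply, LinearMap.mulLeft_apply, LinearMap.mulRight_apply] using h)
  simpa only [LinearMap.comp_apply, LinearMap.mulLeft_apply, LinearMap.mulRight_apply] using key

end Pool.Agent.Lib.MP_021685_ag.Pad
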