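import Pool.Agent.Lib.MP_021685_ag.UT.Pad2

/-!
# The derivative of a relation `ψ (g x) (g y) = χ ψ x y`
-/

set_option autoImplicit false
set_option linter.unusedSectionVars false

namespace Pool.Agent.Lib.MP_021685_ag.Pad

open Filter Topology Function

variable {ℓ : ℕ} [Fact ℓ.Prime] {κ : Type*} [Fintype κ] [DecidableEq κ]

/-- Job Pad5. The derivative of a relation `ψ (g x) (g y) = χ ψ x y`.

Proof. With `Y = la ℓ g k` and `ε = ℓ ^ k`, `g ^ ℓ ^ k = 1 + ε Y`; so `(χ ^ ℓ ^ k - 1) • G = ε (Yᵀ G + G Y) + ε ^ 2 Yᵀ G Y`. Divide by `ε` and let `k` tend to infinity (`tendsto_lg`, `tendsto_lgs`, `ε` tends to `0` in `ℚ_ℓ`). -/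
theorem der_form {g G : Matrix κ κ ℚ_[ℓ]} (hg : Bd (g - 1) (rad ℓ)) {x : ℚ_[ℓ]} (hx : ‖x - 1‖ ≤ rad ℓ)
    (h : ∀ k : ℕ, (g ^ ℓ ^ k).transpose * G * g ^ ℓ ^ k = x ^ ℓ ^ k • G) : (lg g).transpose * G + G * lg g = lgs x • G := by
  have hl0 : (ℓ : ℚ_[ℓ]) ≠ 0 := by
    exact_mod_cast (Fact.out : ℓ.Prime).ne_zero
  have hY := tendsto_lg (ℓ := ℓ) hg
  have hx' := tendsto_lgs (ℓ := ℓ) hx
  have hε : Tendsto (fun k : ℕ => (ℓ : ℚ_[ℓ]) ^ k) atTop (𝓝 0) :=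
    tendsto_pow_atTop_nhds_zero_of_norm_lt_one (Padic.norm_p_lt_one)
  have hcont : Continuous (fun p : Matrix κ κ ℚ_[ℓ] × ℚ_[ℓ] => p.1.transpose * G + G * p.1 + p.2 • (p.1.transpose * G * p.1)) := by
    have c1 : Continuous (fun p : Matrix κ κ ℚ_[ℓ] × ℚ_[ℓ] => p.1) := continuous_fst
    have c2 : Continuous (fun p : Matrix κ κ ℚ_[ℓ] × ℚ_[ℓ] => p.1.transpose) := c1.matrix_transpose
    exact ((c2.matrix_mul continuous_const).add (continuous_const.matrix_mul c1)).add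
      (continuous_snd.smul ((c2.matrix_mul continuous_const).matrix_mul c1))
  have hL : Tendsto (fun k : ℕ => (la ℓ g k).transpose * G + G * la ℓ g k + (ℓ : ℚ_[ℓ]) ^ k • ((la ℓ g k).transpose * G * la ℓ g k))
      atTop (𝓝 ((lg g).transpose * G + G * lg g + (0 : ℚ_[ℓ]) • ((lg g).transpose * G * lg g))) := by
    have a1 := hY.prodMk_nhds hε
    have a2 := hcont.tendsto (lg g, 0)
    have a3 := a2.comp a1
    exact a3
  have hR : Tendsto (fun k : ℕ => (((ℓ : ℚ_[ℓ]) ^ k)⁻¹ * (x ^ ℓ ^ k - 1)) • G) atTop (𝓝 (lgs x • G)) :=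
    hx'.smul_const G
  have halg : ∀ (ε y : ℚ_[ℓ]) (Y : Matrix κ κ ℚ_[ℓ]), ε ≠ 0 → (1 + ε • Y).transpose * G * (1 + ε • Y) = y • G →
      Y.transpose * G + G * Y + ε • (Y.transpose * G * Y) = (ε⁻¹ * (y - 1)) • G := by
    intro ε y Y hε0 hk
    have e1 : (1 + ε • Y).transpose * G * (1 + ε • Y) =
        G + ε • (Y.transpose * G + G * Y + ε • (Y.transpose * G * Y)) := by
      rw [Matrix.transpose_add, Matrix.transpose_one, Matrix.transpose_smul]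
      simp only [add_mul, mul_add, one_mul, mul_one, smul_mul_assoc, mul_smul_comm, smul_add, smul_smul]
      abel
    rw [e1] at hk
    have e2 : ε • (Y.transpose * G + G * Y + ε • (Y.transpose * G * Y)) = (y - 1) • G := by
      rw [sub_smul, one_smul, ← hk]
      abel
    rw [mul_smul, ← e2, smul_smul, inv_mul_cancel₀ hε0, one_smul]
  have heq : ∀ k : ℕ, (la ℓ g k).transpose * G + G * la ℓ g k + (ℓ : ℚ_[ℓ]) ^ k • ((la ℓ g k).transpose * G * la ℓ g k) =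
      (((ℓ : ℚ_[ℓ]) ^ k)⁻¹ * (x ^ ℓ ^ k - 1)) • G := by
    intro k
    have hk0 : ((ℓ : ℚ_[ℓ]) ^ k) ≠ 0 := pow_ne_zero _ hl0
    apply halg _ _ _ hk0
    have hg' : 1 + (ℓ : ℚ_[ℓ]) ^ k • la ℓ g k = g ^ ℓ ^ k := by
      unfold la
      rw [smul_smul, mul_inv_cancel₀ hk0, one_smul, add_sub_cancel]
    rw [hg']
    exact h k
  rw [tendsto_congr heq] at hL
  have := tendsto_nhds_unique hL hR
  rw [zero_smul, add_zero] at this
  exact this

end Pool.Agent.Lib.MP_021685_ag.Pad
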