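import Pool.Agent.Lib.MP_021685_ag.UT.Pad2

/-!
# The derivative of an equality of determinants
-/

set_option autoImplicit false
set_option linter.unusedSectionVars false

namespace Pool.Agent.Lib.MP_021685_ag.Pad

open Filter Topology Function

variable {ℓ : ℕ} [Fact ℓ.Prime] {κ : Type*} [Fintype κ] [DecidableEq κ]

/-- The determinant as a continuous multilinear map of the rows. -/
noncomputable def detC (ℓ : ℕ) [Fact ℓ.Prime] (κ : Type*) [Fintype κ] [DecidableEq κ] :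
    ContinuousMultilinearMap ℂ_[ℓ] (fun _ : κ => κ → ℂ_[ℓ]) ℂ_[ℓ] :=
  { toMultilinearMap := (Matrix.detRowAlternating : (κ → ℂ_[ℓ]) [⋀^κ]→ₗ[ℂ_[ℓ]] ℂ_[ℓ]).toMultilinearMap
    cont := Continuous.matrix_det (A := fun m : κ → κ → ℂ_[ℓ] => m) continuous_id }

theorem detC_apply (m : Matrix κ κ ℂ_[ℓ]) : detC ℓ κ m = m.det := rfl

theorem detC_deriv (m : Matrix κ κ ℂ_[ℓ]) : (detC ℓ κ).linearDeriv (1 : Matrix κ κ ℂ_[ℓ]) m = m.trace := by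
  rw [ContinuousMultilinearMap.linearDeriv_apply, Matrix.trace]
  refine Finset.sum_congr rfl fun i _ => ?_
  change (Matrix.updateRow (1 : Matrix κ κ ℂ_[ℓ]) i (m i)).det = m i i
  have h1 : m i = ∑ j, m i j • (1 : Matrix κ κ ℂ_[ℓ]) j := by
    funext k
    rw [Finset.sum_apply]
    simp [Matrix.one_apply]
  rw [h1, Matrix.det_updateRow_sum, Matrix.det_one, smul_eq_mul, mul_one]
  simp [Matrix.one_apply]

theorem tendsto_det {c : ℕ → ℂ_[ℓ]} {d : ℕ → Matrix κ κ ℂ_[ℓ]} {X : Matrix κ κ ℂ_[ℓ]} (hd : Tendsto d atTop (𝓝 0))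
    (hc : Tendsto (fun k => c k • d k) atTop (𝓝 X)) :
    Tendsto (fun k => c k * ((1 + d k).det - 1)) atTop (𝓝 X.trace) := by
  have h1 := ((detC ℓ κ).hasStrictFDerivAt (1 : Matrix κ κ ℂ_[ℓ])).hasFDerivAt.hasFDerivWithinAt (s := Set.univ)
  have h2 := HasFDerivWithinAt.lim h1 (c := c) (d := d) (v := X) (l := atTop) hd (by simp) hc
  rw [detC_deriv] at h2
  refine h2.congr fun k => ?_
  change c k * ((1 + d k).det - (1 : Matrix κ κ ℂ_[ℓ]).det) = _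
  rw [Matrix.det_one]

/-- Job Pad7. The derivative of an equality of determinants.

Proof. Let `ε = ℓ ^ k`, `Y = (la ℓ g k).map (algebraMap ℚ_[ℓ] ℂ_[ℓ])`, so `g ^ ℓ ^ k - 1 = ε Y` (after the map) and `Y` tends to `X = (lg g).map _`. The determinant is differentiable at `1` with derivative the trace: `det (1 + ε A) = 1 + ε tr A + ε ^ 2 (…)`; so
`ε⁻¹ (det (1 + ε Y p) - 1)` tends to `tr (X p)`. (Differentiate `∑ σ, sign σ * ∏ i, A (σ i) i` at `A = 1`: only the identity permutation contributes to the derivative since a permutation other than the identity moves at least two indices. Then `HasFDerivWithinAt.lim`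
with `d k = ε Y p`, `(ε)⁻¹ • d k → X p`.) -/
theorem der_det {g : Matrix κ κ ℚ_[ℓ]} (hg : Bd (g - 1) (rad ℓ)) (p q : Matrix κ κ ℂ_[ℓ])
    (h : ∀ k : ℕ, (1 + ((g ^ ℓ ^ k).map (algebraMap ℚ_[ℓ] ℂ_[ℓ]) - 1) * p).det = (1 + ((g ^ ℓ ^ k).map (algebraMap ℚ_[ℓ] ℂ_[ℓ]) - 1) * q).det) :
    ((lg g).map (algebraMap ℚ_[ℓ] ℂ_[ℓ]) * p).trace = ((lg g).map (algebraMap ℚ_[ℓ] ℂ_[ℓ]) * q).trace := by
  have hℓ : (ℓ : ℚ_[ℓ]) ≠ 0 := by exact_mod_cast (Fact.out : ℓ.Prime).ne_zero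
  have hcont : Continuous (algebraMap ℚ_[ℓ] ℂ_[ℓ]) := continuous_algebraMap _ _
  -- the sequence of the logarithm
  have hla : Tendsto (fun k => (la ℓ g k).map (algebraMap ℚ_[ℓ] ℂ_[ℓ])) atTop (𝓝 ((lg g).map (algebraMap ℚ_[ℓ] ℂ_[ℓ]))) := by
    have : Continuous fun M : Matrix κ κ ℚ_[ℓ] => M.map (algebraMap ℚ_[ℓ] ℂ_[ℓ]) := continuous_id.matrix_map hcont
    exact (this.tendsto _).comp (tendsto_lg hg)
  have hsm : ∀ k : ℕ, (g ^ ℓ ^ k).map (algebraMap ℚ_[ℓ] ℂ_[ℓ]) - 1 =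
      algebraMap ℚ_[ℓ] ℂ_[ℓ] ((ℓ : ℚ_[ℓ]) ^ k) • (la ℓ g k).map (algebraMap ℚ_[ℓ] ℂ_[ℓ]) := by
    intro k
    have h1 : g ^ ℓ ^ k - 1 = ((ℓ : ℚ_[ℓ]) ^ k) • la ℓ g k := by
      rw [la, smul_smul, mul_inv_cancel₀ (pow_ne_zero _ hℓ), one_smul]
    have h2 : (g ^ ℓ ^ k).map (algebraMap ℚ_[ℓ] ℂ_[ℓ]) - 1 = (g ^ ℓ ^ k - 1).map (algebraMap ℚ_[ℓ] ℂ_[ℓ]) := by
      ext i j
      simp [Matrix.map_apply, Matrix.one_apply, apply_ite (algebraMap ℚ_[ℓ] ℂ_[ℓ])]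
    rw [h2, h1]
    ext i j
    simp only [Matrix.map_apply, Matrix.smul_apply, smul_eq_mul, map_mul]
  have hε : Tendsto (fun k : ℕ => algebraMap ℚ_[ℓ] ℂ_[ℓ] ((ℓ : ℚ_[ℓ]) ^ k)) atTop (𝓝 0) := by
    have h1 : Tendsto (fun k : ℕ => (ℓ : ℚ_[ℓ]) ^ k) atTop (𝓝 0) := by
      apply tendsto_pow_atTop_nhds_zero_of_norm_lt_one
      rw [Padic.norm_p]
      exact inv_lt_one_of_one_lt₀ (by exact_mod_cast (Fact.out : ℓ.Prime).one_lt)
    have h2 := (hcont.tendsto 0).comp h1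
    rwa [map_zero] at h2
  have key : ∀ m : Matrix κ κ ℂ_[ℓ],
      Tendsto (fun k => (algebraMap ℚ_[ℓ] ℂ_[ℓ] ((ℓ : ℚ_[ℓ]) ^ k))⁻¹ * ((1 + ((g ^ ℓ ^ k).map (algebraMap ℚ_[ℓ] ℂ_[ℓ]) - 1) * m).det - 1))
        atTop (𝓝 ((lg g).map (algebraMap ℚ_[ℓ] ℂ_[ℓ]) * m).trace) := by
    intro m
    have hlm : Tendsto (fun k => (la ℓ g k).map (algebraMap ℚ_[ℓ] ℂ_[ℓ]) * m) atTop (𝓝 ((lg g).map (algebraMap ℚ_[ℓ] ℂ_[ℓ]) * m)) :=
      hla.mul tendsto_const_nhds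
    apply tendsto_det
    · have h1 := hε.smul hlm
      rw [zero_smul] at h1
      refine h1.congr fun k => ?_
      rw [hsm k, smul_mul_assoc]
    · refine hlm.congr fun k => ?_
      rw [hsm k, smul_mul_assoc, smul_smul, inv_mul_cancel₀, one_smul]
      rw [Ne, map_eq_zero]
      exact pow_ne_zero _ hℓ
  refine tendsto_nhds_unique (key p) ((key q).congr fun k => ?_)
  rw [h k]

end Pool.Agent.Lib.MP_021685_ag.Pad
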