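import Pool.Agent.Lib.MP_021685_ag.UT.PDefs

/-!
# Small open subgroups
-/

set_option autoImplicit false
set_option linter.unusedSectionVars false

namespace Pool.Agent.Lib.MP_021685_ag.NF

open Matrix Function Module Pool.Agent.Lib.MP_802513_ag Pad

variable {K : Type*} [Field K] [NumberField K] {ℓ : ℕ} [Fact ℓ.Prime] {κ : Type*} [Fintype κ] [DecidableEq κ] {E : Type*} [CommRing E] [Algebra ℚ E]
  [Module.Finite ℚ E] [IsReduced E]

/-- Job Q1. Proof: `cyclotomicCharacter` and the coercions are multiplicative. -/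
theorem chi_mul (γ δ : Field.absoluteGaloisGroup K) : chi K ℓ (γ * δ) = chi K ℓ γ * chi K ℓ δ := by
  have h1 : AlgEquiv.toRingEquiv (γ * δ : AlgebraicClosure K ≃ₐ[K] AlgebraicClosure K) = AlgEquiv.toRingEquiv (γ : AlgebraicClosure K ≃ₐ[K] AlgebraicClosure K) * AlgEquiv.toRingEquiv (δ : AlgebraicClosure K ≃ₐ[K] AlgebraicClosure K) := by
    ext x
    rfl
  unfold chi
  have h2 : cyclotomicCharacter (AlgebraicClosure K) ℓ (AlgEquiv.toRingEquiv (γ * δ)) =
      cyclotomicCharacter (AlgebraicClosure K) ℓ (AlgEquiv.toRingEquiv γ) * cyclotomicCharacter (AlgebraicClosure K) ℓ (AlgEquiv.toRingEquiv δ) := by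
    rw [← map_mul]
    exact congrArg _ h1
  rw [h2, Units.val_mul, PadicInt.coe_mul]

/-- Job Q1. -/
theorem chi_one : chi K ℓ (1 : Field.absoluteGaloisGroup K) = 1 := by
  have h1 : AlgEquiv.toRingEquiv (1 : AlgebraicClosure K ≃ₐ[K] AlgebraicClosure K) = 1 := by
    ext x
    rfl
  unfold chi
  have h2 : cyclotomicCharacter (AlgebraicClosure K) ℓ (AlgEquiv.toRingEquiv (1 : Field.absoluteGaloisGroup K)) = 1 := by
    rw [← map_one (cyclotomicCharacter (AlgebraicClosure K) ℓ)]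
    exact congrArg _ h1
  rw [h2, Units.val_one, PadicInt.coe_one]

/-- Job Q1. -/
theorem chi_pow (γ : Field.absoluteGaloisGroup K) (n : ℕ) : chi K ℓ (γ ^ n) = chi K ℓ γ ^ n := by
  induction n with
  | zero => rw [pow_zero, pow_zero, chi_one]
  | succ n ih => rw [pow_succ, pow_succ, chi_mul, ih]

/-- Job Q1. Proof: the value is a unit of `ℤ_ℓ`. -/
theorem chi_ne_zero (γ : Field.absoluteGaloisGroup K) : chi K ℓ γ ≠ 0 := by
  unfold chi
  intro h
  have h2 : ((cyclotomicCharacter (AlgebraicClosure K) ℓ (AlgEquiv.toRingEquiv γ) : ℤ_[ℓ])) = 0 := by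
    apply Subtype.ext
    exact h
  exact (Units.ne_zero _) h2

/-- Job Q1. Proof: `cyclotomicCharacter.continuous` (for `K` and `AlgebraicClosure K`; `MulSemiringAction.toRingAut` applied to `γ` is the ring equivalence of `γ`). -/
theorem chi_continuous : Continuous fun γ : Field.absoluteGaloisGroup K => chi K ℓ γ := by
  have h1 := cyclotomicCharacter.continuous ℓ K (AlgebraicClosure K)
  have h2 : Continuous fun u : ℤ_[ℓ]ˣ => ((u : ℤ_[ℓ]) : ℚ_[ℓ]) := by
    have h0 : Continuous fun x : ℤ_[ℓ] => (x : ℚ_[ℓ]) := continuous_subtype_val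
    exact h0.comp Units.continuous_val
  have h3 := h2.comp h1
  have h4 : (fun γ : Field.absoluteGaloisGroup K => chi K ℓ γ) = (fun u : ℤ_[ℓ]ˣ => ((u : ℤ_[ℓ]) : ℚ_[ℓ])) ∘ ((cyclotomicCharacter (AlgebraicClosure K) ℓ).comp (MulSemiringAction.toRingAut Gal(AlgebraicClosure K/K) (AlgebraicClosure K))) := by
    funext γ
    rfl
  rw [h4]
  exact h3

/-- Job Q1. A neighbourhood of the identity contains an open subgroup. Proof: `krullTopology_mem_nhds_one_iff` and `IntermediateField.fixingSubgroup_isOpen`. -/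
theorem exists_open_of_nhds (S : Set (Field.absoluteGaloisGroup K)) (h : S ∈ nhds (1 : Field.absoluteGaloisGroup K)) :
    ∃ U : Subgroup (Field.absoluteGaloisGroup K), IsOpen (U : Set (Field.absoluteGaloisGroup K)) ∧ (U : Set (Field.absoluteGaloisGroup K)) ⊆ S := by
  have h1 := (krullTopology_mem_nhds_one_iff K (AlgebraicClosure K) S).mp h
  obtain ⟨F, hF, hFS⟩ := h1
  exact ⟨F.fixingSubgroup, IntermediateField.fixingSubgroup_isOpen F, hFS⟩

/-- Job Q1. Proof: continuity of the finitely many entries of `R γ` and of `chi` at `γ = 1`, where they are those of the identity matrix and `1` (`exists_open_of_nhds`). -/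
theorem exists_small (D : PData K ℓ κ E) {ε : ℝ} (hε : 0 < ε) : ∃ U : Subgroup (Field.absoluteGaloisGroup K), IsOpen (U : Set (Field.absoluteGaloisGroup K)) ∧
    ∀ γ ∈ U, Bd (D.R γ - 1) ε ∧ ‖chi K ℓ γ - 1‖ ≤ ε := by
  have hR : ∀ k l, {γ : Field.absoluteGaloisGroup K | ‖(D.R γ - 1) k l‖ ≤ ε} ∈ nhds (1 : Field.absoluteGaloisGroup K) := by
    intro k l
    have hc : Continuous fun γ : Field.absoluteGaloisGroup K => ‖(D.R γ - 1) k l‖ := by
      simp only [Matrix.sub_apply]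
      exact ((D.cont k l).sub continuous_const).norm
    have h1 : (fun γ : Field.absoluteGaloisGroup K => ‖(D.R γ - 1) k l‖) 1 < ε := by
      simp only [map_one, sub_self, Matrix.zero_apply, norm_zero]
      exact hε
    have h2 := hc.continuousAt.eventually_lt (continuousAt_const (y := ε)) h1
    filter_upwards [h2] with γ hγ
    exact hγ.le
  have hchi : {γ : Field.absoluteGaloisGroup K | ‖chi K ℓ γ - 1‖ ≤ ε} ∈ nhds (1 : Field.absoluteGaloisGroup K) := by
    have hc : Continuous fun γ : Field.absoluteGaloisGroup K => ‖chi K ℓ γ - 1‖ := (chi_continuous.sub continuous_const).norm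
    have h1 : (fun γ : Field.absoluteGaloisGroup K => ‖chi K ℓ γ - 1‖) 1 < ε := by
      simp only [chi_one, sub_self, norm_zero]
      exact hε
    have h2 := hc.continuousAt.eventually_lt (continuousAt_const (y := ε)) h1
    filter_upwards [h2] with γ hγ
    exact hγ.le
  have hall : {γ : Field.absoluteGaloisGroup K | (∀ k l, ‖(D.R γ - 1) k l‖ ≤ ε) ∧ ‖chi K ℓ γ - 1‖ ≤ ε} ∈ nhds (1 : Field.absoluteGaloisGroup K) := by
    have h3 : ∀ᶠ γ in nhds (1 : Field.absoluteGaloisGroup K), ∀ k l, ‖(D.R γ - 1) k l‖ ≤ ε := by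
      rw [Filter.eventually_all]
      intro k
      rw [Filter.eventually_all]
      intro l
      exact hR k l
    filter_upwards [h3, hchi] with γ h4 h5
    exact ⟨h4, h5⟩
  obtain ⟨U, hU, hUS⟩ := exists_open_of_nhds _ hall
  exact ⟨U, hU, fun γ hγ => ⟨(hUS hγ).1, (hUS hγ).2⟩⟩

/-- Job Q1. The subgroup used in the proof. Proof: intersect the subgroup of `exists_small` for `ε = rad ℓ`, the given one, and those of `D.det` for the finitely many pairs of characters which satisfy its hypothesis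
(`Finite (E →+* ℂ_[ℓ])` follows from `Finite (E →+* ℂ)` (`W.finite_emb`) and `exists_iso`, given here as the hypothesis `hfin`). -/
theorem exists_U (D : PData K ℓ κ E) (hfin : Finite (E →+* ℂ_[ℓ])) (U₀ : Subgroup (Field.absoluteGaloisGroup K)) (hU₀ : IsOpen (U₀ : Set (Field.absoluteGaloisGroup K))) :
    ∃ U : Subgroup (Field.absoluteGaloisGroup K), IsOpen (U : Set (Field.absoluteGaloisGroup K)) ∧ U ≤ U₀ ∧
      (∀ γ ∈ U, Bd (D.R γ - 1) (rad ℓ) ∧ ‖chi K ℓ γ - 1‖ ≤ rad ℓ) ∧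
      ∀ f g : E →+* ℂ_[ℓ], (∀ (j : AlgebraicClosure K →+* ℂ_[ℓ]) (φ θ : E →+* AlgebraicClosure K), j.comp φ = f → j.comp θ = g → D.r φ = D.r θ) →
        ∀ γ ∈ U, (1 + (mc (D.R γ) - 1) * pfl D.M f).det = (1 + (mc (D.R γ) - 1) * pfl D.M g).det := by
  have hℓ : (0 : ℝ) < ℓ := by exact_mod_cast (Fact.out : ℓ.Prime).pos
  have hrad : 0 < rad ℓ := by
    unfold rad
    positivity
  obtain ⟨U1, hU1, hU1s⟩ := exists_small D hrad
  have hdet : ∀ p : (E →+* ℂ_[ℓ]) × (E →+* ℂ_[ℓ]), ∃ U : Subgroup (Field.absoluteGaloisGroup K), IsOpen (U : Set (Field.absoluteGaloisGroup K)) ∧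
      ((∀ (j : AlgebraicClosure K →+* ℂ_[ℓ]) (φ θ : E →+* AlgebraicClosure K), j.comp φ = p.1 → j.comp θ = p.2 → D.r φ = D.r θ) →
        ∀ γ ∈ U, (1 + (mc (D.R γ) - 1) * pfl D.M p.1).det = (1 + (mc (D.R γ) - 1) * pfl D.M p.2).det) := by
    intro p
    by_cases hp : ∀ (j : AlgebraicClosure K →+* ℂ_[ℓ]) (φ θ : E →+* AlgebraicClosure K), j.comp φ = p.1 → j.comp θ = p.2 → D.r φ = D.r θ
    · obtain ⟨U, hU, h⟩ := D.det p.1 p.2 hp
      exact ⟨U, hU, fun _ => h⟩
    · exact ⟨⊤, isOpen_univ, fun h => absurd h hp⟩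
  choose UD hUD hUD' using hdet
  refine ⟨U₀ ⊓ U1 ⊓ ⨅ p, UD p, ?_, ?_, ?_, ?_⟩
  · rw [Subgroup.coe_inf, Subgroup.coe_inf, Subgroup.coe_iInf]
    exact (hU₀.inter hU1).inter (isOpen_iInter_of_finite hUD)
  · exact inf_le_left.trans inf_le_left
  · intro γ hγ
    exact hU1s γ (Subgroup.mem_inf.mp (Subgroup.mem_inf.mp hγ).1).2
  · intro f g hfg γ hγ
    have h1 := (Subgroup.mem_inf.mp hγ).2
    rw [Subgroup.mem_iInf] at h1
    exact hUD' (f, g) hfg γ (h1 (f, g))

end Pool.Agent.Lib.MP_021685_ag.NF
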