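import Pool.Agent.Lib.MP_021685_ag.UT.Q7

/-!
# The conditions on the signature
-/

set_option autoImplicit false
set_option linter.unusedSectionVars false

namespace Pool.Agent.Lib.MP_021685_ag.NF

open Matrix Function Module Pool.Agent.Lib.MP_802513_ag Pad UT

variable {K : Type*} [Field K] [NumberField K] {ℓ : ℕ} [Fact ℓ.Prime] {E : Type*} [CommRing E] [Algebra ℚ E]
  [Module.Finite ℚ E] [IsReduced E]

/-- The lift is characterised by its composition with the embedding. -/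
theorem lft_eq (θ : ℂ_[ℓ] ≃+* ℂ) (j : AlgebraicClosure K →+* ℂ_[ℓ]) (f : E →+* ℂ) (φ : E →+* AlgebraicClosure K)
    (h : (cemb θ j).comp φ = f) : lft θ j f = φ := by
  subst h
  exact lft_comp θ j φ

/-- Job Q10. Galois conjugates. Proof: `(cemb θ j).comp (aut σ φ) = f` for `j = j₀ ∘ σ⁻¹` and `φ = lft θ j₀ f`; `lft_comp`. -/
theorem lft_aut (θ : ℂ_[ℓ] ≃+* ℂ) (j₀ : AlgebraicClosure K →+* ℂ_[ℓ]) (σ : AlgebraicClosure K ≃+* AlgebraicClosure K) (f : E →+* ℂ) :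
    lft θ (j₀.comp (σ.symm : AlgebraicClosure K →+* AlgebraicClosure K)) f = aut σ (lft θ j₀ f) := by
  apply lft_eq
  apply RingHom.ext
  intro e
  have h := RingHom.congr_fun (lft_spec θ j₀ f) e
  rw [← h]
  simp [cemb, aut, RingHom.comp_apply]

/-- Job Q10. Proof: `lft_aut` and `HasCoprimeSignature` for `lft θ j₀ f`, and an embedding `j₀` (`exists_embedding`). -/
theorem sig_coprime (θ : ℂ_[ℓ] ≃+* ℂ) (ros : E →+* E) (r : (E →+* AlgebraicClosure K) → ℕ) (hC : HasCoprimeSignature ros r) (f : E →+* ℂ) :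
    ∃ j : AlgebraicClosure K →+* ℂ_[ℓ], Nat.Coprime (r (lft θ j f)) (r ((lft θ j f).comp ros)) := by
  obtain ⟨j₀⟩ := exists_embedding ℂ_[ℓ] K
  obtain ⟨σ, hσ⟩ := hC (lft θ j₀ f)
  refine ⟨j₀.comp (σ.symm : AlgebraicClosure K →+* AlgebraicClosure K), ?_⟩
  rw [lft_aut]
  exact hσ

/-- Job Q10. Proof: let `j₀` be the embedding for which `f` is indefinite; apply `HasSeparatedSignature` to `lft θ j₀ f` and `lft θ j₀ g` and use `lft_aut`; every embedding is of the form `j₀ ∘ σ⁻¹` (`exists_aut`). -/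
theorem sig_separated (θ : ℂ_[ℓ] ≃+* ℂ) (ros : E →+* E) (r : (E →+* AlgebraicClosure K) → ℕ) (hS : HasSeparatedSignature ros r) (f g : E →+* ℂ)
    (h1 : g ≠ f) (h2 : g ≠ f.comp ros) (h3 : ∃ j : AlgebraicClosure K →+* ℂ_[ℓ], r (lft θ j f) ≠ 0 ∧ r ((lft θ j f).comp ros) ≠ 0)
    (h4 : ∀ j : AlgebraicClosure K →+* ℂ_[ℓ], (r (lft θ j f) ≠ 0 ∧ r ((lft θ j f).comp ros) ≠ 0) ∨ (r (lft θ j g) ≠ 0 ∧ r ((lft θ j g).comp ros) ≠ 0) →
      r (lft θ j f) = r (lft θ j g)) (j : AlgebraicClosure K →+* ℂ_[ℓ]) : r (lft θ j f) = r (lft θ j g) := by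
  obtain ⟨j₀, hj₀⟩ := h3
  have key := hS (lft θ j₀ f) (lft θ j₀ g) ?_ ?_ hj₀ ?_
  · obtain ⟨σ, hσ⟩ := exists_aut j₀ j
    have h := key σ.symm
    rw [← lft_aut, ← lft_aut] at h
    have hj : j₀.comp ((σ.symm.symm : AlgebraicClosure K ≃+* AlgebraicClosure K) : AlgebraicClosure K →+* AlgebraicClosure K) = j := by
      rw [RingEquiv.symm_symm]; exact hσ.symm
    rw [hj] at h
    exact h
  · intro h
    apply h1
    rw [← lft_spec θ j₀ g, h, lft_spec]
  · intro h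
    apply h2
    rw [← lft_spec θ j₀ g, h]
    have hc : conj ros (lft θ j₀ f) = (lft θ j₀ f).comp ros := rfl
    rw [hc, ← RingHom.comp_assoc, lft_spec]
  · intro σ hσ
    have h := h4 (j₀.comp (σ.symm : AlgebraicClosure K →+* AlgebraicClosure K))
    rw [lft_aut, lft_aut] at h
    exact h hσ

/-- Job Q10. Proof: apply `HasNondegenerateSignature` to `φ ↦ a ((cemb θ j₀).comp φ)`; the map `φ ↦ (cemb θ j₀).comp φ` is a bijection with inverse `lft θ j₀` (`lft_comp`, `lft_spec`); `finsum_eq_sum_of_fintype`, `Fintype.sum_bijective`; for `σ` use the embedding `j₀ ∘ σ⁻¹` (`lft_aut`). -/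
theorem sig_nondegenerate (θ : ℂ_[ℓ] ≃+* ℂ) (ros : E →+* E) (r : (E →+* AlgebraicClosure K) → ℕ) {n i : ℕ} (hN : HasNondegenerateSignature ros r n i)
    (j₀ : AlgebraicClosure K →+* ℂ_[ℓ]) (a : (E →+* ℂ) → ℤ) (h1 : ∀ f, a (f.comp ros) = - a f)
    (h2 : ∀ j : AlgebraicClosure K →+* ℂ_[ℓ], ∑ f : E →+* ℂ, a f * ((r (lft θ j f) : ℤ) - r ((lft θ j f).comp ros)) = 0)
    (h3 : ∀ f, |a f| ≤ n) (h4 : ∑ f : E →+* ℂ, ((r (lft θ j₀ f) + r ((lft θ j₀ f).comp ros) : ℕ) : ℤ) * |a f| ≤ 4 * i) : a = 0 := by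
  let e : (E →+* ℂ) ≃ (E →+* AlgebraicClosure K) :=
    { toFun := lft θ j₀
      invFun := fun φ => (cemb θ j₀).comp φ
      left_inv := fun f => lft_spec θ j₀ f
      right_inv := fun φ => lft_comp θ j₀ φ }
  have he : ∀ f, e f = lft θ j₀ f := fun _ => rfl
  have key := hN (fun φ => a ((cemb θ j₀).comp φ)) ?_ ?_ ?_ ?_
  · funext f
    have h := congrFun key (lft θ j₀ f)
    simp only [lft_spec] at h
    exact h
  · intro φ
    have hc : conj ros φ = φ.comp ros := rfl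
    rw [hc, ← RingHom.comp_assoc, h1]
  · intro φ
    exact h3 _
  · rw [← finsum_comp_equiv e, finsum_eq_sum_of_fintype]
    simp only [he, lft_spec]
    exact h4
  · intro σ
    rw [← finsum_comp_equiv e, finsum_eq_sum_of_fintype]
    have h := h2 (j₀.comp (σ.symm : AlgebraicClosure K →+* AlgebraicClosure K))
    simp only [lft_aut] at h
    simp only [he, lft_spec]
    exact h

end Pool.Agent.Lib.MP_021685_ag.NF
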