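import Pool.Agent.Lib.MP_021685_ag.UT.Q1
import Pool.Agent.Lib.MP_021685_ag.UT.Pad5

/-!
# The logarithms of the Galois action
-/

set_option autoImplicit false
set_option linter.unusedSectionVars false

namespace Pool.Agent.Lib.MP_021685_ag.NF

open Matrix Function Module Pool.Agent.Lib.MP_802513_ag Pad

variable {K : Type*} [Field K] [NumberField K] {ℓ : ℕ} [Fact ℓ.Prime] {κ : Type*} [Fintype κ] [DecidableEq κ] {E : Type*} [CommRing E] [Algebra ℚ E]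
  [Module.Finite ℚ E] [IsReduced E]

/-- The logarithm of the action of `γ`, corrected by a scalar. -/
noncomputable def lgr (D : PData K ℓ κ E) (γ : Field.absoluteGaloisGroup K) : Matrix κ κ ℚ_[ℓ] :=
  lg (D.R γ) - (lgs (chi K ℓ γ) / 2) • (1 : Matrix κ κ ℚ_[ℓ])

/-- Job Q2. Proof: `lg_comm`; `D.comm`. -/
theorem lgr_comm (D : PData K ℓ κ E) {γ : Field.absoluteGaloisGroup K} (h : Bd (D.R γ - 1) (rad ℓ)) (e : E) : lgr D γ * D.M e = D.M e * lgr D γ := by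
  have h1 : D.M e * lg (D.R γ) = lg (D.R γ) * D.M e := lg_comm h (D.comm γ e).symm
  unfold lgr
  rw [sub_mul, mul_sub, h1, smul_mul_assoc, mul_smul_comm, one_mul, mul_one]

/-- Job Q2. Proof: `der_form` for `g = D.R γ`, `x = chi K ℓ γ` (`D.G_eq` for the powers of `γ`, `map_pow`, `chi_pow`). -/
theorem lgr_skew (D : PData K ℓ κ E) {γ : Field.absoluteGaloisGroup K} (h : Bd (D.R γ - 1) (rad ℓ)) (h' : ‖chi K ℓ γ - 1‖ ≤ rad ℓ) :
    (lgr D γ)ᵀ * D.G + D.G * lgr D γ = 0 := by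
  have h1 := der_form (G := D.G) h h' (fun k => by
    rw [← map_pow, ← chi_pow]
    exact D.G_eq _)
  unfold lgr
  rw [Matrix.transpose_sub, Matrix.transpose_smul, Matrix.transpose_one, sub_mul, mul_sub, smul_mul_assoc, mul_smul_comm, one_mul, mul_one]
  have h2 : (lg (D.R γ))ᵀ * D.G - (lgs (chi K ℓ γ) / 2) • D.G + (D.G * lg (D.R γ) - (lgs (chi K ℓ γ) / 2) • D.G)
      = ((lg (D.R γ))ᵀ * D.G + D.G * lg (D.R γ)) - (lgs (chi K ℓ γ) / 2 + lgs (chi K ℓ γ) / 2) • D.G := by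
    rw [add_smul]
    abel
  rw [h2, h1, add_halves, sub_self]

private theorem lgr_DF_sub {A : Type*} {n : ℕ} (X : Matrix κ κ ℚ_[ℓ]) (c : ℚ_[ℓ]) (T : (Fin n → A × κ) → ℚ_[ℓ]) (j : Fin n → A × κ) :
    DF (X - c • (1 : Matrix κ κ ℚ_[ℓ])) T j = DF X T j - c * (n * T j) := by
  have h0 : (n : ℚ_[ℓ]) * T j = ∑ _s : Fin n, T j := by
    rw [Finset.sum_const, Finset.card_univ, Fintype.card_fin, nsmul_eq_mul]
  rw [h0]
  unfold DF
  rw [Finset.mul_sum, ← Finset.sum_sub_distrib]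
  refine Finset.sum_congr rfl fun s _ => ?_
  have h5 : T j = ∑ k, T (update j s ((j s).1, k)) * (1 : Matrix κ κ ℚ_[ℓ]) k (j s).2 := by
    rw [Finset.sum_eq_single (j s).2]
    · rw [Matrix.one_apply_eq, mul_one, Prod.mk.eta, update_eq_self]
    · intro k _ hk
      rw [Matrix.one_apply_ne hk, mul_zero]
    · intro h
      exact absurd (Finset.mem_univ _) h
  rw [h5, Finset.mul_sum, ← Finset.sum_sub_distrib]
  refine Finset.sum_congr rfl fun k _ => ?_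
  rw [Matrix.sub_apply, Matrix.smul_apply, smul_eq_mul]
  ring

/-- Job Q2. Proof: `der_tensor` for `g = D.R γ`, and `DF (c • 1) T j = c * (2 * i) * T j` (there are `2 i` slots). The hypothesis for `γ` implies it for its powers. -/
theorem lgr_kill (D : PData K ℓ κ E) {A : Type*} [Fintype A] [DecidableEq A] {i : ℕ} (T : (Fin (2 * i) → A × κ) → ℚ_[ℓ]) {U : Subgroup (Field.absoluteGaloisGroup K)}
    (hU : ∀ γ ∈ U, Bd (D.R γ - 1) (rad ℓ) ∧ ‖chi K ℓ γ - 1‖ ≤ rad ℓ) (hT : ∀ γ ∈ U, ∀ j, gT (D.R γ) T j = chi K ℓ γ ^ i * T j) :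
    ∀ γ ∈ U, ∀ j, DF (lgr D γ) T j = 0 := by
  intro γ hγ j
  obtain ⟨h1, h2⟩ := hU γ hγ
  have h3 := der_tensor h1 h2 i T j (fun k => by
    rw [← map_pow, ← chi_pow]
    exact hT _ (U.pow_mem hγ _) j)
  unfold lgr
  rw [lgr_DF_sub, h3]
  push_cast
  ring

end Pool.Agent.Lib.MP_021685_ag.NF
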