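import Pool.Agent.Lib.MP_021685_ag.UT.Q2
import Pool.Agent.Lib.MP_021685_ag.UT.Pad4
import Pool.Agent.Lib.MP_021685_ag.UT.Den

/-!
# The logarithms generate the commutant of `E`
-/

set_option autoImplicit false
set_option linter.unusedSectionVars false

namespace Pool.Agent.Lib.MP_021685_ag.NF

open Matrix Function Module Pool.Agent.Lib.MP_802513_ag Pad Den

variable {K : Type*} [Field K] [NumberField K] {ℓ : ℕ} [Fact ℓ.Prime] {κ : Type*} [Fintype κ] [DecidableEq κ] {E : Type*} [CommRing E] [Algebra ℚ E]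
  [Module.Finite ℚ E] [IsReduced E]

/-- The matrix of the projector to `W` along `W'`. -/
private theorem dense_proj {F : Type*} [Field F] {W W' : Submodule F (κ → F)} (h : IsCompl W W') :
    ∃ e : Matrix κ κ F, (∀ v, e *ᵥ v ∈ W) ∧ (∀ w ∈ W, e *ᵥ w = w) ∧ (∀ w ∈ W', e *ᵥ w = 0) := by
  refine ⟨LinearMap.toMatrix' (W.projection W' h), fun v => ?_, fun w hw => ?_, fun w hw => ?_⟩
  · rw [LinearMap.toMatrix'_mulVec]
    exact Submodule.projection_apply_mem h v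
  · rw [LinearMap.toMatrix'_mulVec]
    exact Submodule.projection_apply_of_mem_left h hw
  · rw [LinearMap.toMatrix'_mulVec]
    exact (Submodule.projection_apply_eq_zero_iff h).2 hw

private theorem dense_ext {F : Type*} [Field F] {X Y : Matrix κ κ F} (h : ∀ v, X *ᵥ v = Y *ᵥ v) : X = Y := by
  apply Matrix.toLin'.injective
  apply LinearMap.ext
  intro v
  rw [Matrix.toLin'_apply, Matrix.toLin'_apply, h]

/-- A subspace is stable if and only if a product of matrices is zero. -/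
private theorem dense_stable_iff {F : Type*} [Field F] {W : Submodule F (κ → F)} {e : Matrix κ κ F} (h1 : ∀ v, e *ᵥ v ∈ W)
    (h2 : ∀ w ∈ W, e *ᵥ w = w) (X : Matrix κ κ F) : (∀ w ∈ W, X *ᵥ w ∈ W) ↔ (1 - e) * X * e = 0 := by
  constructor
  · intro h
    apply dense_ext
    intro v
    rw [← Matrix.mulVec_mulVec, ← Matrix.mulVec_mulVec, Matrix.sub_mulVec, Matrix.one_mulVec, h2 _ (h _ (h1 v)), sub_self, Matrix.zero_mulVec]
  · intro h w hw
    have h3 : ((1 - e) * X * e) *ᵥ w = 0 := by rw [h, Matrix.zero_mulVec]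
    rw [← Matrix.mulVec_mulVec, ← Matrix.mulVec_mulVec, h2 w hw, Matrix.sub_mulVec, Matrix.one_mulVec, sub_eq_zero] at h3
    rw [h3]
    exact h1 _

private theorem dense_bound (X : Matrix κ κ ℚ_[ℓ]) : ∃ c : ℝ, 0 ≤ c ∧ Bd X c := by
  refine ⟨∑ k, ∑ l, ‖X k l‖, Finset.sum_nonneg fun k _ => Finset.sum_nonneg fun l _ => norm_nonneg _, fun k l => ?_⟩
  have h1 : ‖X k l‖ ≤ ∑ l, ‖X k l‖ := Finset.single_le_sum (f := fun l => ‖X k l‖) (fun l _ => norm_nonneg _) (Finset.mem_univ l)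
  have h2 : ∑ l, ‖X k l‖ ≤ ∑ k, ∑ l, ‖X k l‖ :=
    Finset.single_le_sum (f := fun k => ∑ l, ‖X k l‖) (fun k _ => Finset.sum_nonneg fun l _ => norm_nonneg _) (Finset.mem_univ k)
  exact h1.trans h2

private theorem dense_span_comm (D : PData K ℓ κ E) {Y : Matrix κ κ ℚ_[ℓ]} (hY : Y ∈ Submodule.span ℚ_[ℓ] (Set.range D.M))
    (γ : Field.absoluteGaloisGroup K) : Y * D.R γ = D.R γ * Y := by
  induction hY using Submodule.span_induction with
  | mem x hx =>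
    obtain ⟨e, rfl⟩ := hx
    exact (D.comm γ e).symm
  | zero => rw [zero_mul, mul_zero]
  | add x y _ _ hx hy => rw [add_mul, mul_add, hx, hy]
  | smul a x _ hx => rw [smul_mul_assoc, mul_smul_comm, hx]

private theorem dense_hss (D : PData K ℓ κ E) {U : Subgroup (Field.absoluteGaloisGroup K)} (hUo : IsOpen (U : Set (Field.absoluteGaloisGroup K)))
    (hU : ∀ γ ∈ U, Bd (D.R γ - 1) (rad ℓ) ∧ ‖chi K ℓ γ - 1‖ ≤ rad ℓ) (W : Submodule ℚ_[ℓ] (κ → ℚ_[ℓ]))
    (hW : ∀ γ ∈ U, ∀ w ∈ W, lg (D.R γ) *ᵥ w ∈ W) :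
    ∃ W' : Submodule ℚ_[ℓ] (κ → ℚ_[ℓ]), IsCompl W W' ∧ ∀ γ ∈ U, ∀ w ∈ W', lg (D.R γ) *ᵥ w ∈ W' := by
  obtain ⟨W0, hW0⟩ := Submodule.exists_isCompl W
  obtain ⟨e, he1, he2, -⟩ := dense_proj hW0
  have hee : e * e = e := by
    apply dense_ext
    intro v
    rw [← Matrix.mulVec_mulVec, he2 _ (he1 v)]
  obtain ⟨c1, hc1, hb1⟩ := dense_bound e
  obtain ⟨c2, hc2, hb2⟩ := dense_bound (1 - e)
  obtain ⟨c, hc⟩ : ∃ c : ℝ, c = 1 + c1 + c2 := ⟨_, rfl⟩
  have hc' : 1 ≤ c := by rw [hc]; linarith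
  have hb1' : Bd e c := hb1.mono (by rw [hc]; linarith)
  have hb2' : Bd (1 - e) c := hb2.mono (by rw [hc]; linarith)
  have hr0 : 0 < rad ℓ := rad_pos
  obtain ⟨V, hVo, hV⟩ := exists_small D (ε := rad ℓ / c) (by positivity)
  have hW2 : ∀ γ ∈ U ⊓ V, ∀ w ∈ W, D.R γ *ᵥ w ∈ W := by
    intro γ hγ
    obtain ⟨hγ1, hγ2⟩ := Subgroup.mem_inf.1 hγ
    rw [dense_stable_iff he1 he2]
    exact stable_of_lg hee hc' hb1' hb2' (hV γ hγ2).1 ((dense_stable_iff he1 he2 _).1 (hW γ hγ1))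
  have hUV : IsOpen ((U ⊓ V : Subgroup (Field.absoluteGaloisGroup K)) : Set (Field.absoluteGaloisGroup K)) := by
    rw [Subgroup.coe_inf]
    exact hUo.inter hVo
  obtain ⟨W', hWW', hW'⟩ := D.ss _ hUV W hW2
  obtain ⟨p, hp1, hp2, hp3⟩ := dense_proj hWW'.symm
  have hpR : ∀ γ ∈ U ⊓ V, p * D.R γ = D.R γ * p := by
    intro γ hγ
    apply dense_ext
    intro v
    have hv : v ∈ W ⊔ W' := by
      rw [hWW'.sup_eq_top]
      exact Submodule.mem_top
    obtain ⟨a, ha, b, hb, rfl⟩ := Submodule.mem_sup.1 hv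
    rw [← Matrix.mulVec_mulVec, ← Matrix.mulVec_mulVec, Matrix.mulVec_add, Matrix.mulVec_add, Matrix.mulVec_add, hp3 _ ha,
      hp3 _ (hW2 γ hγ a ha), hp2 _ hb, hp2 _ (hW' γ hγ b hb), zero_add, zero_add]
  have hpM := D.falt _ hUV p hpR
  refine ⟨W', hWW', fun γ hγ w hw => ?_⟩
  have h1 : p * lg (D.R γ) = lg (D.R γ) * p := lg_comm (hU γ hγ).1 (dense_span_comm D hpM γ)
  have h2 : lg (D.R γ) *ᵥ w = p *ᵥ (lg (D.R γ) *ᵥ w) := by
    rw [Matrix.mulVec_mulVec, h1, ← Matrix.mulVec_mulVec, hp2 w hw]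
  rw [h2]
  exact hp1 _

/-- Job Q3. The logarithms generate the commutant of `E`, over `ℚ_ℓ`.

Proof. `dense_of_semisimple` for `ME = Set.range D.M` and `L = (fun γ => lg (D.R γ)) '' U`, and `adjoin_shift`-like change of generators (`lg (D.R γ) = lgr D γ + scalar`, so `Algebra.adjoin L ≤ Algebra.adjoin (lgr D '' U)`, `Algebra.adjoin_le`).
`hcomm`: if `Y` commutes with all `lg (D.R γ)`, `γ ∈ U`, it commutes with all `D.R γ`, `γ ∈ U` (`comm_of_lg`), so `Y ∈ span (range D.M)` by `D.falt U`.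
`hss`: let `W` be stable under all `lg (D.R γ)`, `γ ∈ U`. Let `e` be the matrix of a projector onto `W` (`Submodule.exists_isCompl`, `Submodule.linearProjOfIsCompl` or similar, `LinearMap.toMatrix'`): `e * e = e`, `e *ᵥ w ∈ W`, `e *ᵥ w = w` for `w ∈ W`. Let `c ≥ 1` be a bound for the
norms of the entries of `e` and `1 - e`, and `U₂` the intersection of `U` and the subgroup of `exists_small` for `ε = rad ℓ / c`. For `γ ∈ U₂`, `(1 - e) * lg (D.R γ) * e = 0` (as `W` is stable), so `(1 - e) * D.R γ * e = 0` by `stable_of_lg`, i.e. `W` is stable under `D.R γ`. By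
`D.ss U₂` there is a complement `W'` stable under `D.R γ`, `γ ∈ U₂`. The projector `p` onto `W'` along `W` commutes with `D.R γ`, `γ ∈ U₂`, so it is in `span (range D.M)` (`D.falt U₂`), so it commutes with `D.R γ` for all `γ` (`D.comm`), so with `lg (D.R γ)` for `γ ∈ U` (`lg_comm`), so `W'`, the image of `p`,
is stable under them. -/
theorem dense_padic (D : PData K ℓ κ E) {U : Subgroup (Field.absoluteGaloisGroup K)} (hUo : IsOpen (U : Set (Field.absoluteGaloisGroup K)))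
    (hU : ∀ γ ∈ U, Bd (D.R γ - 1) (rad ℓ) ∧ ‖chi K ℓ γ - 1‖ ≤ rad ℓ) (Z : Matrix κ κ ℚ_[ℓ]) (hZ : ∀ e, Z * D.M e = D.M e * Z) :
    Z ∈ Algebra.adjoin ℚ_[ℓ] (lgr D '' (U : Set (Field.absoluteGaloisGroup K))) := by
  have h1 : Z ∈ Algebra.adjoin ℚ_[ℓ] ((fun γ => lg (D.R γ)) '' (U : Set (Field.absoluteGaloisGroup K))) := by
    refine dense_of_semisimple (Set.range D.M) _ ?_ ?_ Z ?_
    · intro Y hY
      refine D.falt U hUo Y fun γ hγ => ?_
      exact comm_of_lg (hU γ hγ).1 (hY _ ⟨γ, hγ, rfl⟩)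
    · intro W hW
      obtain ⟨W', hWW', hW'⟩ := dense_hss D hUo hU W (fun γ hγ => hW _ ⟨γ, hγ, rfl⟩)
      refine ⟨W', hWW', ?_⟩
      rintro X ⟨γ, hγ, rfl⟩
      exact hW' γ hγ
    · rintro Y ⟨e, rfl⟩
      exact hZ e
  refine Algebra.adjoin_le ?_ h1
  rintro X ⟨γ, hγ, rfl⟩
  have h2 : lg (D.R γ) = lgr D γ + (lgs (chi K ℓ γ) / 2) • (1 : Matrix κ κ ℚ_[ℓ]) := by
    unfold lgr
    rw [sub_add_cancel]
  beta_reduce
  rw [h2]
  exact add_mem (Algebra.subset_adjoin ⟨γ, hγ, rfl⟩) (Subalgebra.smul_mem _ (one_mem _) _)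

end Pool.Agent.Lib.MP_021685_ag.NF
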