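import Pool.Agent.Lib.MP_021685_ag.UT.Q2
import Pool.Agent.Lib.MP_021685_ag.UT.Pad7

/-!
# Traces of the logarithms on eigenspaces
-/

set_option autoImplicit false
set_option linter.unusedSectionVars false

namespace Pool.Agent.Lib.MP_021685_ag.NF

open Matrix Function Module Pool.Agent.Lib.MP_802513_ag Pad

variable {K : Type*} [Field K] [NumberField K] {ℓ : ℕ} [Fact ℓ.Prime] {κ : Type*} [Fintype κ] [DecidableEq κ] {E : Type*} [CommRing E] [Algebra ℚ E]
  [Module.Finite ℚ E] [IsReduced E]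

/-- Job Q4. Traces on eigenspaces. Proof: `der_det` for `g = D.R γ`, `p = pfl D.M f`, `q = pfl D.M g` (the hypothesis for `γ` implies it for the powers of `γ`, which are in `U`; `mc` of a power is the power), and the scalar part contributes `lgs _ / 2` times
the traces of `pfl D.M f` and `pfl D.M g`, which are equal. -/
theorem lgr_trace (D : PData K ℓ κ E) {U : Subgroup (Field.absoluteGaloisGroup K)}
    (hU : ∀ γ ∈ U, Bd (D.R γ - 1) (rad ℓ) ∧ ‖chi K ℓ γ - 1‖ ≤ rad ℓ) {f g : E →+* ℂ_[ℓ]}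
    (h : ∀ γ ∈ U, (1 + (mc (D.R γ) - 1) * pfl D.M f).det = (1 + (mc (D.R γ) - 1) * pfl D.M g).det)
    (htr : (pfl D.M f).trace = (pfl D.M g).trace) : ∀ γ ∈ U, (mc (lgr D γ) * pfl D.M f).trace = (mc (lgr D γ) * pfl D.M g).trace := by
  intro γ hγ
  have h1 : (mc (lg (D.R γ)) * pfl D.M f).trace = (mc (lg (D.R γ)) * pfl D.M g).trace := by
    refine der_det (hU γ hγ).1 (pfl D.M f) (pfl D.M g) (fun k => ?_)
    have h2 := h (γ ^ ℓ ^ k) (U.pow_mem hγ _)
    rw [map_pow] at h2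
    exact h2
  have h3 : mc (lgr D γ) = mc (lg (D.R γ)) - (algebraMap ℚ_[ℓ] ℂ_[ℓ] (lgs (chi K ℓ γ) / 2)) • (1 : Matrix κ κ ℂ_[ℓ]) := by
    ext k l
    unfold mc lgr
    rw [Matrix.map_apply, Matrix.sub_apply, Matrix.sub_apply, Matrix.smul_apply, Matrix.smul_apply, Matrix.map_apply, smul_eq_mul, smul_eq_mul,
      map_sub, map_mul]
    congr 2
    by_cases hkl : k = l
    · subst hkl
      rw [Matrix.one_apply_eq, Matrix.one_apply_eq, map_one]
    · rw [Matrix.one_apply_ne hkl, Matrix.one_apply_ne hkl, map_zero]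
  rw [h3, sub_mul, sub_mul, smul_mul_assoc, smul_mul_assoc, one_mul, one_mul, Matrix.trace_sub, Matrix.trace_sub, Matrix.trace_smul,
    Matrix.trace_smul, h1, htr]

end Pool.Agent.Lib.MP_021685_ag.NF
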