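import Pool.Agent.Lib.MP_021685_ag.UT.PDefs

/-!
# The Hodge-Tate projectors commute with `E`
-/

set_option autoImplicit false
set_option linter.unusedSectionVars false

namespace Pool.Agent.Lib.MP_021685_ag.NF

open Matrix Function Module Pool.Agent.Lib.MP_802513_ag Pad

variable {K : Type*} [Field K] [NumberField K] {ℓ : ℕ} [Fact ℓ.Prime] {κ : Type*} [Fintype κ] [DecidableEq κ] {E : Type*} [CommRing E] [Algebra ℚ E]
  [Module.Finite ℚ E] [IsReduced E]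

private theorem P_form_sum {F : Type*} [Field F] (f : κ → κ → F) : ∑ k : Fin 2 → κ, f (k 0) (k 1) = ∑ a, ∑ b, f a b := by
  rw [← Fintype.sum_prod_type']
  exact Fintype.sum_equiv (finTwoArrowEquiv κ) _ _ (fun k => rfl)

private theorem P_form_mul (X Y : Matrix κ κ ℚ_[ℓ]) : mc (X * Y) = mc X * mc Y := by
  unfold mc
  rw [Matrix.map_mul]

private theorem P_form_det {G : Matrix κ κ ℚ_[ℓ]} (h : G.det ≠ 0) : IsUnit (mc G) := by
  rw [Matrix.isUnit_iff_isUnit_det]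
  have h1 : (mc G).det = algebraMap ℚ_[ℓ] ℂ_[ℓ] G.det := by
    unfold mc
    rw [RingHom.map_det, RingHom.mapMatrix_apply]
  rw [h1]
  exact (IsUnit.mk0 _ h).map _

/-- Job Q5. The form `ψ(e x, y)` has weight one: `Pᵀ (Mᵀ G) + (Mᵀ G) P = Mᵀ G` for `M = D.M e`.

Proof. `D.P_weight j 2 1` for the tensor `T x = ((D.M e)ᵀ * D.G) (x 0) (x 1)` and the whole group: `∑ k, T k * R (k 0) (x 0) * R (k 1) (x 1) = (Rᵀ (Mᵀ G) R) (x 0) (x 1)` with `R = D.R γ`, and `Rᵀ Mᵀ G R = Mᵀ Rᵀ G R = χ(γ) Mᵀ G` (`D.comm`, `D.G_eq`; sums over `Fin 2 → κ`: `Fin.consEquiv`/`finTwoArrowEquiv`). The conclusion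
for `x = ![k, l]` is the `(k, l)` entry of the claim. -/
theorem P_form (D : PData0 K ℓ κ E) (j : AlgebraicClosure K →+* ℂ_[ℓ]) (e : E) :
    (D.P j)ᵀ * mc ((D.M e)ᵀ * D.G) + mc ((D.M e)ᵀ * D.G) * D.P j = mc ((D.M e)ᵀ * D.G) := by
  obtain ⟨A, hA⟩ : ∃ A : Matrix κ κ ℚ_[ℓ], A = (D.M e)ᵀ * D.G := ⟨_, rfl⟩
  have h1 : ∀ γ, (D.R γ)ᵀ * A * D.R γ = chi K ℓ γ • A := by
    intro γ
    rw [hA]
    have h2 : (D.R γ)ᵀ * (D.M e)ᵀ = (D.M e)ᵀ * (D.R γ)ᵀ := by
      rw [← Matrix.transpose_mul, ← Matrix.transpose_mul, D.comm]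
    calc (D.R γ)ᵀ * ((D.M e)ᵀ * D.G) * D.R γ = ((D.R γ)ᵀ * (D.M e)ᵀ) * D.G * D.R γ := by simp only [mul_assoc]
      _ = (D.M e)ᵀ * ((D.R γ)ᵀ * D.G * D.R γ) := by rw [h2]; simp only [mul_assoc]
      _ = chi K ℓ γ • ((D.M e)ᵀ * D.G) := by rw [D.G_eq, mul_smul_comm]
  rw [← hA]
  have h3 := D.P_weight j 2 1 (fun x => A (x 0) (x 1)) ⟨⊤, by rw [Subgroup.coe_top]; exact isOpen_univ, fun γ _ x => by
    have h4 := congrFun (congrFun (h1 γ) (x 0)) (x 1)
    rw [Matrix.smul_apply, smul_eq_mul] at h4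
    rw [pow_one, ← h4, Matrix.mul_apply]
    have h5 : ∀ k : Fin 2 → κ, A (k 0) (k 1) * ∏ s, D.R γ (k s) (x s) = A (k 0) (k 1) * (D.R γ (k 0) (x 0) * D.R γ (k 1) (x 1)) := by
      intro k
      rw [Fin.prod_univ_two]
    rw [Finset.sum_congr rfl fun k _ => h5 k, P_form_sum fun a b => A a b * (D.R γ a (x 0) * D.R γ b (x 1)), Finset.sum_comm]
    refine Finset.sum_congr rfl fun b _ => ?_
    rw [Matrix.mul_apply, Finset.sum_mul]
    refine Finset.sum_congr rfl fun a _ => ?_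
    rw [Matrix.transpose_apply]
    ring⟩
  ext k l
  have h6 := h3 ![k, l]
  rw [Fin.sum_univ_two, Nat.cast_one, one_mul] at h6
  rw [Matrix.add_apply, Matrix.mul_apply, Matrix.mul_apply]
  have h7 : mc A k l = algebraMap ℚ_[ℓ] ℂ_[ℓ] (A k l) := rfl
  rw [h7]
  refine Eq.trans ?_ h6
  congr 1
  · refine Finset.sum_congr rfl fun a _ => ?_
    rw [Matrix.transpose_apply, mul_comm]
    rfl

/-- Job Q5. Proof: `P_form` for `e = 1` (`D.M 1 = 1`). -/
theorem P_skew (D : PData0 K ℓ κ E) (j : AlgebraicClosure K →+* ℂ_[ℓ]) : (D.P j)ᵀ * mc D.G + mc D.G * D.P j = mc D.G := by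
  have h := P_form D j 1
  rwa [map_one, Matrix.transpose_one, one_mul] at h

private theorem P_form_ros (D : PData0 K ℓ κ E) (e : E) : D.ros (D.ros e) = e := by
  have h1 := congrArg Matrix.transpose (D.ros_spec e)
  rw [Matrix.transpose_mul, Matrix.transpose_mul, Matrix.transpose_transpose, D.G_skew, neg_mul, mul_neg, D.ros_spec] at h1
  have h2 : IsUnit D.G := by
    rw [Matrix.isUnit_iff_isUnit_det]
    exact IsUnit.mk0 _ D.G_det
  exact (D.inj (h2.mul_left_cancel (neg_injective h1))).symm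

/-- Job Q5. Proof. By `D.ros_spec` the form of `P_form` has matrix `G M'` with `M' = D.M (D.ros e)`, so `Pᵀ G M' + G M' P = G M'`; and `Pᵀ G = G - G P` (`P_skew`), so `G (M' P - P M') = 0`; `mc D.G` is invertible (`D.G_det`). This gives the claim for `D.ros e`; and `D.ros (D.ros e) = e` (`ros_ros`). -/
theorem P_comm (D : PData0 K ℓ κ E) (j : AlgebraicClosure K →+* ℂ_[ℓ]) (e : E) : D.P j * mc (D.M e) = mc (D.M e) * D.P j := by
  have hrr : D.ros (D.ros e) = e := P_form_ros D e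
  obtain ⟨e', he'⟩ : ∃ e' : E, e' = D.ros e := ⟨_, rfl⟩
  rw [← he'] at hrr
  have h1 := P_form D j e'
  rw [D.ros_spec, hrr, P_form_mul] at h1
  have h2 : (D.P j)ᵀ * mc D.G = mc D.G - mc D.G * D.P j := eq_sub_of_add_eq (P_skew D j)
  rw [← mul_assoc, h2, sub_mul] at h1
  have h3 : mc D.G * (mc (D.M e) * D.P j) = mc D.G * (D.P j * mc (D.M e)) := by
    have h4 : mc D.G * mc (D.M e) - mc D.G * D.P j * mc (D.M e) + mc D.G * mc (D.M e) * D.P j - mc D.G * mc (D.M e) = 0 := by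
      rw [h1, sub_self]
    rw [← sub_eq_zero, ← mul_assoc, ← mul_assoc, ← h4]
    abel
  exact ((P_form_det D.G_det).mul_left_cancel h3).symm

/-- Job Q5. Proof: transpose `D.ros_spec e` and use `D.G_skew`: `G * M e = (M (ros e))ᵀ * G = G * M (ros (ros e))`; `D.G` is invertible and `D.M` injective. -/
theorem ros_ros (D : PData0 K ℓ κ E) (e : E) : D.ros (D.ros e) = e := P_form_ros D e

end Pool.Agent.Lib.MP_021685_ag.NF
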