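import Pool.Agent.Lib.MP_021685_ag.UT.Q5
import Pool.Agent.Lib.MP_021685_ag.UT.BData
import Pool.Agent.Lib.MP_021685_ag.UT.N2

/-!
# The Hodge-Tate projectors
-/

set_option autoImplicit false
set_option linter.unusedSectionVars false

namespace Pool.Agent.Lib.MP_021685_ag.NF

open Matrix Function Module Pool.Agent.Lib.MP_802513_ag Pad UT

variable {K : Type*} [Field K] [NumberField K] {ℓ : ℕ} [Fact ℓ.Prime] {κ : Type*} [Fintype κ] [DecidableEq κ] {E : Type*} [CommRing E] [Algebra ℚ E]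
  [Module.Finite ℚ E] [IsReduced E]

/-- Job Q6. The projectors satisfy the relations for the tensor `T`, in slots with two indices: for `x : Fin (2 i) → A × κ`, `∑ s, ∑ k, T (update x s ((x s).1, k)) * P k (x s).2 = i T x`.

Proof. `D.P_weight j (2 * i) i` for the tensor `k ↦ T (fun s => ((x s).1, k s))`; the hypothesis is `hT` (`gT`). -/
theorem P_tensor (D : PData K ℓ κ E) (j : AlgebraicClosure K →+* ℂ_[ℓ]) {A : Type*} [Fintype A] [DecidableEq A] {i : ℕ} (T : (Fin (2 * i) → A × κ) → ℚ_[ℓ])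
    {U : Subgroup (Field.absoluteGaloisGroup K)} (hUo : IsOpen (U : Set (Field.absoluteGaloisGroup K)))
    (hT : ∀ γ ∈ U, ∀ j, gT (D.R γ) T j = chi K ℓ γ ^ i * T j) (x : Fin (2 * i) → A × κ) :
    ∑ s, ∑ k, algebraMap ℚ_[ℓ] ℂ_[ℓ] (T (update x s ((x s).1, k))) * D.P j k (x s).2 = i * algebraMap ℚ_[ℓ] ℂ_[ℓ] (T x) := by
  have h1 := D.P_weight j (2 * i) i (fun k => T (fun s => ((x s).1, k s))) ⟨U, hUo, fun γ hγ y => ?_⟩ (fun s => (x s).2)
  · refine Eq.trans ?_ h1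
    refine Finset.sum_congr rfl fun s _ => Finset.sum_congr rfl fun k _ => ?_
    have h2 : update x s ((x s).1, k) = fun t => ((x t).1, update (fun s => (x s).2) s k t) := by
      funext t
      by_cases ht : t = s
      · subst ht
        rw [update_self, update_self]
      · rw [update_of_ne ht, update_of_ne ht]
    rw [h2]
  · exact hT γ hγ (fun s => ((x s).1, y s))

/-- The operator `J = i (2 P - 1)`, over `ℂ`. -/
noncomputable def Jc (D : PData K ℓ κ E) (θ : ℂ_[ℓ] ≃+* ℂ) (j : AlgebraicClosure K →+* ℂ_[ℓ]) : Matrix κ κ ℂ :=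
  Complex.I • ((2 : ℂ) • (D.P j).map θ - 1)

/-- The embedding of `ℚ_ℓ` in `ℂ`. -/
noncomputable def emb (θ : ℂ_[ℓ] ≃+* ℂ) : ℚ_[ℓ] →+* ℂ := (θ : ℂ_[ℓ] →+* ℂ).comp (algebraMap ℚ_[ℓ] ℂ_[ℓ])

/-- The action of `E`, over `ℂ`. -/
noncomputable def Mcc (D : PData K ℓ κ E) (θ : ℂ_[ℓ] ≃+* ℂ) : E →+* Matrix κ κ ℂ := ((emb θ).mapMatrix).comp D.M

private theorem Jc_mc_map (θ : ℂ_[ℓ] ≃+* ℂ) (X : Matrix κ κ ℚ_[ℓ]) : (mc X).map θ = X.map (emb θ) := by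
  ext k l
  rfl

private theorem Jc_map_mul (θ : ℂ_[ℓ] ≃+* ℂ) (X Y : Matrix κ κ ℂ_[ℓ]) : (X * Y).map θ = X.map θ * Y.map θ := by
  exact Matrix.map_mul (f := (θ : ℂ_[ℓ] →+* ℂ))

private theorem Jc_map_add (θ : ℂ_[ℓ] ≃+* ℂ) (X Y : Matrix κ κ ℂ_[ℓ]) : (X + Y).map θ = X.map θ + Y.map θ := by
  ext k l
  rw [Matrix.map_apply, Matrix.add_apply, Matrix.add_apply, map_add]
  rfl

private theorem Jc_DX_one {A : Type*} {n : ℕ} (T : (Fin n → A × κ) → ℂ) (x : Fin n → A × κ) :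
    DX (1 : Matrix κ κ ℂ) T x = n * T x := by
  have h0 : (n : ℂ) * T x = ∑ _s : Fin n, T x := by
    rw [Finset.sum_const, Finset.card_univ, Fintype.card_fin, nsmul_eq_mul]
  rw [h0]
  unfold DX
  refine Finset.sum_congr rfl fun s _ => ?_
  rw [Finset.sum_eq_single (x s).2]
  · rw [Matrix.one_apply_eq, mul_one, Prod.mk.eta, update_eq_self]
  · intro k _ hk
    rw [Matrix.one_apply_ne hk, mul_zero]
  · intro h
    exact absurd (Finset.mem_univ _) h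

/-- Job Q6. Proof: `D.P_idem`. -/
theorem Jc_sq (D : PData K ℓ κ E) (θ : ℂ_[ℓ] ≃+* ℂ) (j : AlgebraicClosure K →+* ℂ_[ℓ]) : Jc D θ j * Jc D θ j = -1 := by
  obtain ⟨P, hP⟩ : ∃ P : Matrix κ κ ℂ, P = (D.P j).map θ := ⟨_, rfl⟩
  have h1 : P * P = P := by
    rw [hP, ← Jc_map_mul, D.P_idem]
  unfold Jc
  rw [← hP, smul_mul_smul_comm, Complex.I_mul_I, neg_one_smul]
  congr 1
  rw [sub_mul, mul_sub, smul_mul_smul_comm, h1, one_mul, mul_one, sub_sub_eq_add_sub, ← sub_eq_zero]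
  have h2 : ((2 : ℂ) * 2) • P = (2 : ℂ) • P + (2 : ℂ) • P := by
    rw [← add_smul]
    norm_num
  rw [h2]
  abel

/-- Job Q6. Proof: `P_comm`, mapped by `θ`. -/
theorem Jc_comm (D : PData K ℓ κ E) (θ : ℂ_[ℓ] ≃+* ℂ) (j : AlgebraicClosure K →+* ℂ_[ℓ]) (e : E) : Jc D θ j * Mcc D θ e = Mcc D θ e * Jc D θ j := by
  obtain ⟨P, hP⟩ : ∃ P : Matrix κ κ ℂ, P = (D.P j).map θ := ⟨_, rfl⟩
  have h0 : Mcc D θ e = (mc (D.M e)).map θ := by
    rw [Jc_mc_map]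
    rfl
  obtain ⟨N, hN⟩ : ∃ N : Matrix κ κ ℂ, N = Mcc D θ e := ⟨_, rfl⟩
  have h1 : P * N = N * P := by
    rw [hP, hN, h0, ← Jc_map_mul, ← Jc_map_mul, P_comm]
  unfold Jc
  rw [← hP, ← hN, smul_mul_assoc, mul_smul_comm, sub_mul, mul_sub, smul_mul_assoc, mul_smul_comm, h1, one_mul, mul_one]

/-- Job Q6. Proof: `P_skew`, mapped by `θ`. -/
theorem Jc_skew (D : PData K ℓ κ E) (θ : ℂ_[ℓ] ≃+* ℂ) (j : AlgebraicClosure K →+* ℂ_[ℓ]) :
    (Jc D θ j)ᵀ * D.G.map (emb θ) + D.G.map (emb θ) * Jc D θ j = 0 := by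
  obtain ⟨P, hP⟩ : ∃ P : Matrix κ κ ℂ, P = (D.P j).map θ := ⟨_, rfl⟩
  obtain ⟨G, hG⟩ : ∃ G : Matrix κ κ ℂ, G = D.G.map (emb θ) := ⟨_, rfl⟩
  have h1 : Pᵀ * G + G * P = G := by
    have h2 := congrArg (fun X : Matrix κ κ ℂ_[ℓ] => X.map θ) (P_skew D.toPData0 j)
    beta_reduce at h2
    rw [Jc_map_add, Jc_map_mul, Jc_map_mul, Jc_mc_map] at h2
    rw [hP, hG]
    exact h2
  unfold Jc
  rw [← hP, ← hG, Matrix.transpose_smul, Matrix.transpose_sub, Matrix.transpose_smul, Matrix.transpose_one, smul_mul_assoc, mul_smul_comm,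
    ← smul_add, sub_mul, mul_sub, smul_mul_assoc, mul_smul_comm, one_mul, mul_one]
  have h3 : (2 : ℂ) • (Pᵀ * G) - G + ((2 : ℂ) • (G * P) - G) = (2 : ℂ) • (Pᵀ * G + G * P) - (2 : ℂ) • G := by
    rw [smul_add, two_smul ℂ G]
    abel
  rw [h3, h1, sub_self, smul_zero]

/-- Job Q6. Proof: `P_tensor`, mapped by `θ`; `DX 1 T j = (2 * i) * T j`. -/
theorem Jc_kill (D : PData K ℓ κ E) (θ : ℂ_[ℓ] ≃+* ℂ) (j : AlgebraicClosure K →+* ℂ_[ℓ]) {A : Type*} [Fintype A] [DecidableEq A] {i : ℕ} (T : (Fin (2 * i) → A × κ) → ℚ_[ℓ])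
    {U : Subgroup (Field.absoluteGaloisGroup K)} (hUo : IsOpen (U : Set (Field.absoluteGaloisGroup K)))
    (hT : ∀ γ ∈ U, ∀ j, gT (D.R γ) T j = chi K ℓ γ ^ i * T j) (x : Fin (2 * i) → A × κ) : DX (Jc D θ j) (fun y => emb θ (T y)) x = 0 := by
  have h1 := congrArg θ (P_tensor D j T hUo hT x)
  rw [map_mul, map_natCast, map_sum] at h1
  have h2 : DX ((D.P j).map θ) (fun y => emb θ (T y)) x = i * emb θ (T x) := by
    refine Eq.trans ?_ h1
    unfold DX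
    refine Finset.sum_congr rfl fun s _ => ?_
    rw [map_sum]
    refine Finset.sum_congr rfl fun k _ => ?_
    rw [map_mul]
    rfl
  have h3 : Jc D θ j = (Complex.I * 2) • (D.P j).map θ + (-Complex.I) • (1 : Matrix κ κ ℂ) := by
    unfold Jc
    rw [smul_sub, smul_smul, neg_smul, sub_eq_add_neg]
  rw [h3, DX_add_left, DX_smul_left, DX_smul_left, h2, Jc_DX_one]
  push_cast
  ring

end Pool.Agent.Lib.MP_021685_ag.NF
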