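import Pool.Agent.Lib.MP_021685_ag.UT.Q6
import Pool.Agent.Lib.MP_021685_ag.UT.BEmb

/-!
# Multiplicities
-/

set_option autoImplicit false
set_option linter.unusedSectionVars false

namespace Pool.Agent.Lib.MP_021685_ag.NF

open Matrix Function Module Pool.Agent.Lib.MP_802513_ag Pad UT

variable {K : Type*} [Field K] [NumberField K] {ℓ : ℕ} [Fact ℓ.Prime] {κ : Type*} [Fintype κ] [DecidableEq κ] {E : Type*} [CommRing E] [Algebra ℚ E]
  [Module.Finite ℚ E] [IsReduced E]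

/-- Job Q7. -/
theorem finite_char (θ : ℂ_[ℓ] ≃+* ℂ) : Finite (E →+* ℂ_[ℓ]) := by
  have := W.finite_emb E
  refine Finite.of_injective (fun f : E →+* ℂ_[ℓ] => (θ : ℂ_[ℓ] →+* ℂ).comp f) ?_
  intro f g h
  ext e
  have h1 := RingHom.congr_fun h e
  simp only [RingHom.comp_apply] at h1
  exact θ.injective h1

/-- Job Q7. Proof: `map` commutes with sums and products; `Mcc D θ e = (mc (D.M e)).map θ`. -/
theorem pfl_map (D : PData K ℓ κ E) (θ : ℂ_[ℓ] ≃+* ℂ) (f : E →+* ℂ_[ℓ]) :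
    (pfl D.M f).map θ = pfm (Mcc D θ) ((θ : ℂ_[ℓ] →+* ℂ).comp f) := by
  ext k l
  simp only [pfl, pfm, mc, Mcc, emb, Matrix.map_apply, Matrix.sum_apply, Matrix.smul_apply, smul_eq_mul, map_sum, map_mul,
    RingHom.comp_apply, RingHom.mapMatrix_apply, RingHom.coe_coe]

/-- The embedding of the algebraic closure of `K` in `ℂ`. -/
noncomputable def cemb (θ : ℂ_[ℓ] ≃+* ℂ) (j : AlgebraicClosure K →+* ℂ_[ℓ]) : AlgebraicClosure K →+* ℂ := (θ : ℂ_[ℓ] →+* ℂ).comp j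

/-- The character with values in the algebraic closure of `K` attached to a character with values in `ℂ`. -/
noncomputable def lft (θ : ℂ_[ℓ] ≃+* ℂ) (j : AlgebraicClosure K →+* ℂ_[ℓ]) (f : E →+* ℂ) : E →+* AlgebraicClosure K :=
  (exists_lift (cemb θ j) f).choose

theorem lft_spec (θ : ℂ_[ℓ] ≃+* ℂ) (j : AlgebraicClosure K →+* ℂ_[ℓ]) (f : E →+* ℂ) : (cemb θ j).comp (lft θ j f) = f :=
  (exists_lift (cemb θ j) f).choose_spec

/-- Job Q7. Proof: `lift_unique`. -/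
theorem lft_comp (θ : ℂ_[ℓ] ≃+* ℂ) (j : AlgebraicClosure K →+* ℂ_[ℓ]) (φ : E →+* AlgebraicClosure K) : lft θ j ((cemb θ j).comp φ) = φ := by
  exact lift_unique (cemb θ j) (lft_spec θ j _)

/-- Job Q7. -/
theorem lft_ros (D : PData K ℓ κ E) (θ : ℂ_[ℓ] ≃+* ℂ) (j : AlgebraicClosure K →+* ℂ_[ℓ]) (f : E →+* ℂ) :
    lft θ j (f.comp D.ros) = (lft θ j f).comp D.ros := by
  apply lift_unique (cemb θ j)
  rw [lft_spec, ← RingHom.comp_assoc, lft_spec]

/-- `(1 - I J) / 2 = P`. -/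
private theorem Q7_half (D : PData K ℓ κ E) (θ : ℂ_[ℓ] ≃+* ℂ) (j : AlgebraicClosure K →+* ℂ_[ℓ]) :
    (1 / 2 : ℂ) • (1 - Complex.I • Jc D θ j) = (D.P j).map θ := by
  unfold Jc
  rw [smul_smul, Complex.I_mul_I]
  module

/-- A character with values in `ℂ` comes from the algebraic closure of `K`. -/
private theorem Q7_pfl (D : PData K ℓ κ E) (θ : ℂ_[ℓ] ≃+* ℂ) (j : AlgebraicClosure K →+* ℂ_[ℓ]) (f : E →+* ℂ) :
    (pfl D.M (j.comp (lft θ j f))).map θ = pfm (Mcc D θ) f := by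
  rw [pfl_map]
  congr 1
  exact lft_spec θ j f

private theorem Q7_trace (θ : ℂ_[ℓ] ≃+* ℂ) (X Y : Matrix κ κ ℂ_[ℓ]) : θ (X * Y).trace = (X.map θ * Y.map θ).trace := by
  simp only [Matrix.trace, Matrix.diag_apply, Matrix.mul_apply, Matrix.map_apply, map_sum, map_mul]

/-- Job Q7. Proof: `P_mult` mapped by `θ` (`pfl_map`); `(1 / 2) • (1 - I • Jc D θ j) = (D.P j).map θ`. -/
theorem trace_J (D : PData K ℓ κ E) (θ : ℂ_[ℓ] ≃+* ℂ) (j : AlgebraicClosure K →+* ℂ_[ℓ]) (f : E →+* ℂ) :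
    (((1 / 2 : ℂ) • (1 - Complex.I • Jc D θ j)) * pfm (Mcc D θ) f).trace = D.r (lft θ j f) := by
  rw [Q7_half, ← Q7_pfl D θ j f, ← Q7_trace, ← map_natCast θ, ← D.P_mult j (lft θ j f)]

/-- The map of the relation `P_skew`. -/
private theorem Q7_skew (D : PData K ℓ κ E) (θ : ℂ_[ℓ] ≃+* ℂ) (j : AlgebraicClosure K →+* ℂ_[ℓ]) :
    ((D.P j).map θ)ᵀ * D.G.map (emb θ) = D.G.map (emb θ) * (1 - (D.P j).map θ) := by
  have h1 := congrArg (fun X : Matrix κ κ ℂ_[ℓ] => X.map θ) (P_skew D.toPData0 j)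
  have h2 : (mc D.G).map θ = D.G.map (emb θ) := by
    ext k l
    simp only [mc, emb, Matrix.map_apply, RingHom.comp_apply, RingHom.coe_coe]
  have h3 : ∀ X Y : Matrix κ κ ℂ_[ℓ], (X * Y).map θ = X.map θ * Y.map θ := by
    intro X Y
    exact Matrix.map_mul
  have h4 : ∀ X Y : Matrix κ κ ℂ_[ℓ], (X + Y).map θ = X.map θ + Y.map θ := by
    intro X Y
    ext k l
    simp
  simp only [h3, h4, h2, Matrix.transpose_map] at h1
  rw [mul_sub, mul_one]
  exact eq_sub_of_add_eq h1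

private theorem Q7_key (D : PData K ℓ κ E) (θ : ℂ_[ℓ] ≃+* ℂ) (j : AlgebraicClosure K →+* ℂ_[ℓ]) (f : E →+* ℂ) :
    (pfm (Mcc D θ) (f.comp D.ros)).trace = ((D.r (lft θ j f) + D.r ((lft θ j f).comp D.ros) : ℕ) : ℂ) := by
  have hG : IsUnit (D.G.map (emb θ)).det := by
    rw [isUnit_iff_ne_zero]
    have h1 : (D.G.map (emb θ)).det = emb θ D.G.det := by
      rw [RingHom.map_det, RingHom.mapMatrix_apply]
    rw [h1]
    exact (map_ne_zero (emb θ)).2 D.G_det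
  have hros : ∀ e, (Mcc D θ e)ᵀ * D.G.map (emb θ) = D.G.map (emb θ) * Mcc D θ (D.ros e) := by
    intro e
    have h1 := congrArg (fun X : Matrix κ κ ℚ_[ℓ] => (emb θ).mapMatrix X) (D.ros_spec e)
    simp only [map_mul] at h1
    exact h1
  have hT := pfm_transpose (Mcc D θ) (ros_ros D.toPData0) hros f
  have h1 := trace_J D θ j f
  have h2 := trace_J D θ j (f.comp D.ros)
  rw [Q7_half] at h1 h2
  rw [lft_ros] at h2
  set P := (D.P j).map θ with hP
  set p := pfm (Mcc D θ) f with hp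
  set p' := pfm (Mcc D θ) (f.comp D.ros) with hp'
  set G := D.G.map (emb θ) with hGdef
  have h3 : (P * p)ᵀ * G = G * (p' * (1 - P)) := by
    rw [Matrix.transpose_mul, mul_assoc, Q7_skew D θ j, ← mul_assoc, hT, mul_assoc]
  have h4 : (P * p)ᵀ = G * (p' * (1 - P)) * G⁻¹ := by
    rw [← h3, mul_assoc, Matrix.mul_nonsing_inv _ hG, mul_one]
  have h5 : (P * p).trace = (p' * (1 - P)).trace := by
    rw [← Matrix.trace_transpose (P * p), h4, Matrix.trace_mul_comm, ← mul_assoc, Matrix.nonsing_inv_mul _ hG, one_mul]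
  have h6 : p'.trace = (p' * (1 - P)).trace + (P * p').trace := by
    rw [Matrix.trace_mul_comm P p', ← Matrix.trace_add, ← mul_add, sub_add_cancel, mul_one]
  rw [h6, ← h5, h1, h2]
  push_cast
  ring

/-- Job Q7. The dimension of an eigenspace.

Proof. With `P = (D.P j).map θ`, `p = pfm (Mcc D θ) f`, `p' = pfm (Mcc D θ) (f.comp D.ros)`, `G = D.G.map (emb θ)`: `(P p)ᵀ G = pᵀ Pᵀ G = pᵀ G (1 - P) = G p' (1 - P)` (`P_skew`, `pfm_transpose`, `ros_ros`), so `tr (P p) = tr (p' (1 - P))` (`G` is invertible; `Matrix.trace_transpose`, `Matrix.trace_mul_comm`), hence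
`tr p' = tr (p' P) + tr (p' (1 - P)) = r (lft (f.comp ros)) + r (lft f)`. Apply this to `f.comp D.ros`, and `f.comp D.ros` composed with `D.ros` is `f`. -/
theorem trace_pfm (D : PData K ℓ κ E) (θ : ℂ_[ℓ] ≃+* ℂ) (j : AlgebraicClosure K →+* ℂ_[ℓ]) (f : E →+* ℂ) :
    (pfm (Mcc D θ) f).trace = ((D.r (lft θ j f) + D.r ((lft θ j f).comp D.ros) : ℕ) : ℂ) := by
  have h1 := Q7_key D θ j (f.comp D.ros)
  have h2 : (f.comp D.ros).comp D.ros = f := by
    ext e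
    rw [RingHom.comp_apply, RingHom.comp_apply, ros_ros]
  rw [h2] at h1
  rw [h1, lft_ros]
  have h3 : ((lft θ j f).comp D.ros).comp D.ros = lft θ j f := by
    ext e
    rw [RingHom.comp_apply, RingHom.comp_apply, ros_ros]
  rw [h3, add_comm]

end Pool.Agent.Lib.MP_021685_ag.NF
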