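import Pool.Agent.Lib.MP_021685_ag.UT.Q7

/-!
# Every character occurs
-/

set_option autoImplicit false
set_option linter.unusedSectionVars false

namespace Pool.Agent.Lib.MP_021685_ag.NF

open Matrix Function Module Pool.Agent.Lib.MP_802513_ag Pad UT

variable {K : Type*} [Field K] [NumberField K] {ℓ : ℕ} [Fact ℓ.Prime] {κ : Type*} [Fintype κ] [DecidableEq κ] {E : Type*} [CommRing E] [Algebra ℚ E]
  [Module.Finite ℚ E] [IsReduced E]

/-- Job Q8. Every character occurs.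

Proof. `Mcc D θ` is injective (`D.inj`, `emb θ` is injective). By `exists_pfm_ne` there is `σ` with `pfm _ (σ f) ≠ 0`. As `pfm _ g` is an idempotent matrix (`pfm_mul_pfm`), its trace is nonzero if it is nonzero (`LinearMap.IsIdempotentElem.trace_eq_zero_iff`, `Matrix.trace_toLin'_eq`; see `exists_HB` in `WBasis`). Let `j` be an embedding
(`exists_embedding`), `φ = lft θ j (σ f)`, so `σ ∘ f = θ ∘ j ∘ φ` and the trace of `pfm _ (σ f)` is `r φ + r (φ ∘ ros)`. Let `j' = θ⁻¹ ∘ σ⁻¹ ∘ θ ∘ j`; then `f = θ ∘ j' ∘ φ`, so by `trace_pfm` for `j'` the trace of `pfm _ f` is also `r φ + r (φ ∘ ros) ≠ 0`. -/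
theorem pfm_ne (D : PData K ℓ κ E) (θ : ℂ_[ℓ] ≃+* ℂ) (f : E →+* ℂ) : pfm (Mcc D θ) f ≠ 0 := by
  have hinj : Function.Injective (Mcc D θ) := by
    intro x y h
    apply D.inj
    have h' : (D.M x).map (emb θ) = (D.M y).map (emb θ) := h
    exact Matrix.map_injective (emb θ).injective h'
  obtain ⟨σ, hσ⟩ := exists_pfm_ne hinj f
  obtain ⟨j0⟩ := exists_embedding ℂ K
  -- an embedding into `ℂ_ℓ`
  set j : AlgebraicClosure K →+* ℂ_[ℓ] := (θ.symm : ℂ →+* ℂ_[ℓ]).comp j0 with hj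
  set g : E →+* ℂ := (σ : ℂ →+* ℂ).comp f with hg
  have hidem : pfm (Mcc D θ) g * pfm (Mcc D θ) g = pfm (Mcc D θ) g := by
    rw [pfm_mul_pfm, if_pos rfl]
  have htr : (pfm (Mcc D θ) g).trace ≠ 0 := by
    intro h0
    apply hσ
    have hid : IsIdempotentElem (Matrix.toLin' (pfm (Mcc D θ) g)) := by
      show Matrix.toLin' (pfm (Mcc D θ) g) * Matrix.toLin' (pfm (Mcc D θ) g) = _
      rw [Module.End.mul_eq_comp, ← Matrix.toLin'_mul, hidem]
    have h1 : LinearMap.trace ℂ (κ → ℂ) (Matrix.toLin' (pfm (Mcc D θ) g)) = 0 := by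
      rw [Matrix.trace_toLin'_eq, h0]
    have h2 := (LinearMap.IsIdempotentElem.trace_eq_zero_iff hid).1 h1
    exact (Matrix.toLin' (R := ℂ)).map_eq_zero_iff.1 h2
  set φ : E →+* AlgebraicClosure K := lft θ j g with hφ
  set j' : AlgebraicClosure K →+* ℂ_[ℓ] :=
    (θ.symm : ℂ →+* ℂ_[ℓ]).comp ((σ.symm : ℂ →+* ℂ).comp (cemb θ j)) with hj'
  have hsp : (cemb θ j).comp φ = g := lft_spec θ j g
  have hc' : (cemb θ j').comp φ = f := by
    ext e
    have he := RingHom.congr_fun hsp e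
    simp only [RingHom.comp_apply] at he
    simp only [cemb, hj', RingHom.comp_apply, RingHom.coe_coe, RingEquiv.apply_symm_apply]
    have he2 : θ (j (φ e)) = σ (f e) := he
    rw [he2, RingEquiv.symm_apply_apply]
  have hl' : lft θ j' f = φ := by
    rw [← hc', lft_comp]
  intro h0
  have h1 := trace_pfm D θ j g
  have h2 := trace_pfm D θ j' f
  rw [hl', h0, Matrix.trace_zero] at h2
  rw [← hφ, ← h2] at h1
  exact htr h1

end Pool.Agent.Lib.MP_021685_ag.NF
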