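import Pool.Agent.Lib.MP_021685_ag.UT.Q3
import Pool.Agent.Lib.MP_021685_ag.UT.Q4
import Pool.Agent.Lib.MP_021685_ag.UT.Q8

/-!
# The abstract data of a Tate module
-/

set_option autoImplicit false
set_option linter.unusedSectionVars false

namespace Pool.Agent.Lib.MP_021685_ag.NF

open Matrix Function Module Pool.Agent.Lib.MP_802513_ag Pad UT

variable {K : Type*} [Field K] [NumberField K] {ℓ : ℕ} [Fact ℓ.Prime] {κ : Type*} [Fintype κ] [DecidableEq κ] {E : Type*} [CommRing E] [Algebra ℚ E]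
  [Module.Finite ℚ E] [IsReduced E]

/-- Job Q9. Proof: `dense_padic` and `Den.dense_map` for `emb θ`, `ME = Set.range D.M`. -/
theorem dense_complex (D : PData K ℓ κ E) (θ : ℂ_[ℓ] ≃+* ℂ) {U : Subgroup (Field.absoluteGaloisGroup K)} (hUo : IsOpen (U : Set (Field.absoluteGaloisGroup K)))
    (hU : ∀ γ ∈ U, Bd (D.R γ - 1) (rad ℓ) ∧ ‖chi K ℓ γ - 1‖ ≤ rad ℓ) (Z : Matrix κ κ ℂ) (hZ : ∀ e, Z * Mcc D θ e = Mcc D θ e * Z) :
    Z ∈ Algebra.adjoin ℂ ((fun γ => (lgr D γ).map (emb θ)) '' (U : Set (Field.absoluteGaloisGroup K))) := by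
  have h1 := Den.dense_map (emb θ) (Set.range D.M) (lgr D '' (U : Set (Field.absoluteGaloisGroup K)))
    (fun Z hZ => dense_padic D hUo hU Z (fun e => hZ _ ⟨e, rfl⟩)) Z (by rintro _ ⟨e, rfl⟩; exact hZ e)
  rwa [Set.image_image] at h1

theorem map_trace_pfl (D : PData K ℓ κ E) (θ : ℂ_[ℓ] ≃+* ℂ) (f : E →+* ℂ_[ℓ]) :
    θ ((pfl D.M f).trace) = (pfm (Mcc D θ) ((θ : ℂ_[ℓ] →+* ℂ).comp f)).trace := by
  rw [← pfl_map, Matrix.trace, Matrix.trace, map_sum]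
  rfl

theorem map_trace_mul (D : PData K ℓ κ E) (θ : ℂ_[ℓ] ≃+* ℂ) (f : E →+* ℂ_[ℓ]) (X : Matrix κ κ ℚ_[ℓ]) :
    θ ((mc X * pfl D.M f).trace) = (X.map (emb θ) * pfm (Mcc D θ) ((θ : ℂ_[ℓ] →+* ℂ).comp f)).trace := by
  have h1 : X.map (emb θ) = (mc X).map θ := by
    ext i j
    rfl
  have h2 : (mc X).map θ * (pfl D.M f).map θ = (mc X * pfl D.M f).map θ := by
    ext i j
    rw [Matrix.mul_apply, Matrix.map_apply, Matrix.mul_apply, map_sum]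
    refine Finset.sum_congr rfl fun k _ => ?_
    rw [map_mul, Matrix.map_apply, Matrix.map_apply]
  rw [h1, ← pfl_map, h2, Matrix.trace, Matrix.trace, map_sum]
  rfl

/-- Job Q9. Traces on the eigenspaces.

Proof. Let `f' = θ⁻¹ ∘ f`, `g' = θ⁻¹ ∘ g`. The hypothesis `h` says that `r φ = r φ'` whenever `j ∘ φ = f'` and `j ∘ φ' = g'` (`lft_comp`), so `hdet` and `lgr_trace` apply (the traces of `pfl D.M f'` and `pfl D.M g'` are equal since `θ` is injective); map the conclusion by `θ` (`pfl_map`). -/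
theorem trace_complex (D : PData K ℓ κ E) (θ : ℂ_[ℓ] ≃+* ℂ) {U : Subgroup (Field.absoluteGaloisGroup K)}
    (hU : ∀ γ ∈ U, Bd (D.R γ - 1) (rad ℓ) ∧ ‖chi K ℓ γ - 1‖ ≤ rad ℓ)
    (hdet : ∀ f g : E →+* ℂ_[ℓ], (∀ (j : AlgebraicClosure K →+* ℂ_[ℓ]) (φ θ : E →+* AlgebraicClosure K), j.comp φ = f → j.comp θ = g → D.r φ = D.r θ) →
        ∀ γ ∈ U, (1 + (mc (D.R γ) - 1) * pfl D.M f).det = (1 + (mc (D.R γ) - 1) * pfl D.M g).det)
    (f g : E →+* ℂ) (h : ∀ j : AlgebraicClosure K →+* ℂ_[ℓ], D.r (lft θ j f) = D.r (lft θ j g)) (htr : (pfm (Mcc D θ) f).trace = (pfm (Mcc D θ) g).trace) :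
    ∀ γ ∈ U, ((lgr D γ).map (emb θ) * pfm (Mcc D θ) f).trace = ((lgr D γ).map (emb θ) * pfm (Mcc D θ) g).trace := by
  intro γ hγ
  have hf : (θ : ℂ_[ℓ] →+* ℂ).comp ((θ.symm : ℂ →+* ℂ_[ℓ]).comp f) = f := by
    ext e
    simp
  have hg : (θ : ℂ_[ℓ] →+* ℂ).comp ((θ.symm : ℂ →+* ℂ_[ℓ]).comp g) = g := by
    ext e
    simp
  have h1 : ∀ (j : AlgebraicClosure K →+* ℂ_[ℓ]) (φ φ' : E →+* AlgebraicClosure K),
      j.comp φ = (θ.symm : ℂ →+* ℂ_[ℓ]).comp f → j.comp φ' = (θ.symm : ℂ →+* ℂ_[ℓ]).comp g → D.r φ = D.r φ' := by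
    intro j φ φ' h1 h2
    have h3 : lft θ j f = φ := by
      conv_lhs => rw [← hf, ← h1]
      exact lft_comp θ j φ
    have h4 : lft θ j g = φ' := by
      conv_lhs => rw [← hg, ← h2]
      exact lft_comp θ j φ'
    rw [← h3, ← h4]
    exact h j
  have h2 : (pfl D.M ((θ.symm : ℂ →+* ℂ_[ℓ]).comp f)).trace = (pfl D.M ((θ.symm : ℂ →+* ℂ_[ℓ]).comp g)).trace := by
    apply θ.injective
    rw [map_trace_pfl, map_trace_pfl, hf, hg]
    exact htr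
  have h3 := congrArg θ (lgr_trace D hU (hdet _ _ h1) h2 γ hγ)
  rwa [map_trace_mul, map_trace_mul, hf, hg] at h3

end Pool.Agent.Lib.MP_021685_ag.NF
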