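import Pool.Agent.Lib.MP_021685_ag.UT.QT
import Pool.Agent.Lib.MP_021685_ag.UT.Q10
import Pool.Agent.Lib.MP_021685_ag.UT.N1
import Pool.Agent.Lib.MP_021685_ag.UT.BMain

/-!
# The main theorem in coordinates
-/

set_option autoImplicit false
set_option linter.unusedSectionVars false

namespace Pool.Agent.Lib.MP_021685_ag.NF

open Matrix Function Module Pool.Agent.Lib.MP_802513_ag Pad UT

variable {K : Type*} [Field K] [NumberField K] {ℓ : ℕ} [Fact ℓ.Prime] {κ : Type*} [Fintype κ] [DecidableEq κ] {E : Type*} [CommRing E] [Algebra ℚ E]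
  [Module.Finite ℚ E] [IsReduced E]

theorem matrix_main (D : PData K ℓ κ E) {n i : ℕ} (hC : HasCoprimeSignature D.ros D.r) (hS : HasSeparatedSignature D.ros D.r)
    (hN : HasNondegenerateSignature D.ros D.r n i) (T : (Fin (2 * i) → Fin n × κ) → ℚ_[ℓ])
    (halt : ∀ s t, s ≠ t → ∀ j, T (j ∘ Equiv.swap s t) = - T j)
    {U₀ : Subgroup (Field.absoluteGaloisGroup K)} (hU₀ : IsOpen (U₀ : Set (Field.absoluteGaloisGroup K)))
    (hT : ∀ γ ∈ U₀, ∀ j, gT (D.R γ) T j = chi K ℓ γ ^ i * T j) :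
    ∃ c : Equiv.Perm (Fin (2 * i)) × (Fin i → W.EI E × Fin n × Fin n) → ℚ_[ℓ], ∀ j, T j = ∑ x, c x * ∏ t, prT ((D.M (W.eps E (x.2 t).1))ᵀ * D.G)
      (x.2 t).2.1 (x.2 t).2.2 (j (x.1 (pairIdx t 0))) (j (x.1 (pairIdx t 1))) := by
  classical
  obtain ⟨θ⟩ := exists_iso ℓ
  obtain ⟨j₀⟩ := exists_embedding (ℂ_[ℓ]) K
  obtain ⟨U, hUo, hUle, hU, hdet⟩ := exists_U D (finite_char θ) U₀ hU₀
  have hT' : ∀ γ ∈ U, ∀ j, gT (D.R γ) T j = chi K ℓ γ ^ i * T j := fun γ hγ j => hT γ (hUle hγ) j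
  have hr : ∀ j f, (toT D θ U hUo hU hdet).r j ((toT D θ U hUo hU hdet).cj f) = D.r ((lft θ j f).comp D.ros) :=
    fun j f => congrArg D.r (lft_ros D θ j f)
  have key := TData.main (toT D θ U hUo hU hdet) j₀ (A := Fin n) (i := i) (fun j => emb θ (T j)) ?_ ?_ ?_ ?_ ?_ ?_
  · obtain ⟨c, hc⟩ := key
    have h1 : ∀ j, emb θ (T j) = ∑ x : Equiv.Perm (Fin (2 * i)) × (Fin i → W.EI E × Fin n × Fin n), c x * emb θ (∏ t, prT ((D.M (W.eps E (x.2 t).1))ᵀ * D.G)
      (x.2 t).2.1 (x.2 t).2.2 (j (x.1 (pairIdx t 0))) (j (x.1 (pairIdx t 1)))) := by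
      intro j
      rw [hc j]
      refine Finset.sum_congr rfl fun x _ => ?_
      congr 1
      rw [map_prod]
      refine Finset.prod_congr rfl fun t _ => ?_
      unfold prT
      split_ifs
      · have h2 : ((D.M (W.eps E (x.2 t).1))ᵀ * D.G).map (emb θ) =
            ((toT D θ U hUo hU hdet).Mc (W.eps E (x.2 t).1))ᵀ * (toT D θ U hUo hU hdet).Gc := by
          rw [Matrix.map_mul, Matrix.transpose_map]
          rfl
        rw [← h2, Matrix.map_apply]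
      · rw [map_zero]
    exact descent (emb θ) T (fun (x : Equiv.Perm (Fin (2 * i)) × (Fin i → W.EI E × Fin n × Fin n)) j => ∏ t, prT ((D.M (W.eps E (x.2 t).1))ᵀ * D.G)
      (x.2 t).2.1 (x.2 t).2.2 (j (x.1 (pairIdx t 0))) (j (x.1 (pairIdx t 1)))) c h1
  · intro s t hst j
    show emb θ (T (j ∘ Equiv.swap s t)) = - emb θ (T j)
    rw [halt s t hst, map_neg]
  · intro j x
    exact Jc_kill D θ j T hUo hT' x
  · rintro _ ⟨γ, hγ, rfl⟩ x
    have h1 := congrArg (emb θ) (lgr_kill D T hU hT' γ hγ x)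
    rw [map_zero] at h1
    rw [← h1]
    unfold DX DF
    simp only [map_sum, map_mul, Matrix.map_apply]
  · intro f
    obtain ⟨j, hj⟩ := sig_coprime θ D.ros D.r hC f
    exact ⟨j, by rw [hr]; exact hj⟩
  · intro f g h1 h2 h3 h4
    simp only [hr] at h3 h4
    exact sig_separated θ D.ros D.r hS f g h1 h2 h3 h4
  · intro a h1 h2 h3 h4
    simp only [hr] at h2 h4
    refine sig_nondegenerate θ D.ros D.r hN j₀ a h1 h2 ?_ h4
    intro f
    have := h3 f
    rwa [Fintype.card_fin] at this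

end Pool.Agent.Lib.MP_021685_ag.NF
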