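import Pool.Agent.Lib.MP_021685_ag.UT.Q9

/-!
# The abstract data attached to a Tate module
-/

set_option autoImplicit false
set_option linter.unusedSectionVars false

namespace Pool.Agent.Lib.MP_021685_ag.NF

open Matrix Function Module Pool.Agent.Lib.MP_802513_ag Pad UT

variable {K : Type*} [Field K] [NumberField K] {ℓ : ℕ} [Fact ℓ.Prime] {κ : Type*} [Fintype κ] [DecidableEq κ] {E : Type*} [CommRing E] [Algebra ℚ E]
  [Module.Finite ℚ E] [IsReduced E]

/-- The abstract data attached to the Tate module and to an open subgroup. -/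
noncomputable def toT (D : PData K ℓ κ E) (θ : ℂ_[ℓ] ≃+* ℂ) (U : Subgroup (Field.absoluteGaloisGroup K)) (hUo : IsOpen (U : Set (Field.absoluteGaloisGroup K)))
    (hU : ∀ γ ∈ U, Bd (D.R γ - 1) (rad ℓ) ∧ ‖chi K ℓ γ - 1‖ ≤ rad ℓ)
    (hdet : ∀ f g : E →+* ℂ_[ℓ], (∀ (j : AlgebraicClosure K →+* ℂ_[ℓ]) (φ θ : E →+* AlgebraicClosure K), j.comp φ = f → j.comp θ = g → D.r φ = D.r θ) →
        ∀ γ ∈ U, (1 + (mc (D.R γ) - 1) * pfl D.M f).det = (1 + (mc (D.R γ) - 1) * pfl D.M g).det) : TData κ E (AlgebraicClosure K →+* ℂ_[ℓ]) where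
  Mc := Mcc D θ
  ne := pfm_ne D θ
  Gc := D.G.map (emb θ)
  Gc_transpose := by
    rw [← Matrix.transpose_map, D.G_skew]
    ext k l
    simp
  det_Gc_ne := by
    have h1 : (D.G.map (emb θ)).det = emb θ D.G.det := ((emb θ).map_det D.G).symm
    rw [h1]
    exact (map_ne_zero (emb θ)).mpr D.G_det
  ros := D.ros
  ros_ros := ros_ros D.toPData0
  ros_spec := fun e => by
    have h1 := congrArg (fun Z : Matrix κ κ ℚ_[ℓ] => Z.map (emb θ)) (D.ros_spec e)
    simp only [Matrix.map_mul, Matrix.transpose_map] at h1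
    exact h1
  J := Jc D θ
  J_sq := Jc_sq D θ
  J_comm := Jc_comm D θ
  J_skew := Jc_skew D θ
  r := fun j f => D.r (lft θ j f)
  hr := trace_J D θ
  N := (fun γ => (lgr D γ).map (emb θ)) '' (U : Set (Field.absoluteGaloisGroup K))
  N_comm := by
    rintro _ ⟨γ, hγ, rfl⟩ e
    have h1 := congrArg (fun Z : Matrix κ κ ℚ_[ℓ] => Z.map (emb θ)) (lgr_comm D (hU γ hγ).1 e)
    simp only [Matrix.map_mul] at h1
    exact h1
  N_skew := by
    rintro _ ⟨γ, hγ, rfl⟩
    have h1 := congrArg (fun Z : Matrix κ κ ℚ_[ℓ] => Z.map (emb θ)) (lgr_skew D (hU γ hγ).1 (hU γ hγ).2)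
    rw [Matrix.map_add (emb θ) (map_add (emb θ)), Matrix.map_mul, Matrix.map_mul, Matrix.transpose_map] at h1
    rw [h1]
    ext; simp
  dense := dense_complex D θ hUo hU
  N_tr := by
    rintro f h h1 h2 _ ⟨γ, hγ, rfl⟩
    exact trace_complex D θ hU hdet f h h1 h2 γ hγ

end Pool.Agent.Lib.MP_021685_ag.NF
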