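import Pool.Agent.Lib.MP_021685_ag.UT.S9
import Pool.Agent.Lib.MP_021685_ag.UT.Cop7

/-!
# Application of the local result to the Lie algebra of an abelian variety
-/

set_option autoImplicit false
set_option linter.unusedSectionVars false

namespace Pool.Agent.Lib.MP_021685_ag.UT

open Matrix Function Module ComplexConjugate Pool.Agent.Lib.MP_802513_ag Pool.Agent.Lib.MP_802513_ag.W

namespace SData

variable {K E : Type*} [Fintype K] [DecidableEq K] [CommRing E] [Algebra ℚ E] [Module.Finite ℚ E] [IsReduced E] (D : SData K E)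

/-- The eigenspace of the embedding `f`. -/
noncomputable def Ws (f : E →+* ℂ) : Submodule ℂ (K → ℂ) where
  carrier := {w | D.pf f *ᵥ w = w}
  add_mem' := by
    intro a b ha hb
    simp only [Set.mem_ofPred_eq] at ha hb ⊢
    rw [mulVec_add, ha, hb]
  zero_mem' := mulVec_zero _
  smul_mem' := by
    intro c a ha
    simp only [Set.mem_ofPred_eq] at ha ⊢
    rw [mulVec_smul, ha]

theorem mem_Ws {f : E →+* ℂ} {w : K → ℂ} : w ∈ D.Ws f ↔ D.pf f *ᵥ w = w := Iff.rfl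

/-- The restriction of a matrix to the eigenspace of `f`. -/
noncomputable def rs {f : E →+* ℂ} (X : Matrix K K ℂ) (hX : X * D.pf f = D.pf f * X) :
    D.Ws f →ₗ[ℂ] D.Ws f :=
  (Matrix.mulVecLin X).restrict fun u hu => by
    rw [mem_Ws] at hu ⊢
    rw [mulVecLin_apply, mulVec_mulVec, ← hX, ← mulVec_mulVec, hu]

theorem rs_apply {f : E →+* ℂ} {X : Matrix K K ℂ} (hX : X * D.pf f = D.pf f * X)
    (u : D.Ws f) : (D.rs X hX u : K → ℂ) = X *ᵥ (u : K → ℂ) := rfl

theorem trace_rs {f : E →+* ℂ} {X : Matrix K K ℂ} (hX : X * D.pf f = D.pf f * X) :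
    LinearMap.trace ℂ (D.Ws f) (D.rs X hX) = (X * D.pf f).trace := by
  have h1 : ∀ u, Matrix.toLin' (X * D.pf f) u ∈ D.Ws f := by
    intro u
    rw [mem_Ws, Matrix.toLin'_apply, mulVec_mulVec, ← mul_assoc, ← hX, mul_assoc, D.pf_mul_self]
  have h2 := LinearMap.trace_restrict_eq_of_forall_mem (D.Ws f) (Matrix.toLin' (X * D.pf f)) h1
  rw [Matrix.trace_toLin'_eq] at h2
  rw [← h2]
  congr 1
  ext u k
  rw [rs_apply]
  show _ = (Matrix.toLin' (X * D.pf f) (u : K → ℂ)) k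
  rw [Matrix.toLin'_apply, ← mulVec_mulVec, D.mem_Ws.mp u.2]


/-- The Lie algebra of restrictions to the eigenspace of `f`. -/
noncomputable def gs (f : E →+* ℂ) : Submodule ℂ (D.Ws f →ₗ[ℂ] D.Ws f) where
  carrier := {x | ∃ X ∈ D.lie, ∀ u : D.Ws f, (x u : K → ℂ) = X *ᵥ (u : K → ℂ)}
  add_mem' := by
    rintro x y ⟨X, hX, hx⟩ ⟨Y, hY, hy⟩
    refine ⟨X + Y, Submodule.add_mem _ hX hY, fun u => ?_⟩
    rw [LinearMap.add_apply, Submodule.coe_add, hx, hy, add_mulVec]
  zero_mem' := ⟨0, Submodule.zero_mem _, fun u => by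
    rw [LinearMap.zero_apply, zero_mulVec]; rfl⟩
  smul_mem' := by
    rintro c x ⟨X, hX, hx⟩
    refine ⟨c • X, Submodule.smul_mem _ _ hX, fun u => ?_⟩
    rw [LinearMap.smul_apply, Submodule.coe_smul, hx, smul_mulVec]

theorem rs_mem_gs {f : E →+* ℂ} {X : Matrix K K ℂ} (hX : X ∈ D.lie) :
    D.rs X (D.lie_comm_pf hX f) ∈ D.gs f := ⟨X, hX, fun _ => rfl⟩

theorem R_mul_P (w w' : K → ℂ) (δ : ℂ) : D.R w w' * D.P δ = D.R w (D.P (-δ) *ᵥ w') := by
  rw [R_apply, vecMulVec_mul, R_apply]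
  congr 1
  rw [← mulVec_transpose, mulVec_mulVec, D.P_transpose, ← mulVec_mulVec]

theorem PP {δ : ℂ} (hδ : δ * δ = -1) : D.P δ * D.P δ = D.P δ := by
  refine Matrix.ext_of_mulVec_single fun i => ?_
  rw [← mulVec_mulVec]
  refine D.P_of_J hδ ?_
  rw [mulVec_mulVec, D.J_mul_P hδ, smul_mulVec]

/-- The rank of an idempotent endomorphism is its trace. -/
theorem finrank_range_of_idem {W : Type*} [AddCommGroup W] [Module ℂ W] [FiniteDimensional ℂ W] {y : Module.End ℂ W} (hy : y * y = y) {r : ℕ}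
    (hr : LinearMap.trace ℂ W y = r) : finrank ℂ (LinearMap.range y) = r := by
  have h1 : LinearMap.IsProj (LinearMap.range y) y := by
    refine ⟨fun x => ⟨x, rfl⟩, ?_⟩
    rintro _ ⟨x, rfl⟩
    exact LinearMap.congr_fun hy x
  have h2 := h1.trace
  rw [hr] at h2
  exact_mod_cast h2.symm

theorem ker_of_idem {W : Type*} [AddCommGroup W] [Module ℂ W] {y : Module.End ℂ W} (hy : y * y = y) :
    LinearMap.ker y = LinearMap.range (1 - y) := by
  ext x
  constructor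
  · intro hx
    refine ⟨x, ?_⟩
    rw [LinearMap.sub_apply, Module.End.one_apply, LinearMap.mem_ker.mp hx, sub_zero]
  · rintro ⟨z, rfl⟩
    rw [LinearMap.mem_ker, LinearMap.sub_apply, Module.End.one_apply, map_sub]
    have := LinearMap.congr_fun hy z
    rw [Module.End.mul_apply] at this
    rw [this, sub_self]

/-- The local result. -/
theorem coprime_R (hJ : D.J ∈ D.lie) {f : E →+* ℂ} {δ : ℂ}
    (hδ : δ = Complex.I ∨ δ = - Complex.I) {r s : ℕ}
    (hr : (D.P δ * D.pf f).trace = r) (hs : (D.P (-δ) * D.pf f).trace = s) (hr0 : 0 < r)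
    (hs0 : 0 < s) (hcop : Nat.Coprime r s) {w w' : K → ℂ} (hw : D.pf f *ᵥ w = w)
    (hw' : D.pf (D.cj f) *ᵥ w' = w') (hPw : D.J *ᵥ w = δ • w) (hPw' : D.J *ᵥ w' = δ • w') :
    ∃ X ∈ D.lie, X * D.pf f = D.R w w' := by
  have hδ2 : δ * δ = -1 := by
    rcases hδ with rfl | rfl
    · exact Complex.I_mul_I
    · rw [neg_mul_neg, Complex.I_mul_I]
  have hδ2' : (-δ) * (-δ) = -1 := by rw [neg_mul_neg, hδ2]
  have hRpf : D.R w w' * D.pf f = D.pf f * D.R w w' := by
    rw [R_mul_pf, hw', mul_R, hw]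
  have hPpf := D.P_pf_comm δ f
  have hyy : D.rs (D.P δ) hPpf * D.rs (D.P δ) hPpf = D.rs (D.P δ) hPpf := by
    apply LinearMap.ext
    intro u
    apply Subtype.ext
    rw [Module.End.mul_apply, rs_apply, rs_apply, mulVec_mulVec, D.PP hδ2]
  have h1y : (1 - D.rs (D.P δ) hPpf : Module.End ℂ (D.Ws f)) = D.rs (D.P (-δ)) (D.P_pf_comm (-δ) f) := by
    apply LinearMap.ext
    intro u
    apply Subtype.ext
    rw [LinearMap.sub_apply, Module.End.one_apply, Submodule.coe_sub, rs_apply, rs_apply, D.P_mulVec]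
  have hyy' : (1 - D.rs (D.P δ) hPpf : Module.End ℂ (D.Ws f)) * (1 - D.rs (D.P δ) hPpf : Module.End ℂ (D.Ws f)) =
      (1 - D.rs (D.P δ) hPpf : Module.End ℂ (D.Ws f)) := by
    rw [h1y]
    apply LinearMap.ext
    intro u
    apply Subtype.ext
    rw [Module.End.mul_apply, rs_apply, rs_apply, mulVec_mulVec, D.PP hδ2']
  have hPw1 : D.P δ *ᵥ w = w := D.P_of_J hδ2 hPw
  have hPw2 : D.P δ *ᵥ w' = w' := D.P_of_J hδ2 hPw'
  have hPw3 : D.P (-δ) *ᵥ w' = 0 := by rw [D.P_mulVec, hPw2, sub_self]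
  have hX : D.rs (D.R w w') hRpf ∈ D.gs f := by
    refine Cop.cop' (g := D.gs f) (y := D.rs (D.P δ) hPpf) ?_ hyy ?_ ?_ (r := r) (s := s) ?_ ?_ hr0 hs0 hcop _ ?_
    · rintro x ⟨X, hX, hx⟩ y ⟨Y, hY, hy⟩
      refine ⟨X * Y - Y * X, D.lie_bracket hX hY, fun u => ?_⟩
      rw [LinearMap.sub_apply, Module.End.mul_apply, Module.End.mul_apply, Submodule.coe_sub,
        hx, hy, hy, hx, sub_mulVec, mulVec_mulVec, mulVec_mulVec]
    · refine ⟨1 / 2, ?_⟩
      refine ⟨(-(δ / 2)) • D.J, Submodule.smul_mem _ _ hJ, fun u => ?_⟩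
      rw [LinearMap.sub_apply, LinearMap.smul_apply, Module.End.one_apply, Submodule.coe_sub, rs_apply, Submodule.coe_smul, P, smul_mulVec,
        sub_mulVec, one_mulVec, smul_mulVec, smul_mulVec]
      funext k
      simp only [Pi.sub_apply, Pi.smul_apply, smul_eq_mul]
      ring
    · intro S hS
      by_cases hne : S = ⊥
      · left; exact hne
      right
      obtain ⟨s₀, hs₀, hs₀0⟩ := Submodule.exists_mem_ne_zero_of_ne_bot hne
      rw [Submodule.eq_top_iff']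
      intro v
      have h1 : ∀ X ∈ D.lie, ∀ u ∈ S.map (D.Ws f).subtype, X *ᵥ u ∈ S.map (D.Ws f).subtype := by
        rintro X hX _ ⟨u, hu, rfl⟩
        exact ⟨_, hS _ (D.rs_mem_gs hX) u hu, rfl⟩
      have h2 := D.irr (S.map (D.Ws f).subtype) h1 (f := f) (s := (s₀ : K → ℂ))
        ⟨s₀, hs₀, rfl⟩ (fun h0 => hs₀0 (Subtype.ext h0)) s₀.2 (w := (v : K → ℂ)) v.2
      obtain ⟨v', hv', h3⟩ := h2
      have h4 : v' = v := Subtype.ext h3
      rwa [← h4]
    · refine finrank_range_of_idem hyy ?_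
      rw [D.trace_rs, hr]
    · rw [ker_of_idem hyy]
      refine finrank_range_of_idem hyy' ?_
      rw [h1y, D.trace_rs, hs]
    · apply LinearMap.ext
      intro u
      apply Subtype.ext
      rw [h1y, Module.End.mul_apply, Module.End.mul_apply, rs_apply, rs_apply, rs_apply, mulVec_mulVec, mulVec_mulVec]
      congr 1
      rw [mul_R, hPw1, R_mul_P, neg_neg, hPw2]
  obtain ⟨X, hX, h1⟩ := hX
  refine ⟨X, hX, ?_⟩
  have h2 : X * D.pf f = D.R w w' * D.pf f := by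
    refine Matrix.ext_of_mulVec_single fun i => ?_
    rw [← mulVec_mulVec, ← mulVec_mulVec]
    have hu : D.pf f *ᵥ (Pi.single i 1 : K → ℂ) ∈ D.Ws f := by
      rw [mem_Ws, mulVec_mulVec, D.pf_mul_self]
    have h3 := h1 ⟨_, hu⟩
    rw [rs_apply] at h3
    exact h3.symm
  rw [h2, R_mul_pf, hw']

end SData

end Pool.Agent.Lib.MP_021685_ag.UT
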