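import Pool.Agent.Lib.MP_021685_ag.UT.S11

/-!
# All nilpotent elements of rank one, at an embedding with coprime multiplicities
-/

set_option autoImplicit false
set_option linter.unusedSectionVars false

namespace Pool.Agent.Lib.MP_021685_ag.UT

open Matrix Function Module ComplexConjugate Pool.Agent.Lib.MP_802513_ag Pool.Agent.Lib.MP_802513_ag.W

namespace SData

variable {K E : Type*} [Fintype K] [DecidableEq K] [CommRing E] [Algebra ℚ E] [Module.Finite ℚ E] [IsReduced E] (D : SData K E)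

/-- A vector `w` of the eigenspace of `f` with `J w = δ w` and a dual vector. -/
theorem exists_pair {δ : ℂ} (hδ : δ * δ = -1) {f : E →+* ℂ}
    (h : (D.P δ * D.pf f).trace ≠ 0) : ∃ c b : K → ℂ, D.pf f *ᵥ c = c ∧ D.J *ᵥ c = δ • c ∧
      D.pf (D.cj f) *ᵥ b = b ∧ D.J *ᵥ b = -δ • b ∧ D.B c b = 1 := by
  have hδ0 : δ ≠ 0 := by
    rintro rfl
    simp at hδ
  have hδ' : (-δ) * (-δ) = -1 := by rw [neg_mul_neg, hδ]
  obtain ⟨u, hu⟩ : ∃ u, (D.P δ * D.pf f) *ᵥ u ≠ 0 := by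
    by_contra hcon
    push Not at hcon
    apply h
    have h0 : D.P δ * D.pf f = 0 := Matrix.ext_of_mulVec_single fun i => by
      rw [hcon, zero_mulVec]
    rw [h0, Matrix.trace_zero]
  set c := (D.P δ * D.pf f) *ᵥ u with hc
  have hc1 : D.pf f *ᵥ c = c := by
    rw [hc, mulVec_mulVec, D.P_pf_comm, ← mul_assoc, D.pf_mul_self]
  have hc2 : D.J *ᵥ c = δ • c := by
    rw [hc, mulVec_mulVec, ← mul_assoc, D.J_mul_P hδ, smul_mul_assoc, smul_mulVec]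
  obtain ⟨z, hz, hz1⟩ := D.exists_dual hc1 hu
  have hJz : D.J *ᵥ (D.P (-δ) *ᵥ z) = -δ • (D.P (-δ) *ᵥ z) := D.J_P_mulVec hδ' z
  refine ⟨c, D.P (-δ) *ᵥ z, hc1, hc2, ?_, hJz, ?_⟩
  · rw [mulVec_mulVec, ← D.P_pf_comm, ← mulVec_mulVec, hz]
  · have h1 : D.B c (D.P δ *ᵥ z) = 0 := D.B_eq_zero_of_J hδ0 hc2 (D.J_P_mulVec hδ z)
    have h2 : z = D.P δ *ᵥ z + D.P (-δ) *ᵥ z := by
      rw [← add_mulVec, D.P_add_P, one_mulVec]
    rw [h2, map_add, h1, zero_add] at hz1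
    exact hz1

theorem pn_of_coprime (hJ : D.J ∈ D.lie) {r : (E →+* ℂ) → ℕ}
    (hr : ∀ f, (D.P Complex.I * D.pf f).trace = r f)
    (hr' : ∀ f, (D.P (-Complex.I) * D.pf f).trace = r (D.cj f)) {f : E →+* ℂ}
    (h1 : r f ≠ 0) (h2 : r (D.cj f) ≠ 0) (hc : Nat.Coprime (r f) (r (D.cj f))) :
    D.PN f Set.univ := by
  intro w w' hw hw' hww
  rw [← D.mem_res]
  have hI2 : (-Complex.I) * (-Complex.I) = -1 := by rw [neg_mul_neg, Complex.I_mul_I]
  have hI0 : -Complex.I ≠ 0 := neg_ne_zero.mpr Complex.I_ne_zero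
  have hplus : ∀ a b, D.pf f *ᵥ a = a → D.pf (D.cj f) *ᵥ b = b → D.J *ᵥ a = Complex.I • a →
      D.J *ᵥ b = Complex.I • b → D.R a b ∈ D.res f Set.univ := by
    intro a b ha hb hJa hJb
    obtain ⟨X, hX, h3⟩ := D.coprime_R hJ (Or.inl rfl) (hr f) (hr' f) (Nat.pos_of_ne_zero h1)
      (Nat.pos_of_ne_zero h2) hc ha hb hJa hJb
    exact D.mem_res.mpr ⟨X, D.mem_LI_univ hX, h3⟩
  have hminus : ∀ a b, D.pf f *ᵥ a = a → D.pf (D.cj f) *ᵥ b = b → D.J *ᵥ a = -Complex.I • a →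
      D.J *ᵥ b = -Complex.I • b → D.R a b ∈ D.res f Set.univ := by
    intro a b ha hb hJa hJb
    obtain ⟨X, hX, h3⟩ := D.coprime_R hJ (Or.inr rfl) (hr' f) (by rw [neg_neg]; exact hr f)
      (Nat.pos_of_ne_zero h2) (Nat.pos_of_ne_zero h1) hc.symm ha hb hJa hJb
    exact D.mem_res.mpr ⟨X, D.mem_LI_univ hX, h3⟩
  obtain ⟨a₀, d₀, ha₀, hJa₀, hd₀, hJd₀, had₀⟩ := D.exists_pair Complex.I_mul_I (f := f) (by
    rw [hr]; exact_mod_cast h1)
  obtain ⟨c₀, b₀, hc₀, hJc₀, hb₀, hJb₀, hcb₀⟩ := D.exists_pair hI2 (f := f) (by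
    rw [hr']; exact_mod_cast h2)
  rw [neg_neg] at hJb₀
  -- the mixed elements
  have hmix : ∀ a b c d, D.pf f *ᵥ a = a → D.pf (D.cj f) *ᵥ b = b → D.J *ᵥ a = Complex.I • a →
      D.J *ᵥ b = Complex.I • b → D.pf f *ᵥ c = c → D.pf (D.cj f) *ᵥ d = d →
      D.J *ᵥ c = -Complex.I • c → D.J *ᵥ d = -Complex.I • d →
      D.B c b • D.R a d - D.B a d • D.R c b ∈ D.res f Set.univ := by
    intro a b c d ha hb hJa hJb hc hd hJc hJd
    have h3 := D.res_bracket (hplus a b ha hb hJa hJb) (hminus c d hc hd hJc hJd)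
    rwa [R_mul_R, R_mul_R] at h3
  set a := D.P Complex.I *ᵥ w with hadef
  set c := D.P (-Complex.I) *ᵥ w with hcdef
  set b := D.P Complex.I *ᵥ w' with hbdef
  set d := D.P (-Complex.I) *ᵥ w' with hddef
  have ha : D.pf f *ᵥ a = a := by rw [hadef, mulVec_mulVec, ← D.P_pf_comm, ← mulVec_mulVec, hw]
  have hcf : D.pf f *ᵥ c = c := by rw [hcdef, mulVec_mulVec, ← D.P_pf_comm, ← mulVec_mulVec, hw]
  have hb : D.pf (D.cj f) *ᵥ b = b := by
    rw [hbdef, mulVec_mulVec, ← D.P_pf_comm, ← mulVec_mulVec, hw']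
  have hd : D.pf (D.cj f) *ᵥ d = d := by
    rw [hddef, mulVec_mulVec, ← D.P_pf_comm, ← mulVec_mulVec, hw']
  have hJa : D.J *ᵥ a = Complex.I • a := D.J_P_mulVec Complex.I_mul_I w
  have hJb : D.J *ᵥ b = Complex.I • b := D.J_P_mulVec Complex.I_mul_I w'
  have hJc : D.J *ᵥ c = -Complex.I • c := D.J_P_mulVec hI2 w
  have hJd : D.J *ᵥ d = -Complex.I • d := D.J_P_mulVec hI2 w'
  have hw2 : w = a + c := by rw [hadef, hcdef, ← add_mulVec, D.P_add_P, one_mulVec]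
  have hw2' : w' = b + d := by rw [hbdef, hddef, ← add_mulVec, D.P_add_P, one_mulVec]
  have hab : D.B a b = 0 := D.B_eq_zero_of_J Complex.I_ne_zero hJa hJb
  have hcd : D.B c d = 0 := D.B_eq_zero_of_J hI0 hJc hJd
  have hsum : D.B a d + D.B c b = 0 := by
    rw [hw2, hw2'] at hww
    simp only [map_add, LinearMap.add_apply, hab, hcd] at hww
    linear_combination hww
  have e1 := hplus a b ha hb hJa hJb
  have e2 := hminus c d hcf hd hJc hJd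
  have e3 := hmix a b₀ c₀ d ha hb₀ hJa hJb₀ hc₀ hd hJc₀ hJd
  have e4 := hmix a₀ b c d₀ ha₀ hb hJa₀ hJb hcf hd₀ hJc hJd₀
  have e5 := hmix a₀ b₀ c₀ d₀ ha₀ hb₀ hJa₀ hJb₀ hc₀ hd₀ hJc₀ hJd₀
  rw [hcb₀, one_smul] at e3
  rw [had₀, one_smul] at e4
  rw [hcb₀, had₀, one_smul, one_smul] at e5
  have h3 : D.R w w' = D.R a b + D.R c d + (D.R a d - D.B a d • D.R c₀ b₀) -
      (D.B c b • D.R a₀ d₀ - D.R c b) + D.B c b • (D.R a₀ d₀ - D.R c₀ b₀) := by
    have h4 : D.B a d = - D.B c b := eq_neg_of_add_eq_zero_left hsum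
    rw [h4]
    conv_lhs => rw [hw2, hw2']
    simp only [map_add, LinearMap.add_apply, smul_sub, neg_smul]
    abel
  rw [h3]
  exact Submodule.add_mem _ (Submodule.sub_mem _ (Submodule.add_mem _ (Submodule.add_mem _ e1 e2)
    e3) e4) (Submodule.smul_mem _ _ e5)

end SData

end Pool.Agent.Lib.MP_021685_ag.UT
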