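import Pool.Agent.Lib.MP_021685_ag.UT.S13

/-!
# Linked eigenspaces have the same signatures
-/

set_option autoImplicit false
set_option linter.unusedSectionVars false

namespace Pool.Agent.Lib.MP_021685_ag.UT

open Matrix Function Module ComplexConjugate Pool.Agent.Lib.MP_802513_ag Pool.Agent.Lib.MP_802513_ag.W

namespace SData

variable {K E : Type*} [Fintype K] [DecidableEq K] [CommRing E] [Algebra ℚ E]
  [Module.Finite ℚ E] [IsReduced E] (D : SData K E)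

theorem finrank_cast {r : (E →+* ℂ) → ℕ}
    (hr : ∀ f, (D.P Complex.I * D.pf f).trace = r f) (f : E →+* ℂ) :
    finrank ℂ (D.Ws f) = r f + r (D.cj f) := by
  have h1 := D.finrank_Ws f
  rw [D.trace_add hr] at h1
  exact_mod_cast h1

/-- One-dimensional eigenspaces have no nilpotent elements. -/
theorem pn_of_dim {f : E →+* ℂ} (h : ¬ 2 ≤ finrank ℂ (D.Ws f)) (I : Set (E →+* ℂ)) :
    D.PN f I := by
  intro w w' hw hw' hww
  by_cases hw0 : w = 0
  · subst hw0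
    exact ⟨0, Submodule.zero_mem _, by simp⟩
  have hw'0 : w' = 0 := by
    refine D.eq_zero_of_B fun u => ?_
    rw [← hw', ← D.cj_cj f, D.cj_cj, ← B_pf]
    have hmem : D.pf f *ᵥ u ∈ D.Ws f := by
      rw [mem_Ws, mulVec_mulVec, D.pf_mul_self]
    have hnt : Nontrivial (D.Ws f) := ⟨⟨w, hw⟩, 0, fun h0 => hw0 (congrArg Subtype.val h0)⟩
    have h1 : finrank ℂ (D.Ws f) = 1 := by
      have := finrank_pos (R := ℂ) (M := D.Ws f)
      omega
    obtain ⟨c, hc⟩ := exists_smul_eq_of_finrank_eq_one h1 (x := (⟨w, hw⟩ : D.Ws f))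
      (fun h0 => hw0 (congrArg Subtype.val h0)) ⟨_, hmem⟩
    have h2 : D.pf f *ᵥ u = c • w := (congrArg Subtype.val hc).symm
    rw [h2, map_smul, LinearMap.smul_apply, hww, smul_zero]
  subst hw'0
  exact ⟨0, Submodule.zero_mem _, by simp⟩



/-- Eigenvectors of `J`. -/
theorem exists_eig (e : E →+* ℂ) {δ : ℂ} (hδ : δ * δ = -1)
    (h : (D.P δ * D.pf e).trace ≠ 0) :
    ∃ w : D.Ws e, w ≠ 0 ∧ D.J *ᵥ (w : K → ℂ) = δ • (w : K → ℂ) := by
  obtain ⟨c, b, hc, hJc, -, -, hcb⟩ := D.exists_pair hδ h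
  refine ⟨⟨c, hc⟩, fun h0 => ?_, hJc⟩
  have h2 : c = 0 := congrArg Subtype.val h0
  rw [h2, map_zero, LinearMap.zero_apply] at hcb
  exact zero_ne_one hcb

/-- Two eigenvalues determine the shift. -/
theorem shift_zero {M : Type*} [AddCommGroup M] [Module ℂ M] {x : M →ₗ[ℂ] M}
    (hx : ∀ u, x (x u) = -u) {μ c : ℂ} (hμ : μ * μ = -1) {a b : M} (ha : a ≠ 0) (hb : b ≠ 0)
    (h1 : x a = (μ - c) • a) (h2 : x b = (-μ - c) • b) : c = 0 := by
  have key : ∀ (t : ℂ) (u : M), u ≠ 0 → x u = t • u → t * t = -1 := by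
    intro t u hu h
    have h3 := hx u
    rw [h, map_smul, h, smul_smul] at h3
    have h4 : (t * t + 1) • u = 0 := by rw [add_smul, h3, one_smul, neg_add_cancel]
    exact eq_neg_of_add_eq_zero_left ((smul_eq_zero.mp h4).resolve_right hu)
  have h3 := key _ a ha h1
  have h4 := key _ b hb h2
  have h5 : 4 * (μ * c) = 0 := by linear_combination h4 - h3
  have hμ0 : μ ≠ 0 := by
    rintro rfl
    simp at hμ
  have h6 := (mul_eq_zero.mp h5).resolve_left (by norm_num)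
  exact (mul_eq_zero.mp h6).resolve_left hμ0

/-- The property of an intertwiner. -/
def Twine {f h : E →+* ℂ} (Θ : D.Ws f ≃ₗ[ℂ] D.Ws h) (X : D.lie) (c : ℂ) : Prop :=
  ∀ p, Θ (D.rho f X p) = D.rho h X (Θ p) + c • Θ p

theorem Twine.trace {f h : E →+* ℂ} {Θ : D.Ws f ≃ₗ[ℂ] D.Ws h} {X : D.lie} {c : ℂ}
    (hc : D.Twine Θ X c) : (X.1 * D.pf f).trace - (X.1 * D.pf h).trace =
      c * (D.pf f).trace := by
  have h1 : Θ.conj (D.rho f X) = D.rho h X + c • 1 := by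
    apply LinearMap.ext
    intro u
    rw [LinearEquiv.conj_apply_apply, hc, LinearEquiv.apply_symm_apply]
    rfl
  have h2 := LinearMap.trace_conj' (D.rho f X) Θ
  have h3 : LinearMap.trace ℂ _ (D.rho f X) = (X.1 * D.pf f).trace :=
    D.trace_rs (D.lie_comm_pf X.2 f)
  have h4 : LinearMap.trace ℂ _ (D.rho h X) = (X.1 * D.pf h).trace :=
    D.trace_rs (D.lie_comm_pf X.2 h)
  rw [h1, map_add, map_smul, LinearMap.trace_one, h3, h4, smul_eq_mul, D.finrank_Ws] at h2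
  have h5 : (D.pf f).trace = (D.pf h).trace := by
    rw [← finrank_Ws, ← finrank_Ws, Θ.finrank_eq]
  rw [h5]
  linear_combination -h2

theorem Twine.indef {f h : E →+* ℂ} {Θ : D.Ws f ≃ₗ[ℂ] D.Ws h} (hJ : D.J ∈ D.lie)
    {c : ℂ} (hc : D.Twine Θ ⟨_, hJ⟩ c)
    {r : (E →+* ℂ) → ℕ} (hr : ∀ f, (D.P Complex.I * D.pf f).trace = r f)
    (hi : (r f ≠ 0 ∧ r (D.cj f) ≠ 0) ∨ (r h ≠ 0 ∧ r (D.cj h) ≠ 0)) : c = 0 := by
  have hI2 : (-Complex.I) * (-Complex.I) = -1 := by rw [neg_mul_neg, Complex.I_mul_I]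
  have hμ : Complex.I * Complex.I = -1 := Complex.I_mul_I
  have hsq : ∀ (e : E →+* ℂ) (u : D.Ws e), D.rho e ⟨_, hJ⟩ (D.rho e ⟨_, hJ⟩ u) = -u := by
    intro e u
    apply Subtype.ext
    rw [rho_apply, rho_apply, mulVec_mulVec, D.J_sq, neg_mulVec, one_mulVec]
    rfl
  have hex : ∀ e : E →+* ℂ, r e ≠ 0 →
      r (D.cj e) ≠ 0 → ∃ a b : D.Ws e, a ≠ 0 ∧ b ≠ 0 ∧
      D.rho e ⟨_, hJ⟩ a = Complex.I • a ∧
      D.rho e ⟨_, hJ⟩ b = (-Complex.I) • b := by
    intro e h1 h2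
    obtain ⟨a, ha, ha1⟩ := D.exists_eig e Complex.I_mul_I (by rw [hr]; exact_mod_cast h1)
    obtain ⟨b, hb, hb1⟩ := D.exists_eig e hI2 (by rw [D.trace_P_neg hr]; exact_mod_cast h2)
    exact ⟨a, b, ha, hb, Subtype.ext ha1, Subtype.ext hb1⟩
  rcases hi with ⟨h1, h2⟩ | ⟨h1, h2⟩
  · obtain ⟨a, b, ha, hb, ha1, hb1⟩ := hex f h1 h2
    refine shift_zero (hsq h) hμ (a := Θ a) (b := Θ b) ?_ ?_ ?_ ?_
    · exact fun h0 => ha ((map_eq_zero_iff Θ Θ.injective).mp h0)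
    · exact fun h0 => hb ((map_eq_zero_iff Θ Θ.injective).mp h0)
    · have h3 := hc a
      rw [ha1, map_smul] at h3
      rw [sub_smul, h3, add_sub_cancel_right]
    · have h3 := hc b
      rw [hb1, map_smul] at h3
      rw [sub_smul, h3, add_sub_cancel_right]
  · obtain ⟨a, b, ha, hb, ha1, hb1⟩ := hex h h1 h2
    have h4 : -c = 0 := by
      refine shift_zero (hsq f) hμ (a := Θ.symm a) (b := Θ.symm b) ?_ ?_ ?_ ?_
      · exact fun h0 => ha ((map_eq_zero_iff Θ.symm Θ.symm.injective).mp h0)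
      · exact fun h0 => hb ((map_eq_zero_iff Θ.symm Θ.symm.injective).mp h0)
      · apply Θ.injective
        rw [hc, LinearEquiv.apply_symm_apply, ha1, map_smul, LinearEquiv.apply_symm_apply,
          ← add_smul, sub_neg_eq_add]
      · apply Θ.injective
        rw [hc, LinearEquiv.apply_symm_apply, hb1, map_smul, LinearEquiv.apply_symm_apply,
          ← add_smul, sub_neg_eq_add]
    exact neg_eq_zero.mp h4

/-- The signatures of linked eigenspaces, at `J`. -/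
theorem Twine.sig {f h : E →+* ℂ} {Θ : D.Ws f ≃ₗ[ℂ] D.Ws h} (hJ : D.J ∈ D.lie)
    {c : ℂ} (hc : D.Twine Θ ⟨_, hJ⟩ c)
    {r : (E →+* ℂ) → ℕ} (hr : ∀ f, (D.P Complex.I * D.pf f).trace = r f)
    (hi : (r f ≠ 0 ∧ r (D.cj f) ≠ 0) ∨ (r h ≠ 0 ∧ r (D.cj h) ≠ 0)) : r f = r h := by
  have hc0 := Twine.indef D hJ hc hr hi
  have h1 := Twine.trace D hc
  rw [hc0, zero_mul, sub_eq_zero] at h1
  simp only at h1
  rw [D.trace_J_pf hr, D.trace_J_pf hr] at h1
  have h2 := mul_left_cancel₀ Complex.I_ne_zero h1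
  have h3 : r f + r (D.cj f) = r h + r (D.cj h) := by
    rw [← D.finrank_cast hr, ← D.finrank_cast hr, Θ.finrank_eq]
  have h4 : ((r f : ℤ) : ℂ) - (r (D.cj f) : ℤ) = ((r h : ℤ) : ℂ) - (r (D.cj h) : ℤ) := by
    exact_mod_cast h2
  have h5 : (r f : ℤ) - (r (D.cj f) : ℤ) = (r h : ℤ) - (r (D.cj h) : ℤ) := by
    exact_mod_cast h4
  omega

end SData

end Pool.Agent.Lib.MP_021685_ag.UT
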