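import Pool.Agent.Lib.MP_021685_ag.UT.S7

/-!
# Invariance of the tensor under the full product of unitary Lie algebras
-/

set_option autoImplicit false
set_option linter.unusedSectionVars false

namespace Pool.Agent.Lib.MP_021685_ag.UT

open Matrix Function Module ComplexConjugate Pool.Agent.Lib.MP_802513_ag Pool.Agent.Lib.MP_802513_ag.W

namespace SData

variable {K E : Type*} [Fintype K] [DecidableEq K] [CommRing E] [Algebra ℚ E]
  [Module.Finite ℚ E] [IsReduced E] (D : SData K E)

variable {I : Type*} [Fintype I] [DecidableEq I] {Y : W.FFT.Sys I (E →+* ℂ)} {v : I → K → ℂ}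
  [DecidableEq (E →+* ℂ)] {A : Type*} [Fintype A] [DecidableEq A]
  {S : Type*} [Fintype S] [DecidableEq S]

/-- The tensor changes sign when two slots are exchanged. -/
def IsAlt (T : (S → A × K) → ℂ) : Prop :=
  ∀ s t, s ≠ t → ∀ j, T (j ∘ Equiv.swap s t) = - T j

theorem tv_eq_zero {T : (S → A × K) → ℂ} (hT : IsAlt T) {j' : S → A × I} {s t : S}
    (hst : s ≠ t) (h : j' s = j' t) : tv v T j' = 0 := by
  have hj' : ∀ u, j' (Equiv.swap s t u) = j' u := by
    intro u
    by_cases h1 : u = s
    · rw [h1, Equiv.swap_apply_left, h]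
    · by_cases h2 : u = t
      · rw [h2, Equiv.swap_apply_right, h]
      · rw [Equiv.swap_apply_of_ne_of_ne h1 h2]
  have h1 : tv v T j' = - tv v T j' := by
    conv_lhs => unfold tv
    rw [← Equiv.sum_comp (Equiv.arrowCongr (Equiv.swap s t) (Equiv.refl (A × K)))]
    unfold tv
    rw [← Finset.sum_neg_distrib]
    refine Finset.sum_congr rfl fun j _ => ?_
    have h2 : (Equiv.arrowCongr (Equiv.swap s t) (Equiv.refl (A × K))) j =
        j ∘ Equiv.swap s t := by
      funext u
      simp [Equiv.arrowCongr]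
    simp only [h2, hT s t hst]
    have h3 : ∏ u, vec v (j' u) ((j ∘ Equiv.swap s t) u) = ∏ u, vec v (j' u) (j u) := by
      rw [← Equiv.prod_comp (Equiv.swap s t)]
      refine Finset.prod_congr rfl fun u _ => ?_
      simp only [Function.comp_apply, Equiv.swap_apply_self, hj']
    rw [h3]
    push_cast
    ring
  have h2 : (2 : ℂ) * tv v T j' = 0 := by linear_combination h1
  exact (mul_eq_zero.mp h2).resolve_left two_ne_zero

theorem card_slots_le {T : (S → A × K) → ℂ} (hT : IsAlt T) {j' : S → A × I}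
    (hj : tv v T j' ≠ 0) (i : I) :
    (Finset.univ.filter fun s => (j' s).2 = i).card ≤ Fintype.card A := by
  rw [← Finset.card_univ (α := A)]
  refine Finset.card_le_card_of_injOn (fun s => (j' s).1) (fun s _ => Finset.mem_coe.mpr
    (Finset.mem_univ _)) ?_
  intro s hs t ht hst
  by_contra hne
  have hs' := (Finset.mem_filter.mp (Finset.mem_coe.mp hs)).2
  have ht' := (Finset.mem_filter.mp (Finset.mem_coe.mp ht)).2
  exact hj (tv_eq_zero hT hne (Prod.ext hst (hs'.trans ht'.symm)))

theorem abs_ch_le {T : (S → A × K) → ℂ} (hT : IsAlt T) {j' : S → A × I}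
    (hj : tv v T j' ≠ 0) (i : I) :
    |ch Y j' i| ≤ Fintype.card A := by
  have h1 := card_slots_le hT hj i
  have h2 := card_slots_le hT hj (Y.bar i)
  unfold ch
  rw [abs_le]
  constructor
  · have := Int.natCast_nonneg (Finset.univ.filter fun s => (j' s).2 = i).card
    have h3 : ((Finset.univ.filter fun s => (j' s).2 = Y.bar i).card : ℤ) ≤ Fintype.card A := by
      exact_mod_cast h2
    linarith
  · have := Int.natCast_nonneg (Finset.univ.filter fun s => (j' s).2 = Y.bar i).card
    have h3 : ((Finset.univ.filter fun s => (j' s).2 = i).card : ℤ) ≤ Fintype.card A := by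
      exact_mod_cast h1
    linarith

theorem op_self (i : I) (F : (S → A × I) → ℂ) (j' : S → A × I) :
    W.FFT.op Finset.univ i i F j' =
      ((Finset.univ.filter fun s => (j' s).2 = i).card : ℂ) * F j' := by
  unfold W.FFT.op
  rw [Finset.card_eq_sum_ones, Nat.cast_sum, Finset.sum_mul, Finset.sum_filter]
  refine Finset.sum_congr rfl fun s _ => ?_
  by_cases h : (j' s).2 = i
  · rw [if_pos h, if_pos h]
    have : update j' s ((j' s).1, i) = j' := by
      rw [← h]
      exact update_eq_self s j'
    rw [this]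
    simp
  · rw [if_neg h, if_neg h]

/-- The invariance of the tensor. -/
theorem inv_of_charges {T : (S → A × K) → ℂ} (hlT : ∀ X ∈ D.lie, ∀ j, DX X T j = 0) (h : D.Bas Y v)
    (hA : ∀ f, D.AmH f) {d : (E →+* ℂ) → ℕ} (hd : ∀ f, (D.pf f).trace = d f) (hT : IsAlt T)
    (hN : ∀ j' : S → A × I, tv v T j' ≠ 0 → ∀ a : (E →+* ℂ) → ℤ, (∀ i, a (Y.φ i) = ch Y j' i) → (∀ f, a (D.cj f) = - a f) →
      (∀ f, |a f| ≤ Fintype.card A) → ∑ f : E →+* ℂ, (d f : ℤ) * |a f| ≤ 2 * Fintype.card S → a = 0) :
    W.FFT.Inv Y Finset.univ (tv v T) := by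
  intro i l hil j
  by_cases h1 : i = l
  · subst h1
    rw [op_self, op_self]
    by_cases hj : tv v T j = 0
    · simp [hj]
    · obtain ⟨a, ha, hodd, hsum⟩ := D.exists_charge hlT h hA hd hj
      have h2 := hN j hj a ha hodd (fun f => by
        obtain ⟨k, hk⟩ := Bas.surj D h f
        rw [← hk, ha]
        exact abs_ch_le hT hj k) hsum
      have h3 := ha i
      rw [h2, Pi.zero_apply] at h3
      unfold ch at h3
      have h4 : ((Finset.univ.filter fun s => (j s).2 = i).card : ℤ) =
          (Finset.univ.filter fun s => (j s).2 = Y.bar i).card := by linarith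
      have h5 : ((Finset.univ.filter fun s => (j s).2 = i).card : ℂ) =
          (Finset.univ.filter fun s => (j s).2 = Y.bar i).card := by exact_mod_cast h4
      rw [h5]
  · refine D.inv_one h _ ?_ j
    have h2 := hA (Y.φ i) (v i) (v (Y.bar l)) (h.hv i)
      (by rw [hil, ← h.cj_φ]; exact h.hv _)
      (by rw [h.hB, if_neg]; intro h'; exact h1 (Y.bar_inj h').symm)
    exact hlT _ h2

end SData

end Pool.Agent.Lib.MP_021685_ag.UT
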