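import Pool.Agent.Lib.MP_021685_ag.UT.S14
import Pool.Agent.Lib.MP_021685_ag.UT.S8

/-!
# The local statements on the abstract data
-/

set_option autoImplicit false
set_option linter.unusedSectionVars false

namespace Pool.Agent.Lib.MP_021685_ag.UT

open Matrix Function Module ComplexConjugate Pool.Agent.Lib.MP_802513_ag Pool.Agent.Lib.MP_802513_ag.W

/-- For real embeddings too the nilpotent elements are in the Lie algebra. -/
theorem SData.amH_of_pn {K E : Type*} [Fintype K] [DecidableEq K] [CommRing E] [Algebra ℚ E] [Module.Finite ℚ E] [IsReduced E] (D : SData K E)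
    {f : E →+* ℂ} (h : D.PN f {f, D.cj f}) : D.AmH f := by
  by_cases hf : f = D.cj f
  · intro w w' hw hw' hww
    obtain ⟨X, hX, h1⟩ := h w w' hw hw' hww
    have h2 := D.flip hX.1 h1
    rw [← hf, h1] at h2
    have h3 : X = D.R w w' := by
      have h4 : X = X * ∑ g : E →+* ℂ, D.pf g := by rw [D.sum_pf, mul_one]
      rw [Finset.mul_sum, Finset.sum_eq_single f, h1] at h4
      · exact h4
      · intro g _ hg
        refine hX.2 g ?_
        rw [← hf]
        simpa using hg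
      · simp
    have h4 : D.Am w w' = (2 : ℂ) • X := by
      unfold SData.Am
      rw [← h2, h3, two_smul]
    rw [h4]
    exact Submodule.smul_mem _ _ hX.1
  · intro w w' hw hw' hww
    exact D.am_mem hf h hw hw' hww

namespace TData

variable {K E ι : Type*} [Fintype K] [DecidableEq K] [CommRing E] [Algebra ℚ E] [Module.Finite ℚ E] [IsReduced E] (D : TData K E ι)
variable {S A : Type*} [Fintype S] [DecidableEq S]

/-- The tensor `T` is killed by the operators. -/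
structure Kills (T : (S → A × K) → ℂ) : Prop where
  hJ : ∀ s j, DX (D.J s) T j = 0
  hN : ∀ X ∈ D.N, ∀ j, DX X T j = 0

/-- The Lie algebra of matrices which commute with `E`, are skew for the polarisation and kill the tensor `T`. -/
noncomputable def lie (T : (S → A × K) → ℂ) : Submodule ℂ (Matrix K K ℂ) where
  carrier := {X | (∀ e, X * D.Mc e = D.Mc e * X) ∧ Xᵀ * D.Gc + D.Gc * X = 0 ∧ ∀ j, DX X T j = 0}
  add_mem' := by
    rintro X Y ⟨h1, h2, h3⟩ ⟨g1, g2, g3⟩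
    refine ⟨fun e => ?_, ?_, fun j => ?_⟩
    · rw [add_mul, mul_add, h1, g1]
    · rw [Matrix.transpose_add, add_mul, mul_add]
      calc _ = (Xᵀ * D.Gc + D.Gc * X) + (Yᵀ * D.Gc + D.Gc * Y) := by abel
        _ = 0 := by rw [h2, g2, add_zero]
    · rw [DX_add_left, h3, g3, add_zero]
  zero_mem' := by
    refine ⟨fun e => by simp, by simp, fun j => by simp [DX]⟩
  smul_mem' := by
    rintro c X ⟨h1, h2, h3⟩
    refine ⟨fun e => ?_, ?_, fun j => ?_⟩
    · rw [smul_mul_assoc, mul_smul_comm, h1]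
    · rw [Matrix.transpose_smul, smul_mul_assoc, mul_smul_comm, ← smul_add, h2, smul_zero]
    · rw [DX_smul_left, h3, mul_zero]

theorem lie_bracket {T : (S → A × K) → ℂ} {X Y : Matrix K K ℂ} (hX : X ∈ D.lie T) (hY : Y ∈ D.lie T) : X * Y - Y * X ∈ D.lie T := by
  obtain ⟨h1, h2, h3⟩ := hX
  obtain ⟨g1, g2, g3⟩ := hY
  refine ⟨fun e => ?_, ?_, fun j => ?_⟩
  · rw [sub_mul, mul_sub]
    congr 1
    · rw [mul_assoc, g1, ← mul_assoc, h1, mul_assoc]
    · rw [mul_assoc, h1, ← mul_assoc, g1, mul_assoc]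
  · have h2' : Xᵀ * D.Gc = - (D.Gc * X) := eq_neg_of_add_eq_zero_left h2
    have g2' : Yᵀ * D.Gc = - (D.Gc * Y) := eq_neg_of_add_eq_zero_left g2
    rw [Matrix.transpose_sub, Matrix.transpose_mul, Matrix.transpose_mul, sub_mul, mul_sub,
      mul_assoc, mul_assoc, h2', g2', mul_neg, mul_neg, ← mul_assoc, ← mul_assoc, h2', g2',
      neg_mul, neg_mul, mul_assoc, mul_assoc]
    abel
  · have h4 := DX_comm Y X T j
    have h5 : DX X T = 0 := funext h3
    have h6 : DX Y T = 0 := funext g3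
    rw [h5, h6] at h4
    have h7 : X * Y - Y * X = X * Y + (-1 : ℂ) • (Y * X) := by rw [neg_one_smul, sub_eq_add_neg]
    rw [h7, DX_add_left, DX_smul_left]
    have h8 : ∀ Z : Matrix K K ℂ, DX Z (0 : (S → A × K) → ℂ) j = 0 := by
      intro Z; simp [DX]
    rw [h8, h8] at h4
    linear_combination -h4

variable {D}

/-- The abstract data with the operator `J s`. -/
noncomputable def toS {T : (S → A × K) → ℂ} (hT : D.Kills T) (s : ι) : SData K E where
  Mc := D.Mc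
  ne := D.ne
  Gc := D.Gc
  Gc_transpose := D.Gc_transpose
  det_Gc_ne := D.det_Gc_ne
  ros := D.ros
  ros_ros := D.ros_ros
  ros_spec := D.ros_spec
  lie := D.lie T
  lie_comm := fun X hX => hX.1
  lie_skew := fun X hX => hX.2.1
  lie_br := fun X hX Y hY => D.lie_bracket hX hY
  dense := fun Z hZ => Algebra.adjoin_mono (s := D.N) (t := (D.lie T : Set (Matrix K K ℂ)))
    (fun X hX => ⟨D.N_comm X hX, D.N_skew X hX, hT.hN X hX⟩) (D.dense Z hZ)
  J := D.J s
  J_sq := D.J_sq s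
  J_mem := ⟨D.J_comm s, D.J_skew s, hT.hJ s⟩

variable {T : (S → A × K) → ℂ} (hT : D.Kills T)

/-- The local statement at an embedding of coprime signature. -/
theorem pn_univ (s₀ : ι) {f : E →+* ℂ} (hC : ∃ s, Nat.Coprime (D.r s f) (D.r s (D.cj f))) : (toS hT s₀).PN f Set.univ := by
  by_cases hdim : 2 ≤ finrank ℂ ((toS hT s₀).Ws f)
  swap
  · exact (toS hT s₀).pn_of_dim hdim _
  obtain ⟨s, hs⟩ := hC
  have hr : ∀ f, ((toS hT s).P Complex.I * (toS hT s).pf f).trace = D.r s f := D.hr s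
  have hfc : finrank ℂ ((toS hT s₀).Ws f) = D.r s f + D.r s (D.cj f) := (toS hT s).finrank_cast hr f
  rw [hfc] at hdim
  have h1 : D.r s f ≠ 0 := by
    intro h
    rw [h, Nat.coprime_zero_left] at hs
    omega
  have h2 : D.r s (D.cj f) ≠ 0 := by
    intro h
    rw [h, Nat.coprime_zero_right] at hs
    omega
  exact (toS hT s).pn_of_coprime (toS hT s).J_mem hr ((toS hT s).trace_P_neg hr) h1 h2 hs

/-- Embeddings with different signatures are separated. -/
theorem pn_sep (s₀ : ι) {f g : E →+* ℂ} (hf : (toS hT s₀).PN f Set.univ) (hg : (toS hT s₀).PN g Set.univ) (hgf : g ≠ f) (hgf' : g ≠ D.cj f)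
    (hS : ∀ h : E →+* ℂ, (h = g ∨ h = D.cj g) →
      (∀ s, (D.r s f ≠ 0 ∧ D.r s (D.cj f) ≠ 0) ∨ (D.r s h ≠ 0 ∧ D.r s (D.cj h) ≠ 0) → D.r s f = D.r s h) → ∀ s, D.r s f = D.r s h) :
    (toS hT s₀).PN f {x | x ≠ g ∧ x ≠ D.cj g} := by
  by_cases hdim : 2 ≤ finrank ℂ ((toS hT s₀).Ws f)
  swap
  · exact (toS hT s₀).pn_of_dim hdim _
  by_contra hno
  obtain ⟨h, hh, Θ, hΘ⟩ := (toS hT s₀).exists_theta hf hg hdim hno
  have hcjcj : ∀ x : E →+* ℂ, D.cj (D.cj x) = x := (toS hT s₀).cj_cj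
  have hhf : h ≠ f := by
    rcases hh with rfl | rfl
    · exact hgf
    · intro h0
      apply hgf'
      rw [← h0]
      exact (hcjcj g).symm
  have heq : ∀ s, D.r s f = D.r s h := by
    refine hS h hh fun s hi => ?_
    obtain ⟨c, hc⟩ := hΘ ⟨D.J s, (toS hT s).J_mem⟩
    have hr : ∀ f, ((toS hT s).P Complex.I * (toS hT s).pf f).trace = D.r s f := D.hr s
    exact SData.Twine.sig (toS hT s) (Θ := Θ) (toS hT s).J_mem hc hr hi
  have htr : ((toS hT s₀).pf f).trace = ((toS hT s₀).pf h).trace := by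
    rw [← SData.finrank_Ws, ← SData.finrank_Ws, Θ.finrank_eq]
  have hNtr := D.N_tr f h heq htr
  have htrf := (toS hT s₀).trace_pf_ne f
  have hNl : ∀ X ∈ D.N, X ∈ (toS hT s₀).lie := fun X hX => ⟨D.N_comm X hX, D.N_skew X hX, hT.hN X hX⟩
  have hmem : ∀ u : K → ℂ, (toS hT s₀).pf f *ᵥ u ∈ (toS hT s₀).Ws f := by
    intro u
    rw [SData.mem_Ws, mulVec_mulVec, (toS hT s₀).pf_mul_self]
  let q : (K → ℂ) →ₗ[ℂ] (toS hT s₀).Ws f := (Matrix.mulVecLin ((toS hT s₀).pf f)).codRestrict ((toS hT s₀).Ws f) hmem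
  have hq : ∀ u : (toS hT s₀).Ws f, q (u : K → ℂ) = u := by
    intro u
    apply Subtype.ext
    exact (toS hT s₀).mem_Ws.mp u.2
  set M : Matrix K K ℂ := LinearMap.toMatrix' (((toS hT s₀).Ws h).subtype ∘ₗ
    (Θ : (toS hT s₀).Ws f →ₗ[ℂ] (toS hT s₀).Ws h) ∘ₗ q) with hM
  have hMu : ∀ u, M *ᵥ u = ((Θ (q u) : (toS hT s₀).Ws h) : K → ℂ) := by
    intro u
    rw [hM, LinearMap.toMatrix'_mulVec]
    rfl
  have hcomm : ∀ X ∈ D.N, M * X = X * M := by
    intro X hX
    obtain ⟨c, hc⟩ := hΘ ⟨X, hNl X hX⟩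
    have hc' : (toS hT s₀).Twine Θ ⟨X, hNl X hX⟩ c := hc
    have h1 := SData.Twine.trace (toS hT s₀) hc'
    have h1' : (X * (toS hT s₀).pf f).trace - (X * (toS hT s₀).pf h).trace = 0 := sub_eq_zero.mpr (hNtr X hX)
    rw [h1'] at h1
    have hc0 : c = 0 := (mul_eq_zero.mp h1.symm).resolve_right htrf
    refine Matrix.ext_of_mulVec_single fun i => ?_
    rw [← mulVec_mulVec, ← mulVec_mulVec, hMu, hMu]
    have h2 : q (X *ᵥ (Pi.single i 1)) = (toS hT s₀).rho f ⟨X, hNl X hX⟩ (q (Pi.single i 1)) := by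
      apply Subtype.ext
      rw [SData.rho_apply]
      show (toS hT s₀).pf f *ᵥ (X *ᵥ (Pi.single i 1)) = X *ᵥ ((toS hT s₀).pf f *ᵥ (Pi.single i 1))
      rw [mulVec_mulVec, mulVec_mulVec, (toS hT s₀).lie_comm_pf (hNl X hX)]
    rw [h2, hc, hc0, zero_smul, add_zero, SData.rho_apply]
  have hcomm' : ∀ Z : Matrix K K ℂ, (∀ e, Z * (toS hT s₀).Mc e = (toS hT s₀).Mc e * Z) → M * Z = Z * M := by
    intro Z hZ
    have h1 := D.dense Z hZ
    clear hZ
    induction h1 using Algebra.adjoin_induction with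
    | mem X hX => exact hcomm X hX
    | algebraMap c => exact (Algebra.commutes c M).symm
    | add X Y _ _ hX hY => rw [mul_add, add_mul, hX, hY]
    | mul X Y _ _ hX hY => rw [← mul_assoc, hX, mul_assoc, hY, mul_assoc]
  obtain ⟨c, hc⟩ := (toS hT s₀).scalar_of_comm M hcomm' f
  have h1 : (toS hT s₀).pf h * (M * (toS hT s₀).pf f) = M * (toS hT s₀).pf f := by
    refine Matrix.ext_of_mulVec_single fun i => ?_
    rw [← mulVec_mulVec, ← mulVec_mulVec, hMu]
    exact (toS hT s₀).mem_Ws.mp (Θ _).2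
  rw [hc, mul_smul_comm, (toS hT s₀).pf_mul_of_ne hhf, smul_zero] at h1
  rw [← h1] at hc
  have h2 : ∀ u : (toS hT s₀).Ws f, u = 0 := by
    intro u
    have h3 := congrArg (fun Z => Z *ᵥ (u : K → ℂ)) hc
    simp only [zero_mulVec] at h3
    rw [← mulVec_mulVec, (toS hT s₀).mem_Ws.mp u.2, hMu, hq] at h3
    have h4 : Θ u = 0 := Subtype.ext h3
    exact (map_eq_zero_iff Θ Θ.injective).mp h4
  have hnt : Nontrivial ((toS hT s₀).Ws f) := nontrivial_of_finrank_pos (R := ℂ) (by omega)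
  obtain ⟨u, hu⟩ := exists_ne (0 : (toS hT s₀).Ws f)
  exact hu (h2 u)

/-- The local statements at all embeddings. -/
theorem pn_all (s₀ : ι) (hC : ∀ f, ∃ s, Nat.Coprime (D.r s f) (D.r s (D.cj f)))
    (hS : ∀ f g, g ≠ f → g ≠ D.cj f → (∃ s, D.r s f ≠ 0 ∧ D.r s (D.cj f) ≠ 0) →
      (∀ s, (D.r s f ≠ 0 ∧ D.r s (D.cj f) ≠ 0) ∨ (D.r s g ≠ 0 ∧ D.r s (D.cj g) ≠ 0) → D.r s f = D.r s g) → ∀ s, D.r s f = D.r s g)
    (f : E →+* ℂ) : (toS hT s₀).PN f {f, (toS hT s₀).cj f} := by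
  by_cases hdim : 2 ≤ finrank ℂ ((toS hT s₀).Ws f)
  swap
  · exact (toS hT s₀).pn_of_dim hdim _
  have hcjcj : ∀ x : E →+* ℂ, D.cj (D.cj x) = x := (toS hT s₀).cj_cj
  have hi : ∃ s, D.r s f ≠ 0 ∧ D.r s (D.cj f) ≠ 0 := by
    obtain ⟨s, hs⟩ := hC f
    have hr : ∀ f, ((toS hT s).P Complex.I * (toS hT s).pf f).trace = D.r s f := D.hr s
    have hfc : finrank ℂ ((toS hT s₀).Ws f) = D.r s f + D.r s (D.cj f) := (toS hT s).finrank_cast hr f
    rw [hfc] at hdim
    refine ⟨s, fun h => ?_, fun h => ?_⟩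
    · rw [h, Nat.coprime_zero_left] at hs
      omega
    · rw [h, Nat.coprime_zero_right] at hs
      omega
  have hsep : ∀ g : E →+* ℂ, g ≠ f → g ≠ D.cj f → (toS hT s₀).PN f {x | x ≠ g ∧ x ≠ D.cj g} := by
    intro g hg hg'
    refine pn_sep hT s₀ (pn_univ hT s₀ (hC f)) (pn_univ hT s₀ (hC g)) hg hg' fun h hh => ?_
    refine hS f h ?_ ?_ hi
    · rcases hh with rfl | rfl
      · exact hg
      · intro h0
        apply hg'
        rw [← h0, hcjcj]
    · rcases hh with rfl | rfl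
      · exact hg'
      · intro h0
        apply hg
        rw [← hcjcj g, h0, hcjcj]
  exact (toS hT s₀).pn_final (fun g hg hg' => ⟨_, hsep g hg hg', by simp⟩) ⟨_, pn_univ hT s₀ (hC f)⟩

end TData

end Pool.Agent.Lib.MP_021685_ag.UT
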