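import Pool.Agent.Lib.MP_021685_ag.UT.S1

/-!
# Elements of the Lie algebra with given support; nilpotent matrices of rank one
-/

set_option autoImplicit false
set_option linter.unusedSectionVars false

namespace Pool.Agent.Lib.MP_021685_ag.UT

open Matrix Function Module ComplexConjugate Pool.Agent.Lib.MP_802513_ag Pool.Agent.Lib.MP_802513_ag.W

namespace SData

variable {K E : Type*} [Fintype K] [DecidableEq K] [CommRing E] [Algebra ℚ E] [Module.Finite ℚ E] [IsReduced E] (D : SData K E)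

/-- The projection to the eigenspace `J = δ` (where `δ = ± i`). -/
noncomputable def P (δ : ℂ) : Matrix K K ℂ := (1 / 2 : ℂ) • (1 - δ • D.J)

theorem P_add_P (δ : ℂ) : D.P δ + D.P (-δ) = 1 := by
  unfold P
  ext k l
  simp only [Matrix.add_apply, Matrix.smul_apply, Matrix.sub_apply, smul_eq_mul]
  ring

theorem P_mulVec (δ : ℂ) (u : K → ℂ) : D.P (-δ) *ᵥ u = u - D.P δ *ᵥ u := by
  have h := congrArg (fun Z => Z *ᵥ u) (D.P_add_P δ)
  simp only [add_mulVec, one_mulVec] at h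
  rw [eq_sub_iff_add_eq, add_comm]
  exact h



theorem P_comm (δ : ℂ) (e : E) : D.P δ * D.Mc e = D.Mc e * D.P δ := by
  unfold P
  rw [smul_mul_assoc, mul_smul_comm, sub_mul, mul_sub, one_mul, mul_one, smul_mul_assoc,
    mul_smul_comm, J_comm_Mc]

theorem P_transpose (δ : ℂ) : (D.P δ)ᵀ * D.Gc = D.Gc * D.P (-δ) := by
  have hJ : D.Jᵀ * D.Gc = - (D.Gc * D.J) := eq_neg_of_add_eq_zero_left D.J_skew'
  unfold P
  rw [Matrix.transpose_smul, Matrix.transpose_sub, Matrix.transpose_smul, Matrix.transpose_one,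
    smul_mul_assoc, mul_smul_comm, sub_mul, mul_sub, one_mul, mul_one, smul_mul_assoc, hJ,
    mul_smul_comm, neg_smul, smul_neg]

/-- The embedding `f` is definite: `J` acts by a scalar on its eigenspace. -/
def Dfn (f : E →+* ℂ) : Prop := D.P Complex.I * D.pf f = 0 ∨ D.P (-Complex.I) * D.pf f = 0


theorem lie_comm_pf {X : Matrix K K ℂ} (hX : X ∈ D.lie) (f : E →+* ℂ) :
    X * D.pf f = D.pf f * X := D.comm_pf (D.lie_comm _ hX) f

/-- The component of `X` which maps the eigenspace `J = δ` to the eigenspace `J = - δ`. -/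
theorem lie_down (hJ : D.J ∈ D.lie) {δ : ℂ} (hδ : δ * δ = -1) {X : Matrix K K ℂ}
    (hX : X ∈ D.lie) : D.P (-δ) * X * D.P δ ∈ D.lie := by
  have h1 : D.P (-δ) * X * D.P δ = (1 / 4 : ℂ) • (X + δ • (D.J * X - X * D.J) +
      D.J * X * D.J) := by
    unfold P
    rw [smul_mul_assoc, smul_mul_assoc, mul_smul_comm, smul_smul]
    congr 1
    · norm_num
    · rw [neg_smul, sub_neg_eq_add, add_mul, one_mul, add_mul, mul_sub, mul_sub, mul_one,
        mul_smul_comm, smul_mul_assoc, mul_one, mul_smul_comm, smul_mul_assoc, smul_smul, hδ,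
        neg_smul, one_smul, smul_sub]
      abel
  rw [h1]
  exact Submodule.smul_mem _ _ (Submodule.add_mem _ (Submodule.add_mem _ hX
    (Submodule.smul_mem _ _ (D.lie_bracket hJ hX))) (D.lie_JXJ hJ hX))

/-- The elements of the Lie algebra supported on `I`. -/
def LI (I : Set (E →+* ℂ)) : Submodule ℂ (Matrix K K ℂ) where
  carrier := {X | X ∈ D.lie ∧ ∀ g, g ∉ I → X * D.pf g = 0}
  add_mem' := by
    rintro X Y ⟨h1, h2⟩ ⟨g1, g2⟩
    exact ⟨Submodule.add_mem _ h1 g1, fun g hg => by rw [add_mul, h2 g hg, g2 g hg, add_zero]⟩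
  zero_mem' := ⟨Submodule.zero_mem _, fun g _ => by rw [zero_mul]⟩
  smul_mem' := by
    rintro c X ⟨h1, h2⟩
    exact ⟨Submodule.smul_mem _ _ h1, fun g hg => by rw [smul_mul_assoc, h2 g hg, smul_zero]⟩

theorem LI_bracket {I : Set (E →+* ℂ)} {X Y : Matrix K K ℂ} (hX : X ∈ D.LI I)
    (hY : Y ∈ D.lie) : Y * X - X * Y ∈ D.LI I := by
  refine ⟨D.lie_bracket hY hX.1, fun g hg => ?_⟩
  rw [sub_mul, mul_assoc, hX.2 g hg, mul_zero, mul_assoc, D.lie_comm_pf hY, ← mul_assoc,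
    hX.2 g hg, zero_mul, sub_zero]

theorem LI_bracket' {I I' : Set (E →+* ℂ)} {X Y : Matrix K K ℂ} (hX : X ∈ D.LI I)
    (hY : Y ∈ D.LI I') : Y * X - X * Y ∈ D.LI (I ∩ I') := by
  refine ⟨D.lie_bracket hY.1 hX.1, fun g hg => ?_⟩
  by_cases h : g ∈ I
  · have h' : g ∉ I' := fun h' => hg ⟨h, h'⟩
    rw [sub_mul, mul_assoc, D.lie_comm_pf hX.1, ← mul_assoc, hY.2 g h', zero_mul, mul_assoc,
      hY.2 g h', mul_zero, sub_zero]
  · exact (D.LI_bracket hX hY.1).2 g h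

theorem LI_mono {I I' : Set (E →+* ℂ)} (h : I ⊆ I') : D.LI I ≤ D.LI I' :=
  fun _ hX => ⟨hX.1, fun g hg => hX.2 g fun hg' => hg (h hg')⟩

theorem LI_down (hJ : D.J ∈ D.lie) {δ : ℂ} (hδ : δ = Complex.I ∨ δ = - Complex.I)
    {X : Matrix K K ℂ} (hX : X ∈ D.lie) :
    D.P (-δ) * X * D.P δ ∈ D.LI {f | ¬ D.Dfn f} := by
  have hδ2 : δ * δ = -1 := by
    rcases hδ with rfl | rfl
    · exact Complex.I_mul_I
    · rw [neg_mul_neg, Complex.I_mul_I]
  refine ⟨D.lie_down hJ hδ2 hX, fun g hg => ?_⟩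
  simp only [Set.mem_ofPred_eq, not_not] at hg
  have h1 : D.P δ * D.pf g = 0 ∨ D.P (-δ) * D.pf g = 0 := by
    rcases hδ with rfl | rfl
    · exact hg
    · rw [neg_neg]; exact hg.symm
  rcases h1 with h1 | h1
  · rw [mul_assoc, h1, mul_zero]
  · rw [mul_assoc, D.comm_pf (D.P_comm δ), ← mul_assoc, mul_assoc (D.P (-δ)), D.lie_comm_pf hX,
      ← mul_assoc (D.P (-δ)), h1, zero_mul, zero_mul]

theorem mul_mul_pf {X Y : Matrix K K ℂ} (hY : Y ∈ D.lie) (f : E →+* ℂ) :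
    X * Y * D.pf f = (X * D.pf f) * (Y * D.pf f) := by
  rw [D.lie_comm_pf hY, mul_assoc X (D.pf f), ← mul_assoc (D.pf f), D.pf_mul_self,
    ← D.lie_comm_pf hY, mul_assoc]



theorem B_pf (f : E →+* ℂ) (u v : K → ℂ) :
    D.B (D.pf f *ᵥ u) v = D.B u (D.pf (D.cj f) *ᵥ v) :=
  D.B_adj_mulVec (D.pf_transpose f) u v

theorem R_mul_pf (w w' : K → ℂ) (f : E →+* ℂ) :
    D.R w w' * D.pf f = D.R w (D.pf (D.cj f) *ᵥ w') := by
  rw [R_apply, vecMulVec_mul, R_apply]
  congr 1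
  rw [← mulVec_transpose, mulVec_mulVec, D.pf_transpose, ← mulVec_mulVec]

/-- If `X` is `w ⊗ B (·, w')` on the eigenspace of `f`, then it is `w' ⊗ B (·, w)` on the
eigenspace of the conjugate of `f`. -/
theorem flip {X : Matrix K K ℂ} (hX : X ∈ D.lie) {f : E →+* ℂ} {w w' : K → ℂ}
    (h : X * D.pf f = D.R w w') : X * D.pf (D.cj f) = D.R w' w := by
  have h1 := congrArg (fun Z => Zᵀ * D.Gc) h
  rw [R_transpose, Matrix.transpose_mul, mul_assoc, eq_neg_of_add_eq_zero_left (D.lie_skew _ hX), mul_neg,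
    ← mul_assoc, D.pf_transpose, mul_assoc, ← D.lie_comm_pf hX, neg_inj] at h1
  exact D.Gc_cancel h1

/-- All nilpotent matrices `w ⊗ B (·, w')` are restrictions to the eigenspace of `f` of elements
of the Lie algebra supported on `I`. -/
def PN (f : E →+* ℂ) (I : Set (E →+* ℂ)) : Prop :=
  ∀ w w' : K → ℂ, D.pf f *ᵥ w = w → D.pf (D.cj f) *ᵥ w' = w' → D.B w w' = 0 →
    ∃ X ∈ D.LI I, X * D.pf f = D.R w w'

theorem PN.mono {f : E →+* ℂ} {I I' : Set (E →+* ℂ)} (h : D.PN f I) (hI : I ⊆ I') :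
    D.PN f I' := by
  intro w w' hw hw' hww
  obtain ⟨X, hX, h1⟩ := h w w' hw hw' hww
  exact ⟨X, D.LI_mono hI hX, h1⟩



theorem PN.inter {f : E →+* ℂ} {I I' : Set (E →+* ℂ)} (h : D.PN f I) (h' : D.PN f I') :
    D.PN f (I ∩ I') := by
  intro w w' hw hw' hww
  by_cases hw0 : w = 0
  · subst hw0
    exact ⟨0, Submodule.zero_mem _, by simp⟩
  by_cases hw0' : w' = 0
  · subst hw0'
    exact ⟨0, Submodule.zero_mem _, by simp⟩
  obtain ⟨z', hz', hwz⟩ := D.exists_dual hw hw0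
  obtain ⟨y₀, hy₀, hwy⟩ := D.exists_dual (f := D.cj f) hw' hw0'
  rw [D.cj_cj] at hy₀
  -- `y` with `B y w' = 1`, `y'` with `B w y' = 1` and `B y y' = 0`
  set y := - y₀ with hy
  have hyw : D.B y w' = 1 := by
    rw [hy, map_neg, LinearMap.neg_apply, B_skew, neg_neg, hwy]
  have hyf : D.pf f *ᵥ y = y := by rw [hy, mulVec_neg, hy₀]
  set y' := z' - D.B y z' • w' with hy'
  have hyy : D.B y y' = 0 := by
    rw [hy', map_sub, map_smul, hyw]; simp
  have hwy' : D.B w y' = 1 := by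
    rw [hy', map_sub, map_smul, hww, hwz]; simp
  have hyf' : D.pf (D.cj f) *ᵥ y' = y' := by
    rw [hy', mulVec_sub, mulVec_smul, hz', hw']
  obtain ⟨X, hX, hX1⟩ := h w w' hw hw' hww
  obtain ⟨Y, hY, hY1⟩ := h y y' hyf hyf' hyy
  obtain ⟨X', hX', hX1'⟩ := h' w w' hw hw' hww
  have hH : X * Y - Y * X ∈ D.LI I := D.LI_bracket hY hX.1
  have hZ := D.LI_bracket' hX' hH
  rw [Set.inter_comm] at hZ
  refine ⟨(1 / 2 : ℂ) • _, Submodule.smul_mem _ _ hZ, ?_⟩
  have hH1 : (X * Y - Y * X) * D.pf f = D.R w y' - D.R y w' := by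
    rw [sub_mul, D.mul_mul_pf hY.1, D.mul_mul_pf hX.1, hX1, hY1, R_mul_R, R_mul_R, hyw, hwy',
      one_smul, one_smul]
  rw [smul_mul_assoc, sub_mul, D.mul_mul_pf hX'.1, D.mul_mul_pf hH.1, hH1, hX1', sub_mul,
    mul_sub, R_mul_R, R_mul_R, R_mul_R, R_mul_R, hww, hwy', hyw]
  simp only [one_smul, zero_smul]
  ext k l
  simp only [Matrix.sub_apply, Matrix.smul_apply, smul_eq_mul, Matrix.zero_apply]
  ring



theorem map_mulVec' (σ : ℂ →+* ℂ) (X : Matrix K K ℂ) (w : K → ℂ) :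
    σ ∘ (X *ᵥ w) = X.map σ *ᵥ (σ ∘ w) := by
  funext k
  simp only [mulVec, dotProduct, Function.comp_apply, map_sum, map_mul, Matrix.map_apply]



/-- The main result on nilpotent matrices. -/
theorem pn_final {f : E →+* ℂ} (h : ∀ g, g ≠ f → g ≠ D.cj f → ∃ I, D.PN f I ∧ g ∉ I)
    (h0 : ∃ I, D.PN f I) : D.PN f {f, D.cj f} := by
  classical
  have key : ∀ s : Finset (E →+* ℂ), (∀ g ∈ s, g ≠ f ∧ g ≠ D.cj f) → D.PN f {g | g ∉ s} := by
    intro s
    induction s using Finset.induction_on with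
    | empty =>
      intro _
      obtain ⟨I, hI⟩ := h0
      exact PN.mono D hI fun g _ => by simp
    | insert a s _ ih =>
      intro hs
      have h1 := ih fun g hg => hs g (Finset.mem_insert_of_mem hg)
      obtain ⟨I, hI, haI⟩ := h a (hs a (Finset.mem_insert_self _ _)).1
        (hs a (Finset.mem_insert_self _ _)).2
      refine PN.mono D (PN.inter D h1 hI) ?_
      rintro g ⟨hg1, hg2⟩
      simp only [Set.mem_ofPred_eq, Finset.mem_insert, not_or] at hg1 ⊢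
      exact ⟨fun hga => haI (hga ▸ hg2), hg1⟩
  refine PN.mono D (key (Finset.univ.filter fun g => g ≠ f ∧ g ≠ D.cj f) (by simp)) ?_
  intro g hg
  simp only [Set.mem_ofPred_eq, Finset.mem_filter, Finset.mem_univ, true_and, not_and_or,
    not_not] at hg
  rcases hg with hg | hg
  · left; exact hg
  · right; exact hg

end SData

end Pool.Agent.Lib.MP_021685_ag.UT
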