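import Pool.Agent.Lib.MP_021685_ag.UT.S2

/-!
# The centre of the Lie algebra
-/

set_option autoImplicit false
set_option linter.unusedSectionVars false

namespace Pool.Agent.Lib.MP_021685_ag.UT

open Matrix Function Module ComplexConjugate Pool.Agent.Lib.MP_802513_ag Pool.Agent.Lib.MP_802513_ag.W

namespace SData

variable {K E : Type*} [Fintype K] [DecidableEq K] [CommRing E] [Algebra ℚ E] [Module.Finite ℚ E] [IsReduced E] (D : SData K E)

/-- Dual bases of the eigenspaces of `f` and of its conjugate. -/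
structure DB (f : E →+* ℂ) {Q : Type*} [Fintype Q] [DecidableEq Q] (w w' : Q → K → ℂ) :
    Prop where
  hw : ∀ k, D.pf f *ᵥ w k = w k
  hw' : ∀ k, D.pf (D.cj f) *ᵥ w' k = w' k
  hB : ∀ k l, D.B (w k) (w' l) = if k = l then 1 else 0
  hsum : D.pf f = ∑ k, D.R (w k) (w' k)

theorem trace_R (w w' : K → ℂ) : (D.R w w').trace = D.B w w' := by
  rw [R_apply, trace_vecMulVec, B_apply]

/-- The endomorphism `u ↦ B (u, w') w + B (u, w) w'`. -/
noncomputable def Am (w w' : K → ℂ) : Matrix K K ℂ := D.R w w' + D.R w' w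

theorem Gc_mul_inv : D.Gc * D.Gc⁻¹ = 1 :=
  Matrix.mul_nonsing_inv _ (isUnit_iff_ne_zero.mpr D.det_Gc_ne)


theorem exists_DB (f : E →+* ℂ) : ∃ (m : ℕ) (w w' : Fin m → K → ℂ), D.DB f w w' := by
  classical
  let W := LinearMap.range (Matrix.mulVecLin (D.pf f))
  let b := Module.finBasis ℂ W
  let φ : Fin (finrank ℂ W) → (K → ℂ) →ₗ[ℂ] ℂ := fun k =>
    (b.coord k) ∘ₗ (Matrix.mulVecLin (D.pf f)).rangeRestrict
  let c : Fin (finrank ℂ W) → K → ℂ := fun k x => φ k (fun y => if x = y then 1 else 0)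
  have hφ : ∀ k u, φ k u = u ⬝ᵥ c k := by
    intro k u
    rw [LinearMap.pi_apply_eq_sum_univ (φ k) u]
    rfl
  have hφ' : ∀ k u, φ k u = D.B u (D.Gc⁻¹ *ᵥ c k) := by
    intro k u
    rw [hφ, B_apply, mulVec_mulVec, Gc_mul_inv, one_mulVec]
  have hb : ∀ k, D.pf f *ᵥ (b k : K → ℂ) = (b k : K → ℂ) := by
    intro k
    obtain ⟨u, hu⟩ := (b k).2
    rw [← hu]
    simp only [Matrix.mulVecLin_apply]
    rw [mulVec_mulVec, D.pf_mul_self]
  refine ⟨finrank ℂ W, fun k => (b k : K → ℂ), fun k => D.Gc⁻¹ *ᵥ c k, hb, ?_, ?_, ?_⟩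
  · intro k
    rw [← sub_eq_zero]
    refine D.eq_zero_of_B fun u => ?_
    rw [map_sub, ← B_pf, ← hφ', ← hφ', sub_eq_zero]
    have h1 : (Matrix.mulVecLin (D.pf f)).rangeRestrict (D.pf f *ᵥ u) =
        (Matrix.mulVecLin (D.pf f)).rangeRestrict u := by
      apply Subtype.ext
      change D.pf f *ᵥ (D.pf f *ᵥ u) = D.pf f *ᵥ u
      rw [mulVec_mulVec, D.pf_mul_self]
    change b.coord k _ = b.coord k _
    rw [h1]
  · intro k l
    rw [← hφ']
    have h1 : (Matrix.mulVecLin (D.pf f)).rangeRestrict (b k : K → ℂ) = b k := by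
      apply Subtype.ext
      exact hb k
    change b.coord l ((Matrix.mulVecLin (D.pf f)).rangeRestrict (b k : K → ℂ)) = _
    rw [h1, Basis.coord_apply, Basis.repr_self, Finsupp.single_apply]
  · refine Matrix.ext_of_mulVec_single fun x => ?_
    set u := Pi.single (M := fun _ : K => ℂ) x 1
    rw [Matrix.sum_mulVec]
    simp only [R_mulVec, ← hφ']
    have h1 := b.sum_repr ((Matrix.mulVecLin (D.pf f)).rangeRestrict u)
    have h2 := congrArg (fun z : W => (z : K → ℂ)) h1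
    have h3 : (((Matrix.mulVecLin (D.pf f)).rangeRestrict u : W) : K → ℂ) = D.pf f *ᵥ u := rfl
    rw [h3] at h2
    rw [← h2, Submodule.coe_sum]
    rfl

theorem DB.trace {f : E →+* ℂ} {Q : Type*} [Fintype Q] [DecidableEq Q] {w w' : Q → K → ℂ}
    (h : D.DB f w w') : (D.pf f).trace = (Fintype.card Q : ℂ) := by
  rw [h.hsum, Matrix.trace_sum]
  simp only [trace_R, h.hB, if_true]
  simp

theorem DB.expand {f : E →+* ℂ} {Q : Type*} [Fintype Q] [DecidableEq Q] {w w' : Q → K → ℂ}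
    (h : D.DB f w w') {u : K → ℂ} (hu : D.pf f *ᵥ u = u) : u = ∑ k, D.B u (w' k) • w k := by
  conv_lhs => rw [← hu, h.hsum, Matrix.sum_mulVec]
  simp only [R_mulVec]



theorem flip_sum {X : Matrix K K ℂ} (hX : X ∈ D.lie) {f : E →+* ℂ} {Q : Type*} [Fintype Q]
    {w w' : Q → K → ℂ} (h : X * D.pf f = ∑ k, D.R (w k) (w' k)) :
    X * D.pf (D.cj f) = ∑ k, D.R (w' k) (w k) := by
  have h1 := congrArg (fun Z => Zᵀ * D.Gc) h
  simp only [Matrix.transpose_sum, Finset.sum_mul, R_transpose] at h1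
  rw [Matrix.transpose_mul, mul_assoc, eq_neg_of_add_eq_zero_left (D.lie_skew _ hX), mul_neg,
    ← mul_assoc, D.pf_transpose, mul_assoc, ← D.lie_comm_pf hX, Finset.sum_neg_distrib, neg_inj,
    ← Finset.mul_sum] at h1
  exact D.Gc_cancel h1

theorem DB.conj {f : E →+* ℂ} {Q : Type*} [Fintype Q] [DecidableEq Q] {w w' : Q → K → ℂ}
    (h : D.DB f w w') : D.pf (D.cj f) = - ∑ k, D.R (w' k) (w k) := by
  have h1 := congrArg (fun Z => Zᵀ * D.Gc) h.hsum
  simp only [Matrix.transpose_sum, Finset.sum_mul, R_transpose] at h1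
  rw [D.pf_transpose, Finset.sum_neg_distrib, ← Finset.mul_sum, ← mul_neg] at h1
  exact D.Gc_cancel h1

theorem Am_add_left (a b c : K → ℂ) : D.Am (a + b) c = D.Am a c + D.Am b c := by
  unfold Am; simp only [map_add, LinearMap.add_apply]; abel

theorem Am_smul_left (r : ℂ) (a c : K → ℂ) : D.Am (r • a) c = r • D.Am a c := by
  unfold Am; simp only [map_smul, LinearMap.smul_apply, smul_add]

theorem Am_sum_left {ι : Type*} (s : Finset ι) (a : ι → K → ℂ) (c : K → ℂ) :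
    D.Am (∑ i ∈ s, a i) c = ∑ i ∈ s, D.Am (a i) c := by
  unfold Am
  simp only [map_sum, LinearMap.sum_apply, Finset.sum_add_distrib]

/-- The elements `pf f - pf (D.cj f)`. -/
noncomputable def ze (f : E →+* ℂ) : Matrix K K ℂ := D.pf f - D.pf (D.cj f)

theorem DB.ze {f : E →+* ℂ} {Q : Type*} [Fintype Q] [DecidableEq Q] {w w' : Q → K → ℂ}
    (h : D.DB f w w') : D.ze f = ∑ k, D.Am (w k) (w' k) := by
  unfold SData.ze Am
  rw [h.conj, h.hsum, sub_neg_eq_add, Finset.sum_add_distrib]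

/-- Nilpotent elements of rank two. -/
theorem am_mem {f : E →+* ℂ} (hf : f ≠ D.cj f) (h : D.PN f {f, D.cj f}) {w w' : K → ℂ}
    (hw : D.pf f *ᵥ w = w) (hw' : D.pf (D.cj f) *ᵥ w' = w') (hww : D.B w w' = 0) :
    D.Am w w' ∈ D.lie := by
  classical
  obtain ⟨X, hX, h1⟩ := h w w' hw hw' hww
  have h2 := D.flip hX.1 h1
  have h3 : X = D.Am w w' := by
    have h4 : X = X * ∑ g : E →+* ℂ, D.pf g := by rw [D.sum_pf, mul_one]
    rw [Finset.mul_sum, ← Finset.add_sum_erase _ _ (Finset.mem_univ f),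
      ← Finset.add_sum_erase (Finset.univ.erase f) _ (a := D.cj f)
        (by rw [Finset.mem_erase]; exact ⟨hf.symm, Finset.mem_univ _⟩),
      Finset.sum_eq_zero, add_zero, h1, h2] at h4
    · exact h4
    · intro g hg
      simp only [Finset.mem_erase] at hg
      refine hX.2 g ?_
      simp [hg.1, hg.2.1]
  rw [← h3]
  exact hX.1

/-- All nilpotent elements attached to `f` are in the Lie algebra. -/
def AmH (f : E →+* ℂ) : Prop :=
  ∀ w w' : K → ℂ, D.pf f *ᵥ w = w → D.pf (D.cj f) *ᵥ w' = w' → D.B w w' = 0 → D.Am w w' ∈ D.lie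

theorem am_sub {f : E →+* ℂ} (h : D.AmH f) {w w' v v' : K → ℂ}
    (hw : D.pf f *ᵥ w = w) (hw' : D.pf (D.cj f) *ᵥ w' = w')
    (hv : D.pf f *ᵥ v = v) (hv' : D.pf (D.cj f) *ᵥ v' = v') (hvv : D.B v v' = 1) :
    D.Am w w' - D.B w w' • D.Am v v' ∈ D.lie := by
  set a := D.B w v' with ha
  set b := D.B v w' with hb
  set w1 := w - a • v with hw1
  set w1' := w' - b • v' with hw1'
  have g1 : D.pf f *ᵥ w1 = w1 := by rw [hw1, mulVec_sub, mulVec_smul, hw, hv]
  have g1' : D.pf (D.cj f) *ᵥ w1' = w1' := by rw [hw1', mulVec_sub, mulVec_smul, hw', hv']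
  have g2 : D.B w1 v' = 0 := by
    rw [hw1, map_sub, LinearMap.sub_apply, map_smul, LinearMap.smul_apply, hvv, ← ha]; simp
  have g3 : D.B v w1' = 0 := by
    rw [hw1', map_sub, map_smul, hvv, ← hb]; simp
  have g4 : D.B w w' = a * b + D.B w1 w1' := by
    have e1 : w = w1 + a • v := by rw [hw1, sub_add_cancel]
    conv_lhs => rw [e1, map_add, LinearMap.add_apply, map_smul, LinearMap.smul_apply, ← hb]
    have e2 : w' = w1' + b • v' := by rw [hw1', sub_add_cancel]
    conv_lhs => rw [e2, map_add, map_smul, g2]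
    simp only [smul_eq_mul]
    ring
  set s := D.B w1 w1' with hs
  -- three elements of the Lie algebra
  have m1 : D.Am w1 v' ∈ D.lie := h _ _ g1 hv' g2
  have m2 : D.Am v w1' ∈ D.lie := h _ _ hv g1' g3
  have m3 : D.Am (w1 + v) (w1' - s • v') ∈ D.lie := by
    refine h _ _ (by rw [mulVec_add, g1, hv]) (by rw [mulVec_sub, mulVec_smul, g1', hv']) ?_
    simp only [map_add, map_sub, map_smul, LinearMap.add_apply, g2, g3, hvv, ← hs, smul_eq_mul]
    ring
  have key : D.Am w w' - D.B w w' • D.Am v v' = D.Am (w1 + v) (w1' - s • v') +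
      (b + s) • D.Am w1 v' + (a - 1) • D.Am v w1' := by
    rw [g4, hw1, hw1']
    unfold Am
    simp only [map_add, map_sub, map_smul, LinearMap.add_apply, LinearMap.sub_apply,
      LinearMap.smul_apply]
    ext k l
    simp only [Matrix.add_apply, Matrix.sub_apply, Matrix.smul_apply, smul_eq_mul]
    ring
  rw [key]
  exact Submodule.add_mem _ (Submodule.add_mem _ m3 (Submodule.smul_mem _ _ m1))
    (Submodule.smul_mem _ _ m2)

theorem am_ze {f : E →+* ℂ} (h : D.AmH f) {m : ℕ} {v v' : Fin m → K → ℂ}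
    (hD : D.DB f v v') {w w' : K → ℂ}
    (hw : D.pf f *ᵥ w = w) (hw' : D.pf (D.cj f) *ᵥ w' = w') :
    (m : ℂ) • D.Am w w' - D.B w w' • D.ze f ∈ D.lie := by
  have h1 : (m : ℂ) • D.Am w w' - D.B w w' • D.ze f =
      ∑ k, (D.Am w w' - D.B w w' • D.Am (v k) (v' k)) := by
    rw [Finset.sum_sub_distrib, hD.ze, Finset.smul_sum, Finset.sum_const, Finset.card_univ,
      Fintype.card_fin, Nat.cast_smul_eq_nsmul]
  rw [h1]
  refine Submodule.sum_mem _ fun k _ => ?_
  refine D.am_sub h hw hw' (hD.hw k) (hD.hw' k) ?_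
  rw [hD.hB, if_pos rfl]

theorem lie_ze {f : E →+* ℂ} (h : D.AmH f) {m : ℕ} {v v' : Fin m → K → ℂ}
    (hD : D.DB f v v') {X : Matrix K K ℂ} (hX : X ∈ D.lie) :
    (m : ℂ) • (X * (D.pf f + D.pf (D.cj f))) - (X * D.pf f).trace • D.ze f ∈ D.lie := by
  have h1 : X * D.pf f = ∑ k, D.R (X *ᵥ v k) (v' k) := by
    conv_lhs => rw [hD.hsum, Finset.mul_sum]
    simp only [mul_R]
  have h2 := D.flip_sum hX h1
  have h3 : X * (D.pf f + D.pf (D.cj f)) = ∑ k, D.Am (X *ᵥ v k) (v' k) := by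
    rw [mul_add, h1, h2, ← Finset.sum_add_distrib]
    rfl
  have h4 : (X * D.pf f).trace = ∑ k, D.B (X *ᵥ v k) (v' k) := by
    rw [h1, Matrix.trace_sum]
    simp only [trace_R]
  rw [h3, h4, Finset.smul_sum, Finset.sum_smul, ← Finset.sum_sub_distrib]
  refine Submodule.sum_mem _ fun k _ => ?_
  refine D.am_ze h hD ?_ (hD.hw' k)
  rw [mulVec_mulVec, ← D.lie_comm_pf hX, ← mulVec_mulVec, hD.hw]

theorem sum_cj {M : Type*} [AddCommMonoid M] (F : (E →+* ℂ) → M) :
    ∑ f : E →+* ℂ, F (D.cj f) = ∑ f, F f :=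
  Fintype.sum_bijective D.cj (Function.Involutive.bijective D.cj_cj) _ _ fun _ => rfl

theorem trace_pf_ne (f : E →+* ℂ) : (D.pf f).trace ≠ 0 := by
  obtain ⟨m, w, w', h⟩ := D.exists_DB f
  rw [h.trace, Fintype.card_fin]
  intro h1
  rw [Nat.cast_eq_zero] at h1
  subst h1
  have h2 := h.hsum
  rw [Finset.univ_eq_empty, Finset.sum_empty] at h2
  exact D.pf_ne_zero f h2

theorem trace_transpose_adj {X X' : Matrix K K ℂ} (h : Xᵀ * D.Gc = D.Gc * X') :
    X'.trace = X.trace := by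
  have hG : IsUnit D.Gc.det := isUnit_iff_ne_zero.mpr D.det_Gc_ne
  have h1 : X' = D.Gc⁻¹ * (Xᵀ * D.Gc) := by
    rw [h, ← mul_assoc, Matrix.nonsing_inv_mul _ hG, one_mul]
  rw [h1, Matrix.trace_mul_comm, mul_assoc, D.Gc_mul_inv, mul_one, Matrix.trace_transpose]

theorem trace_pf_cj (f : E →+* ℂ) : (D.pf (D.cj f)).trace = (D.pf f).trace :=
  D.trace_transpose_adj (D.pf_transpose f)

/-- The central element attached to `J`. -/
theorem center_mem (hJ : D.J ∈ D.lie) (h : ∀ f, D.AmH f) :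
    ∑ f : E →+* ℂ, ((D.J * D.pf f).trace / (D.pf f).trace) • D.ze f ∈ D.lie := by
  have h1 : ∀ f : E →+* ℂ, D.J * (D.pf f + D.pf (D.cj f)) -
      ((D.J * D.pf f).trace / (D.pf f).trace) • D.ze f ∈ D.lie := by
    intro f
    obtain ⟨m, v, v', hD⟩ := D.exists_DB f
    have h2 := Submodule.smul_mem _ ((m : ℂ)⁻¹) (D.lie_ze (h f) hD hJ)
    have h3 : (D.pf f).trace = m := by rw [hD.trace, Fintype.card_fin]
    have h4 : (m : ℂ) ≠ 0 := by rw [← h3]; exact D.trace_pf_ne f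
    rw [smul_sub, smul_smul, inv_mul_cancel₀ h4, one_smul, smul_smul] at h2
    rw [h3, div_eq_inv_mul]
    exact h2
  have h2 := Submodule.sum_mem _ fun f (_ : f ∈ (Finset.univ : Finset (E →+* ℂ))) => h1 f
  rw [Finset.sum_sub_distrib, ← Finset.mul_sum, Finset.sum_add_distrib,
    sum_cj, D.sum_pf] at h2
  have h3 : D.J * (1 + 1) ∈ D.lie := by
    rw [mul_add, mul_one]
    exact Submodule.add_mem _ hJ hJ
  have h4 := Submodule.sub_mem _ h3 h2
  rwa [sub_sub_cancel] at h4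



theorem J_eq_P : D.J = Complex.I • D.P Complex.I - Complex.I • D.P (-Complex.I) := by
  unfold P
  ext k l
  simp only [Matrix.smul_apply, Matrix.sub_apply, smul_eq_mul]
  linear_combination (D.J k l) * Complex.I_mul_I

/-- The multiplicities determine the traces on the other eigenspace of `J`. -/
theorem trace_P_neg {r : (E →+* ℂ) → ℕ}
    (hr : ∀ f, (D.P Complex.I * D.pf f).trace = r f) (f : E →+* ℂ) :
    (D.P (-Complex.I) * D.pf f).trace = r (D.cj f) := by
  have h1 : (D.P Complex.I * D.pf (D.cj f))ᵀ * D.Gc = D.Gc * (D.pf f * D.P (-Complex.I)) := by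
    rw [Matrix.transpose_mul, mul_assoc, D.P_transpose, ← mul_assoc, D.pf_transpose, D.cj_cj, mul_assoc]
  have h2 := D.trace_transpose_adj h1
  rw [hr, Matrix.trace_mul_comm] at h2
  exact h2

theorem trace_add {r : (E →+* ℂ) → ℕ}
    (hr : ∀ f, (D.P Complex.I * D.pf f).trace = r f) (f : E →+* ℂ) :
    (D.pf f).trace = ((r f + r (D.cj f) : ℕ) : ℂ) := by
  have h1 : D.pf f = D.P Complex.I * D.pf f + D.P (-Complex.I) * D.pf f := by
    rw [← add_mul, D.P_add_P, one_mul]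
  rw [h1, Matrix.trace_add, hr, D.trace_P_neg hr]
  push_cast
  rfl

theorem trace_J_pf {r : (E →+* ℂ) → ℕ}
    (hr : ∀ f, (D.P Complex.I * D.pf f).trace = r f) (f : E →+* ℂ) :
    (D.J * D.pf f).trace = Complex.I * ((r f : ℂ) - r (D.cj f)) := by
  rw [D.J_eq_P, sub_mul, smul_mul_assoc, smul_mul_assoc, Matrix.trace_sub, Matrix.trace_smul,
    Matrix.trace_smul, hr, D.trace_P_neg hr, smul_eq_mul, smul_eq_mul]
  ring

end SData

end Pool.Agent.Lib.MP_021685_ag.UT
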