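import Pool.Agent.Lib.MP_021685_ag.UT.S4

/-!
# The tensor in the adapted basis; charges
-/

set_option autoImplicit false
set_option linter.unusedSectionVars false

namespace Pool.Agent.Lib.MP_021685_ag.UT

open Matrix Function Module ComplexConjugate Pool.Agent.Lib.MP_802513_ag Pool.Agent.Lib.MP_802513_ag.W

namespace SData

variable {K E : Type*} [Fintype K] [DecidableEq K] [CommRing E] [Algebra ℚ E]
  [Module.Finite ℚ E] [IsReduced E] (D : SData K E)

variable {I : Type*} [Fintype I] [DecidableEq I] {Y : W.FFT.Sys I (E →+* ℂ)} {v : I → K → ℂ}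
  [DecidableEq (E →+* ℂ)]

section Bas

theorem Bas.mul_pf (h : D.Bas Y v) (f : E →+* ℂ) (i : I) :
    D.R (v i) (v (Y.bar i)) * D.pf f = if Y.φ i = f then D.R (v i) (v (Y.bar i)) else 0 := by
  rw [R_mul_pf]
  have h1 := h.hv (Y.bar i)
  rw [h.cj_φ] at h1
  by_cases hf : Y.φ i = f
  · rw [if_pos hf, ← hf, h1]
  · rw [if_neg hf, ← h1, mulVec_mulVec, D.pf_mul_of_ne, zero_mulVec, map_zero]
    intro h2
    apply hf
    rw [← D.cj_cj (Y.φ i), ← h2, D.cj_cj]

theorem Bas.pf_eq (h : D.Bas Y v) (f : E →+* ℂ) :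
    D.pf f = ∑ i, if Y.φ i = f then Y.ε i • D.R (v i) (v (Y.bar i)) else 0 := by
  conv_lhs => rw [← one_mul (D.pf f), ← h.hsum, Finset.sum_mul]
  refine Finset.sum_congr rfl fun i _ => ?_
  rw [smul_mul_assoc, Bas.mul_pf D h]
  split_ifs <;> simp

theorem Bas.card (h : D.Bas Y v) (f : E →+* ℂ) :
    (D.pf f).trace = ((Finset.univ.filter fun i => Y.φ i = f).card : ℂ) := by
  rw [Bas.pf_eq D h f, Matrix.trace_sum, Finset.card_eq_sum_ones, Nat.cast_sum, Finset.sum_filter]
  refine Finset.sum_congr rfl fun i _ => ?_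
  by_cases hf : Y.φ i = f
  · rw [if_pos hf, if_pos hf, Matrix.trace_smul, trace_R, h.hB, if_pos rfl, smul_eq_mul, Y.ε_sq]
    simp
  · rw [if_neg hf, if_neg hf, Matrix.trace_zero]

theorem Bas.surj (h : D.Bas Y v) (f : E →+* ℂ) : ∃ i, Y.φ i = f := by
  by_contra hcon
  push Not at hcon
  have h1 := Bas.card D h f
  rw [Finset.filter_false_of_mem fun i _ => hcon i, Finset.card_empty, Nat.cast_zero] at h1
  exact D.trace_pf_ne f h1

end Bas

section Vec

variable {A : Type*} [Fintype A] [DecidableEq A]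

/-- The basis of the complexification of several copies of the rational homology. -/
noncomputable def vec (v : I → K → ℂ) (p : A × I) : A × K → ℂ := fun y =>
  if y.1 = p.1 then v p.2 y.2 else 0

/-- The dual basis. -/
noncomputable def cov (Y : W.FFT.Sys I (E →+* ℂ)) (v : I → K → ℂ) (p : A × I) : A × K → ℂ := fun y =>
  if y.1 = p.1 then Y.ε p.2 * (D.Gc *ᵥ v (Y.bar p.2)) y.2 else 0

theorem resolution (h : D.Bas Y v) (y z : A × K) :
    ∑ p : A × I, vec v p y * D.cov Y v p z = if y = z then 1 else 0 := by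
  have h1 : ∑ p : A × I, vec v p y * D.cov Y v p z = (if y.1 = z.1 then 1 else 0) *
      ∑ i, Y.ε i * (v i y.2 * (D.Gc *ᵥ v (Y.bar i)) z.2) := by
    rw [Fintype.sum_prod_type, Finset.sum_comm, Finset.mul_sum]
    refine Finset.sum_congr rfl fun i _ => ?_
    unfold vec cov
    simp only
    rw [Finset.sum_eq_single y.1]
    · rw [if_pos rfl]
      by_cases h2 : y.1 = z.1
      · rw [if_pos h2, if_pos h2.symm]; ring
      · rw [if_neg h2, if_neg (Ne.symm h2)]; ring
    · intro a _ ha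
      rw [if_neg (Ne.symm ha), zero_mul]
    · simp
  rw [h1]
  have h3 : ∑ i, Y.ε i * (v i y.2 * (D.Gc *ᵥ v (Y.bar i)) z.2) =
      if y.2 = z.2 then 1 else 0 := by
    have h4 := congrFun (congrFun h.hsum y.2) z.2
    rw [Matrix.one_apply] at h4
    rw [← h4, Matrix.sum_apply]
    rfl
  rw [h3]
  by_cases h5 : y.1 = z.1 <;> by_cases h6 : y.2 = z.2
  · rw [if_pos h5, if_pos h6, if_pos (Prod.ext h5 h6), one_mul]
  · rw [if_pos h5, if_neg h6, if_neg (fun h => h6 (congrArg Prod.snd h)), mul_zero]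
  · rw [if_neg h5, if_neg (fun h => h5 (congrArg Prod.fst h)), zero_mul]
  · rw [if_neg h5, if_neg (fun h => h5 (congrArg Prod.fst h)), zero_mul]

theorem act_vec (X : Matrix K K ℂ) (p : A × I) :
    act X (vec v p) = fun y => if y.1 = p.1 then (X *ᵥ v p.2) y.2 else 0 := by
  funext y
  unfold act vec
  by_cases h : y.1 = p.1
  · simp only [h, if_true]; rfl
  · simp [h]

theorem act_Am (h : D.Bas Y v) (i l : I) (p : A × I) :
    act (D.Am (v i) (v (Y.bar l))) (vec v p) =
      (if p.2 = l then Y.ε l else 0 : ℂ) • vec v (p.1, i) -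
      (if p.2 = Y.bar i then Y.ε i else 0 : ℂ) • vec v (p.1, Y.bar l) := by
  rw [act_vec]
  funext y
  rw [Am, add_mulVec, R_mulVec, R_mulVec, h.hB, h.hB]
  have h1 : (if Y.bar l = Y.bar p.2 then Y.ε p.2 else 0 : ℂ) =
      if p.2 = l then Y.ε l else 0 := by
    by_cases hp : p.2 = l
    · rw [if_pos hp, hp, if_pos rfl]
    · rw [if_neg hp, if_neg]
      intro h'
      exact hp (Y.bar_inj h').symm
  have h2 : (if i = Y.bar p.2 then Y.ε p.2 else 0 : ℂ) =
      - if p.2 = Y.bar i then Y.ε i else 0 := by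
    by_cases hp : p.2 = Y.bar i
    · rw [if_pos hp, hp, Y.bar_bar, if_pos rfl, Y.ε_bar]
    · rw [if_neg hp, if_neg]
      · simp
      · intro h'
        exact hp (by rw [h', Y.bar_bar])
  rw [h1, h2]
  simp only [Pi.sub_apply, Pi.smul_apply, Pi.add_apply, smul_eq_mul, vec]
  by_cases hy : y.1 = p.1
  · simp only [hy, if_true]; ring
  · simp only [hy, if_false]; ring

/-- The tensor in the adapted basis. -/
noncomputable def tv {S : Type*} [Fintype S] [DecidableEq S] (v : I → K → ℂ)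
    (T : (S → A × K) → ℂ) (j' : S → A × I) : ℂ :=
  ∑ j : S → A × K, T j * ∏ t, vec v (j' t) (j t)

theorem tv_update {S : Type*} [Fintype S] [DecidableEq S] (T : (S → A × K) → ℂ)
    (j' : S → A × I) (s : S) (q : A × I) :
    tv v T (update j' s q) =
      ∑ j : S → A × K, T j * ∏ t, (update (fun t => vec v (j' t)) s (vec v q)) t (j t) := by
  unfold tv
  refine Finset.sum_congr rfl fun j _ => ?_
  congr 1
  refine Finset.prod_congr rfl fun t _ => ?_
  by_cases hts : t = s
  · subst hts; rw [update_self, update_self]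
  · rw [update_of_ne hts, update_of_ne hts]

/-- Invariance under one operator. -/
theorem inv_one {S : Type*} [Fintype S] [DecidableEq S] (h : D.Bas Y v) (T : (S → A × K) → ℂ)
    {i l : I} (hT : ∀ j, DX (D.Am (v i) (v (Y.bar l))) T j = 0) (j' : S → A × I) :
    Y.ε l * W.FFT.op Finset.univ l i (tv v T) j' =
      Y.ε i * W.FFT.op Finset.univ (Y.bar i) (Y.bar l) (tv v T) j' := by
  have h1 := ev_DX (D.Am (v i) (v (Y.bar l))) T hT (fun t => vec v (j' t))
  simp only [D.act_Am h, ev_lin, ← tv_update] at h1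
  rw [Finset.sum_sub_distrib, sub_eq_zero] at h1
  unfold W.FFT.op
  rw [Finset.mul_sum, Finset.mul_sum]
  refine Eq.trans (Eq.trans ?_ h1) ?_
  · refine Finset.sum_congr rfl fun s _ => ?_
    split_ifs <;> simp
  · refine Finset.sum_congr rfl fun s _ => ?_
    split_ifs <;> simp

end Vec

end SData

end Pool.Agent.Lib.MP_021685_ag.UT
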