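import Pool.Agent.Lib.MP_021685_ag.UT.S5

/-!
# Invariant tensors are combinations of products of pairings
-/

set_option autoImplicit false
set_option linter.unusedSectionVars false

namespace Pool.Agent.Lib.MP_021685_ag.UT

open Matrix Function Module ComplexConjugate Pool.Agent.Lib.MP_802513_ag Pool.Agent.Lib.MP_802513_ag.W

namespace SData

variable {K E : Type*} [Fintype K] [DecidableEq K] [CommRing E] [Algebra ℚ E]
  [Module.Finite ℚ E] [IsReduced E] (D : SData K E)

variable {I : Type*} [Fintype I] [DecidableEq I] {Y : W.FFT.Sys I (E →+* ℂ)} {v : I → K → ℂ}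
  [DecidableEq (E →+* ℂ)] {A : Type*} [Fintype A] [DecidableEq A]

theorem beta_cov (h : D.Bas Y v) (x : (E →+* ℂ) × A × A) (y z : A × K) :
    ∑ p, ∑ q, W.FFT.beta Y x p q * (D.cov Y v p y * D.cov Y v q z) =
      UData.pr ((D.pf x.1)ᵀ * D.Gc) x.2.1 x.2.2 y z := by
  obtain ⟨f, a, b⟩ := x
  have h1 : ∀ p q : A × I, W.FFT.beta Y (f, a, b) p q =
      ∑ i, (if Y.φ i = f then Y.ε i else 0) * ((if p = (a, i) then 1 else 0) *
        (if q = (b, Y.bar i) then 1 else 0)) := by
    intro p q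
    rw [Finset.sum_eq_single p.2]
    · unfold W.FFT.beta
      simp only
      by_cases g1 : p.1 = a
      · by_cases g2 : q.1 = b
        · by_cases g3 : Y.φ p.2 = f
          · by_cases g4 : q.2 = Y.bar p.2
            · rw [if_pos ⟨g1, g2, g3, g4⟩, if_pos g3,
                if_pos (show p = (a, p.2) from Prod.ext g1 rfl),
                if_pos (show q = (b, Y.bar p.2) from Prod.ext g2 g4)]
              ring
            · rw [if_neg (fun h' => g4 h'.2.2.2),
                if_neg (show ¬ q = (b, Y.bar p.2) from fun h' => g4 (congrArg Prod.snd h'))]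
              ring
          · rw [if_neg (fun h' => g3 h'.2.2.1), if_neg g3]
            ring
        · rw [if_neg (fun h' => g2 h'.2.1),
            if_neg (show ¬ q = (b, Y.bar p.2) from fun h' => g2 (congrArg Prod.fst h'))]
          ring
      · rw [if_neg (fun h' => g1 h'.1),
          if_neg (show ¬ p = (a, p.2) from fun h' => g1 (congrArg Prod.fst h'))]
        ring
    · intro i _ hi
      rw [if_neg (show ¬ p = (a, i) from fun h' => hi (congrArg Prod.snd h').symm)]
      ring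
    · simp
  have h2 : ∑ p, ∑ q, W.FFT.beta Y (f, a, b) p q * (D.cov Y v p y * D.cov Y v q z) =
      ∑ i, (if Y.φ i = f then Y.ε i else 0) *
        (D.cov Y v (a, i) y * D.cov Y v (b, Y.bar i) z) := by
    simp only [h1, Finset.sum_mul]
    rw [Finset.sum_congr rfl fun p _ => Finset.sum_comm, Finset.sum_comm]
    refine Finset.sum_congr rfl fun i _ => ?_
    rw [Finset.sum_eq_single (a, i)]
    · rw [Finset.sum_eq_single (b, Y.bar i)]
      · rw [if_pos rfl, if_pos rfl]; ring
      · intro q _ hq; rw [if_neg hq]; ring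
      · simp
    · intro p _ hp
      refine Finset.sum_eq_zero fun q _ => ?_
      rw [if_neg hp]; ring
    · simp
  rw [h2]
  unfold UData.pr cov
  simp only
  by_cases g1 : y.1 = a
  · by_cases g2 : z.1 = b
    · rw [if_pos ⟨g1, g2⟩, Bas.pf_eq D h f, Matrix.transpose_sum, Finset.sum_mul, Matrix.sum_apply]
      refine Finset.sum_congr rfl fun i _ => ?_
      rw [if_pos g1, if_pos g2, Y.bar_bar, Y.ε_bar]
      by_cases g3 : Y.φ i = f
      · rw [if_pos g3, if_pos g3, Matrix.transpose_smul, smul_mul_assoc, R_transpose, mul_R,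
          Matrix.smul_apply, Matrix.neg_apply, R_apply, vecMulVec_apply, smul_eq_mul]
        have h4 := Y.ε_sq i
        linear_combination (-(Y.ε i * (D.Gc *ᵥ v (Y.bar i)) y.2 * (D.Gc *ᵥ v i) z.2)) * h4
      · rw [if_neg g3, if_neg g3, Matrix.transpose_zero, zero_mul, zero_mul, Matrix.zero_apply]
    · rw [if_neg (fun h' => g2 h'.2), Finset.sum_eq_zero]
      intro i _
      rw [if_neg g2]; ring
  · rw [if_neg (fun h' => g1 h'.1), Finset.sum_eq_zero]
    intro i _
    rw [if_neg g1]; ring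

/-- The final matrix form of the theorem, over `ℂ`. -/
theorem final_complex {i : ℕ} (h : D.Bas Y v) (T : (Fin (2 * i) → A × K) → ℂ)
    (hT : W.FFT.Inv Y Finset.univ (tv v T)) :
    ∃ c : Equiv.Perm (Fin (2 * i)) × (Fin i → (E →+* ℂ) × A × A) → ℂ, ∀ j,
      T j = ∑ x, c x * ∏ r, UData.pr ((D.pf (x.2 r).1)ᵀ * D.Gc) (x.2 r).2.1 (x.2 r).2.2
        (j (x.1 (pairIndex r 0))) (j (x.1 (pairIndex r 1))) := by
  obtain ⟨c, hc⟩ := W.FFT.fft (tv v T) hT
  refine ⟨c, fun j => ?_⟩
  have h1 : T j = ∑ j' : Fin (2 * i) → A × I, tv v T j' * ∏ s, D.cov Y v (j' s) (j s) := by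
    have h2 : ∀ j2 : Fin (2 * i) → A × K, (if j2 = j then T j2 else 0) =
        T j2 * ∑ j' : Fin (2 * i) → A × I,
          ∏ s, (vec v (j' s) (j2 s) * D.cov Y v (j' s) (j s)) := by
      intro j2
      have h3 : ∏ s, (∑ p : A × I, vec v p (j2 s) *
          D.cov Y v p (j s)) = ∑ j' : Fin (2 * i) → A × I,
          ∏ s, (vec v (j' s) (j2 s) * D.cov Y v (j' s) (j s)) := by
        rw [Finset.prod_univ_sum, Fintype.piFinset_univ]
      rw [← h3]
      simp only [D.resolution h]
      by_cases h4 : j2 = j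
      · subst h4; simp
      · rw [if_neg h4]
        have h5 : ∃ s, j2 s ≠ j s := by
          by_contra hcon
          push Not at hcon
          exact h4 (funext hcon)
        obtain ⟨s, hs⟩ := h5
        rw [Finset.prod_eq_zero (Finset.mem_univ s), mul_zero]
        rw [if_neg hs]
    have h6 : T j = ∑ j2 : Fin (2 * i) → A × K, (if j2 = j then T j2 else 0) := by simp
    rw [h6]
    simp only [h2, Finset.mul_sum]
    rw [Finset.sum_comm]
    refine Finset.sum_congr rfl fun j' _ => ?_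
    simp only [tv, Finset.sum_mul]
    refine Finset.sum_congr rfl fun j2 _ => ?_
    rw [Finset.prod_mul_distrib]
    ring
  rw [h1]
  simp only [hc, Finset.sum_mul]
  rw [Finset.sum_comm]
  refine Finset.sum_congr rfl fun x _ => ?_
  have h7 : ∀ j' : Fin (2 * i) → A × I,
      c x * (∏ r, W.FFT.beta Y (x.2 r) (j' (x.1 (pairIndex r 0))) (j' (x.1 (pairIndex r 1)))) *
        ∏ s, D.cov Y v (j' s) (j s) =
      c x * ∏ r, (W.FFT.beta Y (x.2 r) (j' (x.1 (pairIndex r 0))) (j' (x.1 (pairIndex r 1))) *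
        (D.cov Y v (j' (x.1 (pairIndex r 0))) (j (x.1 (pairIndex r 0))) *
          D.cov Y v (j' (x.1 (pairIndex r 1))) (j (x.1 (pairIndex r 1))))) := by
    intro j'
    rw [mul_assoc]
    congr 1
    rw [← Equiv.prod_comp x.1, prod_pairIndex, ← Finset.prod_mul_distrib]
  simp only [h7]
  rw [← Finset.mul_sum]
  congr 1
  have h8 := sum_pairs x.1 (fun r (p q : A × I) =>
    W.FFT.beta Y (x.2 r) p q * (D.cov Y v p (j (x.1 (pairIndex r 0))) *
          D.cov Y v q (j (x.1 (pairIndex r 1)))))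
  rw [h8]
  refine Finset.prod_congr rfl fun r _ => ?_
  rw [D.beta_cov h]

theorem pr_pf (f : E →+* ℂ) (a b : A) (y z : A × K) :
    UData.pr ((D.pf f)ᵀ * D.Gc) a b y z =
      ∑ l, f (W.eps' E l) * prT ((D.Mc (W.eps E l))ᵀ * D.Gc) a b y z := by
  unfold UData.pr prT
  split_ifs
  · have h1 : (D.pf f)ᵀ * D.Gc = ∑ l, f (W.eps' E l) • ((D.Mc (W.eps E l))ᵀ * D.Gc) := by
      unfold pf pfm
      rw [Matrix.transpose_sum, Finset.sum_mul]
      refine Finset.sum_congr rfl fun l _ => ?_
      rw [Matrix.transpose_smul, smul_mul_assoc]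
    rw [h1, Matrix.sum_apply]
    rfl
  · simp

/-- The final matrix form of the theorem, in terms of a basis of `E`. -/
theorem final_eps {i : ℕ} (h : D.Bas Y v) (T : (Fin (2 * i) → A × K) → ℂ)
    (hT : W.FFT.Inv Y Finset.univ (tv v T)) :
    ∃ c : Equiv.Perm (Fin (2 * i)) × (Fin i → W.EI E × A × A) → ℂ, ∀ j,
      T j = ∑ x, c x * ∏ r, prT ((D.Mc (W.eps E (x.2 r).1))ᵀ * D.Gc) (x.2 r).2.1 (x.2 r).2.2
        (j (x.1 (pairIndex r 0))) (j (x.1 (pairIndex r 1))) := by
  classical
  obtain ⟨c, hc⟩ := D.final_complex h T hT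
  have key : T ∈ Submodule.span ℂ (Set.range
      fun (x : Equiv.Perm (Fin (2 * i)) × (Fin i → W.EI E × A × A))
        (j : Fin (2 * i) → A × K) =>
      ∏ r, prT ((D.Mc (W.eps E (x.2 r).1))ᵀ * D.Gc) (x.2 r).2.1 (x.2 r).2.2
        (j (x.1 (pairIndex r 0))) (j (x.1 (pairIndex r 1)))) := by
    have h1 : T = ∑ x : Equiv.Perm (Fin (2 * i)) ×
        (Fin i → (E →+* ℂ) × A × A), c x • fun j : Fin (2 * i) → A × K =>
        ∏ r, UData.pr ((D.pf (x.2 r).1)ᵀ * D.Gc) (x.2 r).2.1 (x.2 r).2.2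
        (j (x.1 (pairIndex r 0))) (j (x.1 (pairIndex r 1))) := by
      funext j
      rw [hc j, Finset.sum_apply]
      rfl
    rw [h1]
    refine Submodule.sum_mem _ fun x _ => Submodule.smul_mem _ _ ?_
    have h2 : (fun j : Fin (2 * i) → A × K =>
        ∏ r, UData.pr ((D.pf (x.2 r).1)ᵀ * D.Gc) (x.2 r).2.1 (x.2 r).2.2
        (j (x.1 (pairIndex r 0))) (j (x.1 (pairIndex r 1)))) =
        ∑ y : Fin i → W.EI E, (∏ r, (x.2 r).1 (W.eps' E (y r))) •
          fun j : Fin (2 * i) → A × K =>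
          ∏ r, prT ((D.Mc (W.eps E (y r)))ᵀ * D.Gc) (x.2 r).2.1 (x.2 r).2.2
            (j (x.1 (pairIndex r 0))) (j (x.1 (pairIndex r 1))) := by
      funext j
      rw [Finset.sum_apply]
      simp only [D.pr_pf, Pi.smul_apply, smul_eq_mul]
      rw [Finset.prod_univ_sum, Fintype.piFinset_univ]
      refine Finset.sum_congr rfl fun y _ => ?_
      rw [Finset.prod_mul_distrib]
    rw [h2]
    refine Submodule.sum_mem _ fun y _ => Submodule.smul_mem _ _ (Submodule.subset_span ?_)
    exact ⟨(x.1, fun r => (y r, (x.2 r).2)), rfl⟩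
  rw [Submodule.mem_span_range_iff_exists_fun] at key
  obtain ⟨c', hc'⟩ := key
  refine ⟨c', fun j => ?_⟩
  have h3 := congrFun hc' j
  rw [Finset.sum_apply] at h3
  exact h3.symm

end SData

end Pool.Agent.Lib.MP_021685_ag.UT
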