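import Pool.Agent.Lib.MP_021685_ag.UT.S6

/-!
# Charges of the components of an invariant tensor
-/

set_option autoImplicit false
set_option linter.unusedSectionVars false

namespace Pool.Agent.Lib.MP_021685_ag.UT

open Matrix Function Module ComplexConjugate Pool.Agent.Lib.MP_802513_ag Pool.Agent.Lib.MP_802513_ag.W

namespace SData

variable {K E : Type*} [Fintype K] [DecidableEq K] [CommRing E] [Algebra ℚ E]
  [Module.Finite ℚ E] [IsReduced E] (D : SData K E)







variable {I : Type*} [Fintype I] [DecidableEq I] {Y : W.FFT.Sys I (E →+* ℂ)} {v : I → K → ℂ}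
  [DecidableEq (E →+* ℂ)] {A : Type*} [Fintype A] [DecidableEq A]
  {S : Type*} [Fintype S] [DecidableEq S]

theorem ev_diag (X : Matrix K K ℂ) (T : (S → A × K) → ℂ) (hT : ∀ j, DX X T j = 0) {c : I → ℂ}
    (hX : ∀ i, X *ᵥ v i = c i • v i) (j' : S → A × I) :
    (∑ s, c (j' s).2) * tv v T j' = 0 := by
  have h1 := ev_DX X T hT (fun t => vec v (j' t))
  have h2 : ∀ s, act X (vec v (j' s)) = c (j' s).2 • vec v (j' s) - (0 : ℂ) • vec v (j' s) := by
    intro s
    rw [act_vec]
    funext y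
    rw [zero_smul, sub_zero, Pi.smul_apply, hX]
    unfold vec
    split_ifs
    · rfl
    · simp
  simp only [h2, ev_lin, ← tv_update] at h1
  rw [Finset.sum_mul]
  refine Eq.trans (Finset.sum_congr rfl fun s _ => ?_) h1
  rw [update_eq_self, zero_mul, sub_zero]

/-- The difference of the number of slots with index `i` and of those with index `bar i`. -/
def ch (Y : W.FFT.Sys I (E →+* ℂ)) (j' : S → A × I) (i : I) : ℤ :=
  ((Finset.univ.filter fun s => (j' s).2 = i).card : ℤ) -
    (Finset.univ.filter fun s => (j' s).2 = Y.bar i).card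

theorem ch_eq (j' : S → A × I) (i : I) : ((ch Y j' i : ℤ) : ℂ) =
    ∑ s, ((if (j' s).2 = i then 1 else 0) - (if (j' s).2 = Y.bar i then 1 else 0) : ℂ) := by
  unfold ch
  rw [Finset.sum_sub_distrib, Finset.card_filter, Finset.card_filter]
  push_cast
  rfl

theorem ch_bar (j' : S → A × I) (i : I) : ch Y j' (Y.bar i) = - ch Y j' i := by
  unfold ch
  rw [Y.bar_bar]
  ring

variable {T : (S → A × K) → ℂ}

theorem Am_diag (h : D.Bas Y v) (i k : I) : (Y.ε i • D.Am (v i) (v (Y.bar i))) *ᵥ v k =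
    ((if k = i then 1 else 0) - (if k = Y.bar i then 1 else 0) : ℂ) • v k := by
  rw [smul_mulVec, Am, add_mulVec, R_mulVec, R_mulVec, h.hB, h.hB]
  have hne := Y.bar_ne i
  by_cases h1 : k = i
  · subst h1
    rw [if_pos rfl, if_neg (Ne.symm (Y.bar_ne k)), if_pos rfl, if_neg (Ne.symm hne)]
    rw [zero_smul, add_zero, smul_smul, Y.ε_sq, sub_zero]
  · by_cases h2 : k = Y.bar i
    · subst h2
      rw [Y.bar_bar, if_neg hne, if_pos rfl, if_neg hne, if_pos rfl, zero_smul, zero_add, smul_smul,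
        Y.ε_bar, mul_neg, Y.ε_sq, zero_sub]
    · have h3 : ¬ Y.bar i = Y.bar k := fun h' => h1 (Y.bar_inj h').symm
      have h4 : ¬ i = Y.bar k := fun h' => h2 (by rw [h', Y.bar_bar])
      rw [if_neg h1, if_neg h2, if_neg h3, if_neg h4]
      simp

/-- The charge depends only on the place. -/
theorem ch_congr (hlT : ∀ X ∈ D.lie, ∀ j, DX X T j = 0) (h : D.Bas Y v) (hA : ∀ f, D.AmH f) {j' : S → A × I}
    (hj : tv v T j' ≠ 0) {i l : I} (hil : Y.φ i = Y.φ l) :
    ch Y j' i = ch Y j' l := by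
  have hX : Y.ε i • D.Am (v i) (v (Y.bar i)) - Y.ε l • D.Am (v l) (v (Y.bar l)) ∈ D.lie := by
    have h1 := D.am_sub (hA (Y.φ i)) (w := v i) (w' := v (Y.bar i)) (v := v l)
      (v' := Y.ε l • v (Y.bar l)) (h.hv i) (by rw [← h.cj_φ]; exact h.hv _)
      (by rw [hil]; exact h.hv l)
      (by rw [mulVec_smul, hil, ← h.cj_φ, h.hv])
      (by rw [map_smul, h.hB, if_pos rfl, smul_eq_mul, Y.ε_sq])
    rw [h.hB, if_pos rfl] at h1
    have h2 := Submodule.smul_mem _ (Y.ε i) h1
    rw [smul_sub, smul_smul, Y.ε_sq, one_smul] at h2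
    have h3 : D.Am (v l) (Y.ε l • v (Y.bar l)) = Y.ε l • D.Am (v l) (v (Y.bar l)) := by
      unfold Am
      simp only [map_smul, LinearMap.smul_apply, smul_add]
    rw [h3] at h2
    exact h2
  have h1 := ev_diag (v := v) _ _ (hlT _ hX) (c := fun k =>
    ((if k = i then 1 else 0) - (if k = Y.bar i then 1 else 0) : ℂ) -
    ((if k = l then 1 else 0) - (if k = Y.bar l then 1 else 0) : ℂ)) (by
      intro k
      rw [sub_mulVec, D.Am_diag h, D.Am_diag h, ← sub_smul]) j'
  have h2 := (mul_eq_zero.mp h1).resolve_right hj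
  rw [Finset.sum_sub_distrib, ← ch_eq, ← ch_eq, sub_eq_zero] at h2
  exact_mod_cast h2

theorem ze_diag (h : D.Bas Y v) (g : E →+* ℂ) (k : I) : D.ze g *ᵥ v k =
    ((if Y.φ k = g then 1 else 0) - (if Y.φ k = D.cj g then 1 else 0) : ℂ) • v k := by
  have h1 : ∀ f : E →+* ℂ, D.pf f *ᵥ v k = (if Y.φ k = f then 1 else 0 : ℂ) • v k := by
    intro f
    by_cases hf : Y.φ k = f
    · rw [if_pos hf, ← hf, h.hv, one_smul]
    · rw [if_neg hf, ← h.hv k, mulVec_mulVec, D.pf_mul_of_ne (Ne.symm hf), zero_mulVec, zero_smul]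
  rw [ze, sub_mulVec, h1, h1, sub_smul]

/-- The total charge of a place. -/
theorem sum_charge (h : D.Bas Y v) (j' : S → A × I) (g : E →+* ℂ) :
    ∑ s, ((if Y.φ (j' s).2 = g then 1 else 0) - (if Y.φ (j' s).2 = D.cj g then 1 else 0) : ℂ) =
      ∑ i, if Y.φ i = g then ((ch Y j' i : ℤ) : ℂ) else 0 := by
  have h1 : ∀ i, (if Y.φ i = g then ((ch Y j' i : ℤ) : ℂ) else 0) =
      ∑ s, (if Y.φ i = g then ((if (j' s).2 = i then 1 else 0) -
        (if (j' s).2 = Y.bar i then 1 else 0) : ℂ) else 0) := by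
    intro i
    by_cases hi : Y.φ i = g
    · simp only [if_pos hi]; exact ch_eq j' i
    · simp only [if_neg hi]; simp
  simp only [h1]
  rw [Finset.sum_comm]
  refine Finset.sum_congr rfl fun s _ => ?_
  have h2 : ∀ i, (if Y.φ i = g then ((if (j' s).2 = i then 1 else 0) -
        (if (j' s).2 = Y.bar i then 1 else 0) : ℂ) else 0) =
      (if i = (j' s).2 then (if Y.φ (j' s).2 = g then 1 else 0) else 0) -
      (if i = Y.bar (j' s).2 then (if Y.φ (j' s).2 = D.cj g then 1 else 0) else 0) := by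
    intro i
    by_cases h3 : (j' s).2 = i
    · subst h3
      rw [if_pos rfl, if_pos rfl, if_neg (Ne.symm (Y.bar_ne _)), if_neg (Ne.symm (Y.bar_ne _)),
        sub_zero, sub_zero]
    · rw [if_neg h3, if_neg (Ne.symm h3)]
      by_cases h4 : (j' s).2 = Y.bar i
      · have h5 : i = Y.bar (j' s).2 := by rw [h4, Y.bar_bar]
        rw [if_pos h4, if_pos h5]
        have h6 : (Y.φ (j' s).2 = D.cj g) ↔ (Y.φ i = g) := by
          rw [h4, h.cj_φ]
          constructor
          · intro h7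
            rw [← D.cj_cj (Y.φ i), h7, D.cj_cj]
          · intro h7
            rw [h7]
        by_cases h7 : Y.φ i = g
        · rw [if_pos h7, if_pos (h6.mpr h7)]
        · rw [if_neg h7, if_neg (fun h' => h7 (h6.mp h')), sub_zero]
      · have h5 : ¬ i = Y.bar (j' s).2 := fun h' => h4 (by rw [h', Y.bar_bar])
        rw [if_neg h4, if_neg h5, sub_zero]
        simp
  simp only [h2]
  rw [Finset.sum_sub_distrib, Finset.sum_ite_eq' Finset.univ, Finset.sum_ite_eq' Finset.univ]
  simp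

/-- The charges of a non-zero component: the relation given by `J`. -/
theorem charge_rel (hlT : ∀ X ∈ D.lie, ∀ j, DX X T j = 0) (hJ : D.J ∈ D.lie) (h : D.Bas Y v) (hA : ∀ f, D.AmH f)
    {r : (E →+* ℂ) → ℕ} (hr : ∀ f, (D.P Complex.I * D.pf f).trace = r f) {j' : S → A × I}
    (hj : tv v T j' ≠ 0) (a : (E →+* ℂ) → ℤ) (ha : ∀ i, a (Y.φ i) = ch Y j' i) :
    ∑ f : E →+* ℂ, a f * ((r f : ℤ) - r (D.cj f)) = 0 := by
  have h1 := D.center_mem hJ hA
  have h2 := ev_diag (v := v) _ _ (hlT _ h1) (c := fun l =>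
      ∑ f : E →+* ℂ, ((D.J * D.pf f).trace / (D.pf f).trace) *
        ((if Y.φ l = f then 1 else 0) - (if Y.φ l = D.cj f then 1 else 0))) (by
        intro l
        rw [Matrix.sum_mulVec, Finset.sum_smul]
        refine Finset.sum_congr rfl fun f _ => ?_
        rw [smul_mulVec, D.ze_diag h, smul_smul]) j'
  have h3 := (mul_eq_zero.mp h2).resolve_right hj
  rw [Finset.sum_comm] at h3
  have h4 : ∀ f : E →+* ℂ, ∑ s, ((D.J * D.pf f).trace / (D.pf f).trace) *
        ((if Y.φ (j' s).2 = f then 1 else 0) - (if Y.φ (j' s).2 = D.cj f then 1 else 0)) =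
        Complex.I * (((r f : ℂ) - r (D.cj f)) * (a f : ℂ)) := by
    intro f
    rw [← Finset.mul_sum, D.sum_charge h, D.trace_J_pf hr]
    have h5 : ∑ i, (if Y.φ i = f then ((ch Y j' i : ℤ) : ℂ) else 0) =
          (D.pf f).trace * ((a f : ℤ) : ℂ) := by
      rw [Bas.card D h f, ← Finset.sum_filter, ← nsmul_eq_mul, ← Finset.sum_const]
      refine Finset.sum_congr rfl fun i hi => ?_
      rw [Finset.mem_filter] at hi
      rw [← hi.2, ha]
    rw [h5]
    have h7 := D.trace_pf_ne f
    field_simp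
  simp only [h4] at h3
  rw [← Finset.mul_sum] at h3
  have h5 := (mul_eq_zero.mp h3).resolve_left Complex.I_ne_zero
  have h6 : ((∑ f : E →+* ℂ, a f * ((r f : ℤ) - r (D.cj f)) : ℤ) : ℂ) = 0 := by
    rw [← h5]
    push_cast
    refine Finset.sum_congr rfl fun f _ => ?_
    ring
  exact_mod_cast h6

/-- The charges of a non-zero component. -/
theorem exists_charge (hlT : ∀ X ∈ D.lie, ∀ j, DX X T j = 0) (h : D.Bas Y v) (hA : ∀ f, D.AmH f)
    {d : (E →+* ℂ) → ℕ} (hd : ∀ f, (D.pf f).trace = d f) {j' : S → A × I}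
    (hj : tv v T j' ≠ 0) :
    ∃ a : (E →+* ℂ) → ℤ, (∀ i, a (Y.φ i) = ch Y j' i) ∧ (∀ f, a (D.cj f) = - a f) ∧
      ∑ f : E →+* ℂ, (d f : ℤ) * |a f| ≤ 2 * Fintype.card S := by
  choose k hk using fun f => Bas.surj D h f
  have ha : ∀ i, ch Y j' (k (Y.φ i)) = ch Y j' i := fun i => D.ch_congr hlT h hA hj (hk _)
  refine ⟨fun f => ch Y j' (k f), ha, ?_, ?_⟩
  · intro f
    have h1 := ha (Y.bar (k f))
    rw [h.cj_φ, hk, ch_bar] at h1
    exact h1
  · have h1 : ∀ f : E →+* ℂ, (d f : ℤ) =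
        ((Finset.univ.filter fun i => Y.φ i = f).card : ℤ) := by
      intro f
      have h2 := Bas.card D h f
      rw [hd] at h2
      exact_mod_cast h2
    have h2 : ∑ f : E →+* ℂ, (d f : ℤ) * |ch Y j' (k f)| =
        ∑ i, |ch Y j' i| := by
      have h3 : ∑ i, |ch Y j' i| = ∑ f : E →+* ℂ, ∑ i, if Y.φ i = f then |ch Y j' i| else 0 := by
        rw [Finset.sum_comm]
        refine Finset.sum_congr rfl fun i _ => ?_
        simp
      rw [h3]
      refine Finset.sum_congr rfl fun f _ => ?_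
      rw [h1, ← Finset.sum_filter, ← nsmul_eq_mul, ← Finset.sum_const]
      refine Finset.sum_congr rfl fun i hi => ?_
      rw [Finset.mem_filter] at hi
      rw [← hi.2, ha]
    rw [h2]
    have h3 : ∀ i, |ch Y j' i| ≤ ((Finset.univ.filter fun s => (j' s).2 = i).card : ℤ) +
        (Finset.univ.filter fun s => (j' s).2 = Y.bar i).card := by
      intro i
      unfold ch
      rw [abs_le]
      constructor
      · have := Int.natCast_nonneg (Finset.univ.filter fun s => (j' s).2 = i).card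
        linarith
      · have := Int.natCast_nonneg (Finset.univ.filter fun s => (j' s).2 = Y.bar i).card
        linarith
    have h4 : ∑ i, ((Finset.univ.filter fun s => (j' s).2 = i).card : ℤ) = Fintype.card S := by
      rw [← Nat.cast_sum, ← Finset.card_eq_sum_card_fiberwise (f := fun s => (j' s).2)
        (s := Finset.univ) (t := Finset.univ) (by simp), Finset.card_univ]
    have h5 : ∑ i, ((Finset.univ.filter fun s => (j' s).2 = Y.bar i).card : ℤ) =
        Fintype.card S := by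
      rw [← h4]
      exact Fintype.sum_bijective Y.bar (Function.Involutive.bijective Y.bar_bar) _ _
        fun i => rfl
    calc ∑ i, |ch Y j' i| ≤ ∑ i, (((Finset.univ.filter fun s => (j' s).2 = i).card : ℤ) +
        (Finset.univ.filter fun s => (j' s).2 = Y.bar i).card) :=
          Finset.sum_le_sum fun i _ => h3 i
      _ = 2 * Fintype.card S := by rw [Finset.sum_add_distrib, h4, h5]; ring

end SData

end Pool.Agent.Lib.MP_021685_ag.UT
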