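import Pool.Agent.Lib.MP_021685_ag.UT.S3

/-!
# Projections to the eigenspaces of `J`
-/

set_option autoImplicit false
set_option linter.unusedSectionVars false

namespace Pool.Agent.Lib.MP_021685_ag.UT

open Matrix Function Module ComplexConjugate Pool.Agent.Lib.MP_802513_ag Pool.Agent.Lib.MP_802513_ag.W

namespace SData

variable {K E : Type*} [Fintype K] [DecidableEq K] [CommRing E] [Algebra ℚ E] [Module.Finite ℚ E] [IsReduced E] (D : SData K E)

theorem J_mul_P {δ : ℂ} (hδ : δ * δ = -1) : D.J * D.P δ = δ • D.P δ := by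
  unfold P
  rw [mul_smul_comm, mul_sub, mul_one, mul_smul_comm, D.J_sq, smul_comm]
  congr 1
  rw [smul_sub, smul_smul, hδ]
  ext k l
  simp only [Matrix.sub_apply, Matrix.smul_apply, Matrix.neg_apply, smul_eq_mul]
  ring

theorem P_of_J {δ : ℂ} (hδ : δ * δ = -1) {u : K → ℂ} (hu : D.J *ᵥ u = δ • u) :
    D.P δ *ᵥ u = u := by
  unfold P
  rw [smul_mulVec, sub_mulVec, one_mulVec, smul_mulVec, hu, smul_smul, hδ]
  funext k
  simp only [Pi.smul_apply, Pi.sub_apply, smul_eq_mul]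
  ring

theorem P_pf_comm (δ : ℂ) (f : E →+* ℂ) : D.P δ * D.pf f = D.pf f * D.P δ :=
  D.comm_pf (D.P_comm δ) f

theorem P_pf_idem {δ : ℂ} (hδ : δ * δ = -1) (f : E →+* ℂ) :
    (D.P δ * D.pf f) * (D.P δ * D.pf f) = D.P δ * D.pf f := by
  have h1 : D.P δ * D.P δ = D.P δ := by
    refine Matrix.ext_of_mulVec_single fun i => ?_
    rw [← mulVec_mulVec]
    refine D.P_of_J hδ ?_
    rw [mulVec_mulVec, D.J_mul_P hδ, smul_mulVec]
  rw [mul_assoc, ← mul_assoc (D.pf f), ← P_pf_comm, mul_assoc (D.P δ) (D.pf f), D.pf_mul_self,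
    ← mul_assoc, h1]

theorem isIdem {δ : ℂ} (hδ : δ * δ = -1) (f : E →+* ℂ) :
    IsIdempotentElem (Matrix.toLin' (D.P δ * D.pf f)) := by
  unfold IsIdempotentElem
  rw [Module.End.mul_eq_comp, ← Matrix.toLin'_mul, D.P_pf_idem hδ]

theorem P_pf_eq_zero {δ : ℂ} (hδ : δ * δ = -1) {f : E →+* ℂ}
    (h : (D.P δ * D.pf f).trace = 0) : D.P δ * D.pf f = 0 := by
  have h1 := (LinearMap.IsIdempotentElem.trace_eq_zero_iff (D.isIdem hδ f)).mp (by
    rw [Matrix.trace_toLin'_eq, h])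
  exact Matrix.toLin'.injective (by rw [h1, map_zero])

end SData


end Pool.Agent.Lib.MP_021685_ag.UT
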