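import Mathlib

/-!
# Tate classes on powers of abelian varieties over number fields

`K` is a number field, `Γ` its absolute Galois group, `V` a finite dimensional vector space over `ℚ_ℓ` with an action `ρ` of `Γ`; in the application `V = V_ℓ(A)`
is the rational Tate module of an abelian variety `A` over `K`. Then `H^m(A^n, ℚ_ℓ)` is the space of alternating `m`-forms on `V^n`, and `H^(2i)(A^n, ℚ_ℓ)(i)`
is the space of alternating `2i`-forms `ω` on `V^n` with the action for which `ω` is fixed by `γ` if and only if `ω(γ x₁, …, γ x₂ᵢ) = χ(γ)^i ω(x₁, …, x₂ᵢ)`, where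
`χ` is the `ℓ`-adic cyclotomic character.

The definitions are given for a topological group `Γ`, fields `F` (for `ℚ_ℓ`), `C` (for `ℂ_ℓ`), `L` (for an algebraic closure of `K`), and a function `χ : Γ → F` (for
the cyclotomic character).
-/

set_option autoImplicit false

namespace Pool.Agent.Lib.MP_021685_ag.NF

open Module TensorProduct

/-- The `ℓ`-adic cyclotomic character of the absolute Galois group of `K`, with values in `ℚ_ℓ`. -/
noncomputable def chi (K : Type*) [Field K] (ℓ : ℕ) [Fact ℓ.Prime] (γ : Field.absoluteGaloisGroup K) : ℚ_[ℓ] :=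
  ((cyclotomicCharacter (AlgebraicClosure K) ℓ (AlgEquiv.toRingEquiv γ) : ℤ_[ℓ]) : ℚ_[ℓ])

section Forms

/-- The `ε`-th member (`ε = 0, 1`) of the `j`-th pair of indices among `2 i` indices: the index `2 j + ε`. -/
def pairIdx {i : ℕ} (j : Fin i) (ε : Fin 2) : Fin (2 * i) :=
  ⟨2 * j + ε, by have := j.2; have := ε.2; omega⟩

theorem pairIdx_injective {i : ℕ} {j j' : Fin i} {ε ε' : Fin 2} (h : pairIdx j ε = pairIdx j' ε') : j = j' ∧ ε = ε' := by
  have h1 := congrArg Fin.val h
  simp only [pairIdx] at h1
  have := ε.2
  have := ε'.2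
  constructor
  · apply Fin.ext; omega
  · apply Fin.ext; omega

theorem exists_pairIdx {i : ℕ} (k : Fin (2 * i)) : ∃ j ε, pairIdx j ε = k := by
  have hk := k.2
  refine ⟨⟨k / 2, by omega⟩, ⟨k % 2, by omega⟩, ?_⟩
  apply Fin.ext
  simp only [pairIdx]
  omega

/-- The (not yet alternating) multilinear form `v ↦ ∏ j, ω j (v (2 j), v (2 j + 1))` attached to `i` alternating forms `ω j` of degree two. -/
def pairProd {F W : Type*} [Field F] [AddCommGroup W] [Module F W] {i : ℕ} (ω : Fin i → W [⋀^Fin (2 * 1)]→ₗ[F] F) :
    MultilinearMap F (fun _ : Fin (2 * i) => W) F where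
  toFun v := ∏ j, ω j (fun ε => v (pairIdx j ε))
  map_update_add' := by
    classical
    intro inst v k x y
    have hinst : inst = instDecidableEqFin (2 * i) := Subsingleton.elim _ _
    subst hinst
    obtain ⟨j₀, ε₀, rfl⟩ := exists_pairIdx k
    rw [← Finset.mul_prod_erase Finset.univ _ (Finset.mem_univ j₀),
      ← Finset.mul_prod_erase Finset.univ _ (Finset.mem_univ j₀),
      ← Finset.mul_prod_erase Finset.univ _ (Finset.mem_univ j₀)]
    have h1 : ∀ (z : W), (fun ε => Function.update v (pairIdx j₀ ε₀) z (pairIdx j₀ ε)) =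
        Function.update (fun ε => v (pairIdx j₀ ε)) ε₀ z := by
      intro z
      funext ε
      by_cases h : ε = ε₀
      · subst h; simp
      · rw [Function.update_of_ne h, Function.update_of_ne]
        intro h'
        exact h (pairIdx_injective h').2
    have h2 : ∀ (z : W), ∏ j ∈ Finset.univ.erase j₀, ω j (fun ε => Function.update v (pairIdx j₀ ε₀) z (pairIdx j ε)) =
        ∏ j ∈ Finset.univ.erase j₀, ω j (fun ε => v (pairIdx j ε)) := by
      intro z
      refine Finset.prod_congr rfl fun j hj => ?_
      congr 1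
      funext ε
      rw [Function.update_of_ne]
      intro h'
      exact (Finset.ne_of_mem_erase hj) (pairIdx_injective h').1
    rw [h2, h2, h2, h1, h1, h1, AlternatingMap.map_update_add, add_mul]
  map_update_smul' := by
    classical
    intro inst v k c x
    have hinst : inst = instDecidableEqFin (2 * i) := Subsingleton.elim _ _
    subst hinst
    obtain ⟨j₀, ε₀, rfl⟩ := exists_pairIdx k
    rw [← Finset.mul_prod_erase Finset.univ _ (Finset.mem_univ j₀),
      ← Finset.mul_prod_erase Finset.univ _ (Finset.mem_univ j₀)]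
    have h1 : ∀ (z : W), (fun ε => Function.update v (pairIdx j₀ ε₀) z (pairIdx j₀ ε)) =
        Function.update (fun ε => v (pairIdx j₀ ε)) ε₀ z := by
      intro z
      funext ε
      by_cases h : ε = ε₀
      · subst h; simp
      · rw [Function.update_of_ne h, Function.update_of_ne]
        intro h'
        exact h (pairIdx_injective h').2
    have h2 : ∀ (z : W), ∏ j ∈ Finset.univ.erase j₀, ω j (fun ε => Function.update v (pairIdx j₀ ε₀) z (pairIdx j ε)) =
        ∏ j ∈ Finset.univ.erase j₀, ω j (fun ε => v (pairIdx j ε)) := by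
      intro z
      refine Finset.prod_congr rfl fun j hj => ?_
      congr 1
      funext ε
      rw [Function.update_of_ne]
      intro h'
      exact (Finset.ne_of_mem_erase hj) (pairIdx_injective h').1
    rw [h2, h2, h1, h1, AlternatingMap.map_update_smul, smul_eq_mul, smul_eq_mul, mul_assoc]

/-- The product `ω₁ ∧ … ∧ ω_i` of alternating forms of degree two, up to the factor `2 ^ i`:
`v ↦ ∑ σ, sign σ * ∏ j, ω j (v (σ (2 j)), v (σ (2 j + 1)))`. -/
noncomputable def wedge {F W : Type*} [Field F] [AddCommGroup W] [Module F W] {i : ℕ}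
    (ω : Fin i → W [⋀^Fin (2 * 1)]→ₗ[F] F) : W [⋀^Fin (2 * i)]→ₗ[F] F :=
  MultilinearMap.alternatization (pairProd ω)

end Forms

namespace T

section Rep

variable {Γ F V E : Type*} [Group Γ] [TopologicalSpace Γ] [Field F] [AddCommGroup V] [Module F V] [CommRing E]

/-- The alternating form `ω` of degree `2 i` on `V ^ n` is a Tate class (of degree `i`): it is fixed by an open subgroup of the Galois group `Γ`, as an element
of `H^(2i)(A ^ n, ℚ_ℓ)(i)`. -/
def IsTateClass (χ : Γ → F) (ρ : Γ →* Module.End F V) (n i : ℕ) (ω : (Fin n → V) [⋀^Fin (2 * i)]→ₗ[F] F) : Prop :=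
  ∃ U : Subgroup Γ, IsOpen (U : Set Γ) ∧ ∀ γ ∈ U, ∀ x : Fin (2 * i) → Fin n → V, ω (fun s a => ρ γ (x s a)) = χ γ ^ i * ω x

/-- The form `η` is a linear combination of products of `i` Tate classes of degree one. By the theorem of Faltings on classes of degree one, it is then
a `ℚ_ℓ`-linear combination of products of classes of divisors. -/
def IsGeneratedByDivisors (χ : Γ → F) (ρ : Γ →* Module.End F V) (n i : ℕ) (η : (Fin n → V) [⋀^Fin (2 * i)]→ₗ[F] F) : Prop :=
  η ∈ Submodule.span F {η' | ∃ ω : Fin i → (Fin n → V) [⋀^Fin (2 * 1)]→ₗ[F] F, (∀ j, IsTateClass χ ρ n 1 (ω j)) ∧ η' = wedge ω}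

/-- The multilinear form `f` on `V` has weight `i`: the class of `f` in `(V^⊗m)^*(i)` is fixed by an open subgroup of the Galois group. -/
def HasWeight (χ : Γ → F) (ρ : Γ →* Module.End F V) {m : ℕ} (f : MultilinearMap F (fun _ : Fin m => V) F) (i : ℕ) : Prop :=
  ∃ U : Subgroup Γ, IsOpen (U : Set Γ) ∧ ∀ γ ∈ U, ∀ x : Fin m → V, f (fun s => ρ γ (x s)) = χ γ ^ i * f x

/-- The action of the Galois group is continuous. -/
def IsContinuous [TopologicalSpace F] (ρ : Γ →* Module.End F V) : Prop := ∀ (v : V) (φ : V →ₗ[F] F), Continuous fun γ => φ (ρ γ v)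

/-- The Weil pairing: a nondegenerate alternating form with values in `ℚ_ℓ(1)`, for which `ros` is the adjoint. -/
def HasWeilPairing (χ : Γ → F) (ρ : Γ →* Module.End F V) (ι : E →+* Module.End F V) (ros : E →+* E) : Prop :=
  ∃ ψ : V →ₗ[F] V →ₗ[F] F, (∀ x, ψ x x = 0) ∧ (∀ x, (∀ y, ψ x y = 0) → x = 0) ∧
    (∀ γ x y, ψ (ρ γ x) (ρ γ y) = χ γ * ψ x y) ∧ ∀ e x y, ψ (ι e x) y = ψ x (ι (ros e) y)

/-- The representation `V` is semisimple, over every finite extension of `K`. -/
def IsSemisimple (ρ : Γ →* Module.End F V) : Prop :=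
  ∀ U : Subgroup Γ, IsOpen (U : Set Γ) → ∀ W : Submodule F V, (∀ γ ∈ U, ∀ w ∈ W, ρ γ w ∈ W) →
    ∃ W' : Submodule F V, IsCompl W W' ∧ ∀ γ ∈ U, ∀ w ∈ W', ρ γ w ∈ W'

/-- Over every finite extension of `K` the Galois equivariant endomorphisms of `V` are the linear combinations of elements of `E`. -/
def HasTateEndomorphisms (ρ : Γ →* Module.End F V) (ι : E →+* Module.End F V) : Prop :=
  ∀ U : Subgroup Γ, IsOpen (U : Set Γ) → ∀ T : Module.End F V, (∀ γ ∈ U, T * ρ γ = ρ γ * T) → T ∈ Submodule.span F (Set.range ι)

end Rep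

section Extension

variable {F C V E : Type*} [Field F] [Field C] [Algebra F C] [AddCommGroup V] [Module F V] [CommRing E]

/-- The eigenspace of the character `f` of `E` in `C ⊗ V`. -/
noncomputable def eig (ι : E →+* Module.End F V) (f : E →+* C) : Submodule C (C ⊗[F] V) where
  carrier := {w | ∀ e, (ι e).baseChange C w = f e • w}
  add_mem' := fun {a b} ha hb e => by rw [map_add, ha e, hb e, smul_add]
  zero_mem' := fun e => by rw [map_zero, smul_zero]
  smul_mem' := fun c v hv e => by rw [map_smul, hv e, smul_comm]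

/-- The determinant of the endomorphism `g` of `W` on the subspace `U` (`1` if `g` does not preserve `U`). -/
noncomputable def detOn {W : Type*} [AddCommGroup W] [Module C W] (U : Submodule C W) (g : Module.End C W) : C :=
  open Classical in
  if h : ∀ w ∈ U, g w ∈ U then LinearMap.det (g.restrict h) else 1

/-- The determinant of an endomorphism `g` of `V` on the eigenspace of the character `f` in `C ⊗ V` (`1` if `g` does not preserve it). -/
noncomputable def eigDet (ι : E →+* Module.End F V) (f : E →+* C) (g : Module.End F V) : C := detOn (eig ι f) (g.baseChange C)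

/-- The multiplicity of the character `f` of `E` in the range of `P`. -/
noncomputable def mult (ι : E →+* Module.End F V) (P : Module.End C (C ⊗[F] V)) (f : E →+* C) : ℕ :=
  finrank C (LinearMap.range P ⊓ eig ι f : Submodule C (C ⊗[F] V))

/-- The `C`-linear extension of a linear form on `V`. -/
noncomputable def ext (C : Type*) [Field C] [Algebra F C] (φ : V →ₗ[F] F) : C ⊗[F] V →ₗ[C] C :=
  LinearMap.liftBaseChange C ((Algebra.linearMap F C) ∘ₗ φ)

/-- The derivation given by `P` on a multilinear form `f` on `V`, at the vectors `x s`: the sum of the values of `f` after `P` is applied to one of the vectors. -/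
noncomputable def der (P : Module.End C (C ⊗[F] V)) {m : ℕ} (f : MultilinearMap F (fun _ : Fin m => V) F) (x : Fin m → V) : C :=
  ∑ s, ext C (f.toLinearMap x s) (P (1 ⊗ₜ[F] x s))

end Extension

section Module

variable {Γ F C L V E : Type*} [Group Γ] [TopologicalSpace Γ] [Field F] [Field C] [Field L] [Algebra F C] [AddCommGroup V] [Module F V] [CommRing E]

/-- `P` is the Hodge-Tate projector for the embedding `j`: the projector of `ℂ_ℓ ⊗ V` onto the part `ℂ_ℓ ⊗ Lie(A) (1)` of Hodge-Tate weight one. The
multiplicities of the characters of `E` in this part are given by `r`, and forms of weight `i` have Hodge-Tate weight `i`. -/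
structure IsHodgeTateProj (χ : Γ → F) (ρ : Γ →* Module.End F V) (ι : E →+* Module.End F V) (r : (E →+* L) → ℕ) (j : L →+* C)
    (P : Module.End C (C ⊗[F] V)) : Prop where
  idem : P * P = P
  mult : ∀ φ : E →+* L, mult ι P (j.comp φ) = r φ
  weight : ∀ (m i : ℕ) (f : MultilinearMap F (fun _ : Fin m => V) F), HasWeight χ ρ f i → ∀ x : Fin m → V, der P f x = (i : C) * algebraMap F C (f x)

/-- Two determinants of eigenspaces which have the same Hodge-Tate weights at all embeddings agree on an open subgroup. -/
def HasAlgebraicDeterminants (C : Type*) [Field C] [Algebra F C] (ρ : Γ →* Module.End F V) (ι : E →+* Module.End F V) (r : (E →+* L) → ℕ) : Prop :=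
  ∀ f g : E →+* C, (∀ (j : L →+* C) (φ θ : E →+* L), j.comp φ = f → j.comp θ = g → r φ = r θ) →
    ∃ U : Subgroup Γ, IsOpen (U : Set Γ) ∧ ∀ γ ∈ U, eigDet ι f (ρ γ) = eigDet ι g (ρ γ)

/-- The properties of the Tate module `V` of an abelian variety over the number field `K` whose endomorphism algebra `E` (over an algebraic closure) is commutative,
with all endomorphisms defined over `K`: `ros` is the Rosati involution of `E`, and `r φ` the multiplicity of the character `φ` of `E` in the
tangent space. -/
structure IsTateModule (C : Type*) [Field C] [Algebra F C] [TopologicalSpace F] (χ : Γ → F) (ρ : Γ →* Module.End F V) (ι : E →+* Module.End F V)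
    (ros : E →+* E) (r : (E →+* L) → ℕ) : Prop where
  /-- The action is continuous. -/
  cont : IsContinuous ρ
  /-- `E` acts faithfully. -/
  inj : Function.Injective ι
  /-- The endomorphisms are defined over `K`. -/
  comm : ∀ γ e, ρ γ * ι e = ι e * ρ γ
  /-- The Weil pairing. -/
  pairing : HasWeilPairing χ ρ ι ros
  /-- Theorem of Faltings: semisimplicity. -/
  semisimple : IsSemisimple ρ
  /-- Theorem of Faltings: endomorphisms. -/
  faltings : HasTateEndomorphisms ρ ι
  /-- Theorem of Tate and Raynaud: the Hodge-Tate decomposition, for every embedding of the algebraic closure of `K` in `ℂ_ℓ`. -/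
  hodgeTate : ∀ j : L →+* C, ∃ P, IsHodgeTateProj χ ρ ι r j P
  /-- Theorem of Tate and Serre on abelian Hodge-Tate representations. -/
  det : HasAlgebraicDeterminants C ρ ι r

end Module

end T

/-- The character `σ ∘ f`, for an automorphism `σ` of the algebraic closure of `K`. -/
noncomputable def aut {K : Type*} [Field K] {E : Type*} [CommRing E] (σ : AlgebraicClosure K ≃+* AlgebraicClosure K) (f : E →+* AlgebraicClosure K) :
    E →+* AlgebraicClosure K := (σ : AlgebraicClosure K →+* AlgebraicClosure K).comp f

/-- The conjugate of the character `f`: its composition with the Rosati involution (for an abelian variety this is the complex conjugate of `f`, for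
every complex embedding of the algebraic closure of `K`). -/
noncomputable def conj {K : Type*} [Field K] {E : Type*} [CommRing E] (ros : E →+* E) (f : E →+* AlgebraicClosure K) : E →+* AlgebraicClosure K := f.comp ros

/-- The character `f` is indefinite: `f` and its conjugate both occur in the tangent space. -/
def IsIndefinite {K : Type*} [Field K] {E : Type*} [CommRing E] (ros : E →+* E) (r : (E →+* AlgebraicClosure K) → ℕ)
    (f : E →+* AlgebraicClosure K) : Prop := r f ≠ 0 ∧ r (conj ros f) ≠ 0

/-- Every character `f` of `E` has a Galois conjugate `σ f` such that `r (σ f)` and `r (conj (σ f))` are coprime. -/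
def HasCoprimeSignature {K : Type*} [Field K] {E : Type*} [CommRing E] (ros : E →+* E) (r : (E →+* AlgebraicClosure K) → ℕ) : Prop :=
  ∀ f : E →+* AlgebraicClosure K, ∃ σ : AlgebraicClosure K ≃+* AlgebraicClosure K, Nat.Coprime (r (aut σ f)) (r (conj ros (aut σ f)))

/-- There is no pair of characters `f` and `g ≠ f, conj f` such that `r (σ f) = r (σ g)` whenever `σ f` or `σ g` is indefinite, and this occurs,
but `r (σ f) ≠ r (σ g)` for another `σ`. -/
def HasSeparatedSignature {K : Type*} [Field K] {E : Type*} [CommRing E] (ros : E →+* E) (r : (E →+* AlgebraicClosure K) → ℕ) : Prop :=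
  ∀ f g : E →+* AlgebraicClosure K, g ≠ f → g ≠ conj ros f → IsIndefinite ros r f →
    (∀ σ : AlgebraicClosure K ≃+* AlgebraicClosure K, IsIndefinite ros r (aut σ f) ∨ IsIndefinite ros r (aut σ g) → r (aut σ f) = r (aut σ g)) →
    ∀ σ : AlgebraicClosure K ≃+* AlgebraicClosure K, r (aut σ f) = r (aut σ g)

/-- The only integer valued function `a` on the characters with `a (conj f) = - a f`, `|a f| ≤ n`, `∑ (r f + r (conj f)) |a f| ≤ 4 i`, which is orthogonal
to all the Galois translates of the function `f ↦ r f - r (conj f)`, is zero. -/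
def HasNondegenerateSignature {K : Type*} [Field K] {E : Type*} [CommRing E] (ros : E →+* E) (r : (E →+* AlgebraicClosure K) → ℕ) (n i : ℕ) : Prop :=
  ∀ a : (E →+* AlgebraicClosure K) → ℤ, (∀ f, a (conj ros f) = - a f) → (∀ f, |a f| ≤ n) →
    ∑ᶠ f, ((r f + r (conj ros f) : ℕ) : ℤ) * |a f| ≤ 4 * i →
    (∀ σ : AlgebraicClosure K ≃+* AlgebraicClosure K, ∑ᶠ f, a f * ((r (aut σ f) : ℤ) - r (conj ros (aut σ f))) = 0) → a = 0

end Pool.Agent.Lib.MP_021685_ag.NF
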