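import Pool.Agent.Lib.MP_021685_ag.UT.PDefs

/-!
# Coordinates of a Tate module: definitions
-/

set_option autoImplicit false
set_option linter.unusedSectionVars false

namespace Pool.Agent.Lib.MP_021685_ag.NF

open Matrix Function Module TensorProduct Pool.Agent.Lib.MP_802513_ag Pad

variable {K : Type*} [Field K] {ℓ : ℕ} [Fact ℓ.Prime] {V : Type*} [AddCommGroup V] [Module ℚ_[ℓ] V] {κ : Type*} [Fintype κ] [DecidableEq κ]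
  {E : Type*} [CommRing E]

/-- The matrices of the Galois action. -/
noncomputable def Rm (b : Basis κ ℚ_[ℓ] V) (ρ : Field.absoluteGaloisGroup K →* Module.End ℚ_[ℓ] V) : Field.absoluteGaloisGroup K →* Matrix κ κ ℚ_[ℓ] :=
  ((LinearMap.toMatrixAlgEquiv b : Module.End ℚ_[ℓ] V →* Matrix κ κ ℚ_[ℓ])).comp ρ

/-- The matrices of the action of `E`. -/
noncomputable def Mm (b : Basis κ ℚ_[ℓ] V) (ι : E →+* Module.End ℚ_[ℓ] V) : E →+* Matrix κ κ ℚ_[ℓ] :=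
  ((LinearMap.toMatrixAlgEquiv b : Module.End ℚ_[ℓ] V →+* Matrix κ κ ℚ_[ℓ])).comp ι

/-- The matrix of a bilinear form. -/
noncomputable def Gm (b : Basis κ ℚ_[ℓ] V) (ψ : V →ₗ[ℚ_[ℓ]] V →ₗ[ℚ_[ℓ]] ℚ_[ℓ]) : Matrix κ κ ℚ_[ℓ] := Matrix.of fun k l => ψ (b k) (b l)

/-- The matrix of an endomorphism of `ℂ_ℓ ⊗ V`. -/
noncomputable def Pm (b : Basis κ ℚ_[ℓ] V) (P : Module.End ℂ_[ℓ] (ℂ_[ℓ] ⊗[ℚ_[ℓ]] V)) : Matrix κ κ ℂ_[ℓ] :=
  LinearMap.toMatrixAlgEquiv (b.baseChange ℂ_[ℓ]) P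

/-- The tensor of an alternating form on `V ^ n`. -/
noncomputable def Tm (b : Basis κ ℚ_[ℓ] V) {n m : ℕ} (η : (Fin n → V) [⋀^Fin m]→ₗ[ℚ_[ℓ]] ℚ_[ℓ]) (j : Fin m → Fin n × κ) : ℚ_[ℓ] :=
  η (fun s => Pi.single (j s).1 (b (j s).2))

end Pool.Agent.Lib.MP_021685_ag.NF
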