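import Pool.Agent.Lib.MP_021685_ag.UT.V0

/-!
# Coordinates of a Tate module: first properties
-/

set_option autoImplicit false
set_option linter.unusedSectionVars false

namespace Pool.Agent.Lib.MP_021685_ag.NF

open Matrix Function Module TensorProduct Pool.Agent.Lib.MP_802513_ag Pad

variable {K : Type*} [Field K] {ℓ : ℕ} [Fact ℓ.Prime] {V : Type*} [AddCommGroup V] [Module ℚ_[ℓ] V] {κ : Type*} [Fintype κ] [DecidableEq κ]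
  {E : Type*} [CommRing E] (b : Basis κ ℚ_[ℓ] V) {ρ : Field.absoluteGaloisGroup K →* Module.End ℚ_[ℓ] V} {ι : E →+* Module.End ℚ_[ℓ] V}

theorem Rm_eq (γ : Field.absoluteGaloisGroup K) : Rm b ρ γ = LinearMap.toMatrix b b (ρ γ) := rfl

theorem Mm_eq (e : E) : Mm b ι e = LinearMap.toMatrix b b (ι e) := rfl

theorem Rm_apply (γ : Field.absoluteGaloisGroup K) (k l : κ) : Rm b ρ γ k l = b.repr (ρ γ (b l)) k := by
  rw [Rm_eq, LinearMap.toMatrix_apply]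

theorem Mm_apply (e : E) (k l : κ) : Mm b ι e k l = b.repr (ι e (b l)) k := by
  rw [Mm_eq, LinearMap.toMatrix_apply]

/-- Job V1. -/
theorem Rm_repr (γ : Field.absoluteGaloisGroup K) (v : V) : (b.repr (ρ γ v) : κ → ℚ_[ℓ]) = Rm b ρ γ *ᵥ (b.repr v : κ → ℚ_[ℓ]) := by
  rw [Rm_eq, LinearMap.toMatrix_mulVec_repr]

/-- Job V1. -/
theorem Mm_repr (e : E) (v : V) : (b.repr (ι e v) : κ → ℚ_[ℓ]) = Mm b ι e *ᵥ (b.repr v : κ → ℚ_[ℓ]) := by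
  rw [Mm_eq, LinearMap.toMatrix_mulVec_repr]

/-- Job V1. -/
theorem Rm_basis (γ : Field.absoluteGaloisGroup K) (l : κ) : ρ γ (b l) = ∑ k, Rm b ρ γ k l • b k := by
  simp only [Rm_apply]
  exact (b.sum_repr _).symm

/-- Job V1. -/
theorem Mm_basis (e : E) (l : κ) : ι e (b l) = ∑ k, Mm b ι e k l • b k := by
  simp only [Mm_apply]
  exact (b.sum_repr _).symm

/-- Job V1. -/
theorem Gm_repr (ψ : V →ₗ[ℚ_[ℓ]] V →ₗ[ℚ_[ℓ]] ℚ_[ℓ]) (u v : V) :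
    ψ u v = (b.repr u : κ → ℚ_[ℓ]) ⬝ᵥ (Gm b ψ *ᵥ (b.repr v : κ → ℚ_[ℓ])) := by
  conv_lhs => rw [← b.sum_repr u, ← b.sum_repr v]
  simp only [map_sum, map_smul, LinearMap.sum_apply, LinearMap.smul_apply, smul_eq_mul, dotProduct, mulVec, Gm, Matrix.of_apply,
    Finset.mul_sum]
  rw [Finset.sum_comm]
  refine Finset.sum_congr rfl fun k _ => Finset.sum_congr rfl fun l _ => ?_
  ring

/-- Job V1. -/
theorem Rm_cont (hc : ∀ (v : V) (φ : V →ₗ[ℚ_[ℓ]] ℚ_[ℓ]), Continuous fun γ => φ (ρ γ v)) (k l : κ) : Continuous fun γ => Rm b ρ γ k l := by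
  have h := hc (b l) (b.coord k)
  simp only [Rm_apply]
  simpa only [Basis.coord_apply] using h

/-- Job V1. -/
theorem Mm_inj (h : Function.Injective ι) : Function.Injective (Mm b ι) := by
  intro x y hxy
  apply h
  rw [Mm_eq, Mm_eq] at hxy
  exact (LinearMap.toMatrix b b).injective hxy

/-- Job V1. -/
theorem Rm_comm (h : ∀ γ e, ρ γ * ι e = ι e * ρ γ) (γ : Field.absoluteGaloisGroup K) (e : E) : Rm b ρ γ * Mm b ι e = Mm b ι e * Rm b ρ γ := by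
  rw [Rm_eq, Mm_eq, ← LinearMap.toMatrix_mul, ← LinearMap.toMatrix_mul, h]

/-- Job V1. Proof: `ψ (x + y) (x + y) = 0`. -/
theorem Gm_skew {ψ : V →ₗ[ℚ_[ℓ]] V →ₗ[ℚ_[ℓ]] ℚ_[ℓ]} (h : ∀ x, ψ x x = 0) : (Gm b ψ)ᵀ = - Gm b ψ := by
  ext k l
  have h1 := h (b k + b l)
  simp only [map_add, LinearMap.add_apply, h, zero_add, add_zero] at h1
  simp only [Matrix.transpose_apply, Gm, Matrix.of_apply, Matrix.neg_apply]
  linear_combination h1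

/-- Job V1. Proof: otherwise there is a nonzero vector `u` with `(Gm b ψ)ᵀ *ᵥ u = 0` or `Gm b ψ *ᵥ u = 0` (`Matrix.exists_mulVec_eq_zero_iff`, `Matrix.exists_vecMul_eq_zero_iff`). -/
theorem Gm_det {ψ : V →ₗ[ℚ_[ℓ]] V →ₗ[ℚ_[ℓ]] ℚ_[ℓ]} (h : ∀ x, (∀ y, ψ x y = 0) → x = 0) : (Gm b ψ).det ≠ 0 := by
  intro h0
  obtain ⟨u, hu, hu'⟩ := Matrix.exists_vecMul_eq_zero_iff.mpr h0
  apply hu
  have h1 := h (∑ k, u k • b k) (fun y => by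
    rw [Gm_repr b, Matrix.dotProduct_mulVec]
    have h2 : (b.repr (∑ k, u k • b k) : κ → ℚ_[ℓ]) = u := by
      funext k
      exact congrFun (b.repr_sum_self u) k
    rw [h2, hu', zero_dotProduct])
  have h2 : (b.repr (∑ k, u k • b k) : κ → ℚ_[ℓ]) = u := by
    funext k
    exact congrFun (b.repr_sum_self u) k
  rw [← h2, h1]
  simp

theorem Gm_entry (ψ : V →ₗ[ℚ_[ℓ]] V →ₗ[ℚ_[ℓ]] ℚ_[ℓ]) (X Y : Matrix κ κ ℚ_[ℓ]) (f g : V →ₗ[ℚ_[ℓ]] V)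
    (hX : ∀ l, f (b l) = ∑ k, X k l • b k) (hY : ∀ l, g (b l) = ∑ k, Y k l • b k) (k l : κ) :
    (Xᵀ * Gm b ψ * Y) k l = ψ (f (b k)) (g (b l)) := by
  rw [hX, hY]
  simp only [map_sum, map_smul, LinearMap.sum_apply, LinearMap.smul_apply, smul_eq_mul, Matrix.mul_apply, Gm, Matrix.of_apply,
    Matrix.transpose_apply, Finset.mul_sum, Finset.sum_mul]
  refine Finset.sum_congr rfl fun i _ => Finset.sum_congr rfl fun j _ => ?_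
  ring

/-- Job V1. Proof: the `(k, l)` entries are `ψ (ρ γ (b k)) (ρ γ (b l))` and `chi K ℓ γ * ψ (b k) (b l)`. -/
theorem Gm_eq {ψ : V →ₗ[ℚ_[ℓ]] V →ₗ[ℚ_[ℓ]] ℚ_[ℓ]} (h : ∀ γ x y, ψ (ρ γ x) (ρ γ y) = chi K ℓ γ * ψ x y) (γ : Field.absoluteGaloisGroup K) :
    (Rm b ρ γ)ᵀ * Gm b ψ * Rm b ρ γ = chi K ℓ γ • Gm b ψ := by
  ext k l
  rw [Gm_entry b ψ _ _ (ρ γ) (ρ γ) (Rm_basis b γ) (Rm_basis b γ), h]
  simp [Gm]

/-- Job V1. Proof: the `(k, l)` entries are `ψ (ι e (b k)) (b l)` and `ψ (b k) (ι (ros e) (b l))`. -/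
theorem Gm_ros {ros : E →+* E} {ψ : V →ₗ[ℚ_[ℓ]] V →ₗ[ℚ_[ℓ]] ℚ_[ℓ]} (h : ∀ e x y, ψ (ι e x) y = ψ x (ι (ros e) y)) (e : E) :
    (Mm b ι e)ᵀ * Gm b ψ = Gm b ψ * Mm b ι (ros e) := by
  have h1 : ∀ l, (LinearMap.id : V →ₗ[ℚ_[ℓ]] V) (b l) = ∑ k, (1 : Matrix κ κ ℚ_[ℓ]) k l • b k := by
    intro l
    simp [Matrix.one_apply]
  ext k l
  have h2 := Gm_entry b ψ _ _ (ι e) LinearMap.id (Mm_basis b e) h1 k l
  have h3 := Gm_entry b ψ _ _ LinearMap.id (ι (ros e)) h1 (Mm_basis b (ros e)) k l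
  rw [Matrix.mul_one] at h2
  rw [Matrix.transpose_one, Matrix.one_mul] at h3
  rw [h2, h3]
  simp only [LinearMap.id_apply]
  exact h e _ _

end Pool.Agent.Lib.MP_021685_ag.NF
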