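import Pool.Agent.Lib.MP_021685_ag.UT.V1

/-!
# Coordinates of a Tate module: semisimplicity and the commutant
-/

set_option autoImplicit false
set_option linter.unusedSectionVars false

namespace Pool.Agent.Lib.MP_021685_ag.NF

open Matrix Function Module TensorProduct Pool.Agent.Lib.MP_802513_ag Pad

variable {K : Type*} [Field K] {ℓ : ℕ} [Fact ℓ.Prime] {V : Type*} [AddCommGroup V] [Module ℚ_[ℓ] V] {κ : Type*} [Fintype κ] [DecidableEq κ]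
  {E : Type*} [CommRing E] (b : Basis κ ℚ_[ℓ] V) {ρ : Field.absoluteGaloisGroup K →* Module.End ℚ_[ℓ] V} {ι : E →+* Module.End ℚ_[ℓ] V}

/-- Job V2. Proof: transport subspaces with `b.equivFun`. -/
theorem Rm_ss (U : Subgroup (Field.absoluteGaloisGroup K))
    (h : ∀ W : Submodule ℚ_[ℓ] V, (∀ γ ∈ U, ∀ w ∈ W, ρ γ w ∈ W) → ∃ W' : Submodule ℚ_[ℓ] V, IsCompl W W' ∧ ∀ γ ∈ U, ∀ w ∈ W', ρ γ w ∈ W')
    (W : Submodule ℚ_[ℓ] (κ → ℚ_[ℓ])) (hW : ∀ γ ∈ U, ∀ w ∈ W, Rm b ρ γ *ᵥ w ∈ W) :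
    ∃ W' : Submodule ℚ_[ℓ] (κ → ℚ_[ℓ]), IsCompl W W' ∧ ∀ γ ∈ U, ∀ w ∈ W', Rm b ρ γ *ᵥ w ∈ W' := by
  have hr : ∀ γ (v : V), b.equivFun (ρ γ v) = Rm b ρ γ *ᵥ b.equivFun v := by
    intro γ v
    exact Rm_repr b γ v
  obtain ⟨W0', hc, hs⟩ := h (W.comap (b.equivFun : V →ₗ[ℚ_[ℓ]] (κ → ℚ_[ℓ]))) (by
    intro γ hγ w hw
    rw [Submodule.mem_comap] at hw ⊢
    have h1 := hW γ hγ _ hw
    simp only [LinearEquiv.coe_coe] at h1 ⊢
    rw [hr]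
    exact h1)
  refine ⟨W0'.map (b.equivFun : V →ₗ[ℚ_[ℓ]] (κ → ℚ_[ℓ])), ?_, ?_⟩
  · have h2 := (Submodule.orderIsoMapComap b.equivFun).isCompl hc
    have h3 : (Submodule.orderIsoMapComap b.equivFun) (W.comap (b.equivFun : V →ₗ[ℚ_[ℓ]] (κ → ℚ_[ℓ]))) = W := by
      rw [Submodule.orderIsoMapComap_apply]
      exact Submodule.map_comap_eq_of_surjective b.equivFun.surjective W
    rw [h3, Submodule.orderIsoMapComap_apply] at h2
    exact h2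
  · rintro γ hγ _ ⟨w0, hw0, rfl⟩
    refine ⟨ρ γ w0, hs γ hγ w0 hw0, ?_⟩
    simp only [LinearEquiv.coe_coe]
    exact hr γ w0

/-- Job V2. Proof: transport matrices with `LinearMap.toMatrixAlgEquiv b`. -/
theorem Rm_falt (U : Subgroup (Field.absoluteGaloisGroup K))
    (h : ∀ T : Module.End ℚ_[ℓ] V, (∀ γ ∈ U, T * ρ γ = ρ γ * T) → T ∈ Submodule.span ℚ_[ℓ] (Set.range ι))
    (Y : Matrix κ κ ℚ_[ℓ]) (hY : ∀ γ ∈ U, Y * Rm b ρ γ = Rm b ρ γ * Y) : Y ∈ Submodule.span ℚ_[ℓ] (Set.range (Mm b ι)) := by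
  have h1 : (LinearMap.toMatrixAlgEquiv b).symm Y ∈ Submodule.span ℚ_[ℓ] (Set.range ι) := by
    apply h
    intro γ hγ
    apply (LinearMap.toMatrixAlgEquiv b).injective
    rw [map_mul, map_mul, AlgEquiv.apply_symm_apply]
    exact hY γ hγ
  have h2 := Submodule.mem_map_of_mem (f := (LinearMap.toMatrixAlgEquiv b).toLinearMap) h1
  rw [Submodule.map_span] at h2
  have h3 : (LinearMap.toMatrixAlgEquiv b).toLinearMap ((LinearMap.toMatrixAlgEquiv b).symm Y) = Y := by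
    simp
  rw [h3] at h2
  have h4 : (LinearMap.toMatrixAlgEquiv b).toLinearMap '' Set.range ι = Set.range (Mm b ι) := by
    ext Z
    constructor
    · rintro ⟨_, ⟨e, rfl⟩, rfl⟩
      exact ⟨e, rfl⟩
    · rintro ⟨e, rfl⟩
      exact ⟨_, ⟨e, rfl⟩, rfl⟩
  rw [h4] at h2
  exact h2

end Pool.Agent.Lib.MP_021685_ag.NF
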