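import Pool.Agent.Lib.MP_021685_ag.UT.V1

set_option autoImplicit false
set_option linter.unusedSectionVars false

namespace Pool.Agent.Lib.MP_021685_ag.NF

open Matrix Function Module TensorProduct Pool.Agent.Lib.MP_802513_ag Pad

variable {K : Type*} [Field K] {ℓ : ℕ} [Fact ℓ.Prime] {V : Type*} [AddCommGroup V] [Module ℚ_[ℓ] V] {κ : Type*} [Fintype κ] [DecidableEq κ]
  {E : Type*} [CommRing E] (b : Basis κ ℚ_[ℓ] V) {ρ : Field.absoluteGaloisGroup K →* Module.End ℚ_[ℓ] V} {ι : E →+* Module.End ℚ_[ℓ] V}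

/-- Job V3. -/
theorem Pm_idem {P : Module.End ℂ_[ℓ] (ℂ_[ℓ] ⊗[ℚ_[ℓ]] V)} (h : P * P = P) : Pm b P * Pm b P = Pm b P := by
  unfold Pm
  rw [← map_mul, h]

/-- Job V3. Proof: the basis `b.baseChange ℂ_[ℓ]` is `1 ⊗ₜ b k`; `LinearMap.toMatrixAlgEquiv_apply`, `Basis.sum_repr`. -/
theorem Pm_basis (P : Module.End ℂ_[ℓ] (ℂ_[ℓ] ⊗[ℚ_[ℓ]] V)) (l : κ) : P (1 ⊗ₜ[ℚ_[ℓ]] b l) = ∑ k, Pm b P k l • ((1 : ℂ_[ℓ]) ⊗ₜ[ℚ_[ℓ]] b k) := by
  have h1 : ∀ k, (b.baseChange ℂ_[ℓ]) k = (1 : ℂ_[ℓ]) ⊗ₜ[ℚ_[ℓ]] b k := fun k => Basis.baseChange_apply _ _ _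
  rw [← h1]
  conv_lhs => rw [← (b.baseChange ℂ_[ℓ]).sum_repr (P ((b.baseChange ℂ_[ℓ]) l))]
  refine Finset.sum_congr rfl fun k _ => ?_
  unfold Pm
  rw [LinearMap.toMatrixAlgEquiv_apply, h1 k]

/-- Job V3. -/
theorem ext_one (φ : V →ₗ[ℚ_[ℓ]] ℚ_[ℓ]) (v : V) : ext φ ((1 : ℂ_[ℓ]) ⊗ₜ[ℚ_[ℓ]] v) = algebraMap ℚ_[ℓ] ℂ_[ℓ] (φ v) := by
  unfold ext
  rw [LinearMap.liftBaseChange_tmul, one_smul]
  rfl

/-- The multilinear form with coefficients `T`. -/
noncomputable def formT {m : ℕ} (T : (Fin m → κ) → ℚ_[ℓ]) : MultilinearMap ℚ_[ℓ] (fun _ : Fin m => V) ℚ_[ℓ] :=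
  ∑ k : Fin m → κ, T k • (MultilinearMap.mkPiAlgebra ℚ_[ℓ] (Fin m) ℚ_[ℓ]).compLinearMap (fun s => b.coord (k s))

theorem formT_apply {m : ℕ} (T : (Fin m → κ) → ℚ_[ℓ]) (x : Fin m → V) :
    formT b T x = ∑ k : Fin m → κ, T k * ∏ s, b.repr (x s) (k s) := by
  unfold formT
  rw [_root_.sum_apply]
  refine Finset.sum_congr rfl fun k _ => ?_
  rw [_root_.smul_apply, MultilinearMap.compLinearMap_apply, MultilinearMap.mkPiAlgebra_apply, smul_eq_mul]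
  rfl

theorem formT_basis {m : ℕ} (T : (Fin m → κ) → ℚ_[ℓ]) (x : Fin m → κ) :
    formT b T (fun s => b (x s)) = T x := by
  rw [formT_apply, Finset.sum_eq_single x]
  · rw [Finset.prod_eq_one, mul_one]
    intro s _
    simp
  · intro k _ hk
    obtain ⟨s, hs⟩ := Function.ne_iff.1 hk
    rw [Finset.prod_eq_zero (Finset.mem_univ s), mul_zero]
    rw [Basis.repr_self, Finsupp.single_apply, if_neg]
    exact fun h => hs h.symm
  · intro h
    exact absurd (Finset.mem_univ x) h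

/-- Job V3. The weight property in coordinates. -/
theorem Pm_weight {r : (E →+* AlgebraicClosure K) → ℕ} {j : AlgebraicClosure K →+* ℂ_[ℓ]} {P : Module.End ℂ_[ℓ] (ℂ_[ℓ] ⊗[ℚ_[ℓ]] V)}
    (h : IsHodgeTateProj ρ ι r j P) (m i : ℕ) (T : (Fin m → κ) → ℚ_[ℓ])
    (hT : ∃ U : Subgroup (Field.absoluteGaloisGroup K), IsOpen (U : Set (Field.absoluteGaloisGroup K)) ∧
      ∀ γ ∈ U, ∀ x, ∑ k : Fin m → κ, T k * ∏ s, Rm b ρ γ (k s) (x s) = chi K ℓ γ ^ i * T x) (x : Fin m → κ) :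
    ∑ s, ∑ k, algebraMap ℚ_[ℓ] ℂ_[ℓ] (T (update x s k)) * Pm b P k (x s) = i * algebraMap ℚ_[ℓ] ℂ_[ℓ] (T x) := by
  obtain ⟨U, hUo, hU⟩ := hT
  have hR : ∀ γ (k l : κ), b.repr (ρ γ (b l)) k = Rm b ρ γ k l := by
    intro γ k l
    rw [Rm_basis b γ l, map_sum, Finsupp.finsetSum_apply, Finset.sum_eq_single k]
    · simp
    · intro k' _ hk'
      simp [hk']
    · intro h; exact absurd (Finset.mem_univ k) h
  have hw : HasWeight ρ (formT b T) i := by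
    refine ⟨U, hUo, fun γ hγ => ?_⟩
    have h1 : (formT b T).compLinearMap (fun _ => ρ γ) = (chi K ℓ γ ^ i) • formT b T := by
      refine Basis.ext_multilinear (fun _ => b) fun y => ?_
      rw [MultilinearMap.compLinearMap_apply, _root_.smul_apply, smul_eq_mul, formT_basis, formT_apply, ← hU γ hγ y]
      refine Finset.sum_congr rfl fun k _ => ?_
      congr 1
      refine Finset.prod_congr rfl fun s _ => ?_
      exact hR γ (k s) (y s)
    intro v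
    have h2 := congrArg (fun g : MultilinearMap ℚ_[ℓ] (fun _ : Fin m => V) ℚ_[ℓ] => g v) h1
    simpa using h2
  have h3 := h.weight m i (formT b T) hw (fun s => b (x s))
  rw [formT_basis] at h3
  rw [← h3]
  refine Finset.sum_congr rfl fun s _ => ?_
  rw [Pm_basis, map_sum]
  refine Finset.sum_congr rfl fun k _ => ?_
  rw [map_smul, ext_one, smul_eq_mul, mul_comm]
  congr 2
  rw [MultilinearMap.toLinearMap_apply]
  have h4 : update (fun s => b (x s)) s (b k) = fun s' => b (update x s k s') := by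
    funext s'
    by_cases hs : s' = s
    · subst hs; simp
    · rw [update_of_ne hs, update_of_ne hs]
  rw [h4, formT_basis]

end Pool.Agent.Lib.MP_021685_ag.NF
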