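import Pool.Agent.Lib.MP_021685_ag.UT.V1
import Pool.Agent.Lib.MP_021685_ag.UT.BEmb
import Pool.Agent.Lib.MP_021685_ag.UT.N1

/-!
# Coordinates of a Tate module: the eigenspaces
-/

set_option autoImplicit false
set_option linter.unusedSectionVars false

namespace Pool.Agent.Lib.MP_021685_ag.NF

open Matrix Function Module TensorProduct Pool.Agent.Lib.MP_802513_ag Pad

variable {K : Type*} [Field K] {ℓ : ℕ} [Fact ℓ.Prime] {V : Type*} [AddCommGroup V] [Module ℚ_[ℓ] V] {κ : Type*} [Fintype κ] [DecidableEq κ]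
  {E : Type*} [CommRing E] [Algebra ℚ E] [Module.Finite ℚ E] [IsReduced E]
  (b : Basis κ ℚ_[ℓ] V) {ρ : Field.absoluteGaloisGroup K →* Module.End ℚ_[ℓ] V} {ι : E →+* Module.End ℚ_[ℓ] V}

/-- The projection of `ℂ_ℓ ⊗ V` onto the eigenspace of `f`. -/
noncomputable def Qe (ι : E →+* Module.End ℚ_[ℓ] V) (f : E →+* ℂ_[ℓ]) : Module.End ℂ_[ℓ] (ℂ_[ℓ] ⊗[ℚ_[ℓ]] V) :=
  ∑ i, f (W.eps' E i) • (ι (W.eps E i)).baseChange ℂ_[ℓ]

/-- The matrix of the base change. -/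
theorem baseChange_matrix (ι : E →+* Module.End ℚ_[ℓ] V) (e : E) :
    LinearMap.toMatrixAlgEquiv (b.baseChange ℂ_[ℓ]) ((ι e).baseChange ℂ_[ℓ]) = mc (Mm b ι e) := by
  ext i j
  rw [LinearMap.toMatrixAlgEquiv_apply, Basis.baseChange_apply, LinearMap.baseChange_tmul, Basis.baseChange_repr_tmul]
  simp [mc, Mm, LinearMap.toMatrixAlgEquiv_apply, Algebra.smul_def]

/-- Job V4. The matrix of `Qe`. Proof: `LinearMap.toMatrix_baseChange` or on the basis `1 ⊗ₜ b k`. -/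
theorem Qe_matrix (f : E →+* ℂ_[ℓ]) : LinearMap.toMatrixAlgEquiv (b.baseChange ℂ_[ℓ]) (Qe ι f) = pfl (Mm b ι) f := by
  unfold Qe pfl
  rw [map_sum]
  refine Finset.sum_congr rfl fun i _ => ?_
  rw [map_smul, baseChange_matrix]

theorem gen_ratsmul {B : Type*} [Ring B] [Algebra ℂ_[ℓ] B] (Φ : E →+* B) (q : ℚ) (x : E) : Φ (q • x) = (q : ℂ_[ℓ]) • Φ x := by
  have h1 : (Φ.comp (algebraMap ℚ E)) = (algebraMap ℂ_[ℓ] B).comp (algebraMap ℚ ℂ_[ℓ]) := Subsingleton.elim _ _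
  have h2 := RingHom.congr_fun h1 q
  rw [RingHom.comp_apply, RingHom.comp_apply] at h2
  rw [Algebra.smul_def, map_mul, h2, Algebra.smul_def]
  rfl

theorem gen_mul {B : Type*} [Ring B] [Algebra ℂ_[ℓ] B] (Φ : E →+* B) (f : E →+* ℂ_[ℓ]) (x : E) :
    Φ x * ∑ i, f (W.eps' E i) • Φ (W.eps E i) = f x • ∑ i, f (W.eps' E i) • Φ (W.eps E i) := by
  have h1 : Φ x * ∑ i, f (W.eps' E i) • Φ (W.eps E i) =
      ∑ i, ∑ l, (f (W.eps' E i) * (W.tr E (x * W.eps E i * W.eps' E l) : ℂ_[ℓ])) • Φ (W.eps E l) := by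
    rw [Finset.mul_sum]
    refine Finset.sum_congr rfl fun i _ => ?_
    rw [mul_smul_comm, ← map_mul]
    conv_lhs => rw [W.expand_eps (x * W.eps E i)]
    rw [map_sum, Finset.smul_sum]
    refine Finset.sum_congr rfl fun l _ => ?_
    rw [gen_ratsmul (ℓ := ℓ), smul_smul]
  rw [h1, Finset.sum_comm, Finset.smul_sum]
  refine Finset.sum_congr rfl fun l _ => ?_
  rw [← Finset.sum_smul, smul_smul]
  congr 1
  rw [← map_mul]
  conv_rhs => rw [W.expand_eps' (x * W.eps' E l)]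
  rw [map_sum]
  refine Finset.sum_congr rfl fun i _ => ?_
  rw [gen_ratsmul (ℓ := ℓ), smul_eq_mul, mul_comm]
  congr 3
  ring

theorem gen_orth (f : E →+* ℂ_[ℓ]) : ∑ i, f (W.eps' E i) * f (W.eps E i) = 1 := by
  classical
  obtain ⟨θ⟩ := exists_iso ℓ
  apply θ.injective
  rw [map_sum, map_one]
  have h1 := W.orth_eps (E := E) ((θ : ℂ_[ℓ] →+* ℂ).comp f) ((θ : ℂ_[ℓ] →+* ℂ).comp f)
  rw [if_pos rfl] at h1
  rw [← h1]
  refine Finset.sum_congr rfl fun i _ => ?_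
  rw [map_mul, mul_comm]
  rfl

/-- Job V4. Proof: choose `θ : ℂ_[ℓ] ≃+* ℂ` (`exists_iso`); the image of `pfl (Mm b ι) f` under `θ` is `UT.pfm M' (θ ∘ f)` with `M' e = (Mm b ι e).map (θ ∘ algebraMap)`; `UT.M_mul_pfm`; `θ` is injective. -/
theorem M_mul_pfl (M : E →+* Matrix κ κ ℚ_[ℓ]) (f : E →+* ℂ_[ℓ]) (e : E) : mc (M e) * pfl M f = f e • pfl M f :=
  gen_mul (((algebraMap ℚ_[ℓ] ℂ_[ℓ]).mapMatrix).comp M) f e

/-- Job V4. Proof: as `M_mul_pfl`, from `UT.pfm_of_eig` (apply `θ` to the vector). -/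
theorem pfl_of_eig (M : E →+* Matrix κ κ ℚ_[ℓ]) (f : E →+* ℂ_[ℓ]) (u : κ → ℂ_[ℓ]) (hu : ∀ e, mc (M e) *ᵥ u = f e • u) : pfl M f *ᵥ u = u := by
  unfold pfl
  rw [Matrix.sum_mulVec]
  have h1 : ∀ i, (f (W.eps' E i) • mc (M (W.eps E i))) *ᵥ u = (f (W.eps' E i) * f (W.eps E i)) • u := by
    intro i
    rw [smul_mulVec, hu, smul_smul]
  simp only [h1]
  rw [← Finset.sum_smul, gen_orth, one_smul]

/-- Job V4. Proof: `pfl_of_eig` for the columns of `pfl M f` (`M_mul_pfl`). -/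
theorem pfl_idem (M : E →+* Matrix κ κ ℚ_[ℓ]) (f : E →+* ℂ_[ℓ]) : pfl M f * pfl M f = pfl M f := by
  ext i j
  have h1 := pfl_of_eig M f (fun k => pfl M f k j) (fun e => by
    funext k
    exact congrFun (congrFun (M_mul_pfl M f e) k) j)
  exact congrFun h1 i

theorem Qe_mul (f : E →+* ℂ_[ℓ]) (e : E) (w : ℂ_[ℓ] ⊗[ℚ_[ℓ]] V) : (ι e).baseChange ℂ_[ℓ] (Qe ι f w) = f e • Qe ι f w := by
  have h1 := gen_mul (((Module.End.baseChangeHom ℚ_[ℓ] ℂ_[ℓ] V : Module.End ℚ_[ℓ] V →+* Module.End ℂ_[ℓ] (ℂ_[ℓ] ⊗[ℚ_[ℓ]] V))).comp ι) f e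
  exact LinearMap.congr_fun h1 w

/-- Job V4. The eigenspace is the range of `Qe`, in which `Qe` is the identity. Proof: from `M_mul_pfl`, `pfl_of_eig`, `Qe_matrix`. -/
theorem mem_eig_iff (f : E →+* ℂ_[ℓ]) (w : ℂ_[ℓ] ⊗[ℚ_[ℓ]] V) : w ∈ eig ι f ↔ Qe ι f w = w := by
  constructor
  · intro hw
    unfold Qe
    rw [LinearMap.sum_apply]
    have h1 : ∀ i, (f (W.eps' E i) • (ι (W.eps E i)).baseChange ℂ_[ℓ]) w = (f (W.eps' E i) * f (W.eps E i)) • w := by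
      intro i
      rw [LinearMap.smul_apply, hw, smul_smul]
    simp only [h1]
    rw [← Finset.sum_smul, gen_orth, one_smul]
  · intro hw e
    rw [← hw]
    exact Qe_mul f e w

end Pool.Agent.Lib.MP_021685_ag.NF
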