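import Pool.Agent.Lib.MP_021685_ag.UT.V4

/-!
# Coordinates of a Tate module: multiplicities
-/

set_option autoImplicit false
set_option linter.unusedSectionVars false

namespace Pool.Agent.Lib.MP_021685_ag.NF

open Matrix Function Module TensorProduct Pool.Agent.Lib.MP_802513_ag Pad

variable {K : Type*} [Field K] {ℓ : ℕ} [Fact ℓ.Prime] {V : Type*} [AddCommGroup V] [Module ℚ_[ℓ] V] {κ : Type*} [Fintype κ] [DecidableEq κ]
  {E : Type*} [CommRing E] [Algebra ℚ E] [Module.Finite ℚ E] [IsReduced E]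
  (b : Basis κ ℚ_[ℓ] V) {ρ : Field.absoluteGaloisGroup K →* Module.End ℚ_[ℓ] V} {ι : E →+* Module.End ℚ_[ℓ] V}

/-- trace of the product of two commuting idempotents -/
private theorem V5_gen {F W κ : Type*} [Field F] [AddCommGroup W] [Module F W] [Fintype κ] [DecidableEq κ] (c : Basis κ F W)
    (P Q : Module.End F W) (S : Submodule F W) (hP : P * P = P) (hQ : Q * Q = Q) (hPQ : P * Q = Q * P)
    (hS : ∀ w, w ∈ S ↔ Q w = w) :
    (LinearMap.toMatrixAlgEquiv c (P * Q)).trace = (finrank F (LinearMap.range P ⊓ S : Submodule F W) : F) := by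
  have hproj : LinearMap.IsProj (LinearMap.range P ⊓ S : Submodule F W) (P * Q) := by
    constructor
    · intro x
      refine Submodule.mem_inf.mpr ⟨LinearMap.mem_range.mpr ⟨Q x, rfl⟩, ?_⟩
      rw [hS, hPQ, Module.End.mul_apply, ← Module.End.mul_apply Q Q, hQ]
    · intro x hx
      obtain ⟨hx1, hx2⟩ := Submodule.mem_inf.mp hx
      rw [hS] at hx2
      obtain ⟨y, hy⟩ := LinearMap.mem_range.mp hx1
      rw [Module.End.mul_apply, hx2, ← hy, ← Module.End.mul_apply P P, hP]
  have hfin : Module.Finite F W := Module.Finite.of_basis c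
  have htr : LinearMap.trace F W (P * Q) = (finrank F (LinearMap.range P ⊓ S : Submodule F W) : F) :=
    hproj.trace
  rw [← htr, LinearMap.trace_eq_matrix_trace F c]
  rfl

/-- Job V5. The multiplicity as a trace.

Proof. `P` commutes with `(ι e).baseChange`, so with `Qe ι f`, which is idempotent with range `eig ι f` (`mem_eig_iff`, `pfl_idem`, `Qe_matrix`). So `P * Qe ι f` is idempotent and its range is `range P ⊓ eig ι f`; the trace of an idempotent is the rank of its range (`LinearMap.IsProj.trace` or `LinearMap.IsIdempotentElem` lemmas), and the trace of the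
matrix `Pm b P * pfl (Mm b ι) f` is the trace of `P * Qe ι f` (`LinearMap.trace_eq_matrix_trace`). -/
theorem Pm_mult {P : Module.End ℂ_[ℓ] (ℂ_[ℓ] ⊗[ℚ_[ℓ]] V)} (hP : P * P = P) (hc : ∀ e, Pm b P * mc (Mm b ι e) = mc (Mm b ι e) * Pm b P) (f : E →+* ℂ_[ℓ]) :
    (Pm b P * pfl (Mm b ι) f).trace = (finrank ℂ_[ℓ] (LinearMap.range P ⊓ eig ι f : Submodule ℂ_[ℓ] (ℂ_[ℓ] ⊗[ℚ_[ℓ]] V)) : ℂ_[ℓ]) := by
  have hinj : Function.Injective (LinearMap.toMatrixAlgEquiv (b.baseChange ℂ_[ℓ])) :=
    (LinearMap.toMatrixAlgEquiv (b.baseChange ℂ_[ℓ])).injective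
  have hQ : Qe ι f * Qe ι f = Qe ι f := by
    apply hinj
    rw [map_mul, Qe_matrix b f, pfl_idem]
  have hPm : Pm b P = LinearMap.toMatrixAlgEquiv (b.baseChange ℂ_[ℓ]) P := rfl
  have hPQ : P * Qe ι f = Qe ι f * P := by
    apply hinj
    rw [map_mul, map_mul, Qe_matrix b f, ← hPm]
    unfold pfl
    rw [Finset.mul_sum, Finset.sum_mul]
    refine Finset.sum_congr rfl fun i _ => ?_
    rw [mul_smul_comm, smul_mul_assoc, hc]
  have h := V5_gen (b.baseChange ℂ_[ℓ]) P (Qe ι f) (eig ι f) hP hQ hPQ (mem_eig_iff f)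
  rw [map_mul, Qe_matrix b f, ← hPm] at h
  exact h

end Pool.Agent.Lib.MP_021685_ag.NF
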