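import Pool.Agent.Lib.MP_021685_ag.UT.V4

/-!
# Coordinates of a Tate module: determinants
-/

set_option autoImplicit false
set_option linter.unusedSectionVars false

namespace Pool.Agent.Lib.MP_021685_ag.NF

open Matrix Function Module TensorProduct Pool.Agent.Lib.MP_802513_ag Pad

variable {K : Type*} [Field K] {ℓ : ℕ} [Fact ℓ.Prime] {V : Type*} [AddCommGroup V] [Module ℚ_[ℓ] V] {κ : Type*} [Fintype κ] [DecidableEq κ]
  {E : Type*} [CommRing E] [Algebra ℚ E] [Module.Finite ℚ E] [IsReduced E]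
  (b : Basis κ ℚ_[ℓ] V) {ρ : Field.absoluteGaloisGroup K →* Module.End ℚ_[ℓ] V} {ι : E →+* Module.End ℚ_[ℓ] V}

/-- the determinant on the range of an idempotent -/
private theorem det_restrict_idem {C W : Type*} [Field C] [AddCommGroup W] [Module C W] [Module.Finite C W] (g Q : Module.End C W)
    (N : Submodule C W) (hN : ∀ w, w ∈ N ↔ Q w = w) (hQ : ∀ w, Q w ∈ N) (h : ∀ w ∈ N, g w ∈ N) :
    LinearMap.det (g.restrict h) = LinearMap.det (1 + (g - 1) * Q) := by
  have he : N ≤ N.comap (1 + (g - 1) * Q) := by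
    intro w hw
    rw [Submodule.mem_comap]
    have : (1 + (g - 1) * Q) w = w + (g (Q w) - Q w) := rfl
    rw [this]
    exact N.add_mem hw (N.sub_mem (h _ (hQ w)) (hQ w))
  have h1 := LinearMap.det_eq_det_mul_det N (1 + (g - 1) * Q) he
  have h2 : (1 + (g - 1) * Q).restrict he = g.restrict h := by
    apply LinearMap.ext
    intro w
    apply Subtype.ext
    have hw : Q (w : W) = w := (hN w).1 w.2
    show (w : W) + (g (Q w) - Q w) = g w
    rw [hw]
    abel
  have h3 : N.mapQ N (1 + (g - 1) * Q) he = LinearMap.id := by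
    apply Submodule.linearMap_qext
    apply LinearMap.ext
    intro w
    show N.mapQ N (1 + (g - 1) * Q) he (Submodule.Quotient.mk w) = Submodule.Quotient.mk w
    rw [Submodule.mapQ_apply, Submodule.Quotient.eq]
    have : (1 + (g - 1) * Q) w - w = g (Q w) - Q w := by
      show w + (g (Q w) - Q w) - w = _
      abel
    rw [this]
    exact N.sub_mem (h _ (hQ w)) (hQ w)
  rw [h1, h2, h3, LinearMap.det_id, mul_one]

private theorem det_restrict_matrix {C W : Type*} [Field C] [AddCommGroup W] [Module C W] (B : Basis κ C W) (g Q : Module.End C W)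
    (N : Submodule C W) (hN : ∀ w, w ∈ N ↔ Q w = w) (hQ : ∀ w, Q w ∈ N) (h : ∀ w ∈ N, g w ∈ N) :
    LinearMap.det (g.restrict h) = (1 + (LinearMap.toMatrixAlgEquiv B g - 1) * LinearMap.toMatrixAlgEquiv B Q).det := by
  have : Module.Finite C W := Module.Finite.of_basis B
  rw [det_restrict_idem g Q N hN hQ h]
  have h1 : LinearMap.det (1 + (g - 1) * Q) = (LinearMap.toMatrixAlgEquiv B (1 + (g - 1) * Q)).det :=
    (LinearMap.det_toMatrix B _).symm
  rw [h1, _root_.map_add, _root_.map_mul, _root_.map_sub, _root_.map_one]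

/-- Job V6. The determinant on an eigenspace.

Proof. Let `g' = g.baseChange ℂ_[ℓ]`, `Q = Qe ι f`, commuting idempotent (`g' Q = Q g'` since `g` commutes with `E`); `eig ι f = range Q`. On `range Q ⊕ ker Q` the endomorphism `1 + (g' - 1) Q` is `g'` on the first summand and `1` on the second, so its determinant is that of `g'` restricted to `range Q`: conjugate with
`Submodule.prodEquivOfIsCompl` (`LinearMap.det_conj`), `LinearMap.det_prodMap`. The matrix of `1 + (g' - 1) Q` is `1 + (mc (toMatrix g) - 1) * pfl (Mm b ι) f` (`Qe_matrix`), `LinearMap.det_toMatrix`-like lemmas. -/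
theorem eigDet_eq (g : Module.End ℚ_[ℓ] V) (hg : ∀ e, g * ι e = ι e * g) (f : E →+* ℂ_[ℓ]) :
    eigDet ι f g = (1 + (mc (LinearMap.toMatrixAlgEquiv b g) - 1) * pfl (Mm b ι) f).det := by
  classical
  have : Module.Finite ℚ_[ℓ] V := Module.Finite.of_basis b
  have hst : ∀ w ∈ eig ι f, g.baseChange ℂ_[ℓ] w ∈ eig ι f := eig_stable hg
  unfold eigDet
  rw [dif_pos hst]
  -- the idempotent
  have hidem : Qe ι f * Qe ι f = Qe ι f := by
    apply (LinearMap.toMatrixAlgEquiv (b.baseChange ℂ_[ℓ])).injective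
    rw [map_mul, Qe_matrix, pfl_idem]
  have hidem' : ∀ w, Qe ι f (Qe ι f w) = Qe ι f w := fun w => by
    have h1 := congrArg (fun T : Module.End ℂ_[ℓ] (ℂ_[ℓ] ⊗[ℚ_[ℓ]] V) => T w) hidem
    exact h1
  have hmem : ∀ w, w ∈ eig ι f ↔ Qe ι f w = w := mem_eig_iff f
  have hQ : ∀ w, Qe ι f w ∈ eig ι f := fun w => (hmem _).2 (hidem' w)
  have key := det_restrict_matrix (b.baseChange ℂ_[ℓ]) (g.baseChange ℂ_[ℓ] : Module.End ℂ_[ℓ] (ℂ_[ℓ] ⊗[ℚ_[ℓ]] V)) (Qe ι f) (eig ι f) hmem hQ hst
  rw [key]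
  have hgm : LinearMap.toMatrixAlgEquiv (b.baseChange ℂ_[ℓ]) (g.baseChange ℂ_[ℓ]) = mc (LinearMap.toMatrixAlgEquiv b g) := by
    ext i j
    simp only [mc, LinearMap.toMatrixAlgEquiv_apply, Matrix.map_apply, Basis.baseChange_apply, LinearMap.baseChange_tmul,
      Basis.baseChange_repr_tmul]
    exact (Algebra.algebraMap_eq_smul_one _).symm
  rw [hgm, Qe_matrix]

end Pool.Agent.Lib.MP_021685_ag.NF
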