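import Pool.Agent.Lib.MP_021685_ag.UT.V1
import Pool.Agent.Lib.MP_021685_ag.UT.BData

/-!
# Tensors of alternating forms
-/

set_option autoImplicit false
set_option linter.unusedSectionVars false

namespace Pool.Agent.Lib.MP_021685_ag.NF

open Matrix Function Module TensorProduct Pool.Agent.Lib.MP_802513_ag Pad

variable {K : Type*} [Field K] {ℓ : ℕ} [Fact ℓ.Prime] {V : Type*} [AddCommGroup V] [Module ℚ_[ℓ] V] {κ : Type*} [Fintype κ] [DecidableEq κ]
  {E : Type*} [CommRing E]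
  (b : Basis κ ℚ_[ℓ] V) {ρ : Field.absoluteGaloisGroup K →* Module.End ℚ_[ℓ] V} {ι : E →+* Module.End ℚ_[ℓ] V}

/-- Job V7. Proof: `AlternatingMap.map_swap`. -/
theorem Tm_alt {n m : ℕ} (η : (Fin n → V) [⋀^Fin m]→ₗ[ℚ_[ℓ]] ℚ_[ℓ]) (s t : Fin m) (hst : s ≠ t) (j : Fin m → Fin n × κ) :
    Tm b η (j ∘ Equiv.swap s t) = - Tm b η j := by
  unfold Tm
  exact η.map_swap (fun s => Pi.single (j s).1 (b (j s).2)) hst

/-- Job V7. Evaluation. Proof: `v s = ∑ y : Fin n × κ, b.repr (v s y.1) y.2 • Pi.single y.1 (b y.2)`; `MultilinearMap.map_sum`, `MultilinearMap.map_smul_univ`. -/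
theorem Tm_eval {n m : ℕ} (η : (Fin n → V) [⋀^Fin m]→ₗ[ℚ_[ℓ]] ℚ_[ℓ]) (v : Fin m → Fin n → V) :
    η v = ∑ j : Fin m → Fin n × κ, Tm b η j * ∏ s, b.repr (v s (j s).1) (j s).2 := by
  have h1 : v = fun s => ∑ y : Fin n × κ, b.repr (v s y.1) y.2 • (Pi.single y.1 (b y.2) : Fin n → V) := by
    funext s
    rw [Fintype.sum_prod_type]
    funext a
    rw [Finset.sum_apply]
    simp only [Finset.sum_apply, Pi.smul_apply]
    rw [Finset.sum_eq_single a]
    · simp only [Pi.single_eq_same]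
      exact (b.sum_repr (v s a)).symm
    · intro a' _ ha'
      refine Finset.sum_eq_zero fun k _ => ?_
      rw [Pi.single_eq_of_ne (Ne.symm ha'), smul_zero]
    · intro h
      exact absurd (Finset.mem_univ a) h
  have h2 : η v = η.toMultilinearMap (fun s => ∑ y : Fin n × κ, b.repr (v s y.1) y.2 • (Pi.single y.1 (b y.2) : Fin n → V)) := by
    rw [← h1]
    rfl
  rw [h2, MultilinearMap.map_sum]
  refine Finset.sum_congr rfl fun j _ => ?_
  rw [MultilinearMap.map_smul_univ, smul_eq_mul, mul_comm]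
  rfl

/-- Job V7. Proof: `ρ γ` maps `Pi.single a (b l)` to `∑ k, Rm b ρ γ k l • Pi.single a (b k)` (componentwise action on `V ^ n`); `MultilinearMap.map_sum`, `MultilinearMap.map_smul_univ`. -/
theorem Tm_gT {n m i : ℕ} (η : (Fin n → V) [⋀^Fin m]→ₗ[ℚ_[ℓ]] ℚ_[ℓ]) (γ : Field.absoluteGaloisGroup K)
    (h : ∀ x : Fin m → Fin n → V, η (fun s a => ρ γ (x s a)) = chi K ℓ γ ^ i * η x) (j : Fin m → Fin n × κ) :
    gT (Rm b ρ γ) (Tm b η) j = chi K ℓ γ ^ i * Tm b η j := by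
  unfold gT
  have h1 := h (fun s => Pi.single (j s).1 (b (j s).2))
  change _ = chi K ℓ γ ^ i * η (fun s => Pi.single (j s).1 (b (j s).2))
  rw [← h1]
  have h2 : (fun s a => ρ γ ((Pi.single (j s).1 (b (j s).2) : Fin n → V) a)) =
      fun s => ∑ k : κ, Rm b ρ γ k (j s).2 • (Pi.single (j s).1 (b k) : Fin n → V) := by
    funext s a
    rw [Finset.sum_apply]
    by_cases ha : a = (j s).1
    · subst ha
      simp only [Pi.smul_apply, Pi.single_eq_same]
      exact Rm_basis b γ (j s).2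
    · simp only [Pi.smul_apply, Pi.single_eq_of_ne ha, smul_zero, Finset.sum_const_zero, map_zero]
  rw [h2]
  have h3 : η (fun s => ∑ k : κ, Rm b ρ γ k (j s).2 • (Pi.single (j s).1 (b k) : Fin n → V)) =
      η.toMultilinearMap (fun s => ∑ k : κ, Rm b ρ γ k (j s).2 • (Pi.single (j s).1 (b k) : Fin n → V)) := rfl
  rw [h3, MultilinearMap.map_sum]
  refine Finset.sum_congr rfl fun k _ => ?_
  rw [MultilinearMap.map_smul_univ, smul_eq_mul, mul_comm]
  rfl

end Pool.Agent.Lib.MP_021685_ag.NF
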