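import Pool.Agent.Lib.MP_021685_ag.UT.V7

/-!
# From the tensor to the form
-/

set_option autoImplicit false
set_option linter.unusedSectionVars false

namespace Pool.Agent.Lib.MP_021685_ag.NF

open Matrix Function Module TensorProduct Pool.Agent.Lib.MP_802513_ag Pad

variable {K : Type*} [Field K] {ℓ : ℕ} [Fact ℓ.Prime] {V : Type*} [AddCommGroup V] [Module ℚ_[ℓ] V] {κ : Type*} [Fintype κ] [DecidableEq κ]
  {E : Type*} [CommRing E]
  (b : Basis κ ℚ_[ℓ] V) {ρ : Field.absoluteGaloisGroup K →* Module.End ℚ_[ℓ] V} {ι : E →+* Module.End ℚ_[ℓ] V}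

/-- `Fin i × Fin 2 ≃ Fin (2 * i)` through `pairIdx`. -/
private noncomputable def V9_pairEquiv (i : ℕ) : Fin i × Fin 2 ≃ Fin (2 * i) :=
  Equiv.ofBijective (fun p => pairIdx p.1 p.2)
    ⟨fun p q h => by
      obtain ⟨h1, h2⟩ := pairIdx_injective h
      exact Prod.ext h1 h2,
    fun k => by
      obtain ⟨j, ε, h⟩ := exists_pairIdx k
      exact ⟨(j, ε), h⟩⟩

private theorem V9_pairEquiv_apply {i : ℕ} (p : Fin i × Fin 2) :
    V9_pairEquiv i p = pairIdx p.1 p.2 := rfl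

private theorem V9_prod_pairIdx {i : ℕ} {M : Type*} [CommMonoid M] (f : Fin (2 * i) → M) :
    ∏ k, f k = ∏ j : Fin i, (f (pairIdx j 0) * f (pairIdx j 1)) := by
  rw [← (V9_pairEquiv i).prod_comp f, Fintype.prod_prod_type]
  refine Finset.prod_congr rfl fun j _ => ?_
  rw [Fin.prod_univ_two]
  rfl

private theorem V9_sum_pairs {I R : Type*} [Fintype I] [DecidableEq I] [CommSemiring R] {i : ℕ}
    (e : Equiv.Perm (Fin (2 * i))) (H : Fin i → I → I → R) :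
    ∑ j : Fin (2 * i) → I, ∏ r, H r (j (e (pairIdx r 0))) (j (e (pairIdx r 1))) =
      ∏ r, ∑ p, ∑ q, H r p q := by
  classical
  have h1 : ∏ r, ∑ p, ∑ q, H r p q = ∑ z : Fin i → I × I, ∏ r, H r (z r).1 (z r).2 := by
    have h2 : ∀ r, ∑ p, ∑ q, H r p q = ∑ z : I × I, H r z.1 z.2 := by
      intro r; rw [Fintype.sum_prod_type]
    simp only [h2]
    rw [Finset.prod_univ_sum, Fintype.piFinset_univ]
  rw [h1]
  refine Fintype.sum_bijective (fun (j : Fin (2 * i) → I) (r : Fin i) =>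
    (j (e (pairIdx r 0)), j (e (pairIdx r 1)))) ⟨?_, ?_⟩ _ _ fun j => rfl
  · intro j j' h
    funext s
    obtain ⟨r, ε, h2⟩ := exists_pairIdx (e.symm s)
    have h3 : s = e (pairIdx r ε) := by rw [h2, Equiv.apply_symm_apply]
    have h4 := congrFun h r
    simp only [Prod.mk.injEq] at h4
    rw [h3]
    fin_cases ε
    · exact h4.1
    · exact h4.2
  · intro z
    refine ⟨fun s => if ((V9_pairEquiv i).symm (e.symm s)).2 = 0 then
      (z ((V9_pairEquiv i).symm (e.symm s)).1).1 else (z ((V9_pairEquiv i).symm (e.symm s)).1).2, ?_⟩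
    funext r
    have h5 : ∀ ε : Fin 2, (V9_pairEquiv i).symm (e.symm (e (pairIdx r ε))) = (r, ε) := by
      intro ε
      rw [Equiv.symm_apply_apply, ← V9_pairEquiv_apply (r, ε), Equiv.symm_apply_apply]
    simp only [h5]
    simp

private theorem V9_pair {n : ℕ} (e : E) (ψ : V →ₗ[ℚ_[ℓ]] V →ₗ[ℚ_[ℓ]] ℚ_[ℓ]) (a a' : Fin n) (u w : Fin n → V) :
    ∑ y : Fin n × κ, ∑ z : Fin n × κ, UT.prT ((Mm b ι e)ᵀ * Gm b ψ) a a' y z *
      (b.repr (u y.1) y.2 * b.repr (w z.1) z.2) = ψ (ι e (u a)) (w a') := by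
  have h1 : ∀ y : Fin n × κ, ∑ z : Fin n × κ, UT.prT ((Mm b ι e)ᵀ * Gm b ψ) a a' y z *
      (b.repr (u y.1) y.2 * b.repr (w z.1) z.2) =
      if y.1 = a then ∑ l, ((Mm b ι e)ᵀ * Gm b ψ) y.2 l * (b.repr (u y.1) y.2 * b.repr (w a') l) else 0 := by
    intro y
    rw [Fintype.sum_prod_type, Finset.sum_eq_single a']
    · by_cases hy : y.1 = a
      · rw [if_pos hy]
        refine Finset.sum_congr rfl fun l _ => ?_
        unfold UT.prT
        rw [if_pos ⟨hy, rfl⟩]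
      · rw [if_neg hy]
        refine Finset.sum_eq_zero fun l _ => ?_
        unfold UT.prT
        rw [if_neg (fun h => hy h.1), zero_mul]
    · intro a'' _ hne
      refine Finset.sum_eq_zero fun l _ => ?_
      unfold UT.prT
      rw [if_neg (fun h => hne h.2), zero_mul]
    · intro h
      exact absurd (Finset.mem_univ _) h
  simp only [h1]
  rw [Fintype.sum_prod_type, Finset.sum_eq_single a]
  · simp only [if_true]
    rw [Gm_repr b ψ (ι e (u a)) (w a'), Mm_repr b e (u a)]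
    have h2 : (Mm b ι e *ᵥ (b.repr (u a) : κ → ℚ_[ℓ])) ⬝ᵥ (Gm b ψ *ᵥ (b.repr (w a') : κ → ℚ_[ℓ])) =
        (b.repr (u a) : κ → ℚ_[ℓ]) ⬝ᵥ (((Mm b ι e)ᵀ * Gm b ψ) *ᵥ (b.repr (w a') : κ → ℚ_[ℓ])) := by
      rw [← Matrix.mulVec_mulVec, Matrix.dotProduct_mulVec (b.repr (u a) : κ → ℚ_[ℓ]), Matrix.vecMul_transpose]
    rw [h2]
    simp only [dotProduct, Matrix.mulVec]
    refine Finset.sum_congr rfl fun k _ => ?_
    rw [Finset.mul_sum]
    refine Finset.sum_congr rfl fun l _ => ?_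
    ring
  · intro a'' _ hne
    refine Finset.sum_eq_zero fun k _ => ?_
    rw [if_neg hne]
  · intro h
    exact absurd (Finset.mem_univ _) h

/-- Job V9. From the tensor to the form.

Proof. `Tm_eval`, insert `hc`, exchange the sums; the sum over `j` of the product over the slots splits as a product over the pairs `x.1 (pairIdx t 0)`, `x.1 (pairIdx t 1)` (reindex the slots with `x.1` and with `(t, ε) ↦ pairIdx t ε`; `Finset.prod_univ_sum` and `Fintype.piFinset_univ`; compare `sum_pairs`, `prod_pairIndex` in `Pool.Agent.Lib.MP_802513_ag`),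
and `∑ y z, prT ((Mm b ι e)ᵀ * Gm b ψ) a a' y z * (b.repr (u y.1) y.2 * b.repr (w z.1) z.2) = ψ (ι e (u a)) (w a')` (`Gm_repr`, `Mm_repr`). -/
theorem eval_of_tensor {n i : ℕ} {I : Type*} [Fintype I] (e : I → E) (ψ : V →ₗ[ℚ_[ℓ]] V →ₗ[ℚ_[ℓ]] ℚ_[ℓ])
    (η : (Fin n → V) [⋀^Fin (2 * i)]→ₗ[ℚ_[ℓ]] ℚ_[ℓ]) (c : Equiv.Perm (Fin (2 * i)) × (Fin i → I × Fin n × Fin n) → ℚ_[ℓ])
    (hc : ∀ j, Tm b η j = ∑ x, c x * ∏ t, UT.prT ((Mm b ι (e (x.2 t).1))ᵀ * Gm b ψ) (x.2 t).2.1 (x.2 t).2.2 (j (x.1 (pairIdx t 0))) (j (x.1 (pairIdx t 1))))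
    (v : Fin (2 * i) → Fin n → V) :
    η v = ∑ x, c x * ∏ t, ψ (ι (e (x.2 t).1) (v (x.1 (pairIdx t 0)) (x.2 t).2.1)) (v (x.1 (pairIdx t 1)) (x.2 t).2.2) := by
  rw [Tm_eval b η v]
  simp only [hc, Finset.sum_mul]
  rw [Finset.sum_comm]
  refine Finset.sum_congr rfl fun x _ => ?_
  have h1 : ∀ j : Fin (2 * i) → Fin n × κ,
      c x * (∏ t, UT.prT ((Mm b ι (e (x.2 t).1))ᵀ * Gm b ψ) (x.2 t).2.1 (x.2 t).2.2
        (j (x.1 (pairIdx t 0))) (j (x.1 (pairIdx t 1)))) * ∏ s, b.repr (v s (j s).1) (j s).2 =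
      c x * ∏ t, (UT.prT ((Mm b ι (e (x.2 t).1))ᵀ * Gm b ψ) (x.2 t).2.1 (x.2 t).2.2
        (j (x.1 (pairIdx t 0))) (j (x.1 (pairIdx t 1))) *
        (b.repr (v (x.1 (pairIdx t 0)) (j (x.1 (pairIdx t 0))).1) (j (x.1 (pairIdx t 0))).2 *
          b.repr (v (x.1 (pairIdx t 1)) (j (x.1 (pairIdx t 1))).1) (j (x.1 (pairIdx t 1))).2)) := by
    intro j
    rw [mul_assoc]
    congr 1
    rw [← Equiv.prod_comp x.1 (fun s => b.repr (v s (j s).1) (j s).2), V9_prod_pairIdx,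
      ← Finset.prod_mul_distrib]
  simp only [h1]
  rw [← Finset.mul_sum]
  congr 1
  have h2 := V9_sum_pairs x.1 (fun t (y z : Fin n × κ) =>
    UT.prT ((Mm b ι (e (x.2 t).1))ᵀ * Gm b ψ) (x.2 t).2.1 (x.2 t).2.2 y z *
      (b.repr (v (x.1 (pairIdx t 0)) y.1) y.2 * b.repr (v (x.1 (pairIdx t 1)) z.1) z.2))
  rw [h2]
  refine Finset.prod_congr rfl fun t _ => ?_
  exact V9_pair b (e (x.2 t).1) ψ (x.2 t).2.1 (x.2 t).2.2 (v (x.1 (pairIdx t 0))) (v (x.1 (pairIdx t 1)))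

end Pool.Agent.Lib.MP_021685_ag.NF
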