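import Pool.Agent.Lib.MP_021685_ag.UT.QM
import Pool.Agent.Lib.MP_021685_ag.UT.V2
import Pool.Agent.Lib.MP_021685_ag.UT.V3
import Pool.Agent.Lib.MP_021685_ag.UT.V5
import Pool.Agent.Lib.MP_021685_ag.UT.V6
import Pool.Agent.Lib.MP_021685_ag.UT.V8
import Pool.Agent.Lib.MP_021685_ag.UT.V9

/-!
# The main theorem on Tate classes
-/

set_option autoImplicit false
set_option linter.unusedSectionVars false

namespace Pool.Agent.Lib.MP_021685_ag.NF

open Matrix Function Module TensorProduct Pool.Agent.Lib.MP_802513_ag Pad UT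

variable {K : Type*} [Field K] [NumberField K] {ℓ : ℕ} [Fact ℓ.Prime] {V : Type*} [AddCommGroup V] [Module ℚ_[ℓ] V] [Module.Finite ℚ_[ℓ] V]
  {E : Type*} [CommRing E] [Algebra ℚ E] [Module.Finite ℚ E] [IsReduced E]

theorem main {ρ : Field.absoluteGaloisGroup K →* Module.End ℚ_[ℓ] V} {ι : E →+* Module.End ℚ_[ℓ] V} {ros : E →+* E}
    {r : (E →+* AlgebraicClosure K) → ℕ} (h : IsTateModule ρ ι ros r) (hC : HasCoprimeSignature ros r) (hS : HasSeparatedSignature ros r)
    {n i : ℕ} (hN : HasNondegenerateSignature ros r n i) (ω : (Fin n → V) [⋀^Fin (2 * i)]→ₗ[ℚ_[ℓ]] ℚ_[ℓ]) (hω : IsTateClass ρ n i ω) :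
    IsGeneratedByDivisors ρ n i ω := by
  classical
  let b : Basis (Fin (finrank ℚ_[ℓ] V)) ℚ_[ℓ] V := Module.finBasis ℚ_[ℓ] V
  obtain ⟨ψ, hψ1, hψ2, hψ3, hψ4⟩ := h.pairing
  choose P hP using h.hodgeTate
  let D0 : PData0 K ℓ (Fin (finrank ℚ_[ℓ] V)) E :=
    { R := Rm b ρ
      M := Mm b ι
      G := Gm b ψ
      ros := ros
      r := r
      P := fun j => Pm b (P j)
      cont := Rm_cont b h.cont
      inj := Mm_inj b h.inj
      comm := Rm_comm b h.comm
      G_skew := Gm_skew b hψ1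
      G_det := Gm_det b hψ2
      G_eq := Gm_eq b hψ3
      ros_spec := Gm_ros b hψ4
      ss := fun U hU => Rm_ss b U (h.semisimple U hU)
      falt := fun U hU => Rm_falt b U (h.faltings U hU)
      P_idem := fun j => Pm_idem b (hP j).idem
      P_weight := fun j => Pm_weight b (hP j) }
  let D : PData K ℓ (Fin (finrank ℚ_[ℓ] V)) E :=
    { D0 with
      P_mult := fun j φ => by
        have h1 := Pm_mult b (hP j).idem (P_comm D0 j) (j.comp φ)
        rw [(hP j).mult φ] at h1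
        exact h1
      det := fun f g hfg => by
        obtain ⟨U, hU, hdet⟩ := h.det f g hfg
        refine ⟨U, hU, fun γ hγ => ?_⟩
        have h1 := hdet γ hγ
        rw [eigDet_eq b (ρ γ) (h.comm γ) f, eigDet_eq b (ρ γ) (h.comm γ) g] at h1
        exact h1 }
  obtain ⟨U₀, hU₀, hT⟩ := hω
  obtain ⟨c, hc⟩ := matrix_main D (n := n) (i := i) hC hS hN (Tm b ω) (fun s t hst j => Tm_alt b ω s t hst j) hU₀
    (fun γ hγ j => Tm_gT b ω γ (hT γ hγ) j)
  have h1 := eval_of_tensor b (ι := ι) (W.eps E) ψ ω c hc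
  have h2 := mem_span_of_products ψ (fun l => ι (W.eps E l)) ω c h1
  refine Submodule.span_mono ?_ h2
  rintro _ ⟨y, rfl⟩
  exact ⟨fun t => divF ψ (ι (W.eps E (y t).1)) (y t).2.1 (y t).2.2, fun t => divF_tate hψ3 (fun γ => h.comm γ _) _ _, rfl⟩

end Pool.Agent.Lib.MP_021685_ag.NF
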